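import Mathlib

namespace Pool.Agent.H13.Bis

open Set Function

theorem le_of_nat {s t c : ℝ} (h : ∀ n : ℕ, n * s ≤ n * t + c) : s ≤ t := by
  by_contra hc
  push Not at hc
  obtain ⟨n, hn⟩ := exists_nat_gt (c / (s - t))
  rw [div_lt_iff₀ (by linarith)] at hn
  have := h n
  nlinarith

theorem std {L : Type} [AddCommMonoid L] [LinearOrder L] [IsOrderedCancelAddMonoid L]
    (h0 : ∀ x : L, 0 ≤ x) (b : L) (hb : 0 < b) (A : L →+ L) (hA : Monotone A)
    (hAb : A b ≤ b) :
    ∃ φ : L → ℝ, φ 0 = 0 ∧ φ b = 1 ∧ (∀ x y, y ≤ b → x ≤ y → φ x ≤ φ y) ∧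
      (∀ x y, x ≤ b → y ≤ b → φ (x + y) = φ x + φ y) ∧ ∀ x, x ≤ b → φ (A x) = φ x * φ (A b) := by
  let S : L → Set ℝ := fun x => {q | ∃ m n : ℕ, 0 < n ∧ n • x ≤ m • b ∧ q = m / n}
  let φ : L → ℝ := fun x => sInf (S x)
  let Bd : L → Prop := fun x => ∃ N : ℕ, x ≤ N • b
  have hbdd : ∀ x, BddBelow (S x) := fun x => ⟨0, by rintro _ ⟨m, n, -, -, rfl⟩; positivity⟩
  have hne : ∀ x, Bd x → (S x).Nonempty := fun x ⟨N, hN⟩ => ⟨_, N, 1, one_pos, by simpa using hN, rfl⟩
  have hcanc : ∀ m n : ℕ, m • b ≤ n • b → m ≤ n := fun m n h =>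
    (nsmul_le_nsmul_iff_left hb).1 h
  have P1 : ∀ x (m n : ℕ), n • x ≤ m • b → n * φ x ≤ m := by
    intro x m n h
    rcases Nat.eq_zero_or_pos n with rfl | hn
    · simp
    · have := csInf_le (hbdd x) ⟨m, n, hn, h, rfl⟩
      have hn' : (0 : ℝ) < n := by exact_mod_cast hn
      rw [le_div_iff₀ hn'] at this
      simpa [mul_comm] using this
  have P2 : ∀ x, Bd x → ∀ (m n : ℕ), m • b ≤ n • x → m ≤ n * φ x := by
    intro x hx m n h
    rcases Nat.eq_zero_or_pos n with rfl | hn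
    · have : m ≤ 0 := hcanc m 0 (by simpa using h)
      simpa using this
    · have hn' : (0 : ℝ) < n := by exact_mod_cast hn
      rw [mul_comm, ← div_le_iff₀ hn']
      refine le_csInf (hne x hx) ?_
      rintro _ ⟨m', n', hn2, h2, rfl⟩
      have hn2' : (0 : ℝ) < n' := by exact_mod_cast hn2
      rw [div_le_div_iff₀ hn' hn2']
      have : m * n' ≤ m' * n := by
        apply hcanc
        calc (m * n') • b = n' • (m • b) := by rw [mul_nsmul]
          _ ≤ n' • (n • x) := nsmul_le_nsmul_right h _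
          _ = n • (n' • x) := by rw [← mul_nsmul, ← mul_nsmul, mul_comm]
          _ ≤ n • (m' • b) := nsmul_le_nsmul_right h2 _
          _ = (m' * n) • b := by rw [mul_nsmul]
      exact_mod_cast this
  have hnn : ∀ x, Bd x → 0 ≤ φ x := fun x hx => by simpa using P2 x hx 0 1 (by simpa using h0 x)
  have U : ∀ x, Bd x → ∀ n : ℕ, ∃ m : ℕ, (m : ℝ) ≤ n * φ x + 1 ∧ n • x ≤ m • b := by
    intro x hx n
    have h1 : 0 ≤ (n : ℝ) * φ x := mul_nonneg (Nat.cast_nonneg _) (hnn x hx)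
    refine ⟨⌊n * φ x⌋₊ + 1, by push_cast; linarith [Nat.floor_le h1], ?_⟩
    by_contra hc
    have := P2 x hx _ _ (not_le.1 hc).le
    push_cast at this
    linarith [Nat.lt_floor_add_one ((n : ℝ) * φ x)]
  have D : ∀ x, Bd x → ∀ n : ℕ, ∃ m : ℕ, n * φ x ≤ (m : ℝ) + 2 ∧ m • b ≤ n • x := by
    intro x hx n
    have h1 : 0 ≤ (n : ℝ) * φ x := mul_nonneg (Nat.cast_nonneg _) (hnn x hx)
    have h2 := Nat.lt_floor_add_one ((n : ℝ) * φ x)
    have h3 := Nat.floor_le h1
    rcases h : ⌊(n : ℝ) * φ x⌋₊ with _ | k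
    · rw [h] at h2
      exact ⟨0, by simp at h2 ⊢; linarith, by simpa using h0 _⟩
    · rw [h] at h2 h3
      push_cast at h2 h3
      refine ⟨k, by linarith, ?_⟩
      by_contra hc
      have := P1 x _ _ (not_le.1 hc).le
      linarith
  have Badd : ∀ x y, Bd x → Bd y → Bd (x + y) := fun x y ⟨N, hN⟩ ⟨M, hM⟩ =>
    ⟨N + M, by rw [add_nsmul]; exact add_le_add hN hM⟩
  have Bsm : ∀ x (n : ℕ), Bd x → Bd (n • x) := fun x n ⟨N, hN⟩ =>
    ⟨N * n, by rw [mul_nsmul]; exact nsmul_le_nsmul_right hN _⟩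
  have Ble : ∀ x, x ≤ b → Bd x := fun x hx => ⟨1, by simpa using hx⟩
  have add : ∀ x y, Bd x → Bd y → φ (x + y) = φ x + φ y := by
    intro x y hx hy
    apply le_antisymm
    · refine le_of_nat (c := 2) fun n => ?_
      obtain ⟨m, h1, h2⟩ := U x hx n
      obtain ⟨k, h3, h4⟩ := U y hy n
      have := P1 (x + y) (m + k) n (by rw [nsmul_add, add_nsmul]; exact add_le_add h2 h4)
      push_cast at this
      linarith
    · refine le_of_nat (c := 4) fun n => ?_
      obtain ⟨m, h1, h2⟩ := D x hx n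
      obtain ⟨k, h3, h4⟩ := D y hy n
      have := P2 (x + y) (Badd x y hx hy) (m + k) n
        (by rw [nsmul_add, add_nsmul]; exact add_le_add h2 h4)
      push_cast at this
      linarith
  have z : φ 0 = 0 := by
    have := add 0 0 (Ble 0 hb.le) (Ble 0 hb.le)
    rw [add_zero] at this
    linarith
  have sm : ∀ x, Bd x → ∀ n : ℕ, φ (n • x) = n * φ x := by
    intro x hx n
    induction n with
    | zero => simpa using z
    | succ n ih => rw [succ_nsmul, add _ _ (Bsm x n hx) hx, ih]; push_cast; ring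
  have mono : ∀ x y, Bd y → x ≤ y → φ x ≤ φ y := by
    intro x y hy hxy
    refine csInf_le_csInf (hbdd x) (hne y hy) ?_
    rintro _ ⟨m, n, h1, h2, rfl⟩
    exact ⟨m, n, h1, (nsmul_le_nsmul_right hxy n).trans h2, rfl⟩
  have hb1 : φ b = 1 := by
    have h1 := P1 b 1 1 le_rfl
    have h2 := P2 b (Ble b le_rfl) 1 1 le_rfl
    simp at h1 h2
    linarith
  refine ⟨φ, z, hb1, fun x y hy => mono x y (Ble y hy), fun x y hx hy => add x y (Ble x hx) (Ble y hy),
    fun x hx => ?_⟩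
  have BA : Bd (A x) := Ble _ ((hA hx).trans hAb)
  have BAb : Bd (A b) := Ble _ hAb
  have hc := hnn _ BAb
  apply le_antisymm
  · refine le_of_nat (c := φ (A b)) fun n => ?_
    obtain ⟨m, h1, h2⟩ := U x (Ble x hx) n
    have h3 := hA h2
    rw [map_nsmul, map_nsmul] at h3
    have h4 := mono _ _ (Bsm _ m BAb) h3
    rw [sm _ BA, sm _ BAb] at h4
    nlinarith
  · refine le_of_nat (c := 2 * φ (A b)) fun n => ?_
    obtain ⟨m, h1, h2⟩ := D x (Ble x hx) n
    have h3 := hA h2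
    rw [map_nsmul, map_nsmul] at h3
    have h4 := mono _ _ (Bsm _ n BA) h3
    rw [sm _ BA, sm _ BAb] at h4
    nlinarith

structure Hyp (J : Type) [LinearOrder J] where
  F : J → J → J
  a : J
  refl : ∀ x, F x x = x
  med : ∀ x y u v, F (F x y) (F u v) = F (F x u) (F y v)
  m1 : ∀ x, StrictMono (F x)
  m2 : ∀ y, StrictMono fun x => F x y
  bot : ∀ x, a ≤ x

namespace Hyp

variable {J : Type} [LinearOrder J] (h : Hyp J)

def A (x : J) : J := h.F x h.a
def B (x : J) : J := h.F h.a x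
def T (x : J) : J := h.A (h.B x)
def M (x y : J) : J := h.F (h.B x) (h.A y)

theorem A_F (x y : J) : h.A (h.F x y) = h.F (h.A x) (h.A y) := by
  unfold A; rw [h.med x h.a y h.a, h.refl]
theorem B_F (x y : J) : h.B (h.F x y) = h.F (h.B x) (h.B y) := by
  unfold B; rw [h.med h.a x h.a y, h.refl]
theorem A_a : h.A h.a = h.a := h.refl _
theorem B_a : h.B h.a = h.a := h.refl _
theorem AB (x : J) : h.A (h.B x) = h.B (h.A x) := by
  have := h.A_F h.a x
  rw [A_a] at this
  exact this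
theorem T_F (x y : J) : h.T (h.F x y) = h.F (h.T x) (h.T y) := by
  unfold T; rw [B_F, A_F]
theorem T_mono : StrictMono h.T := fun _ _ hxy => h.m2 h.a (h.m1 h.a hxy)
theorem A_mono : StrictMono h.A := h.m2 h.a
theorem M_comm (x y : J) : h.M x y = h.M y x := h.med _ _ _ _
theorem M_a (x : J) : h.M x h.a = h.T x := by unfold M; rw [A_a]; rfl
theorem A_M (x y : J) : h.A (h.M x y) = h.M (h.A x) (h.A y) := by
  unfold M; rw [A_F, AB]
theorem B_M (x y : J) : h.B (h.M x y) = h.M (h.B x) (h.B y) := by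
  unfold M; rw [B_F, AB]
theorem T_M (x y : J) : h.T (h.M x y) = h.M (h.T x) (h.T y) := by
  unfold T; rw [B_M, A_M]
theorem T_A (x : J) : h.T (h.A x) = h.A (h.T x) := by unfold T; rw [← AB]
theorem M_med (x y u v : J) : h.M (h.M x y) (h.M u v) = h.M (h.M x u) (h.M y v) := by
  unfold M; rw [B_F, A_F, B_F, A_F, h.med, AB, AB]
theorem M_assoc (x y z : J) : h.M (h.M x y) (h.T z) = h.M (h.T x) (h.M y z) := by
  rw [← M_a, ← M_a, h.M_comm z, M_med]
theorem M_mono (y : J) : StrictMono fun x => h.M x y := fun _ _ hxy => h.m2 _ (h.m1 h.a hxy)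
theorem M_AB (x y : J) : h.M (h.A x) (h.B y) = h.T (h.F x y) := by
  rw [T_F]; unfold M T; rw [← AB]
theorem Tn_M (n : ℕ) (x y : J) : h.T^[n] (h.M x y) = h.M (h.T^[n] x) (h.T^[n] y) := by
  induction n with
  | zero => rfl
  | succ n ih => simp only [iterate_succ_apply', ih, T_M]
theorem Tn_A (n : ℕ) (x : J) : h.T^[n] (h.A x) = h.A (h.T^[n] x) := by
  induction n with
  | zero => rfl
  | succ n ih => simp only [iterate_succ_apply', ih, T_A]
theorem Tn_a (n : ℕ) : h.T^[n] h.a = h.a := by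
  apply iterate_fixed; unfold T; rw [B_a, A_a]
theorem Tn_Tn (m n : ℕ) (x : J) : h.T^[m] (h.T^[n] x) = h.T^[m + n] x := (iterate_add_apply _ _ _ _).symm
theorem Tn_le (n : ℕ) {x y : J} : h.T^[n] x ≤ h.T^[n] y ↔ x ≤ y := (h.T_mono.iterate n).le_iff_le

def Pre (_h : Hyp J) : Type := ℕ × J

instance : Preorder h.Pre where
  le p q := h.T^[q.1] p.2 ≤ h.T^[p.1] q.2
  le_refl _ := le_rfl
  le_trans p q r h1 h2 := by
    rw [← h.Tn_le q.1]
    rw [← h.Tn_le r.1] at h1
    rw [← h.Tn_le p.1] at h2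
    simp only [Tn_Tn] at *
    rw [add_comm q.1 r.1, add_comm q.1 p.1]
    rw [add_comm p.1 r.1] at h2
    exact h1.trans h2

theorem le_def (p q : h.Pre) : p ≤ q ↔ h.T^[q.1] p.2 ≤ h.T^[p.1] q.2 := Iff.rfl

def add (p q : h.Pre) : h.Pre := (p.1 + q.1 + 1, h.M (h.T^[q.1] p.2) (h.T^[p.1] q.2))

theorem add_comm' (p q : h.Pre) : h.add p q = h.add q p := by
  unfold add; rw [M_comm, add_comm p.1]

theorem add_le (p q r : h.Pre) : h.add p r ≤ h.add q r ↔ p ≤ q := by
  simp only [le_def, add, Tn_M, Tn_Tn]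
  rw [show q.1 + r.1 + 1 + p.1 = p.1 + r.1 + 1 + q.1 by ring, (h.M_mono _).le_iff_le,
    show q.1 + r.1 + 1 + r.1 = (r.1 + 1 + r.1) + q.1 by ring,
    show p.1 + r.1 + 1 + r.1 = (r.1 + 1 + r.1) + p.1 by ring, ← Tn_Tn, ← Tn_Tn h (r.1 + 1 + r.1), Tn_le]

instance : Std.Total (fun p q : h.Pre => p ≤ q) := ⟨fun _ _ => le_total _ _⟩

def L : Type := Antisymmetrization h.Pre (· ≤ ·)

noncomputable instance : LinearOrder h.L := by
  classical
  exact inferInstanceAs (LinearOrder (Antisymmetrization h.Pre (· ≤ ·)))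

def cl (p : h.Pre) : h.L := toAntisymmetrization (· ≤ ·) p

theorem mk_le (p q : h.Pre) : h.cl p ≤ h.cl q ↔ p ≤ q := Iff.rfl

theorem ind {P : h.L → Prop} (H : ∀ p, P (h.cl p)) (x : h.L) : P x := Quotient.inductionOn x H

theorem mk_eq {p q : h.Pre} (H : h.T^[q.1] p.2 = h.T^[p.1] q.2) : h.cl p = h.cl q :=
  le_antisymm ((h.mk_le _ _).2 H.le) ((h.mk_le _ _).2 H.ge)

instance : Add h.L := ⟨Quotient.map₂ h.add (by
  rintro p p' ⟨h1, h2⟩ q q' ⟨h3, h4⟩
  constructor
  · refine ((h.add_le _ _ _).2 h1).trans ?_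
    rw [add_comm', add_comm' h p']; exact (h.add_le _ _ _).2 h3
  · refine ((h.add_le _ _ _).2 h2).trans ?_
    rw [add_comm', add_comm' h p]; exact (h.add_le _ _ _).2 h4)⟩

instance : Zero h.L := ⟨h.cl (0, h.a)⟩

theorem mk_add (p q : h.Pre) : h.cl p + h.cl q = h.cl (h.add p q) := rfl
theorem zero_def : (0 : h.L) = h.cl (0, h.a) := rfl

theorem L_comm (x y : h.L) : x + y = y + x := by
  induction x using h.ind; induction y using h.ind
  rw [mk_add, mk_add, add_comm']

theorem L_zero (x : h.L) : x + 0 = x := by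
  induction x using h.ind
  rw [zero_def, mk_add]
  apply h.mk_eq
  simp only [add, Tn_a, M_a, iterate_zero, id, add_zero, iterate_succ_apply]

instance : AddCommMonoid h.L where
  add_assoc x y z := by
    induction x using h.ind with | _ p => ?_
    induction y using h.ind with | _ q => ?_
    induction z using h.ind with | _ r => ?_
    simp only [mk_add]
    congr 1
    simp only [add]
    refine Prod.ext (by simp only; ring) ?_
    simp only [iterate_succ_apply', Tn_M, Tn_Tn, M_assoc]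
    congr 3 <;> ring
  zero_add x := by rw [L_comm, L_zero]
  add_zero := h.L_zero
  add_comm := h.L_comm
  nsmul := nsmulRec

instance : IsOrderedCancelAddMonoid h.L where
  add_le_add_left x y hxy z := by
    induction x using h.ind; induction y using h.ind; induction z using h.ind
    exact (h.add_le _ _ _).2 hxy
  le_of_add_le_add_left z x y hxy := by
    rw [add_comm z, add_comm z] at hxy
    induction x using h.ind; induction y using h.ind; induction z using h.ind
    exact (h.add_le _ _ _).1 hxy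

theorem A_le {p q : h.Pre} (H : p ≤ q) : h.cl (p.1, h.A p.2) ≤ h.cl (q.1, h.A q.2) := by
  rw [mk_le, le_def] at *
  simp only [Tn_A]
  exact h.A_mono.monotone H

def LA : h.L →+ h.L where
  toFun := Quotient.lift (fun p : h.Pre => h.cl (p.1, h.A p.2))
    (fun _ _ H => le_antisymm (h.A_le H.1) (h.A_le H.2))
  map_zero' := by
    show h.cl (0, h.A h.a) = _
    rw [A_a]; rfl
  map_add' x y := by
    induction x using h.ind with | _ p => ?_
    induction y using h.ind with | _ q => ?_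
    show h.cl (_, h.A (h.add p q).2) = h.cl (h.add (p.1, h.A p.2) (q.1, h.A q.2))
    simp only [add, A_M, Tn_A]

theorem exists_phi (b : J) (hb : h.a < b) (top : ∀ x, x ≤ b) :
    ∃ (φ : J → ℝ) (p : ℝ), Monotone φ ∧ φ h.a = 0 ∧ φ b = 1 ∧
      ∀ x y, φ (h.F x y) = p * φ x + (1 - p) * φ y := by
  have hle : ∀ x y : J, h.cl (0, x) ≤ h.cl (0, y) ↔ x ≤ y := fun x y => Iff.rfl
  obtain ⟨φ, h1, h2, h3, h4, h5⟩ := std (L := h.L) (fun x => by
      induction x using h.ind with | _ p => ?_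
      rw [zero_def, mk_le, le_def]
      simp only [Tn_a]; exact h.bot _) (h.cl (0, b))
    (lt_of_not_ge fun H => absurd ((hle _ _).1 H) (not_le.2 hb)) h.LA
    (fun x y hxy => by
      induction x using h.ind; induction y using h.ind
      exact h.A_le hxy) ((hle _ _).2 (top _))
  have e : ∀ x y, h.cl (0, h.F x y) = h.cl (0, h.A x) + h.cl (0, h.B y) := by
    intro x y
    rw [mk_add]
    apply h.mk_eq
    simp [add, M_AB]
  have e2 : ∀ x y, φ (h.cl (0, h.F x y)) = φ (h.cl (0, h.A x)) + φ (h.cl (0, h.B y)) := by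
    intro x y
    rw [e, h4 _ _ ((hle _ _).2 (top _)) ((hle _ _).2 (top _))]
  have e3 : ∀ x, φ (h.cl (0, h.A x)) = φ (h.cl (0, x)) * φ (h.LA (h.cl (0, b))) :=
    fun x => h5 (h.cl (0, x)) ((hle _ _).2 (top _))
  refine ⟨fun x => φ (h.cl (0, x)), φ (h.LA (h.cl (0, b))),
    fun x y hxy => h3 _ _ ((hle _ _).2 (top _)) ((hle _ _).2 hxy), h1, h2, fun x y => ?_⟩
  have := e2 y y
  rw [h.refl, e3] at this
  show φ (h.cl (0, h.F x y)) = _
  rw [e2, e3]
  linarith

end Hyp

end Pool.Agent.H13.Bis
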