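import Pool.Agent.H13.Rams

namespace Pool.Agent.H13.Cube
open Finset Pool.Agent.H13.Rams

theorem sum_ins {α : Type} [DecidableEq α] {x : α} {s : Finset α} (h : x ∉ s) (n : ℕ)
    (f : Finset α → ℚ) : ∑ K ∈ powersetCard (n + 1) (insert x s), f K =
      ∑ K ∈ powersetCard (n + 1) s, f K + ∑ K ∈ powersetCard n s, f (insert x K) := by
  rw [powersetCard_succ_insert h, sum_union, sum_image]
  · intro a ha b hb e
    rw [← erase_insert fun hx => h ((mem_powersetCard.1 ha).1 hx), show insert x a = _ from e,
      erase_insert fun hx => h ((mem_powersetCard.1 hb).1 hx)]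
  · refine disjoint_left.2 fun K hK hK' => ?_
    obtain ⟨B, -, rfl⟩ := mem_image.1 hK'
    exact h ((mem_powersetCard.1 hK).1 (mem_insert_self _ _))

theorem swp {α β : Type} [DecidableEq α] (X : Finset α) (k : ℕ) (f : Finset α → β)
    (h : ∀ B ⊆ X, ∀ x ∈ X, ∀ y ∈ X, x ∉ B → y ∉ B → B.card = k → f (insert x B) = f (insert y B))
    (d : ℕ) : ∀ K ⊆ X, ∀ K' ⊆ X, K.card = k + 1 → K'.card = k + 1 → (K \ K').card = d →
      f K = f K' := by
  induction d with
  | zero =>
    intro K _ K' _ e e' hd
    rw [eq_of_subset_of_card_le (sdiff_eq_empty_iff_subset.1 (card_eq_zero.1 hd)) (by omega)]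
  | succ d ih =>
    intro K hK K' hK' e e' hd
    obtain ⟨x, hx⟩ := card_pos.1 (show 0 < (K \ K').card by omega)
    obtain ⟨y, hy⟩ := card_pos.1 (show 0 < (K' \ K).card by
      rw [← card_sdiff_comm (e.trans e'.symm)]; omega)
    rw [mem_sdiff] at hx hy
    have hc : (K.erase x).card = k := by rw [card_erase_of_mem hx.1]; omega
    have hy' : y ∉ K.erase x := fun h => hy.2 (mem_of_mem_erase h)
    rw [← insert_erase hx.1, h _ ((erase_subset _ _).trans hK) x (hK hx.1) y (hK' hy.1) (by simp)
      hy' hc]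
    refine ih _ (insert_subset (hK' hy.1) ((erase_subset _ _).trans hK)) _ hK'
      (by rw [card_insert_of_notMem hy', hc]) e' ?_
    rw [show insert y (K.erase x) \ K' = (K \ K').erase x by
        ext w; simp only [mem_sdiff, mem_insert, mem_erase]; clear ih h; grind,
      card_erase_of_mem (mem_sdiff.2 hx)]
    omega

theorem gott {α : Type} [DecidableEq α] (k : ℕ) : ∀ (l : ℕ) (X : Finset α) (f : Finset α → ℚ),
    k ≤ l → k + l ≤ X.card → (∀ L ⊆ X, L.card = l → ∑ K ∈ powersetCard k L, f K = 0) →
      ∀ K ⊆ X, K.card = k → f K = 0 := by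
  induction k with
  | zero =>
    intro l X f _ h2 h K _ hK
    obtain ⟨L, hL, e⟩ := exists_subset_card_eq (show l ≤ X.card by omega)
    simpa [card_eq_zero.1 hK] using h L hL e
  | succ k ih =>
    intro l X f h1 h2 h K hK e
    have hs := swp X k f (fun B hB x hx y hy hxB hyB hc => by
      by_cases hxy : y = x
      · rw [hxy]
      refine sub_eq_zero.1 (ih (l - 1) ((X.erase x).erase y)
        (fun B => f (insert x B) - f (insert y B)) (by omega) ?_ (fun L hL e => ?_) B (by grind) hc)
      · rw [card_erase_of_mem (mem_erase.2 ⟨hxy, hy⟩), card_erase_of_mem hx]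
        omega
      · have hxL : x ∉ L := by grind
        have hyL : y ∉ L := by grind
        have e1 := h (insert x L) (by grind) (by rw [card_insert_of_notMem hxL]; omega)
        have e2 := h (insert y L) (by grind) (by rw [card_insert_of_notMem hyL]; omega)
        rw [sum_ins hxL] at e1
        rw [sum_ins hyL] at e2
        rw [sum_sub_distrib]
        linarith)
    obtain ⟨L, hL, e'⟩ := exists_subset_card_eq (show l ≤ X.card by omega)
    have h3 := h L hL e'
    rw [sum_congr rfl fun K' hK' => hs _ K' ((mem_powersetCard.1 hK').1.trans hL) K hK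
      (mem_powersetCard.1 hK').2 e rfl, sum_const, card_powersetCard, e', nsmul_eq_mul] at h3
    exact (mul_eq_zero.1 h3).resolve_left (Nat.cast_ne_zero.2 (Nat.choose_pos h1).ne')

def Lf (x y : ℕ → ℕ) (p : ℕ) (ε : Finset ℕ) : Finset ℕ :=
  (range p).image fun j => if j ∈ ε then y j else x j

theorem cube (x y : ℕ → ℕ) {p d : ℕ} (hd : d < p) (hc : ∀ ε, (Lf x y p ε).card = p)
    (h : Finset ℕ → ℚ) : ∑ ε ∈ (range p).powerset,
      (-1) ^ ε.card * ∑ B ∈ powersetCard d (Lf x y p ε), h B = 0 := by
  have e : ∀ ε, powersetCard d (Lf x y p ε) =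
      (powersetCard d ((range p).image x ∪ (range p).image y)).filter (· ⊆ Lf x y p ε) := by
    intro ε
    ext B
    simp only [mem_filter, mem_powersetCard]
    refine ⟨fun h => ⟨⟨h.1.trans (image_subset_iff.2 fun j hj => ?_), h.2⟩, h.1⟩,
      fun h => ⟨h.2, h.1.2⟩⟩
    split_ifs
    · exact mem_union_right _ (mem_image_of_mem _ hj)
    · exact mem_union_left _ (mem_image_of_mem _ hj)
  simp only [e, sum_filter, mul_sum]
  rw [sum_comm]
  refine sum_eq_zero fun B hB => ?_
  obtain ⟨j, hj, hx, hy⟩ : ∃ j ∈ range p, x j ∉ B ∧ y j ∉ B := by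
    by_contra hn
    push Not at hn
    have := card_le_card (show Lf x y p ((range p).filter fun j => x j ∉ B) ⊆ B from
      image_subset_iff.2 fun j hj => by grind)
    rw [hc, (mem_powersetCard.1 hB).2] at this
    omega
  rw [← insert_erase hj, sum_powerset_insert (by simp), ← sum_add_distrib]
  refine sum_eq_zero fun ε hε => ?_
  have hj' : j ∉ ε := fun h => by simpa using mem_powerset.1 hε h
  have : B ⊆ Lf x y p (insert j ε) ↔ B ⊆ Lf x y p ε := by
    refine forall₂_congr fun b hb => ?_
    simp only [Lf, mem_image]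
    refine exists_congr fun i => and_congr_right fun _ => ?_
    grind
  rw [card_insert_of_notMem hj', pow_succ]
  simp only [this]
  ring

theorem down {C : Type} (m k : ℕ) (χ : Finset ℕ → C)
    (h : ∀ B z, insert (z + 1) B ⊆ range m → z ∉ B → z + 1 ∉ B → B.card + 1 = k →
      χ (insert z B) = χ (insert (z + 1) B)) (s : ℕ) :
    ∀ B ⊆ range m, B.card = k → ∑ x ∈ B, x = s → χ B = χ (range k) := by
  induction s using Nat.strong_induction_on with
  | _ s ih =>
  intro B hB e hs
  by_cases hz : ∃ z, z + 1 ∈ B ∧ z ∉ B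
  · obtain ⟨z, h1, h2⟩ := hz
    have h3 : z ∉ B.erase (z + 1) := fun h => h2 (mem_of_mem_erase h)
    have h4 := card_erase_add_one h1
    have h5 := add_sum_erase B (fun x => x) h1
    rw [← insert_erase h1, ← h _ z (by rwa [insert_erase h1]) h3 (by simp) (by omega)]
    refine ih _ ?_ _ ?_ (by rw [card_insert_of_notMem h3]; omega) rfl
    · rw [sum_insert h3]
      omega
    · have := mem_range.1 (hB h1)
      exact insert_subset (mem_range.2 (by omega)) ((erase_subset _ _).trans hB)
  · push Not at hz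
    refine congrArg χ (eq_of_subset_of_card_le (fun x hx => mem_range.2 ?_) (by simp [e]))
    have : range (x + 1) ⊆ B := fun y hy =>
      Nat.decreasingInduction (fun n _ => hz n) hx (Nat.lt_succ_iff.1 (mem_range.1 hy))
    simpa [e] using card_le_card this

theorem pick {L : Finset ℕ} {u v i k : ℕ} (h1 : rk L u ≤ i + 1) (h2 : i + 1 ≤ rk L v)
    (h3 : rk L u < rk L v) (hi : i ≤ k) (hk : k + 2 ≤ L.card) :
    ∃ w ∈ L, u ≤ w ∧ w < v ∧ ∃ B ⊆ L, w ∉ B ∧ B.card = k ∧ rk B w = i := by
  obtain ⟨w, hw, e⟩ := mem_image.1 (show max (rk L u) i ∈ L.image (rk L) by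
    rw [rk_image, mem_range]; omega)
  refine ⟨w, hw, not_lt.1 fun h => ?_, not_le.1 fun h => ?_, ?_⟩
  · have := rk_lt hw h
    omega
  · have := rk_mono L h
    omega
  have h4 := card_filter_add_card_filter_not (s := L) (· < w)
  rw [show L.filter (fun x => ¬x < w) = insert w (L.filter (w < ·)) by grind,
    card_insert_of_notMem (by simp)] at h4
  unfold rk at *
  obtain ⟨D, hD, eD⟩ := exists_subset_card_eq (show i ≤ (L.filter (· < w)).card by omega)
  obtain ⟨U, hU, eU⟩ := exists_subset_card_eq (show k - i ≤ (L.filter (w < ·)).card by omega)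
  refine ⟨D ∪ U, by grind, by grind, ?_, ?_⟩
  · rw [card_union_of_disjoint (disjoint_left.2 (by grind))]
    omega
  · rw [show (D ∪ U).filter (· < w) = D by grind, eD]

theorem core {κ C : Type} [DecidableEq κ] {k l m : ℕ} (hkl : k < l) (hm : 4 * l ≤ m)
    (χ : Finset κ → Finset ℕ → C)
    (hom : ∀ S ⊆ range m, ∀ f : ℕ → ℕ, StrictMonoOn f S → S.image f ⊆ range m → ∀ i i', ∀ B ⊆ S,
      ∀ B' ⊆ S, (χ i B = χ i' B' ↔ χ i (B.image f) = χ i' (B'.image f)))
    (bal : ∀ A : Finset κ, A.card ≤ k → ∀ L₀ ⊆ range m, A.card + L₀.card = l → ∃ g : C → ℚ,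
      ∑ A' ∈ A.powerset, ∑ B ∈ powersetCard (k - A'.card) L₀, g (χ A' B) = 1 ∧
      ∀ L ⊆ range m, A.card + L.card = l →
        ∑ A' ∈ A.powerset, ∑ B ∈ powersetCard (k - A'.card) L, g (χ A' B) ≠ 0 →
          ∀ B ⊆ L, A.card + B.card = k → ∃ A', ∃ B' ⊆ L₀, χ A B = χ A' B')
    (A : Finset κ) : ∀ B ⊆ range m, A.card + B.card = k → χ A B = χ A (range (k - A.card)) := by
  induction A using Finset.strongInduction with
  | _ A ih =>
  intro B0 hB0 e0
  refine down m _ (χ A) (fun B z hB h1 h2 e => ?_) _ B0 hB0 (by omega) rfl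
  clear hB0
  have Q : ∀ B z, insert (z + 1) B ⊆ range m → z ∉ B → z + 1 ∉ B →
      (χ A (insert z B) = χ A (insert (z + 1) B) ↔
        χ A ((range (B.card + 2)).erase (rk B z + 1)) =
          χ A ((range (B.card + 2)).erase (rk B z))) := by
    intro B z hB h1 h2
    have hS : insert z (insert (z + 1) B) ⊆ range m := insert_subset
      (mem_range.2 (by have := mem_range.1 (hB (mem_insert_self _ _)); omega)) hB
    have hc : (insert z (insert (z + 1) B)).card = B.card + 2 := by
      rw [card_insert_of_notMem (by simp [h1]), card_insert_of_notMem h2]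
    have r1 : rk (insert z (insert (z + 1) B)) z = rk B z := by
      simp [rk, filter_insert]
    have r2 : rk (insert z (insert (z + 1) B)) (z + 1) = rk B z + 1 := by
      unfold rk
      rw [← card_insert_of_notMem (a := z) (by simp)]
      congr 1
      ext w
      simp only [mem_filter, mem_insert]
      constructor
      · rintro ⟨h | h | h, h'⟩
        · exact .inl h
        · omega
        · exact .inr ⟨h, lt_of_le_of_ne (by omega) fun e => h1 (e ▸ h)⟩
      · rintro (h | ⟨h, h'⟩)
        · exact ⟨.inl h, by omega⟩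
        · exact ⟨.inr (.inr h), by omega⟩
    have a1 : insert z B = (insert z (insert (z + 1) B)).erase (z + 1) := by grind
    have a2 : insert (z + 1) B = (insert z (insert (z + 1) B)).erase z := by grind
    have m1 : z ∈ insert z (insert (z + 1) B) := by simp
    have m2 : z + 1 ∈ insert z (insert (z + 1) B) := by simp
    rw [a1, ← hc, ← r2, ← r1, ← rk_image]
    nth_rw 2 [a2]
    generalize insert z (insert (z + 1) B) = S at *
    have er : ∀ t ∈ S, (S.erase t).image (rk S) = (S.image (rk S)).erase (rk S t) := by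
      intro t ht
      have := (rk_sm S).injOn
      ext
      simp only [mem_image, mem_erase]
      exact ⟨fun ⟨a, ⟨h, h'⟩, e⟩ => ⟨fun e' => h (this h' ht (e.trans e')), a, h', e⟩,
        fun ⟨h, a, h', e⟩ => ⟨a, ⟨fun e' => h (by rw [← e, e']), h'⟩, e⟩⟩
    rw [← er _ m1, ← er _ m2]
    exact hom S hS _ (rk_sm S) (by
      rw [rk_image]; exact range_subset_range.2 (by simpa using card_le_card hS)) _ _ _
      (erase_subset _ _) _ (erase_subset _ _)
  by_contra hne
  rw [Q B z hB h1 h2] at hne
  have hi : rk B z ≤ B.card := card_filter_le _ _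
  generalize rk B z = i at *
  generalize B.card = k' at *
  clear hB h1 h2 B z
  obtain ⟨p, hp⟩ : ∃ p, A.card + p = l := ⟨l - A.card, by omega⟩
  let x : ℕ → ℕ := fun j => if j ≤ i then 2 * j else 2 * (p + j)
  let y : ℕ → ℕ := fun j => 2 * (i + 1 + j)
  have inj : ∀ ε : Finset ℕ, Set.InjOn (fun j => if j ∈ ε then y j else x j) (range p) := by
    intro ε a ha b hb
    simp only [coe_range, Set.mem_Iio, x, y] at *
    split_ifs <;> omega
  have hc : ∀ ε, (Lf x y p ε).card = p := fun ε => by
    rw [Lf, card_image_of_injOn (inj ε), card_range]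
  have hL : ∀ ε, ∀ w ∈ Lf x y p ε, w + 1 < m ∧ w % 2 = 0 := fun ε w hw => by
    obtain ⟨j, hj, rfl⟩ := mem_image.1 hw
    simp only [mem_range, x, y] at *
    split_ifs <;> omega
  have hR : ∀ ε, Lf x y p ε ⊆ range m := fun ε w hw => mem_range.2 (by have := hL ε w hw; omega)
  obtain ⟨g, g1, g2⟩ := bal A (by omega) _ (hR ∅) (by rw [hc, hp])
  have h0 : ∑ ε ∈ (range p).powerset, (-1) ^ ε.card * ∑ A' ∈ A.powerset,
      ∑ B ∈ powersetCard (k - A'.card) (Lf x y p ε), g (χ A' B) = 0 := by
    simp only [mul_sum A.powerset]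
    rw [sum_comm]
    refine sum_eq_zero fun A' hA' => ?_
    rcases (mem_powerset.1 hA').eq_or_ssubset with rfl | hs
    · exact cube x y (by omega) hc _
    · refine Eq.trans (sum_congr rfl fun ε _ => ?_) (cube x y (show 0 < p by omega) hc
        fun _ => p.choose (k - A'.card) * g (χ A' (range (k - A'.card))))
      have := card_le_card hs.subset
      rw [sum_congr rfl fun B hB => congrArg g (ih A' hs B ((mem_powersetCard.1 hB).1.trans (hR ε))
        (by have := (mem_powersetCard.1 hB).2; omega))]
      simp [hc]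
  obtain ⟨ε, hε, he, h3⟩ : ∃ ε ∈ (range p).powerset, ε ≠ ∅ ∧ ∑ A' ∈ A.powerset,
      ∑ B ∈ powersetCard (k - A'.card) (Lf x y p ε), g (χ A' B) ≠ 0 := by
    by_contra hn
    push Not at hn
    rw [sum_eq_single ∅ (fun ε h h' => by rw [hn ε h (nonempty_iff_ne_empty.2 h'), mul_zero]) (by simp), g1] at h0
    simp at h0
  obtain ⟨j, hj⟩ := nonempty_iff_ne_empty.2 he
  have hjp := mem_range.1 (mem_powerset.1 hε hj)
  obtain ⟨w, hw, w1, w2, B, hB, hwB, eB, rB⟩ := pick (L := Lf x y p ε) (u := 2 * i + 1)
    (v := 2 * (p + i + 1)) (i := i) (k := k') (by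
      refine (card_le_card (t := (range (i + 1)).image (2 * ·)) fun w hw => ?_).trans
        (card_image_le.trans (card_range _).le)
      rw [mem_filter] at hw
      have := hL ε w hw.1
      exact mem_image.2 ⟨w / 2, mem_range.2 (by omega), by omega⟩) (by
      have hs : range (i + 1) ⊆ range p := range_subset_range.2 (by omega)
      rw [← card_range (i + 1), ← card_image_of_injOn ((inj ε).mono (coe_subset.2 hs))]
      refine card_le_card (image_subset_iff.2 fun j hj => mem_filter.2
        ⟨mem_image_of_mem _ (hs hj), ?_⟩)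
      simp only [mem_range, x, y] at *
      split_ifs <;> omega) (by
      refine (rk_mono _ (show 2 * i + 1 ≤ y j by simp only [y]; omega)).trans_lt
        (rk_lt (mem_image.2 ⟨j, mem_range.2 hjp, if_pos hj⟩) (by simp only [y]; omega)))
    hi (by rw [hc]; omega)
  obtain ⟨A', B', hB', e'⟩ := g2 _ (hR ε) (by rw [hc, hp]) h3 (insert w B) (insert_subset hw hB)
    (by rw [card_insert_of_notMem hwB]; omega)
  have hwB' : w ∉ B' := fun h => by
    obtain ⟨j, hj, rfl⟩ := mem_image.1 (hB' h)
    simp only [notMem_empty, if_false, x] at *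
    split_ifs at w1 w2 <;> omega
  have ev : ∀ t ∈ insert w B ∪ B', t + 1 < m ∧ t % 2 = 0 := fun t ht =>
    (mem_union.1 ht).elim (fun h => hL ε t (insert_subset hw hB h)) fun h => hL ∅ t (hB' h)
  have evw := hL ε w hw
  have h4 := (hom (insert w B ∪ B') (fun t ht => mem_range.2 (by have := ev t ht; omega))
    (fun t => if t = w then w + 1 else t) (fun a ha b hb h => by
      have := ev a ha
      have := ev b hb
      simp only
      split_ifs <;> omega) (image_subset_iff.2 fun t ht => mem_range.2 (by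
      have := ev t ht
      split_ifs <;> omega)) A A' _ subset_union_left _ subset_union_right).1 e'
  have im : ∀ T : Finset ℕ, w ∉ T → T.image (fun t => if t = w then w + 1 else t) = T :=
    fun T hT => (image_congr fun t ht => if_neg (by rintro rfl; exact hT ht)).trans image_id
  rw [image_insert, if_pos rfl, im _ hwB, im _ hwB', ← e'] at h4
  refine hne (eB ▸ rB ▸ (Q B w (insert_subset (mem_range.2 evw.1) (hB.trans (hR ε))) hwB
    fun h => ?_).1 h4.symm)
  have := hL ε _ (hB h)
  omega

end Pool.Agent.H13.Cube
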