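import Mathlib

namespace Pool.Agent.H13.Cyc
open Finset Filter Topology

noncomputable section

section defs
variable {G : Type} [AddCommGroup G] [Fintype G] [DecidableEq G] (μ : G → ℝ)

/-- The convolution power `μ^{*t}`. -/
def cp : ℕ → G → ℝ
  | 0 => fun x => if x = 0 then 1 else 0
  | t + 1 => fun x => ∑ y, cp t y * μ (x - y)

/-- Total variation distance from `μ^{*t}` to the uniform law. -/
def tv (t : ℕ) : ℝ := 1 / 2 * ∑ x, |cp μ t x - 1 / Fintype.card G|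

/-- Total variation mixing time. -/
def Tmix (ε : ℝ) : ℕ := sInf {t | tv μ t ≤ ε}

/-- Total variation cutoff for a sequence of walks on `ZMod (n k)`. -/
def Cutoff (n : ℕ → ℕ) [∀ k, NeZero (n k)] (μ : ∀ k, ZMod (n k) → ℝ) : Prop :=
  ∀ ε : ℝ, 0 < ε → ε < 1 / 2 →
    Tendsto (fun k => (Tmix (μ k) ε : ℝ) / Tmix (μ k) (1 - ε)) atTop (𝓝 1)

def g (s : ℝ) (a : G) : ℝ := (if a = 0 then s else 0) + (1 - s) / Fintype.card G

theorem g_sum (s : ℝ) : ∑ a : G, g s a = 1 := by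
  simp [g, sum_add_distrib, mul_div_cancel₀]

theorem g_conv (s r : ℝ) (b : G) : ∑ a : G, g s a * g r (b - a) = g (s * r) b := by
  have h : ∑ a : G, g r (b - a) = 1 := ((Equiv.subLeft b).sum_comp (g r)).trans (g_sum r)
  simp only [g] at h ⊢
  simp only [add_mul, sum_add_distrib, ← mul_sum, h, ite_mul, zero_mul, sum_ite_eq', mem_univ,
    if_true, sub_zero]
  split_ifs <;> ring

theorem g_nn {s : ℝ} (h : 0 ≤ s) (h' : s ≤ 1) (a : G) : 0 ≤ g s a := by
  have := sub_nonneg.2 h'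
  unfold g
  positivity

theorem g_char (s : ℝ) (φ : AddChar G ℂ) [Decidable (φ = 0)] :
    ∑ a, (g s a : ℂ) * φ a = if φ = 0 then 1 else (s : ℂ) := by
  simp only [g, Complex.ofReal_add, add_mul, sum_add_distrib, ← mul_sum, φ.sum_eq_ite,
    apply_ite Complex.ofReal, ite_mul]
  split_ifs <;> simp

theorem g_off (s : ℝ) : ∑ a : G, g s a * (if a = 0 then 0 else 1) =
    (1 - s) * (1 - 1 / Fintype.card G) := by
  have h : ∀ a : G, g s a * (if a = 0 then 0 else 1) = g s a - if a = 0 then g s (0 : G) else 0 := by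
    intro a
    split_ifs with h <;> simp [h]
  simp only [h, sum_sub_distrib, g_sum, sum_ite_eq', mem_univ, if_true]
  simp only [g, if_true]
  ring

end defs

section core
variable {G ι : Type} [AddCommGroup G] [Fintype G] [DecidableEq G] [Fintype ι] [DecidableEq ι]
  {A : ι → Type} [∀ i, AddCommGroup (A i)] [∀ i, Fintype (A i)] [∀ i, DecidableEq (A i)]
  (e : G ≃+ ∀ i, A i)

theorem S {R : Type} [CommSemiring R] (f : ∀ i, A i → R) :
    ∑ x, ∏ i, f i (e x i) = ∏ i, ∑ a, f i a := by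
  rw [prod_univ_sum, Fintype.piFinset_univ]
  exact e.toEquiv.sum_comp fun y => ∏ i, f i (y i)

def nu (s : ℝ) (x : G) : ℝ := ∏ i, g s (e x i)

theorem nu_sum (s : ℝ) : ∑ x, nu e s x = 1 := by
  simp [nu, S e fun i => g s, g_sum]

theorem nu_conv (s r : ℝ) (x : G) : ∑ y, nu e s y * nu e r (x - y) = nu e (s * r) x := by
  simp only [nu, ← prod_mul_distrib, map_sub, Pi.sub_apply, ← g_conv s r]
  exact S e fun i a => g s a * g r (e x i - a)

theorem nu_zero (x : G) : nu e 0 x = 1 / Fintype.card G := by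
  simp [nu, g, Fintype.card_congr e.toEquiv]

theorem nu_one (x : G) : nu e 1 x = if x = 0 then 1 else 0 := by
  have : x = 0 ↔ ∀ i, e x i = 0 := e.map_eq_zero_iff.symm.trans funext_iff
  simp [nu, g, prod_ite_zero, this]

theorem nu_nn {s : ℝ} (h : 0 ≤ s) (h' : s ≤ 1) (x : G) : 0 ≤ nu e s x :=
  prod_nonneg fun _ _ => g_nn h h' _

theorem nu_char {s : ℝ} (h : 0 ≤ s) (h' : s ≤ 1) (ψ : AddChar G ℂ) (hψ : ψ ≠ 1) :
    ‖∑ x, (nu e s x : ℂ) * ψ x‖ ≤ s := by
  classical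
  let φ : ∀ i, AddChar (A i) ℂ := fun i =>
    ψ.compAddMonoidHom (e.symm.toAddMonoidHom.comp (AddMonoidHom.single A i))
  have h1 : ∀ x, ψ x = ∏ i, φ i (e x i) := fun x => by
    have : x = ∑ i, e.symm (Pi.single i (e x i)) := by
      rw [← map_sum, univ_sum_single, e.symm_apply_apply]
    conv_lhs => rw [this]
    exact map_sum ψ.toAddMonoidHom _ _
  obtain ⟨i, hi⟩ : ∃ i, φ i ≠ 0 := by
    by_contra! H
    exact hψ (by ext x; simp [h1, H])
  simp only [nu, h1, Complex.ofReal_prod, ← prod_mul_distrib]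
  rw [S e fun i a => (g s a : ℂ) * φ i a, norm_prod, ← mul_prod_erase _ _ (mem_univ i), g_char,
    if_neg hi, Complex.norm_real, Real.norm_of_nonneg h]
  refine mul_le_of_le_one_right h (prod_le_one (by simp) fun j _ => ?_)
  rw [g_char]
  split_ifs
  · simp
  · rwa [Complex.norm_real, Real.norm_of_nonneg h]

def mu (c : ℝ) (x : G) : ℝ := c * nu e (1 / 2) x + (1 - c) * nu e 0 x

theorem cp_mu (c : ℝ) (t : ℕ) (x : G) :
    cp (mu e c) t x = c ^ t * nu e ((1 / 2) ^ t) x + (1 - c ^ t) * nu e 0 x := by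
  induction t generalizing x with
  | zero => simp [cp, nu_one]
  | succ t ih =>
    simp only [cp, ih, mu, add_mul, mul_add, sum_add_distrib, mul_mul_mul_comm _ (nu e _ _),
      ← mul_sum, nu_conv, mul_zero, zero_mul, pow_succ]
    ring

theorem tv_mu {c : ℝ} (hc : 0 ≤ c) (t : ℕ) :
    tv (mu e c) t = c ^ t * (1 / 2 * ∑ x, |nu e ((1 / 2) ^ t) x - nu e 0 x|) := by
  simp only [tv, cp_mu, mul_sum]
  refine sum_congr rfl fun x _ => ?_
  rw [← nu_zero e x, mul_left_comm, ← abs_of_nonneg (pow_nonneg hc t), ← abs_mul,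
    abs_of_nonneg (pow_nonneg hc t)]
  congr 2
  ring

theorem tv_up {c : ℝ} (hc : 0 ≤ c) (t : ℕ) : tv (mu e c) t ≤ c ^ t := by
  rw [tv_mu e hc]
  refine mul_le_of_le_one_right (pow_nonneg hc t) ?_
  have := sum_le_sum (s := univ) fun x _ => (abs_sub _ _).trans_eq (congrArg₂ (· + ·)
    (abs_of_nonneg (nu_nn e (s := (1 / 2) ^ t) (by positivity) (pow_le_one₀ (by norm_num)
    (by norm_num)) x)) (abs_of_nonneg (nu_nn e le_rfl zero_le_one x)))
  rw [sum_add_distrib, nu_sum, nu_sum] at this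
  linarith

theorem nu_off (s : ℝ) : ∑ x, nu e s x * ∏ i, (if e x i = 0 then 0 else 1) =
    (1 - s) ^ Fintype.card ι * ∏ i, (1 - 1 / (Fintype.card (A i) : ℝ)) := by
  simp only [nu, ← prod_mul_distrib]
  rw [S e fun i a => g s a * if a = 0 then 0 else 1]
  simp only [g_off, prod_mul_distrib, prod_const, card_univ]

theorem tv_lo (s : ℝ) : (1 - (1 - s) ^ Fintype.card ι) *
    ∏ i, (1 - 1 / (Fintype.card (A i) : ℝ)) ≤ 1 / 2 * ∑ x, |nu e s x - nu e 0 x| := by
  have h1 := nu_off e s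
  have h2 := nu_off e 0
  have h3 : ∑ x, (nu e 0 x * ∏ i, (if e x i = 0 then 0 else 1) -
      nu e s x * ∏ i, (if e x i = 0 then 0 else 1) + (nu e s x - nu e 0 x) / 2) ≤
      ∑ x, |nu e s x - nu e 0 x| / 2 := sum_le_sum fun x _ => by
    have h4 := le_abs_self (nu e s x - nu e 0 x)
    have h5 := neg_abs_le (nu e s x - nu e 0 x)
    by_cases h : ∃ i, e x i = 0
    · obtain ⟨i, h⟩ := h
      rw [prod_eq_zero (f := fun i => if e x i = 0 then (0 : ℝ) else 1) (mem_univ i) (if_pos h)]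
      linarith
    · rw [prod_eq_one fun i _ => if_neg fun h' => h ⟨i, h'⟩]
      linarith
  simp only [sum_add_distrib, sum_sub_distrib, ← sum_div, nu_sum, h1, h2] at h3
  simp only [sub_zero, one_pow] at h3
  linarith

end core

theorem bern {s : ℝ} (h : 0 ≤ s) (h' : s ≤ 1) (m : ℕ) :
    1 - m * s ≤ (1 - s) ^ m ∧ (1 - s) ^ m * (1 + m * s) ≤ 1 := by
  refine ⟨by simpa [sub_eq_add_neg] using one_add_mul_le_pow (a := -s) (by linarith) m, ?_⟩
  refine (mul_le_mul_of_nonneg_left (one_add_mul_le_pow (by linarith) m)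
    (pow_nonneg (by linarith) m)).trans ?_
  rw [← mul_pow]
  exact pow_le_one₀ (by nlinarith) (by nlinarith)

theorem main (j : ℕ) (hj : 1 ≤ j) : ∃ (n : ℕ) (_ : NeZero n) (μ : ZMod n → ℝ), j + 1 ≤ n ∧
    (∀ x, 0 < μ x) ∧ ∑ x, μ x = 1 ∧ (∀ x, μ (-x) = μ x) ∧ (∀ a : ZMod n, a ≠ 0 →
      ‖∑ x, μ x * Complex.exp (2 * Real.pi * Complex.I * (a.val * x.val) / n)‖ ≤ 1 / 2) ∧
    j ≤ Tmix μ (1 / 2) ∧ 3 * j ≤ Tmix μ (1 / 4) ∧ 1 ≤ Tmix μ (3 / 4) ∧ Tmix μ (3 / 4) ≤ 2 * j := by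
  obtain ⟨m, hm⟩ : ∃ m, m = 9 * 2 ^ (3 * j) := ⟨_, rfl⟩
  have hjm : 3 * j < m := Nat.lt_two_pow_self.trans_le (by omega)
  let q : Fin m → ℕ := fun i => Nat.fermatNumber (10 * m + i)
  have hq : ∀ i, 10 * m ≤ q i := fun i =>
    le_self_add.trans (Nat.fermatNumber_strictMono.le_apply)
  have : ∀ i, NeZero (q i) := fun i => ⟨by have := hq i; omega⟩
  have : NeZero (∏ i, q i) := ⟨prod_ne_zero_iff.2 fun i _ => NeZero.ne _⟩
  let e := (ZMod.prodEquivPi q fun a b h =>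
    Nat.coprime_fermatNumber_fermatNumber (by simpa [Fin.ext_iff] using h)).toAddEquiv
  have hj' : (1 : ℝ) ≤ j := by exact_mod_cast hj
  have hm' : (0 : ℝ) < m := by exact_mod_cast (by omega : 0 < m)
  obtain ⟨θ, hθ⟩ : ∃ θ : ℝ, θ * (6 * j) = 1 := ⟨1 / (6 * j), by field_simp⟩
  have h0 : 0 < θ := by
    by_contra! h
    nlinarith
  have h1 : θ ≤ 1 := by nlinarith
  have up : ∀ t : ℕ, tv (mu e (1 - θ)) t * (1 + t * θ) ≤ 1 := fun t =>
    (mul_le_mul_of_nonneg_right (tv_up e (by linarith) t) (by positivity)).trans (bern h0.le h1 t).2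
  have lo : ∀ t : ℕ, t ≤ 3 * j → (1 - t * θ) * (4 / 5) ≤ tv (mu e (1 - θ)) t := fun t ht => by
    rw [tv_mu e (by linarith)]
    refine mul_le_mul (bern h0.le h1 t).1 (le_trans ?_ (tv_lo e _)) (by norm_num)
      (pow_nonneg (by linarith) t)
    have h2 := (bern (s := (1 / 2) ^ t) (by positivity)
      (pow_le_one₀ (by norm_num) (by norm_num)) m).2
    have h3 : (9 : ℝ) ≤ m * (1 / 2) ^ t := by
      rw [hm, one_div, inv_pow, ← div_eq_mul_inv, le_div_iff₀ (by positivity)]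
      push_cast
      gcongr
      norm_num
    have h4 : (0 : ℝ) ≤ (1 - (1 / 2) ^ t) ^ m :=
      pow_nonneg (sub_nonneg.2 (pow_le_one₀ (by norm_num) (by norm_num))) m
    have h6 : (1 : ℝ) / (10 * m) ≤ 1 := by
      rw [div_le_one (by positivity)]
      exact_mod_cast (by omega : 1 ≤ 10 * m)
    have h5 : (9 / 10 : ℝ) ≤ ∏ i, (1 - 1 / (Fintype.card (ZMod (q i)) : ℝ)) := by
      refine le_trans (le_trans (le_of_eq ?_) (bern (by positivity) h6 m).1) ?_
      · field_simp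
        norm_num
      refine le_trans (by simp) (prod_le_prod (f := fun _ => 1 - 1 / (10 * (m : ℝ)))
        (fun i _ => by linarith) fun i _ => ?_)
      rw [ZMod.card]
      gcongr
      exact_mod_cast hq i
    rw [Fintype.card_fin]
    nlinarith
  have ne : ∀ ε : ℝ, 1 / 4 ≤ ε → {t | tv (mu e (1 - θ)) t ≤ ε}.Nonempty := fun ε h =>
    ⟨18 * j, by
      have := up (18 * j)
      push_cast at this
      show tv _ _ ≤ ε
      nlinarith⟩
  have lw : ∀ (k : ℕ) (ε : ℝ), 1 / 4 ≤ ε → k ≤ 3 * j → ε < (1 - k * θ) * (4 / 5) →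
      k + 1 ≤ Tmix (mu e (1 - θ)) ε := fun k ε h hk h' => le_csInf (ne ε h) fun t ht => by
    by_contra! H
    have h2 : (t : ℝ) ≤ k := by exact_mod_cast (by omega : t ≤ k)
    have h3 := (lo t (by omega)).trans ht
    nlinarith
  refine ⟨_, this, mu e (1 - θ), ?_, fun x => ?_, ?_, fun x => ?_, fun a ha => ?_,
    le_self_add.trans (lw _ _ (by norm_num) (by omega) (by nlinarith)),
    le_self_add.trans (lw _ _ le_rfl le_rfl (by push_cast; nlinarith)),
    lw 0 _ (by norm_num) (by omega) (by norm_num), Nat.sInf_le ?_⟩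
  · have := hq ⟨0, by omega⟩
    exact le_trans (by omega) (Nat.le_of_dvd (NeZero.pos _) (dvd_prod_of_mem q (mem_univ ⟨0, _⟩)))
  · have h2 := nu_nn e (s := 1 / 2) (by norm_num) (by norm_num) x
    have h3 : 0 ≤ 1 - θ := by linarith
    rw [mu, nu_zero, sub_sub_cancel]
    positivity
  · simp [mu, sum_add_distrib, ← mul_sum, nu_sum]
  · simp [mu, nu, g]
  · have h2 := fun s h h' => nu_char e (s := s) h h' _ (ZMod.isPrimitive_stdAddChar _ ha)
    have h3 : ∀ x : ZMod (∏ i, q i), Complex.exp (2 * Real.pi * Complex.I * (a.val * x.val) /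
        (∏ i, q i : ℕ)) = (ZMod.stdAddChar.mulShift a) x := fun x => by
      simpa using (ZMod.stdAddChar_coe (N := ∏ i, q i) (a.val * x.val)).symm
    simp only [h3]
    simp only [mu, Complex.ofReal_add, Complex.ofReal_mul, add_mul, sum_add_distrib, mul_assoc,
      ← mul_sum]
    rw [norm_le_zero_iff.1 (h2 0 le_rfl zero_le_one), mul_zero, add_zero, norm_mul,
      Complex.norm_real, Real.norm_of_nonneg (by linarith)]
    nlinarith [h2 (1 / 2) (by norm_num) (by norm_num), norm_nonneg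
      (∑ x, (nu e (1 / 2) x : ℂ) * (ZMod.stdAddChar.mulShift a) x)]
  · have := up (2 * j)
    push_cast at this
    show tv _ _ ≤ (3 / 4 : ℝ)
    nlinarith

theorem seq : ∃ (n : ℕ → ℕ) (_ : ∀ k, NeZero (n k)) (μ : ∀ k, ZMod (n k) → ℝ),
    (∀ k, 2 ≤ n k) ∧ Tendsto n atTop atTop ∧
    (∀ k, (∀ x, 0 < μ k x) ∧ ∑ x, μ k x = 1 ∧ ∀ x, μ k (-x) = μ k x) ∧ (∀ k, ∀ a : ZMod (n k), a ≠ 0 →
      ‖∑ x, μ k x * Complex.exp (2 * Real.pi * Complex.I * (a.val * x.val) / n k)‖ ≤ 1 / 2) ∧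
    (∀ k, k + 1 ≤ Tmix (μ k) (1 / 2) ∧ k + 1 ≤ Tmix (μ k) (1 / 4)) ∧ ¬ Cutoff n μ := by
  choose n i μ h1 h2 h3 h4 h5 h6 h7 h8 h9 using fun k => main (k + 1) (by omega)
  refine ⟨n, i, μ, fun k => by have := h1 k; omega, tendsto_atTop_mono
    (fun k => by have := h1 k; show k ≤ _; omega) tendsto_id, fun k => ⟨h2 k, h3 k, h4 k⟩, h5,
    fun k => ⟨h6 k, by have := h7 k; omega⟩, fun h => ?_⟩
  have := ge_of_tendsto' (h (1 / 4) (by norm_num) (by norm_num)) (b := 3 / 2) fun k => by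
    have a : (1 : ℝ) ≤ Tmix (μ k) (3 / 4) := by exact_mod_cast h8 k
    have b : 3 * Tmix (μ k) (3 / 4) ≤ 2 * Tmix (μ k) (1 / 4) := by
      have := h7 k
      have := h9 k
      omega
    have c : 3 * (Tmix (μ k) (3 / 4) : ℝ) ≤ 2 * Tmix (μ k) (1 / 4) := by exact_mod_cast b
    rw [show (1 - 1 / 4 : ℝ) = 3 / 4 by norm_num, le_div_iff₀ (by linarith)]
    linarith
  norm_num at this

end
end Pool.Agent.H13.Cyc
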