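import Mathlib

namespace Pool.Agent.H13.Deg
open MeasureTheory Set

def Sm (n : ℕ) : Subalgebra ℝ ((Fin n → ℝ) → ℝ) where
  carrier := {g | ContDiff ℝ ⊤ g}
  mul_mem' := fun {f g} (a : ContDiff ℝ ⊤ f) (b : ContDiff ℝ ⊤ g) =>
    show ContDiff ℝ ⊤ _ from a.mul b
  add_mem' := fun {f g} (a : ContDiff ℝ ⊤ f) (b : ContDiff ℝ ⊤ g) =>
    show ContDiff ℝ ⊤ _ from a.add b
  algebraMap_mem' := fun _ => show ContDiff ℝ ⊤ _ from contDiff_const

theorem Sm.cd {n : ℕ} (g : Sm n) : ContDiff ℝ ⊤ g.1 := g.2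

theorem Sm.da {n : ℕ} (g : Sm n) (p) : DifferentiableAt ℝ g.1 p :=
  (Sm.cd g).differentiable (by simp) p

noncomputable def D {n : ℕ} (i : Fin n) : Derivation ℝ (Sm n) (Sm n) := Derivation.mk'
  { toFun := fun g => ⟨fun p => fderiv ℝ g.1 p (Pi.single i 1),
      show ContDiff ℝ ⊤ _ from ((Sm.cd g).fderiv_right le_top).clm_apply contDiff_const⟩
    map_add' := fun f g => Subtype.ext (funext fun p => by
      simp [fderiv_add (Sm.da f p) (Sm.da g p)])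
    map_smul' := fun c g => Subtype.ext (funext fun p => by
      simp [fderiv_const_smul (Sm.da g p)]) }
  fun f g => Subtype.ext (funext fun p => by simp [fderiv_mul (Sm.da f p) (Sm.da g p)])

theorem D_apply {n : ℕ} (i : Fin n) (g : Sm n) (p) :
    (D i g).1 p = fderiv ℝ g.1 p (Pi.single i 1) := rfl

theorem D_comm {n : ℕ} (i j : Fin n) (g : Sm n) : D i (D j g) = D j (D i g) := by
  have h : ∀ i j p, (D i (D j g)).1 p = fderiv ℝ (fderiv ℝ g.1) p (Pi.single i 1) (Pi.single j 1) :=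
    fun i j p => by
      rw [D_apply]
      change fderiv ℝ (fun p => fderiv ℝ g.1 p (Pi.single j 1)) p _ = _
      rw [fderiv_clm_apply (((Sm.cd g).fderiv_right (m := ⊤) le_top).differentiable (by simp) p)
        (differentiableAt_const _)]
      simp
  refine Subtype.ext (funext fun p => ?_)
  rw [h, h]
  exact (Sm.cd g).contDiffAt.isSymmSndFDerivAt (by simp) _ _

def tp {R : Type} [CommRing R] (a b c : Fin 3 → R) : R :=
  a 0 * (b 1 * c 2 - b 2 * c 1) - a 1 * (b 0 * c 2 - b 2 * c 0) + a 2 * (b 0 * c 1 - b 1 * c 0)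

theorem dv (F : Fin 3 → Sm 3) (W : Sm 3) (h : W ^ 2 * (F 0 ^ 2 + F 1 ^ 2 + F 2 ^ 2) = 1) :
    2 * (D 0 (tp F (D 1 ∘ F) (D 2 ∘ F) * W ^ 3) + D 1 (tp F (D 2 ∘ F) (D 0 ∘ F) * W ^ 3) +
      D 2 (tp F (D 0 ∘ F) (D 1 ∘ F) * W ^ 3)) = 0 := by
  have hW : ∀ i : Fin 3, 2 * D i W =
      -2 * W ^ 3 * (F 0 * D i (F 0) + F 1 * D i (F 1) + F 2 * D i (F 2)) := fun i => by
    have := congrArg (D i) h
    simp only [Derivation.leibniz, Derivation.leibniz_pow, map_add, Derivation.map_one_eq_zero,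
      smul_eq_mul, nsmul_eq_mul] at this
    push_cast at this
    linear_combination W * this - 2 * D i W * h
  have e0 := congrArg (fun t => 3 * W ^ 2 * tp F (D 1 ∘ F) (D 2 ∘ F) * t) (hW 0)
  have e1 := congrArg (fun t => 3 * W ^ 2 * tp F (D 2 ∘ F) (D 0 ∘ F) * t) (hW 1)
  have e2 := congrArg (fun t => 3 * W ^ 2 * tp F (D 0 ∘ F) (D 1 ∘ F) * t) (hW 2)
  have e3 := congrArg (fun t => 6 * W ^ 3 * tp (D 0 ∘ F) (D 1 ∘ F) (D 2 ∘ F) * t) h
  simp only [tp, Function.comp] at e0 e1 e2 e3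
  simp only [tp, Function.comp, Derivation.leibniz, Derivation.leibniz_pow, map_add, map_sub,
    smul_eq_mul, nsmul_eq_mul, D_comm 1 0, D_comm 2 0, D_comm 2 1]
  push_cast
  linear_combination e0 + e1 + e2 - e3

noncomputable def res (s : ℝ) : Sm 3 →+* Sm 2 where
  toFun g := ⟨fun x => g.1 (Fin.cons s x), (Sm.cd g).comp (contDiff_pi.2 fun i =>
    Fin.cases contDiff_const (fun j => contDiff_apply ℝ ℝ j) i)⟩
  map_one' := rfl
  map_mul' _ _ := rfl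
  map_zero' := rfl
  map_add' _ _ := rfl

theorem D_res (s : ℝ) (j : Fin 2) (g : Sm 3) : D j (res s g) = res s (D j.succ g) := by
  refine Subtype.ext (funext fun x => ?_)
  change fderiv ℝ (res s g).1 x _ = fderiv ℝ g.1 (Fin.cons s x) _
  rw [← (Sm.da _ _).lineDeriv_eq_fderiv, ← (Sm.da _ _).lineDeriv_eq_fderiv]
  unfold lineDeriv
  congr 1
  funext t
  refine congrArg g.1 (funext fun i => ?_)
  refine Fin.cases (by simp) (fun k => ?_) i
  simp [Pi.single_apply]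

def Bd (a : Sm 2) : Prop :=
  ∀ x, (x 0 = 0 ∨ x 0 = 1 → (D 1 a).1 x = 0) ∧ (x 1 = 0 ∨ x 1 = 1 → (D 0 a).1 x = 0)

noncomputable def ig (v : Fin 3 → Sm 2) (x : Fin 2 → ℝ) : ℝ :=
  (tp v (D 0 ∘ v) (D 1 ∘ v)).1 x * (√((v 0 ^ 2 + v 1 ^ 2 + v 2 ^ 2).1 x))⁻¹ ^ 3

noncomputable def I (v : Fin 3 → Sm 2) : ℝ := ∫ x in Icc 0 1, ig v x

theorem pos {n : ℕ} {F : Fin 3 → Sm n} {p} (h : ∃ k, (F k).1 p ≠ 0) :
    0 < (F 0 ^ 2 + F 1 ^ 2 + F 2 ^ 2).1 p := by
  obtain ⟨k, hk⟩ := h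
  change 0 < (F 0).1 p ^ 2 + (F 1).1 p ^ 2 + (F 2).1 p ^ 2
  fin_cases k <;> simp only [Fin.zero_eta, Fin.mk_one, Fin.reduceFinMk] at hk <;> positivity

theorem hom3 (F : Fin 3 → Sm 3) (h0 : ∀ p, ∃ k, (F k).1 p ≠ 0) (hb : ∀ s k, Bd (res s (F k))) :
    I (res 1 ∘ F) = I (res 0 ∘ F) := by
  let W : Sm 3 := ⟨fun p => (√((F 0 ^ 2 + F 1 ^ 2 + F 2 ^ 2).1 p))⁻¹,
    ((Sm.cd _).sqrt fun p => (pos (h0 p)).ne').inv fun p => (Real.sqrt_pos.2 (pos (h0 p))).ne'⟩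
  have hW : W ^ 2 * (F 0 ^ 2 + F 1 ^ 2 + F 2 ^ 2) = 1 := Subtype.ext (funext fun p => by
    change (√((F 0 ^ 2 + F 1 ^ 2 + F 2 ^ 2).1 p))⁻¹ ^ 2 * _ = 1
    rw [inv_pow, Real.sq_sqrt (pos (h0 p)).le]
    exact inv_mul_cancel₀ (pos (h0 p)).ne')
  let V : Fin 3 → Sm 3 := ![tp F (D 1 ∘ F) (D 2 ∘ F) * W ^ 3, tp F (D 2 ∘ F) (D 0 ∘ F) * W ^ 3,
    tp F (D 0 ∘ F) (D 1 ∘ F) * W ^ 3]
  have hd : ∀ p, ∑ i, fderiv ℝ (V i).1 p (Pi.single i 1) = 0 := fun p => by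
    have := congrFun (congrArg Subtype.val (dv F W hW)) p
    rw [Fin.sum_univ_three]
    exact (mul_eq_zero.1 this).resolve_left two_ne_zero
  have h := integral_divergence_of_hasFDerivAt_off_countable' (0 : Fin 3 → ℝ) 1 zero_le_one
    (fun i => (V i).1) (fun i p => fderiv ℝ (V i).1 p) ∅ countable_empty
    (fun i => (Sm.cd _).continuous.continuousOn) (fun p _ i => (Sm.da _ p).hasFDerivAt)
    (by simp only [hd]; exact integrableOn_zero)
  have h1 : ∀ p k, (p 1 = 0 ∨ p 1 = 1 → (D 2 (F k)).1 p = 0) ∧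
      (p 2 = 0 ∨ p 2 = 1 → (D 1 (F k)).1 p = 0) := fun p k => by
    have := hb (p 0) k (Fin.tail p)
    rw [D_res, D_res] at this
    rw [← Fin.cons_self_tail p]
    exact this
  have h2 : ∀ p : Fin 3 → ℝ, p 1 = 0 ∨ p 1 = 1 → (V 1).1 p = 0 := fun p hp => by
    simp [V, tp, (h1 p _).1 hp]
  have h3 : ∀ p : Fin 3 → ℝ, p 2 = 0 ∨ p 2 = 1 → (V 2).1 p = 0 := fun p hp => by
    simp [V, tp, (h1 p _).2 hp]
  have h4 : ∀ s x, (V 0).1 (Fin.cons s x) = ig (res s ∘ F) x := fun s x => by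
    simp only [ig, tp, Function.comp, D_res]
    rfl
  rw [Fin.sum_univ_three] at h
  simp only [hd, Fin.insertNth_zero', h4] at h
  rw [setIntegral_congr_fun measurableSet_Icc fun x _ => h2 _ (by simp),
    setIntegral_congr_fun measurableSet_Icc fun x _ => h2 _ (by simp),
    setIntegral_congr_fun measurableSet_Icc fun x _ => h3 _ (by simp),
    setIntegral_congr_fun measurableSet_Icc fun x _ => h3 _ (by simp)] at h
  simp only [integral_zero, sub_self, add_zero] at h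
  exact sub_eq_zero.1 h.symm

theorem Bd.add {a b : Sm 2} (ha : Bd a) (hb : Bd b) : Bd (a + b) := fun x =>
  ⟨fun h => by simp [(ha x).1 h, (hb x).1 h], fun h => by simp [(ha x).2 h, (hb x).2 h]⟩

theorem Bd.mul {a b : Sm 2} (ha : Bd a) (hb : Bd b) : Bd (a * b) := fun x =>
  ⟨fun h => by simp [(ha x).1 h, (hb x).1 h], fun h => by simp [(ha x).2 h, (hb x).2 h]⟩

theorem Bd.alg (c : ℝ) : Bd (algebraMap ℝ _ c) := fun x => by simp

theorem hom2 (v u : Fin 3 → Sm 2) (hv : ∀ k, Bd (v k)) (hu : ∀ k, Bd (u k))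
    (h0 : ∀ s x, ∃ k, (v k).1 x + s * (u k).1 x ≠ 0) : I (v + u) = I v := by
  have hc : ∀ a : Sm 2, ContDiff ℝ ⊤ fun p : Fin 3 → ℝ => a.1 (Fin.tail p) := fun a =>
    (Sm.cd a).comp (contDiff_pi.2 fun j => contDiff_apply ℝ ℝ j.succ)
  let F : Fin 3 → Sm 3 := fun k => ⟨fun p => (v k).1 (Fin.tail p) + p 0 * (u k).1 (Fin.tail p),
    (hc _).add ((contDiff_apply ℝ ℝ 0).mul (hc _))⟩
  have e : ∀ s k, res s (F k) = v k + algebraMap ℝ _ s * u k := fun s k => rfl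
  have := hom3 F (fun p => h0 _ _) fun s k => e s k ▸ (hv k).add ((Bd.alg s).mul (hu k))
  simp only [Function.comp_def, e, map_one, map_zero, one_mul, zero_mul, add_zero] at this
  exact this

theorem Ineg (v : Fin 3 → Sm 2) (h0 : ∀ p, ∃ k, (v k).1 p ≠ 0)
    (h1 : ∀ x ∈ Icc (0 : Fin 2 → ℝ) 1, (tp v (D 0 ∘ v) (D 1 ∘ v)).1 x ≤ 0)
    (h2 : (tp v (D 0 ∘ v) (D 1 ∘ v)).1 (fun _ => 1 / 2) ≠ 0) : I v ≠ 0 := by
  intro h
  have hc : Continuous (ig v) := (Sm.cd _).continuous.mul (((Sm.cd _).continuous.sqrt.inv₀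
    fun p => (Real.sqrt_pos.2 (pos (h0 p))).ne').pow 3)
  rw [I, ← neg_eq_zero, ← integral_neg, setIntegral_eq_zero_iff_of_nonneg_ae
    (f := fun x => -ig v x) (ae_restrict_of_forall_mem measurableSet_Icc fun x hx => neg_nonneg.2
      (mul_nonpos_of_nonpos_of_nonneg (h1 x hx) (by positivity)))
    hc.neg.integrableOn_Icc] at h
  have h3 := Measure.eqOn_open_of_ae_eq (ae_restrict_of_ae_restrict_of_subset interior_subset h)
    isOpen_interior hc.neg.continuousOn continuousOn_const (x := fun _ => 1 / 2) (by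
      rw [← pi_univ_Icc, interior_pi_set finite_univ]
      intro i _
      norm_num)
  exact mul_ne_zero h2 (pow_ne_zero _ (inv_ne_zero (Real.sqrt_pos.2 (pos (h0 _))).ne'))
    (neg_eq_zero.1 h3)

end Pool.Agent.H13.Deg
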