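import Mathlib

namespace Pool.Agent.H13.DigitOut

lemma s_add (b r M : ℕ) (hb : 2 ≤ b) (hr : r < b) :
    (Nat.digits b (r + b * M)).sum = r + (Nat.digits b M).sum := by
  rcases Nat.eq_zero_or_pos (r + b * M) with h | h
  · have h1 : r = 0 := by omega
    have h2 : M = 0 := by
      rcases Nat.eq_zero_or_pos M with h3 | h3
      · exact h3
      · have := Nat.mul_pos (show 0 < b by omega) h3; omega
    simp [h1, h2]
  · rw [Nat.digits_def' (by omega) h, List.sum_cons, Nat.add_mul_mod_self_left, Nat.mod_eq_of_lt hr,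
      Nat.add_mul_div_left _ _ (by omega), Nat.div_eq_of_lt hr, zero_add]

lemma s_pow (b k M : ℕ) (hb : 2 ≤ b) : (Nat.digits b (b ^ k * M)).sum = (Nat.digits b M).sum := by
  induction k with
  | zero => simp
  | succ k ih =>
    have := s_add b 0 (b ^ k * M) hb (by omega)
    rw [zero_add, zero_add, ih] at this
    rw [pow_succ', mul_assoc, this]

lemma idem (n : ℕ) [NeZero n] (x : ZMod n) : ∃ T, x ^ (T + 1) * x ^ (T + 1) = x ^ (T + 1) := by
  have key : ∀ K p : ℕ, x ^ K = x ^ (K + p + 1) → ∃ T, x ^ (T + 1) * x ^ (T + 1) = x ^ (T + 1) := by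
    intro K p h
    have h1 : ∀ i, x ^ (K + (p + 1) * i) = x ^ K := by
      intro i
      induction i with
      | zero => simp
      | succ i ih =>
        rw [show K + (p + 1) * (i + 1) = (K + p + 1) + (p + 1) * i by ring, pow_add, ← h, ← pow_add, ih]
    refine ⟨K + p * K + p, ?_⟩
    rw [← pow_add, show K + p * K + p + 1 + (K + p * K + p + 1) = (K + (p + 1) * (K + 1)) + (p * K + p + 1) by
      ring, pow_add, h1, ← pow_add]
    congr 1
    ring
  obtain ⟨i, j, hne, h⟩ := Finite.exists_ne_map_eq_of_infinite (fun i : ℕ => x ^ i)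
  rcases lt_or_gt_of_ne hne with c | c
  · obtain ⟨p, rfl⟩ := Nat.exists_eq_add_of_lt c
    exact key i p h
  · obtain ⟨p, rfl⟩ := Nat.exists_eq_add_of_lt c
    exact key j p h.symm

lemma build (b n T : ℕ) (hb : 2 ≤ b)
    (hT : (b : ZMod n) ^ (T + 1) * (b : ZMod n) ^ (T + 1) = (b : ZMod n) ^ (T + 1)) (i j : ℕ) :
    ∃ N : ℕ, (Nat.digits b N).sum = i + j ∧ (N : ZMod n) = (b : ZMod n) ^ (T + 1) * (i + j * b) := by
  induction j with
  | zero =>
    induction i with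
    | zero => exact ⟨0, by simp, by simp⟩
    | succ i ih =>
      obtain ⟨N, h1, h2⟩ := ih
      refine ⟨b ^ (T + 1) * (1 + b * (b ^ T * N)), ?_, ?_⟩
      · rw [s_pow _ _ _ hb, s_add _ _ _ hb (by omega), s_pow _ _ _ hb, h1]; omega
      · push_cast at h2 ⊢
        rw [h2]
        linear_combination ((b : ZMod n) ^ (T + 1) + 1) * (i : ZMod n) * hT
  | succ j ih =>
    obtain ⟨N, h1, h2⟩ := ih
    refine ⟨b ^ (T + 2) * (1 + b * (b ^ (2 * T) * N)), ?_, ?_⟩
    · rw [s_pow _ _ _ hb, s_add _ _ _ hb (by omega), s_pow _ _ _ hb, h1]; omega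
    · push_cast at h2 ⊢
      rw [h2]
      linear_combination (((b : ZMod n) ^ (T + 1)) ^ 2 + (b : ZMod n) ^ (T + 1) + 1) *
        ((i : ZMod n) + j * b) * hT

/-- every positive multiple `u` of `gcd (b-1) n` with `u + 1 ≥ n / gcd` is a digit sum of a multiple of `n` -/
lemma main (b n u : ℕ) (hb : 2 ≤ b) (hn : 1 ≤ n) (hu : 0 < u) (hd : Nat.gcd (b - 1) n ∣ u)
    (hl : n / Nat.gcd (b - 1) n ≤ u + 1) : ∃ N, 0 < N ∧ n ∣ N ∧ (Nat.digits b N).sum = u := by
  have : NeZero n := ⟨by omega⟩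
  obtain ⟨T, hT⟩ := idem n (b : ZMod n)
  set d := Nat.gcd (b - 1) n with hdd
  have d0 : 0 < d := Nat.gcd_pos_of_pos_right _ hn
  obtain ⟨n', hn'⟩ : d ∣ n := Nat.gcd_dvd_right _ _
  obtain ⟨c, hc⟩ : d ∣ b - 1 := Nat.gcd_dvd_left _ _
  obtain ⟨v, hv⟩ := hd
  have n0 : 0 < n' := by
    rcases Nat.eq_zero_or_pos n' with h | h
    · rw [h] at hn'; omega
    · exact h
  have e1 : n / d = n' := by rw [hn']; exact Nat.mul_div_cancel_left _ d0
  have co : Nat.Coprime c n' := by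
    have h1 : Nat.gcd (d * c) (d * n') = d := by rw [← hc, ← hn']
    rw [Nat.gcd_mul_left] at h1
    exact Nat.eq_of_mul_eq_mul_left d0 (by rw [h1, mul_one])
  obtain ⟨j, hj, hj2⟩ : ∃ j, j < n' ∧ n' ∣ v + j * c := by
    have : NeZero n' := ⟨by omega⟩
    refine ⟨(-(v : ZMod n') * ((ZMod.unitOfCoprime c co)⁻¹ : (ZMod n')ˣ)).val, ZMod.val_lt _, ?_⟩
    rw [← ZMod.natCast_eq_zero_iff]
    push_cast
    rw [ZMod.natCast_zmod_val, mul_assoc, ← ZMod.coe_unitOfCoprime c co, Units.inv_mul]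
    ring
  obtain ⟨i, hi⟩ : ∃ i, u = i + j := ⟨u - j, by omega⟩
  obtain ⟨N, h1, h2⟩ := build b n T hb hT i j
  refine ⟨N, ?_, ?_, by omega⟩
  · rcases Nat.eq_zero_or_pos N with h | h
    · rw [h] at h1; simp at h1; omega
    · exact h
  · have h3 : n ∣ i + j * b := by
      have e : i + j * b = d * (v + j * c) := by
        have hb' : b = d * c + 1 := by omega
        rw [mul_add, ← hv, hi, hb']; ring
      rw [e]; nth_rewrite 1 [hn']; exact Nat.mul_dvd_mul_left _ hj2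
    rw [← ZMod.natCast_eq_zero_iff] at h3 ⊢
    push_cast at h3
    rw [h2, h3, mul_zero]

lemma alt (b : ℕ) (hb : 2 ≤ b) (N : ℕ) :
    ∃ i j : ℕ, i + j = (Nat.digits b N).sum ∧ ((b : ℤ) + 1) ∣ (N : ℤ) - (i - j) := by
  induction N using Nat.strong_induction_on with
  | _ N ih =>
    rcases Nat.eq_zero_or_pos N with rfl | h
    · exact ⟨0, 0, by simp, by simp⟩
    · obtain ⟨i, j, h1, c, h2⟩ := ih (N / b) (Nat.div_lt_self h (by omega))
      refine ⟨N % b + j, i, ?_, ⟨(N / b : ℕ) - c, ?_⟩⟩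
      · rw [Nat.digits_def' (by omega) h, List.sum_cons, ← h1]; omega
      · have e : (N : ℤ) = ((N % b : ℕ) : ℤ) + b * ((N / b : ℕ) : ℤ) := by
          exact_mod_cast (Nat.mod_add_div N b).symm
        rw [Nat.cast_add]
        linear_combination e - h2

lemma add (b n u v : ℕ) (hb : 2 ≤ b) (h1 : ∃ N, 0 < N ∧ n ∣ N ∧ (Nat.digits b N).sum = u)
    (h2 : ∃ N, 0 < N ∧ n ∣ N ∧ (Nat.digits b N).sum = v) :
    ∃ N, 0 < N ∧ n ∣ N ∧ (Nat.digits b N).sum = u + v := by
  obtain ⟨N, a1, a2, rfl⟩ := h1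
  obtain ⟨M, b1, b2, rfl⟩ := h2
  refine ⟨N + b ^ ((Nat.digits b N).length + 0) * M, by omega, dvd_add a2 (b2.mul_left _), ?_⟩
  rw [← Nat.digits_append_zeroes_append_digits (by omega) b1]
  simp

end Pool.Agent.H13.DigitOut
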