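import Mathlib

namespace Pool.Agent.H13.EH
open Finset Polynomial

variable {F : Type*} [Field F] [DecidableEq F]

noncomputable def L (S : Finset F) (i : ℕ) : F := ∑ x ∈ S, x ^ i / ∏ j ∈ S.erase x, (x - j)

lemma L_eq (S : Finset F) (a i : ℕ) (hS : S.card = a + 1) (hi : i ≤ a) :
    L S i = if i = a then 1 else 0 := by
  have := Lagrange.coeff_eq_sum (s := S) (v := id) (Set.injOn_id _) (P := X ^ i) (by
    rw [degree_X_pow, hS]; exact_mod_cast Nat.lt_succ_of_le hi)
  simp only [hS, coeff_X_pow, id, eval_pow, eval_X, Nat.add_sub_cancel] at this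
  rw [L, ← this]; simp only [eq_comm]

lemma LL (A B : Finset F) (a b i j : ℕ) (hA : A.card = a + 1) (hB : B.card = b + 1)
    (h : i + j ≤ a + b) : L A i * L B j = if i = a ∧ j = b then 1 else 0 := by
  rcases le_or_gt i a with hi | hi
  · rw [L_eq A a i hA hi]
    by_cases e : i = a
    · rw [L_eq B b j hB (by omega)]; simp [e]
    · simp [e]
  · rw [L_eq B b j hB (by omega), if_neg (by omega), if_neg (by omega), mul_zero]

lemma key (A B : Finset F) (k : ℕ) :
    ∑ x ∈ A, ∑ y ∈ B, (x - y) * (x + y) ^ k /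
      ((∏ j ∈ A.erase x, (x - j)) * ∏ j ∈ B.erase y, (y - j)) =
    ∑ i ∈ range (k + 1), (k.choose i : F) *
      (L A (i + 1) * L B (k - i) - L A i * L B (k - i + 1)) := by
  simp only [L, sum_mul_sum]
  simp only [← sum_sub_distrib]
  simp only [mul_sum]
  rw [sum_comm (s := range (k + 1))]
  refine sum_congr rfl fun x _ => ?_
  rw [sum_comm (s := range (k + 1))]
  refine sum_congr rfl fun y _ => ?_
  rw [add_pow, mul_sum, sum_div]
  refine sum_congr rfl fun i _ => ?_
  ring

lemma key2 (A B : Finset F) (n k : ℕ) (hA : A.card = n + 1 + 1) (hB : B.card = n + 1)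
    (hk : k ≤ 2 * n) :
    ∑ x ∈ A, ∑ y ∈ B, (x - y) * (x + y) ^ k /
      ((∏ j ∈ A.erase x, (x - j)) * ∏ j ∈ B.erase y, (y - j)) =
    if k = 2 * n then ((2 * n).choose n : F) - (2 * n).choose (n + 1) else 0 := by
  rw [key]
  have e : ∀ i ∈ range (k + 1), (k.choose i : F) *
      (L A (i + 1) * L B (k - i) - L A i * L B (k - i + 1)) =
      (if i = n then (if k = 2 * n then ((2 * n).choose n : F) else 0) else 0) -
      (if i = n + 1 then (if k = 2 * n then ((2 * n).choose (n + 1) : F) else 0) else 0) := by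
    intro i hi
    have hi := mem_range.1 hi
    rw [LL A B (n + 1) n _ _ hA hB (by omega), LL A B (n + 1) n _ _ hA hB (by omega)]
    by_cases h1 : k = 2 * n
    · subst h1
      by_cases h2 : i = n
      · subst h2
        rw [if_pos (by omega), if_neg (by omega)]; simp
      · by_cases h3 : i = n + 1
        · subst h3
          rw [if_neg (by omega), if_pos (by omega)]; simp
        · rw [if_neg (by omega), if_neg (by omega)]; simp [h2, h3]
    · rw [if_neg (by omega), if_neg (by omega)]; simp [h1]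
  rw [sum_congr rfl e, sum_sub_distrib, sum_ite_eq', sum_ite_eq']
  by_cases h1 : k = 2 * n
  · subst h1
    rcases Nat.eq_zero_or_pos n with rfl | hn
    · simp
    · rw [if_pos (mem_range.2 (by omega)), if_pos (mem_range.2 (by omega))]; simp
  · simp [h1]

/-- Erdos-Heilbronn bound for restricted sums of two distinct elements. -/
theorem eh {p : ℕ} [Fact p.Prime] (S C : Finset (ZMod p)) (n : ℕ) (hS : S.card = n + 2)
    (hn : 2 * n < p) (h : ∀ x ∈ S, ∀ y ∈ S, x ≠ y → x + y ∈ C) : 2 * n < C.card := by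
  by_contra! hC
  obtain ⟨B, hBS, hB⟩ := exists_subset_card_eq (s := S) (n := n + 1) (by omega)
  set Q : (ZMod p)[X] := (∏ c ∈ C, (X - Polynomial.C c)) * X ^ (2 * n - C.card) with hQ
  have m1 : (∏ c ∈ C, (X - Polynomial.C c) : (ZMod p)[X]).Monic :=
    monic_prod_of_monic _ _ fun c _ => monic_X_sub_C c
  have mQ : Q.Monic := m1.mul (monic_X_pow _)
  have dQ : Q.natDegree = 2 * n := by
    rw [hQ, m1.natDegree_mul (monic_X_pow _), natDegree_X_pow, natDegree_finsetProd_X_sub_C_eq_card]
    omega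
  have z : ∑ x ∈ S, ∑ y ∈ B, (x - y) * Q.eval (x + y) /
      ((∏ j ∈ S.erase x, (x - j)) * ∏ j ∈ B.erase y, (y - j)) = 0 := by
    refine sum_eq_zero fun x hx => sum_eq_zero fun y hy => ?_
    by_cases e : x = y
    · simp [e]
    · have : Q.eval (x + y) = 0 := by
        rw [hQ, eval_mul, eval_prod, prod_eq_zero (h x hx y (hBS hy) e) (by simp), zero_mul]
      simp [this]
  have z2 : ∑ x ∈ S, ∑ y ∈ B, (x - y) * Q.eval (x + y) /
      ((∏ j ∈ S.erase x, (x - j)) * ∏ j ∈ B.erase y, (y - j)) =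
      ∑ k ∈ range (2 * n + 1), Q.coeff k * ∑ x ∈ S, ∑ y ∈ B, (x - y) * (x + y) ^ k /
      ((∏ j ∈ S.erase x, (x - j)) * ∏ j ∈ B.erase y, (y - j)) := by
    simp only [mul_sum]
    rw [sum_comm (s := range (2 * n + 1))]
    refine sum_congr rfl fun x _ => ?_
    rw [sum_comm (s := range (2 * n + 1))]
    refine sum_congr rfl fun y _ => ?_
    rw [eval_eq_sum_range, dQ, mul_sum, sum_div]
    refine sum_congr rfl fun i _ => ?_
    ring
  rw [z2, sum_congr rfl fun k hk => by
    rw [key2 S B n k hS hB (Nat.lt_succ_iff.1 (mem_range.1 hk))]] at z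
  simp only [mul_ite, mul_zero, sum_ite_eq', mem_range, lt_add_one, if_true] at z
  have c1 : Q.coeff (2 * n) = 1 := by rw [← dQ]; exact mQ.coeff_natDegree
  rw [c1, one_mul, sub_eq_zero] at z
  have c2 : (((2 * n).choose (n + 1) * (n + 1) : ℕ) : ZMod p) = ((2 * n).choose n * (2 * n - n) : ℕ) := by
    rw [Nat.choose_succ_right_eq]
  rw [show 2 * n - n = n by omega] at c2
  push_cast at c2
  have c3 : (((2 * n).choose n : ℕ) : ZMod p) = 0 := by
    rw [← z] at c2; linear_combination c2
  rw [ZMod.natCast_eq_zero_iff] at c3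
  have c4 : p ∣ (2 * n).factorial := by
    rw [← Nat.choose_mul_factorial_mul_factorial (show n ≤ 2 * n by omega), mul_assoc]
    exact c3.mul_right _
  have := ((Fact.out : p.Prime).dvd_factorial).1 c4
  omega

end Pool.Agent.H13.EH
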