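import Mathlib

namespace Pool.Agent.H13.EM

def frc (x : ℕ) (f : ℕ → Bool) : Bool := match x with
  | 0 => f 0
  | m + 1 => f (m + 1)

lemma frc_eq (x : ℕ) (f : ℕ → Bool) : frc x f = f x := by cases x <;> rfl

def blk (t w x y p q : ℕ) : Bool :=
  Nat.beq t w || Nat.beq w x || Nat.beq w y || Nat.beq t p || Nat.beq t q

def cmp (a b x y : ℕ) : ℕ × ℕ × ℕ × ℕ → Bool
  | (u, v, p, q) =>
    (!Nat.beq a u || blk b v x y p q) && (!Nat.beq a v || blk b u x y p q) &&
    (!Nat.beq b u || blk a v x y p q) && (!Nat.beq b v || blk a u x y p q)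

def bit (N c : ℕ) : Bool := Nat.beq (Nat.land (Nat.shiftRight N c) 1) 1

lemma bit_eq (N c : ℕ) : bit N c = N.testBit c := by
  unfold bit Nat.testBit
  show Nat.beq ((N >>> c) &&& 1) 1 = _
  rw [Nat.and_comm]
  rcases Nat.mod_two_eq_zero_or_one (N >>> c) with h | h <;> simp [Nat.one_and_eq_mod_two, h] <;> rfl

def allP : List (ℕ × ℕ × ℕ) := [(0,1,1), (0,2,2), (0,3,3), (0,4,4), (0,5,5), (0,6,6), (0,7,7), (1,2,10), (1,3,11), (1,4,12), (1,5,13), (1,6,14), (1,7,15), (2,3,19), (2,4,20), (2,5,21), (2,6,22), (2,7,23), (3,4,28), (3,5,29), (3,6,30), (3,7,31), (4,5,37), (4,6,38), (4,7,39), (5,6,46), (5,7,47), (6,7,55)]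

def go : ℕ → List (ℕ × ℕ × ℕ × ℕ) → List (ℕ × ℕ) → ℕ → ℕ → List (ℕ × ℕ × ℕ) → ℕ → Bool
  | 0, _, _, _, _, _, _ => false
  | n + 1, L, (a, b) :: Q, E, N, U, k => allP.all fun d =>
      Nat.beq d.1 a || Nat.beq d.1 b || Nat.beq d.2.1 a || Nat.beq d.2.1 b || bit N d.2.2 ||
      !(L.all (cmp a b d.1 d.2.1)) ||
      cond (bit E d.2.2) (go n ((a, b, d.1, d.2.1) :: L) Q E N U k)
        (frc (Nat.lor E (Nat.pow 2 d.2.2)) fun E' =>
          go n ((a, b, d.1, d.2.1) :: L) ((d.1, d.2.1) :: Q) E' N U k)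
  | _ + 1, _, [], _, _, [], _ => false
  | n + 1, L, [], E, N, c :: U, k =>
      cond (bit E c.2.2) (go n L [] E N U k)
        ((frc (Nat.lor E (Nat.pow 2 c.2.2)) fun E' => go n L [(c.1, c.2.1)] E' N U k) &&
          (Nat.beq k 0 || frc (Nat.lor N (Nat.pow 2 c.2.2)) fun N' =>
            frc (Nat.pred k) fun k' => go n L [] E N' U k'))


structure Sol (A : ℕ → ℕ → Prop) (F : ℕ → ℕ → ℕ → Prop) : Prop where
  symA : ∀ a b, A a b → A b a
  symF : ∀ a b z, F a b z ↔ F b a z
  img : ∀ a b, A a b → ∃ d ∈ allP, A d.1 d.2.1 ∧ d.1 ≠ a ∧ d.1 ≠ b ∧ d.2.1 ≠ a ∧ d.2.1 ≠ b ∧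
    ∀ z, F a b z ↔ (z = d.1 ∨ z = d.2.1)
  bl : ∀ s t w, A s t → A s w → t ≠ w → F s t w ∨ F s w t

variable {A : ℕ → ℕ → Prop} {F : ℕ → ℕ → ℕ → Prop}

lemma blk_ok (S : Sol A F) {s t w x y p q : ℕ} (h1 : A s t) (h2 : A s w)
    (h3 : ∀ z, F s t z ↔ (z = x ∨ z = y)) (h4 : ∀ z, F s w z ↔ (z = p ∨ z = q)) :
    blk t w x y p q = true := by
  simp only [blk, Bool.or_eq_true, Nat.beq_eq]
  by_cases h : t = w
  · tauto
  · have := S.bl s t w h1 h2 h
    rw [h3, h4] at this
    tauto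

lemma cmp_ok (S : Sol A F) {a b x y : ℕ} (h1 : A a b) (h3 : ∀ z, F a b z ↔ (z = x ∨ z = y))
    (l : ℕ × ℕ × ℕ × ℕ) (h2 : A l.1 l.2.1)
    (h4 : ∀ z, F l.1 l.2.1 z ↔ (z = l.2.2.1 ∨ z = l.2.2.2)) : cmp a b x y l = true := by
  obtain ⟨u, v, p, q⟩ := l
  simp only at h2 h4
  have h1' := S.symA _ _ h1
  have h2' := S.symA _ _ h2
  have h3' : ∀ z, F b a z ↔ (z = x ∨ z = y) := fun z => by rw [S.symF, h3]
  have h4' : ∀ z, F v u z ↔ (z = p ∨ z = q) := fun z => by rw [S.symF, h4]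
  have key : ∀ (i j : ℕ) (c : Bool), (i = j → c = true) → (!Nat.beq i j || c) = true := by
    intro i j c h
    cases hb : Nat.beq i j
    · rfl
    · simpa using h (Nat.eq_of_beq_eq_true hb)
  simp only [cmp, Bool.and_eq_true]
  refine ⟨⟨⟨key _ _ _ ?_, key _ _ _ ?_⟩, key _ _ _ ?_⟩, key _ _ _ ?_⟩ <;> rintro rfl
  · exact blk_ok S h1 h2 h3 h4
  · exact blk_ok S h1 h2' h3 h4'
  · exact blk_ok S h1' h2 h3' h4
  · exact blk_ok S h1' h2' h3' h4'

lemma code_inj : ∀ c ∈ allP, ∀ d ∈ allP, c.2.2 = d.2.2 → c = d := by decide +kernel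

open Classical in
lemma sound (S : Sol A F) : ∀ (n : ℕ) (L : List (ℕ × ℕ × ℕ × ℕ)) (Q : List (ℕ × ℕ)) (E N : ℕ)
    (U : List (ℕ × ℕ × ℕ)) (k : ℕ),
    (∀ l ∈ L, A l.1 l.2.1 ∧ ∀ z, F l.1 l.2.1 z ↔ (z = l.2.2.1 ∨ z = l.2.2.2)) →
    (∀ q ∈ Q, A q.1 q.2) → (∀ d ∈ allP, N.testBit d.2.2 = true → ¬ A d.1 d.2.1) →
    (∀ c ∈ U, c ∈ allP) → U.countP (fun c => decide (¬ A c.1 c.2.1)) ≤ k →
    go n L Q E N U k = true → False := by
  intro n
  induction n with
  | zero => intro L Q E N U k _ _ _ _ _ h; simp [go] at h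
  | succ n ih =>
    intro L Q E N U k hL hQ hN hU hk h
    match Q, U with
    | (a, b) :: Q, U =>
      have hab : A a b := hQ (a, b) (by simp)
      obtain ⟨d, hd, hA, n1, n2, n3, n4, hF⟩ := S.img a b hab
      rw [go, List.all_eq_true] at h
      have h := h d hd
      have hall : L.all (cmp a b d.1 d.2.1) = true := by
        rw [List.all_eq_true]
        intro l hl
        exact cmp_ok S hab hF l (hL l hl).1 (hL l hl).2
      have hL' : ∀ l ∈ (a, b, d.1, d.2.1) :: L,
          A l.1 l.2.1 ∧ ∀ z, F l.1 l.2.1 z ↔ (z = l.2.2.1 ∨ z = l.2.2.2) := by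
        intro l hl
        rcases List.mem_cons.1 hl with rfl | hl
        · exact ⟨hab, hF⟩
        · exact hL l hl
      have hQ' : ∀ q ∈ Q, A q.1 q.2 := fun q hq => hQ q (List.mem_cons_of_mem _ hq)
      simp only [Bool.or_eq_true, Nat.beq_eq, hall, bit_eq, n1, n2, n3, n4, false_or,
        Bool.not_true, Bool.false_eq_true, or_false, frc_eq] at h
      rcases h with h | h
      · exact hN d hd h hA
      · cases hb : E.testBit d.2.2
        · rw [hb, cond_false] at h
          refine ih _ _ _ _ _ _ hL' ?_ hN hU hk h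
          intro q hq
          rcases List.mem_cons.1 hq with rfl | hq
          · exact hA
          · exact hQ' q hq
        · rw [hb, cond_true] at h
          exact ih _ _ _ _ _ _ hL' hQ' hN hU hk h
    | [], [] => simp [go] at h
    | [], c :: U =>
      have hU' : ∀ c ∈ U, c ∈ allP := fun q hq => hU q (List.mem_cons_of_mem _ hq)
      rw [List.countP_cons] at hk
      rw [go] at h
      cases hb : bit E c.2.2
      · rw [hb, cond_false] at h
        simp only [Bool.and_eq_true, Bool.or_eq_true, Nat.beq_eq, frc_eq] at h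
        by_cases hA : A c.1 c.2.1
        · refine ih _ _ _ _ _ _ hL ?_ hN hU' (by omega) h.1
          intro q hq
          rw [List.mem_singleton.1 hq]
          exact hA
        · simp only [hA, not_false_eq_true, decide_true, if_true] at hk
          rcases h.2 with h2 | h2
          · omega
          · refine ih _ _ _ _ _ _ hL hQ ?_ hU' (by simp only [Nat.pred_eq_sub_one]; omega) h2
            intro d hd ht
            change (N ||| 2 ^ c.2.2).testBit d.2.2 = true at ht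
            rw [Nat.testBit_or, Bool.or_eq_true, Nat.testBit_two_pow, decide_eq_true_eq] at ht
            rcases ht with ht | ht
            · exact hN d hd ht
            · rw [← code_inj c (hU c (by simp)) d hd ht]; exact hA
      · rw [hb, cond_true] at h
        exact ih _ _ _ _ _ _ hL hQ hN hU' (by omega) h

theorem run : go 100 [(0,2,3,4),(0,1,2,3)] [(0,4),(3,4),(0,3),(2,3)] 268959774 0 allP 14 = true := by
  rw [go, List.all_eq_true]
  intro d hd
  simp only [allP, List.mem_cons, List.not_mem_nil, or_false] at hd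
  rcases hd with rfl | rfl | rfl | rfl | rfl | rfl | rfl | rfl | rfl | rfl | rfl | rfl | rfl | rfl | rfl | rfl | rfl | rfl | rfl | rfl | rfl | rfl | rfl | rfl | rfl | rfl | rfl | rfl
  all_goals first
    | (simp only [Bool.or_eq_true]; left; decide +kernel)
    | (simp only [Bool.or_eq_true]
       right
       rw [show bit 268959774 _ = false by decide +kernel, cond_false, frc_eq, go, List.all_eq_true]
       intro e he
       simp only [allP, List.mem_cons, List.not_mem_nil, or_false] at he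
       rcases he with rfl | rfl | rfl | rfl | rfl | rfl | rfl | rfl | rfl | rfl | rfl | rfl | rfl | rfl | rfl | rfl | rfl | rfl | rfl | rfl | rfl | rfl | rfl | rfl | rfl | rfl | rfl | rfl
       all_goals decide +kernel)

end Pool.Agent.H13.EM
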