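import Mathlib

open Set Topology Filter

namespace Pool.Agent.H13.Fill

lemma cU {I : Type*} (H : ℕ → Finset I) : {i | ∃ n, i ∈ H n}.Countable :=
  (countable_iUnion fun n => (H n).countable_toSet).mono fun _ ⟨n, h⟩ => mem_iUnion.2 ⟨n, h⟩

lemma good {I β : Type*} (supp : β → Finset I) (ok : β → Set I)
    (h : ∀ J : Set I, J.Countable → ∃ b, ∀ i ∈ supp b, i ∈ J → i ∈ ok b) :
    ∃ R : Finset I, ∀ J' : Finset I, ∃ b, (∀ i ∈ supp b, i ∈ J' → i ∈ R) ∧
      ∀ i ∈ supp b, i ∈ R → i ∈ ok b := by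
  classical
  by_contra hc
  have hc : ∀ R : Finset I, ∃ J' : Finset I, ∀ b, (∀ i ∈ supp b, i ∈ J' → i ∈ R) →
      ¬ ∀ i ∈ supp b, i ∈ R → i ∈ ok b := by
    intro R
    by_contra h1
    refine hc ⟨R, fun J' => ?_⟩
    by_contra h2
    exact h1 ⟨J', fun b h3 h4 => h2 ⟨b, h3, h4⟩⟩
  choose φ hφ using hc
  obtain ⟨H, hH1⟩ : ∃ H : ℕ → Finset I, ∀ n, H (n + 1) = H n ∪ (H n).powerset.biUnion φ :=
    ⟨fun n => (fun S => S ∪ S.powerset.biUnion φ)^[n] ∅, fun n => Function.iterate_succ_apply' ..⟩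
  have hH : Monotone H := monotone_nat_of_le_succ fun n => by
    rw [hH1]; exact Finset.subset_union_left
  obtain ⟨b, hb⟩ := h _ (cU H)
  let R := (supp b).filter (fun i => ∃ n, i ∈ H n)
  obtain ⟨n, hn⟩ : ∃ n, R ⊆ H n := by
    have : ∀ i ∈ R, ∀ᶠ n in atTop, i ∈ H n := by
      intro i hi
      obtain ⟨m, hm⟩ := (Finset.mem_filter.1 hi).2
      exact (eventually_ge_atTop m).mono fun n hn => hH hn hm
    exact ((R.eventually_all).2 this).exists
  refine hφ R b (fun i hi hj => Finset.mem_filter.2 ⟨hi, n + 1, ?_⟩)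
    fun i hi hj => hb i hi (Finset.mem_filter.1 hj).2
  rw [hH1]
  exact Finset.mem_union_right _ (Finset.mem_biUnion.2 ⟨R, Finset.mem_powerset.2 hn, hj⟩)

variable {I : Type*} {X : I → Type*} {D : Set (∀ i, X i)}

def F (D : Set (∀ i, X i)) : Prop := ∀ J : Set I, J.Countable → ∀ y : ∀ i, X i, ∃ d ∈ D, ∀ i ∈ J, d i = y i

lemma F.of_restrict (h : ∀ J : Set I, J.Countable → (fun (d : ∀ i, X i) (i : J) => d i) '' D = univ) : F D := by
  intro J hJ y
  obtain ⟨d, hd, e⟩ := (h J hJ).ge (mem_univ (fun i : J => y i))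
  exact ⟨d, hd, fun i hi => congrFun e ⟨i, hi⟩⟩

lemma F.of_ne [Nonempty I] (h : ∀ J : Set I, J.Nonempty → J.Countable →
    (fun (d : ∀ i, X i) (i : J) => d i) '' D = univ) : F D := by
  intro J hJ y
  obtain ⟨i⟩ := ‹Nonempty I›
  obtain ⟨d, hd, e⟩ := (h (insert i J) (insert_nonempty _ _) (hJ.insert i)).ge
    (mem_univ (fun i : (insert i J : Set I) => y i))
  exact ⟨d, hd, fun j hj => congrFun e ⟨j, .inr hj⟩⟩

lemma meet (hD : F D) {G G' : Finset I} {u u' : ∀ i, Set (X i)} {a a' y : ∀ i, X i}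
    (ha : a ∈ (G : Set I).pi u) (ha' : a' ∈ (G' : Set I).pi u')
    (hy : ∀ i ∈ G, i ∈ G' → y i ∈ u i ∧ y i ∈ u' i) :
    ∃ d ∈ D, d ∈ (G : Set I).pi u ∧ d ∈ (G' : Set I).pi u' := by
  classical
  obtain ⟨d, hd, e⟩ := hD (G ∪ G') (G.countable_toSet.union G'.countable_toSet)
    fun i => if i ∈ G ∧ i ∈ G' then y i else if i ∈ G then a i else a' i
  refine ⟨d, hd, fun i hi => ?_, fun i hi => ?_⟩
  · rw [e i (.inl hi)]
    split_ifs with h1 h2
    exacts [(hy i h1.1 h1.2).1, ha i hi, (h2 hi).elim]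
  · rw [e i (.inr hi)]
    split_ifs with h1 h2
    exacts [(hy i h1.1 h1.2).2, (h1 ⟨h2, hi⟩).elim, ha' i hi]

variable [∀ i, TopologicalSpace (X i)]

lemma box {d : D} {s : Set D} (hs : s ∈ 𝓝 d) : ∃ (G : Finset I) (u : ∀ i, Set (X i)),
    (∀ i ∈ G, IsOpen (u i)) ∧ d.1 ∈ (G : Set I).pi u ∧ ∀ e : D, e.1 ∈ (G : Set I).pi u → e ∈ s := by
  obtain ⟨t, ht, hts⟩ := (mem_nhds_subtype _ _ _).1 hs
  obtain ⟨o, hot, ho, hd⟩ := mem_nhds_iff.1 ht
  obtain ⟨G, u, h1, h2⟩ := isOpen_pi_iff.1 ho _ hd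
  exact ⟨G, u, fun i hi => (h1 i hi).1, fun i hi => (h1 i hi).2, fun e he => hts (hot (h2 he))⟩

lemma reg (hD : F D) [RegularSpace D] (d : D) (i : I) {W : Set (X i)} (hW : IsOpen W)
    (hd : d.1 i ∈ W) : ∃ V, IsOpen V ∧ d.1 i ∈ V ∧ closure V ⊆ W := by
  classical
  have hc : Continuous fun e : D => e.1 i := (continuous_apply i).comp continuous_subtype_val
  obtain ⟨C, hC, hCc, hCW⟩ := exists_mem_nhds_isClosed_subset ((hW.preimage hc).mem_nhds hd)
  obtain ⟨G, u, hu, hdu, hG⟩ := box hC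
  refine ⟨if i ∈ G then u i else univ, ?_, ?_, fun t ht => ?_⟩
  · split_ifs with h
    exacts [hu i h, isOpen_univ]
  · split_ifs with h
    exacts [hdu i h, trivial]
  by_contra htW
  obtain ⟨d', hd', e⟩ := hD (insert i G) (G.countable_toSet.insert i) (Function.update d.1 i t)
  have hi : d' i = t := by rw [e i (.inl rfl)]; simp
  have : (⟨d', hd'⟩ : D) ∈ Cᶜ := fun h => htW (hi ▸ hCW h)
  obtain ⟨G', u', hu', hdu', hG'⟩ := box (hCc.isOpen_compl.mem_nhds this)
  obtain ⟨s, hs1, hs2⟩ : ∃ s, (i ∈ G' → s ∈ u' i) ∧ (i ∈ G → s ∈ u i) := by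
    by_cases h : i ∈ G'
    · obtain ⟨s, h1, h2⟩ := mem_closure_iff.1 ht _ (hu' i h) (hi ▸ hdu' i h)
      exact ⟨s, fun _ => h1, fun h3 => by rwa [if_pos h3] at h2⟩
    · exact ⟨d.1 i, fun h1 => (h h1).elim, fun h1 => hdu i h1⟩
  obtain ⟨z, hz, h1, h2⟩ := meet hD (y := Function.update d.1 i s) hdu hdu' (by
    intro j hj hj'
    by_cases hji : j = i
    · subst hji
      simp only [Function.update_self]
      exact ⟨hs2 hj, hs1 hj'⟩
    · have := e j (.inr hj)
      rw [Function.update_of_ne hji] at this ⊢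
      exact ⟨hdu j hj, this ▸ hdu' j hj'⟩)
  exact hG' ⟨z, hz⟩ h2 (hG ⟨z, hz⟩ h1)

/-- A paracompact subspace filling countable subproducts is the whole product up to
specialization. -/
theorem spec (hD : F D) [T2Space D] [ParacompactSpace D] (y : ∀ i, X i) : ∃ d ∈ D, y ⤳ d := by
  classical
  by_contra hc
  have h1 : ∀ d : D, ∃ i, ∃ V : Set (X i), IsOpen V ∧ d.1 i ∈ V ∧ y i ∉ closure V := by
    intro d
    have : ¬ ∀ i, y i ⤳ d.1 i := fun h => hc ⟨d, d.2, specializes_pi.2 h⟩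
    obtain ⟨i, hi⟩ := not_forall.1 this
    rw [specializes_iff_forall_open] at hi
    push Not at hi
    obtain ⟨W, hW, hd, hy⟩ := hi
    obtain ⟨V, h1, h2, h3⟩ := reg hD d i hW hd
    exact ⟨i, V, h1, h2, fun h => hy (h3 h)⟩
  choose ι V hV hdV hyV using h1
  obtain ⟨v, hv, hvc, hlf, hvu⟩ := precise_refinement (fun d : D => {e : D | e.1 (ι d) ∈ V d})
    (fun d => (hV d).preimage ((continuous_apply _).comp continuous_subtype_val))
    (eq_univ_of_forall fun d => mem_iUnion.2 ⟨d, hdV d⟩)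
  have h2 : ∀ d : D, ∃ (a : D) (G : Finset I) (u : ∀ i, Set (X i)), d.1 ∈ (G : Set I).pi u ∧
      (∀ e : D, e.1 ∈ (G : Set I).pi u → e ∈ v a) ∧
      {a | ∃ e ∈ v a, e.1 ∈ (G : Set I).pi u}.Finite := by
    intro d
    obtain ⟨a, ha⟩ := mem_iUnion.1 (hvc.ge (mem_univ d))
    obtain ⟨t, ht, hf⟩ := hlf d
    obtain ⟨G, u, -, h1, h2⟩ := box (inter_mem ((hv a).mem_nhds ha) ht)
    exact ⟨a, G, u, h1, fun e he => (h2 e he).1, hf.subset fun a ⟨e, h3, h4⟩ => ⟨e, h3, (h2 e h4).2⟩⟩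
  choose a G u hd hva hf using h2
  obtain ⟨R, hR⟩ := good G (fun d => {i | y i ∈ u d i}) (by
    intro J hJ
    obtain ⟨d, hdD, e⟩ := hD J hJ y
    exact ⟨⟨d, hdD⟩, fun i hi hj => by
      have : d i ∈ _ := hd ⟨d, hdD⟩ i hi
      rwa [e i hj] at this⟩)
  obtain ⟨b, -, hb⟩ := hR ∅
  obtain ⟨c, hc1, hc2⟩ := hR (G b ∪ (hf b).toFinset.image ι)
  obtain ⟨z, hz, h1, h2⟩ := meet hD (y := y) (hd b) (hd c) fun i hi hj =>
    have := hc1 i hj (Finset.mem_union_left _ hi)
    ⟨hb i hi this, hc2 i hj this⟩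
  have hm : a c ∈ (hf b).toFinset := (hf b).mem_toFinset.2 ⟨⟨z, hz⟩, hva c _ h2, h1⟩
  obtain ⟨w, hw, h3, h4⟩ := meet hD (G := {ι (a c)}) (a := y) (y := y)
    (u := Function.update (fun _ => univ) (ι (a c)) (closure (V (a c)))ᶜ)
    (by intro i hi; obtain rfl : i = ι (a c) := by simpa using hi
        simpa using hyV _) (hd c) (by
      intro i hi hj
      obtain rfl : i = ι (a c) := by simpa using hi
      exact ⟨by simpa using hyV _, hc2 _ hj (hc1 _ hj (Finset.mem_union_right _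
        (Finset.mem_image_of_mem _ hm)))⟩)
  have := h3 (ι (a c)) (by simp)
  rw [Function.update_self] at this
  exact this (subset_closure (hvu _ (hva c ⟨w, hw⟩ h4)))

lemma isOpen_box {G : Finset I} {u : ∀ i, Set (X i)} (hu : ∀ i ∈ G, IsOpen (u i)) :
    IsOpen ((G : Set I).pi u) := isOpen_set_pi G.finite_toSet hu

/-- Stone-type argument. -/
theorem stone [Uncountable I] (hD : F D) (W : ∀ i, ℕ → Set (X i)) (hW : ∀ i n, IsOpen (W i n))
    (hm : ∀ i, Monotone (W i)) (hc : ∀ i x, ∃ n, x ∈ W i n) (t : ∀ i, ℕ → X i)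
    (ht : ∀ i n, t i n ∉ W i n) : ¬ ParacompactSpace D := by
  classical
  intro _
  obtain ⟨v, hv, hvc, hlf, hvu⟩ := precise_refinement
    (fun S : Finset I => {e : D | S.Nonempty ∧ e.1 ∈ (S : Set I).pi fun i => W i S.card})
    (fun S => (isOpen_const).inter ((isOpen_box fun i _ => hW i _).preimage continuous_subtype_val))
    (eq_univ_of_forall fun d => by
      choose n hn using fun i => hc i (d.1 i)
      obtain ⟨k, hk⟩ : ∃ k, {i | n i = k}.Infinite := by
        by_contra h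
        push Not at h
        exact not_countable_univ ((countable_iUnion fun k => (h k).countable).mono
          fun i _ => mem_iUnion.2 ⟨n i, rfl⟩)
      obtain ⟨S, hS, hcard⟩ := hk.exists_subset_card_eq (k + 1)
      refine mem_iUnion.2 ⟨S, Finset.card_pos.1 (by omega), fun i hi => ?_⟩
      have : n i = k := hS hi
      exact hm i (by omega) (hn i))
  have h2 : ∀ d : D, ∃ (a : Finset I) (G : Finset I) (u : ∀ i, Set (X i)), d.1 ∈ (G : Set I).pi u ∧
      (∀ e : D, e.1 ∈ (G : Set I).pi u → e ∈ v a) := by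
    intro d
    obtain ⟨a, ha⟩ := mem_iUnion.1 (hvc.ge (mem_univ d))
    obtain ⟨G, u, -, h1, h2⟩ := box ((hv a).mem_nhds ha)
    exact ⟨a, G, u, h1, h2⟩
  choose a G u hd hva using h2
  have h3 : ∀ p : Finset I × (I → ℕ), ∃ d : D, ∀ i ∈ p.1, d.1 i = t i (p.2 i) := fun p => by
    obtain ⟨d, hd, e⟩ := hD p.1 p.1.countable_toSet fun i => t i (p.2 i)
    exact ⟨⟨d, hd⟩, e⟩
  choose δ hδ using h3
  obtain ⟨s, hs0, hs⟩ : ∃ s : ℕ → Finset I × (I → ℕ), (s 0).1 = ∅ ∧ ∀ n, s (n + 1) =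
      ((s n).1 ∪ G (δ (s n)), fun i => if i ∈ (s n).1 then (s n).2 i else
        ((s n).1 ∪ G (δ (s n))).card) :=
    ⟨fun n => (fun p => (p.1 ∪ G (δ p), fun i => if i ∈ p.1 then p.2 i else
      (p.1 ∪ G (δ p)).card))^[n] (∅, 0), rfl, fun n => Function.iterate_succ_apply' ..⟩
  have hH : Monotone fun n => (s n).1 := monotone_nat_of_le_succ fun n => by
    rw [hs]; exact Finset.subset_union_left
  have hst : ∀ n m i, n ≤ m → i ∈ (s n).1 → (s m).2 i = (s n).2 i := by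
    intro n m i h hi
    induction h with
    | refl => rfl
    | step h ih => rw [hs]; exact (if_pos (hH h hi)).trans ih
  have hinv : ∀ n, ∀ S ⊆ (s n).1, S.Nonempty → ∃ i ∈ S, S.card ≤ (s n).2 i := by
    intro n
    induction n with
    | zero => intro S h ⟨i, hi⟩; have := h hi; simp [hs0] at this
    | succ n ih =>
      intro S h hS
      by_cases h1 : S ⊆ (s n).1
      · obtain ⟨i, hi, h2⟩ := ih S h1 hS
        exact ⟨i, hi, by rwa [hst n (n + 1) i (by omega) (h1 hi)]⟩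
      · obtain ⟨i, hi, h2⟩ := Finset.not_subset.1 h1
        refine ⟨i, hi, ?_⟩
        rw [hs] at h ⊢
        exact (Finset.card_le_card h).trans (if_neg h2).ge
  obtain ⟨z, hz, ez⟩ := hD _ (cU fun n => (s n).1)
    fun i => t i (if h : ∃ n, i ∈ (s n).1 then (s h.choose).2 i else 0)
  have ez : ∀ n, ∀ i ∈ (s n).1, z i = t i ((s n).2 i) := by
    intro n i hi
    have h : ∃ n, i ∈ (s n).1 := ⟨n, hi⟩
    rw [ez i h, dif_pos h, ← hst _ (max n h.choose) i (le_max_right _ _) h.choose_spec,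
      hst _ _ i (le_max_left _ _) hi]
  obtain ⟨o, ho, hf⟩ := hlf ⟨z, hz⟩
  obtain ⟨G', u', -, hz', hG'⟩ := box ho
  have hev : ∀ᶠ n in atTop, ∀ i ∈ G', (∃ m, i ∈ (s m).1) → i ∈ (s n).1 := by
    refine (G'.eventually_all).2 fun i _ => ?_
    by_cases h : ∃ m, i ∈ (s m).1
    · obtain ⟨m, hm⟩ := h
      exact (eventually_ge_atTop m).mono fun n hn _ => hH hn hm
    · exact .of_forall fun n h' => (h h').elim
  obtain ⟨N, hN⟩ := eventually_atTop.1 hev
  have hmem : ∀ n ∈ Ici N, a (δ (s n)) ∈ {i | (v i ∩ o).Nonempty} := by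
    intro n hn
    obtain ⟨w, hw, h1, h2⟩ := meet hD (y := z) hz' (hd (δ (s n))) fun i hi hj => by
      have := hN n hn i hi ⟨n + 1, by rw [hs]; exact Finset.mem_union_right _ hj⟩
      exact ⟨hz' i hi, by rw [ez n i this, ← hδ _ i this]; exact hd _ i hj⟩
    exact ⟨⟨w, hw⟩, hva _ _ h2, hG' _ h1⟩
  obtain ⟨n, -, m, -, hnm, e⟩ := (Ici_infinite N).exists_lt_map_eq_of_mapsTo hmem hf
  have hm' := hvu _ (hva _ _ (hd (δ (s m))))
  rw [← e] at hm'
  have hsub : a (δ (s n)) ⊆ (s m).1 := by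
    intro i hi
    refine hH (Nat.succ_le_of_lt hnm) ?_
    show i ∈ (s (n + 1)).1
    rw [hs]
    refine Finset.mem_union_right _ ?_
    by_contra hG
    obtain ⟨w, hw, ew⟩ := hD (insert i (G (δ (s n)))) ((Finset.countable_toSet _).insert i)
      (Function.update (δ (s n)).1 i (t i (a (δ (s n))).card))
    have := (hvu _ (hva _ ⟨w, hw⟩ fun j hj => by
      show w j ∈ _
      rw [ew j (.inr hj), Function.update_of_ne (by rintro rfl; exact hG hj)]
      exact hd _ j hj)).2 i hi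
    change w i ∈ _ at this
    rw [ew i (.inl rfl), Function.update_self] at this
    exact ht _ _ this
  obtain ⟨i, hi, hle⟩ := hinv m _ hsub hm'.1
  have := hm'.2 i hi
  change _ ∈ W i _ at this
  rw [hδ _ i (hsub hi)] at this
  exact ht _ _ (hm i hle this)

/-- a factor all of whose sequences cluster is compact. -/
theorem cpt (hD : F D) [T2Space D] [ParacompactSpace D] (y : ∀ i, X i) (j : I)
    (h : ∀ x : ℕ → X j, ∃ p, ∀ n, p ∈ closure (x '' Ici n)) : CompactSpace (X j) := by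
  classical
  refine ⟨isCompact_of_finite_subcover fun {ι} O hO hc => ?_⟩
  have hcj : Continuous fun e : D => e.1 j := (continuous_apply j).comp continuous_subtype_val
  obtain ⟨v, hv, hvc, hlf, hvu⟩ := precise_refinement (fun a => {e : D | e.1 j ∈ O a})
    (fun a => (hO a).preimage hcj)
    (eq_univ_of_forall fun d => by simpa using hc (mem_univ (d.1 j)))
  choose δ hδ hs using fun x : X j => spec hD (Function.update y j x)
  choose a ha using fun x : X j => mem_iUnion.1 (hvc.ge (mem_univ ⟨δ x, hδ x⟩))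
  by_cases hf : (range a).Finite
  · refine ⟨hf.toFinset, fun x _ => mem_iUnion₂.2 ⟨a x, by simp, ?_⟩⟩
    have := specializes_iff_forall_open.1 (specializes_pi.1 (hs x) j) _ (hO (a x)) (hvu _ (ha x))
    simpa using this
  exfalso
  choose x hx using fun n => (Set.Infinite.natEmbedding _ hf n).2
  obtain ⟨p, hp⟩ := h x
  obtain ⟨o, ho, hfin⟩ := hlf ⟨δ p, hδ p⟩
  obtain ⟨G, u, hu, hpu, hG⟩ := box ho
  have hinj : Function.Injective fun n => a (x n) := by
    intro n m e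
    simp only [hx] at e
    exact (Set.Infinite.natEmbedding _ hf).injective (Subtype.ext e)
  obtain ⟨N, hN⟩ := (hfin.preimage hinj.injOn).bddAbove
  obtain ⟨_, h1, m, hm, rfl⟩ := mem_closure_iff.1 (hp (N + 1)) _
    ((isOpen_box hu).preimage (continuous_const.update j continuous_id :
      Continuous fun x : X j => Function.update y j x))
    (specializes_iff_forall_open.1 (hs p) _ (isOpen_box hu) hpu)
  obtain ⟨G', u', hu', hpu', hG'⟩ := box ((hv _).mem_nhds (ha (x m)))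
  have h2 := specializes_iff_forall_open.1 (hs (x m)) _ (isOpen_box hu') hpu'
  obtain ⟨w, hw, h3, h4⟩ := meet hD (y := Function.update y j (x m)) h1 h2
    fun i hi hj => ⟨h1 i hi, h2 i hj⟩
  have : m ≤ N := hN ⟨⟨w, hw⟩, hG' _ h4, hG _ h3⟩
  have : N + 1 ≤ m := hm
  omega

end Pool.Agent.H13.Fill
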