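import Mathlib

open Subgroup
open scoped commutatorElement

namespace Pool.Agent.H13.Form8

/-- Gaschuetz: nilpotency lifts through Frattini extensions. -/
lemma gasch {H K : Type} [Group H] [Group K] [Finite H] (f : H →* K) (hf : Function.Surjective f)
    (hk : ∀ M : Subgroup H, IsCoatom M → f.ker ≤ M) (N : Subgroup K) [N.Normal]
    [Group.IsNilpotent N] : Group.IsNilpotent (N.comap f) := by
  have : Finite K := Finite.of_surjective f hf
  refine (Group.isNilpotent_of_finite_tfae.out 0 3 rfl rfl).mpr fun p hp P => ?_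
  have hg := MonoidHom.subgroupComap_surjective_of_surjective f N hf
  let S := P.mapSurjective hg
  have : (S : Subgroup N).Characteristic := Sylow.characteristic_of_normal S inferInstance
  let P' := (P : Subgroup (N.comap f)).map (N.comap f).subtype
  let M := ((S : Subgroup N).map N.subtype).comap f
  have hM : M = P' ⊔ f.ker := by
    rw [← comap_map_eq]
    simp only [M, S, P', Sylow.coe_mapSurjective, map_map]
    rfl
  have hPM : P' ≤ M := hM ▸ le_sup_left
  have hML : M ≤ N.comap f := comap_mono (map_subtype_le _)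
  have hp' : IsPGroup p P' := P.2.map _
  have hi : ¬ p ∣ (P'.subgroupOf M).index := by
    intro h
    refine P.not_dvd_index ?_
    have e : (P : Subgroup (N.comap f)) = P'.subgroupOf (N.comap f) :=
      (comap_map_eq_self_of_injective (subtype_injective _) _).symm
    rw [e]
    exact h.trans (Dvd.intro _ (relIndex_mul_relIndex P' M _ hPM hML))
  have h1 := Sylow.normalizer_sup_eq_top ((hp'.comap_subtype (K := M)).toSylow hi)
  have e : Subgroup.map M.subtype ((hp'.comap_subtype (K := M)).toSylow hi : Subgroup M) = P' :=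
    map_subgroupOf_eq_of_le hPM
  rw [e, hM, ← sup_assoc, sup_of_le_left le_normalizer] at h1
  have h2 : normalizer (P' : Set H) = ⊤ := by
    by_contra h
    obtain ⟨C, hC, hle⟩ := (eq_top_or_exists_le_coatom _).resolve_left h
    exact hC.1 (top_le_iff.1 (h1.ge.trans (sup_le hle (hk C hC))))
  have h3 : P'.Normal := normalizer_eq_top_iff.1 h2
  have := h3.comap (N.comap f).subtype
  rwa [comap_map_eq_self_of_injective (subtype_injective _)] at this

def E (H : Type) [Group H] : Subgroup H := closure (Set.range fun g : H => g ^ 8)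

lemma E_map {H K : Type} [Group H] [Group K] (f : H →* K) : E H ≤ (E K).comap f := by
  refine (closure_le _).2 ?_
  rintro _ ⟨g, rfl⟩
  exact subset_closure ⟨f g, by simp⟩

lemma E_map' {H K : Type} [Group H] [Group K] (f : H →* K) (hf : Function.Surjective f) :
    E K ≤ (E H).map f := by
  refine (closure_le _).2 ?_
  rintro _ ⟨g, rfl⟩
  obtain ⟨x, rfl⟩ := hf g
  exact ⟨x ^ 8, subset_closure ⟨x, rfl⟩, by simp⟩

instance (H : Type) [Group H] : (E H).Normal :=
  ⟨fun n hn g => E_map (MulAut.conj g).toMonoidHom hn⟩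

def F (H : Type) [Group H] : Prop := Group.IsNilpotent (E H)

lemma nil_inj {H K : Type} [Group H] [Group K] [Group.IsNilpotent K] (f : H →* K)
    (hf : Function.Injective f) : Group.IsNilpotent H :=
  Group.nilpotent_of_mulEquiv (MonoidHom.ofInjective hf).symm

lemma F1 (H K : Type) [Group H] [Group K] (f : H →* K) (hf : Function.Surjective f) (h : F H) :
    F K := by
  have : Group.IsNilpotent (E H) := h
  have := Group.nilpotent_of_surjective _ (f.subgroupMap_surjective (E H))
  exact nil_inj (inclusion (E_map' f hf)) (inclusion_injective _)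

lemma F2 (K₁ K₂ : Type) [Group K₁] [Group K₂] (T : Subgroup (K₁ × K₂)) (h1 : F K₁) (h2 : F K₂) :
    F T := by
  have : Group.IsNilpotent (E K₁) := h1
  have : Group.IsNilpotent (E K₂) := h2
  let a : T →* K₁ := (MonoidHom.fst _ _).comp T.subtype
  let b : T →* K₂ := (MonoidHom.snd _ _).comp T.subtype
  refine nil_inj (((a.comp (E T).subtype).codRestrict (E K₁) fun x => E_map a x.2).prod
    ((b.comp (E T).subtype).codRestrict (E K₂) fun x => E_map b x.2)) fun x y h => ?_
  exact Subtype.ext (Subtype.ext (Prod.ext (congrArg (·.1.1) h) (congrArg (·.2.1) h)))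

lemma F3 (H K : Type) [Group H] [Group K] [Finite H] (f : H →* K) (hf : Function.Surjective f)
    (hk : ∀ M : Subgroup H, IsCoatom M → f.ker ≤ M) (h : F K) : F H := by
  have : Group.IsNilpotent (E K) := h
  have := gasch f hf hk (E K)
  exact nil_inj (inclusion (E_map f)) (inclusion_injective _)

lemma iter {H : Type} [Group H] (N : Subgroup H) [Group.IsNilpotent N] {x s : H} (hx : x ∈ N)
    (hs : s ∈ N) : ∃ n, (fun y => ⁅y, s⁆)^[n] x = 1 := by
  obtain ⟨n, hn⟩ := Subgroup.nilpotent_iff_lowerCentralSeries.1 ‹Group.IsNilpotent N›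
  have : ∀ m, ∃ y ∈ (⊤ : Subgroup N).lowerCentralSeries m, (y : H) = (fun y => ⁅y, s⁆)^[m] x := by
    intro m
    induction m with
    | zero => exact ⟨⟨x, hx⟩, trivial, rfl⟩
    | succ m ih =>
      obtain ⟨y, hy, e⟩ := ih
      refine ⟨⁅y, ⟨s, hs⟩⁆, commutator_mem_commutator hy trivial, ?_⟩
      rw [Function.iterate_succ_apply', ← e]
      rfl
  obtain ⟨y, hy, e⟩ := this n
  rw [hn, mem_bot] at hy
  exact ⟨n, by rw [← e, hy]; rfl⟩

end Pool.Agent.H13.Form8
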