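import Mathlib
import Pool.Agent.H13.Form8

open Subgroup
open scoped commutatorElement

namespace Pool.Agent.H13.Form8

instance : Fact (Nat.Prime 3) := ⟨by norm_num⟩
abbrev K := GaloisField 3 4
noncomputable abbrev U := rootsOfUnity 16 K
noncomputable abbrev φ : K →+* K := frobenius K 3
noncomputable def c : U →* K := (Units.coeHom K).comp U.subtype

lemma cK : Nat.card K = 81 := by simpa using GaloisField.card 3 4 (by norm_num)
lemma c16 (u : U) : c u ^ 16 = 1 := (mem_rootsOfUnity' _ _).1 u.2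
lemma c_inj : Function.Injective c := fun _ _ h => Subtype.ext (Units.ext h)
lemma p80 {x : K} (h : x ≠ 0) : x ^ 80 = 1 := by
  have := Fintype.ofFinite K
  have h1 := FiniteField.pow_card_sub_one_eq_one x h
  rwa [← Nat.card_eq_fintype_card, cK] at h1
lemma h3 : (3 : K) = 0 := by exact_mod_cast CharP.cast_eq_zero K 3

@[ext] structure G where
  a : K
  b : K
  u : U

noncomputable def om (a a' : K) : K := a * φ a' - a' * φ a

noncomputable instance : Group G where
  mul x y := ⟨x.a + c x.u * y.a, x.b + c x.u * φ (c x.u) * y.b + om x.a (c x.u * y.a), x.u * y.u⟩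
  one := ⟨0, 0, 1⟩
  inv x := ⟨-(c x.u⁻¹ * x.a), -(c x.u⁻¹ * φ (c x.u⁻¹) * x.b), x.u⁻¹⟩
  mul_assoc x y z := by
    refine G.ext ?_ ?_ (mul_assoc _ _ _)
    · show x.a + c x.u * y.a + c (x.u * y.u) * z.a = x.a + c x.u * (y.a + c y.u * z.a)
      rw [map_mul]; ring
    · show x.b + c x.u * φ (c x.u) * y.b + om x.a (c x.u * y.a) + c (x.u * y.u) *
        φ (c (x.u * y.u)) * z.b + om (x.a + c x.u * y.a) (c (x.u * y.u) * z.a) =
        x.b + c x.u * φ (c x.u) * (y.b + c y.u * φ (c y.u) * z.b + om y.a (c y.u * z.a)) +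
        om x.a (c x.u * (y.a + c y.u * z.a))
      simp only [om, map_mul, map_add]; ring
  one_mul x := by
    refine G.ext ?_ ?_ (one_mul _)
    · show 0 + c 1 * x.a = x.a
      simp
    · show 0 + c 1 * φ (c 1) * x.b + om 0 (c 1 * x.a) = x.b
      simp [om]
  mul_one x := by
    refine G.ext ?_ ?_ (mul_one _)
    · show x.a + c x.u * 0 = x.a
      simp
    · show x.b + c x.u * φ (c x.u) * 0 + om x.a (c x.u * 0) = x.b
      simp [om]
  inv_mul_cancel x := by
    refine G.ext ?_ ?_ (inv_mul_cancel _)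
    · show -(c x.u⁻¹ * x.a) + c x.u⁻¹ * x.a = 0
      simp
    · show -(c x.u⁻¹ * φ (c x.u⁻¹) * x.b) + c x.u⁻¹ * φ (c x.u⁻¹) * x.b +
        om (-(c x.u⁻¹ * x.a)) (c x.u⁻¹ * x.a) = 0
      simp [om]

@[simp] lemma mul_a (x y : G) : (x * y).a = x.a + c x.u * y.a := rfl
@[simp] lemma mul_b (x y : G) :
    (x * y).b = x.b + c x.u * φ (c x.u) * y.b + om x.a (c x.u * y.a) := rfl
@[simp] lemma mul_u (x y : G) : (x * y).u = x.u * y.u := rfl
@[simp] lemma inv_a (x : G) : x⁻¹.a = -(c x.u⁻¹ * x.a) := rfl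
@[simp] lemma inv_b (x : G) : x⁻¹.b = -(c x.u⁻¹ * φ (c x.u⁻¹) * x.b) := rfl
@[simp] lemma inv_u (x : G) : x⁻¹.u = x.u⁻¹ := rfl
@[simp] lemma one_a : (1 : G).a = 0 := rfl
@[simp] lemma one_b : (1 : G).b = 0 := rfl
@[simp] lemma one_u : (1 : G).u = 1 := rfl

instance : Finite G := Finite.of_injective (fun x : G => (x.a, x.b, x.u)) fun x y h => by
  simp only [Prod.mk.injEq] at h
  exact G.ext h.1 h.2.1 h.2.2

noncomputable def π : G →* U := ⟨⟨G.u, rfl⟩, fun _ _ => rfl⟩
lemma π_surj : Function.Surjective π := fun u => ⟨⟨0, 0, u⟩, rfl⟩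
lemma memP {x : G} : x ∈ π.ker ↔ x.u = 1 := Iff.rfl

lemma cube {x : G} (h : x.u = 1) : x ^ 3 = 1 := by
  rw [pow_three']
  ext : 1
  · simp [h]; linear_combination x.a * h3
  · simp [h, om]; linear_combination x.b * h3
  · simp [h]

lemma pP : IsPGroup 3 π.ker := fun x => ⟨1, Subtype.ext (by simpa using cube x.2)⟩

lemma comm {x y : G} (hx : x.u = 1) (hy : y.u = 1) : ⁅x, y⁆ = ⟨0, -om x.a y.a, 1⟩ := by
  rw [commutatorElement_def]
  ext : 1
  · simp [hx, hy]
  · simp [hx, hy, om]; linear_combination (x.a * φ y.a - y.a * φ x.a) * h3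
  · simp [hx, hy]

lemma irr (W : AddSubgroup K) {u : K} (hu : ∀ w ∈ W, u * w ∈ W) (h0 : u ≠ 0) (h2 : u ^ 2 ≠ 1)
    (h8 : u ^ 8 ≠ 1) (h26 : u ^ 26 ≠ 1) : W = ⊥ ∨ W = ⊤ := by
  let T : Subring K :=
    { carrier := {x | ∀ w ∈ W, x * w ∈ W}
      mul_mem' := fun h h' w hw => by rw [mul_assoc]; exact h _ (h' w hw)
      one_mem' := by simp
      add_mem' := fun h h' w hw => by rw [add_mul]; exact W.add_mem (h w hw) (h' w hw)
      zero_mem' := by simp
      neg_mem' := fun h w hw => by rw [neg_mul]; exact W.neg_mem (h w hw) }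
  let T' : Subfield K :=
    { T with
      inv_mem' := fun x hx => by
        by_cases h : x = 0
        · rw [h, inv_zero]; exact T.zero_mem
        · rw [inv_eq_of_mul_eq_one_right (b := x ^ 79) (by rw [← pow_succ']; exact p80 h)]
          exact T.pow_mem hx 79 }
  have := Fintype.ofFinite T'
  have h1 := FiniteField.pow_card_sub_one_eq_one (⟨u, hu⟩ : T')
    (fun h => h0 (congrArg Subtype.val h))
  have h1 : u ^ (Fintype.card T' - 1) = 1 := congrArg Subtype.val h1
  have hd : Fintype.card T' ∣ 3 ^ 4 := by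
    have := T'.toAddSubgroup.card_addSubgroup_dvd_card
    rw [cK] at this
    rw [← Nat.card_eq_fintype_card]
    exact this
  obtain ⟨k, hk, e⟩ := (Nat.dvd_prime_pow (by norm_num)).1 hd
  have hl : 1 < Fintype.card T' := Fintype.one_lt_card
  have e4 : k = 4 := by
    interval_cases k
    · simp [e] at hl
    · exact (h2 (by simpa [e] using h1)).elim
    · exact (h8 (by simpa [e] using h1)).elim
    · exact (h26 (by simpa [e] using h1)).elim
    · rfl
  have hT : T'.toAddSubgroup = ⊤ := AddSubgroup.eq_top_of_card_eq _ (by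
    rw [cK]
    exact (Nat.card_eq_fintype_card (α := T')).trans (by rw [e, e4]; rfl))
  refine or_iff_not_imp_left.2 fun h => eq_top_iff.2 fun x _ => ?_
  obtain ⟨⟨w, hw⟩, hw0⟩ := AddSubgroup.ne_bot_iff_exists_ne_zero.1 h
  have hw0 : w ≠ 0 := fun h => hw0 (Subtype.ext h)
  have := (hT.ge (AddSubgroup.mem_top (x / w)) : x / w ∈ T) w hw
  rwa [div_mul_cancel₀ _ hw0] at this

lemma gen : ∃ t : K, orderOf t = 80 := by
  obtain ⟨g, hg⟩ := IsCyclic.exists_ofOrder_eq_natCard (α := Kˣ)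
  exact ⟨g, by rw [orderOf_units, hg, Nat.card_units, cK]⟩

/-- a subgroup whose first coordinates on `P` are everything contains `P`. -/
lemma full (N : Subgroup G) (h : ∀ a, ∃ b, (⟨a, b, 1⟩ : G) ∈ N) : π.ker ≤ N := by
  let S : AddSubgroup K := AddSubgroup.closure (Set.range fun p : K × K => om p.1 p.2)
  have hS : ∀ b ∈ S, (⟨0, b, 1⟩ : G) ∈ N := by
    intro b hb
    induction hb using AddSubgroup.closure_induction with
    | mem x hx =>
      obtain ⟨⟨a, a'⟩, rfl⟩ := hx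
      obtain ⟨b, hb⟩ := h a
      obtain ⟨b', hb'⟩ := h a'
      have := N.mul_mem (N.mul_mem (N.mul_mem hb' hb) (N.inv_mem hb')) (N.inv_mem hb)
      rw [← commutatorElement_def, comm rfl rfl] at this
      simpa [om] using this
    | zero => exact N.one_mem
    | add x y _ _ hx hy => convert N.mul_mem hx hy using 1; ext : 1 <;> simp [om]
    | neg x _ hx => convert N.inv_mem hx using 1; ext : 1 <;> simp
  obtain ⟨t, ht⟩ := gen
  have k : ∀ n, ¬ 80 ∣ n → t ^ n ≠ 1 := fun n hn e => hn (ht ▸ orderOf_dvd_of_pow_eq_one e)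
  have t0 : t ≠ 0 := by rintro rfl; simp at ht
  have hT : S = ⊤ := by
    refine (irr S (u := t ^ 4) (fun w hw => ?_) (pow_ne_zero _ t0) ?_ ?_ ?_).resolve_left fun e => ?_
    · induction hw using AddSubgroup.closure_induction with
      | mem x hx =>
        obtain ⟨⟨a, a'⟩, rfl⟩ := hx
        refine AddSubgroup.subset_closure ⟨(t * a, t * a'), ?_⟩
        simp only [om, frobenius_def]; ring
      | zero => simp
      | add x y _ _ hx hy => rw [mul_add]; exact S.add_mem hx hy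
      | neg x _ hx => rw [mul_neg]; exact S.neg_mem hx
    · rw [← pow_mul]; exact k _ (by norm_num)
    · rw [← pow_mul]; exact k _ (by norm_num)
    · rw [← pow_mul]; exact k _ (by norm_num)
    · have : om t 1 ∈ S := AddSubgroup.subset_closure ⟨(t, 1), rfl⟩
      rw [e, AddSubgroup.mem_bot, om, frobenius_def, frobenius_def] at this
      refine k 2 (by norm_num) (mul_left_cancel₀ t0 ?_)
      linear_combination -this
  rintro ⟨a, b, u⟩ hu
  obtain rfl : u = 1 := hu
  obtain ⟨b', hb⟩ := h a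
  convert N.mul_mem hb (hS (b - b') (hT ▸ trivial)) using 1
  ext : 1 <;> simp [om]

lemma exs : ∃ v : U, c v = -1 ∧ ∃ w, w ^ 8 = v := by
  obtain ⟨t, ht⟩ := gen
  have t0 : t ≠ 0 := by rintro rfl; simp at ht
  let w : U := ⟨Units.mk0 t t0 ^ 5, (mem_rootsOfUnity' _ _).2 (by
    simpa [← pow_mul] using p80 t0)⟩
  refine ⟨w ^ 8, ?_, w, rfl⟩
  have e : c (w ^ 8) = t ^ 40 := by simp [c, w, ← pow_mul]
  rw [e]
  refine (mul_self_eq_one_iff.1 (by rw [← pow_add]; exact p80 t0)).resolve_left fun h => ?_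
  have := orderOf_dvd_of_pow_eq_one h
  rw [ht] at this
  norm_num at this

lemma PE {x : G} (h : x.u = 1) : x ∈ E G := by
  have : x = x⁻¹ ^ 8 := by
    rw [inv_pow, eq_inv_iff_mul_eq_one, ← pow_succ', show 8 + 1 = 3 * 3 from rfl, pow_mul, cube h,
      one_pow]
  rw [this]
  exact subset_closure ⟨_, rfl⟩

lemma ker_ge (H : Type) [Group H] (hH : F H) (f : G →* H) : π.ker ≤ f.ker := by
  have : Group.IsNilpotent (E H) := hH
  obtain ⟨v, hv, w, hw⟩ := exs
  have hs : (⟨0, 0, v⟩ : G) ∈ E G := by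
    refine subset_closure ⟨⟨0, 0, w⟩, ?_⟩
    have : ∀ n, (⟨0, 0, w⟩ : G) ^ n = ⟨0, 0, w ^ n⟩ := by
      intro n
      induction n with
      | zero => rw [pow_zero, pow_zero]; rfl
      | succ n ih => rw [pow_succ, ih]; ext : 1 <;> simp [om, pow_succ]
    simp only [this, hw]
  refine full _ fun a => ?_
  obtain ⟨n, hn⟩ := iter (E H) (E_map f (PE (x := ⟨a, 0, 1⟩) rfl)) (E_map f hs)
  have : ∀ m, ∃ b : K, (fun y => ⁅y, f ⟨0, 0, v⟩⁆)^[m] (f ⟨a, 0, 1⟩) = f ⟨a, b, 1⟩ ∨
      (fun y => ⁅y, f ⟨0, 0, v⟩⁆)^[m] (f ⟨a, 0, 1⟩) = f ⟨-a, b, 1⟩ := by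
    have k : ∀ a b : K, ∃ b', ⁅f ⟨a, b, 1⟩, f ⟨0, 0, v⟩⁆ = f ⟨-a, b', 1⟩ := by
      intro a b
      refine ⟨⁅(⟨a, b, 1⟩ : G), (⟨0, 0, v⟩ : G)⁆.b, ?_⟩
      rw [← map_commutatorElement]
      congr 1
      ext : 1
      · simp [commutatorElement_def, hv]; linear_combination a * h3
      · rfl
      · simp [commutatorElement_def]
    intro m
    induction m with
    | zero => exact ⟨0, .inl rfl⟩
    | succ m ih =>
      obtain ⟨b, h | h⟩ := ih
      · obtain ⟨b', h'⟩ := k a b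
        exact ⟨b', .inr (by rw [Function.iterate_succ_apply', h, h'])⟩
      · obtain ⟨b', h'⟩ := k (-a) b
        exact ⟨b', .inl (by rw [Function.iterate_succ_apply', h, h', neg_neg])⟩
  obtain ⟨b, h | h⟩ := this n
  · exact ⟨b, h.symm.trans hn⟩
  · refine ⟨-b, ?_⟩
    convert f.ker.inv_mem (h.symm.trans hn) using 1
    ext : 1 <;> simp

lemma FU : F U := inferInstanceAs (Group.IsNilpotent (E U))

lemma notF : ¬ F G := fun h => by
  have := ker_ge G h (MonoidHom.id G) (x := ⟨1, 0, 1⟩) rfl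
  exact one_ne_zero (congrArg G.a this)

lemma u16 (u : U) : u ^ 16 = 1 := c_inj (by rw [map_pow, c16, map_one])

lemma proper (N : Subgroup G) (hN : N ≠ ⊤) : F N := by
  have hE : ∀ T : Subgroup U, (∀ g ∈ N, g.u ^ 8 ∈ T) → ∀ x ∈ E N, (x : G).u ∈ T := by
    intro T hT
    refine (closure_le (T.comap (π.comp N.subtype))).2 ?_
    rintro _ ⟨g, rfl⟩
    show (π.comp N.subtype) (g ^ 8) ∈ T
    rw [map_pow]
    exact hT g g.2
  by_cases h : ∀ g ∈ N, g.u ^ 8 = 1
  · refine IsPGroup.isNilpotent (p := 3) fun x => ⟨1, Subtype.ext (Subtype.ext ?_)⟩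
    simpa using cube (hE ⊥ h x x.2)
  push Not at h
  obtain ⟨g, hg, hg8⟩ := h
  have h8 : c g.u ^ 8 ≠ 1 := fun e => hg8 (c_inj (by rw [map_pow, e, map_one]))
  let W : AddSubgroup K :=
    { carrier := {a | ∃ b, (⟨a, b, 1⟩ : G) ∈ N}
      add_mem' := by
        rintro a a' ⟨b, hb⟩ ⟨b', hb'⟩
        refine ⟨b + b' + om a a', ?_⟩
        convert N.mul_mem hb hb' using 1
        ext : 1 <;> simp
      zero_mem' := ⟨0, N.one_mem⟩
      neg_mem' := by
        rintro a ⟨b, hb⟩
        refine ⟨-b, ?_⟩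
        convert N.inv_mem hb using 1
        ext : 1 <;> simp }
  have hci : c g.u * c g.u⁻¹ = 1 := by rw [← map_mul, mul_inv_cancel, map_one]
  have h2 : c g.u ^ 2 ≠ 1 := fun e => h8 (by rw [show 8 = 2 * 4 from rfl, pow_mul, e, one_pow])
  rcases irr W (u := c g.u) (by
      rintro a ⟨b, hb⟩
      refine ⟨(g * ⟨a, b, 1⟩ * g⁻¹).b, ?_⟩
      convert N.mul_mem (N.mul_mem hg hb) (N.inv_mem hg) using 1
      ext : 1
      · simp only [mul_a, mul_u, inv_a, mul_one]
        linear_combination g.a * hci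
      · rfl
      · simp) (left_ne_zero_of_mul_eq_one hci) h2 h8
      (fun e => h2 (by
        have := c16 g.u
        linear_combination (-(c g.u) ^ 2 * ((c g.u) ^ 64 + (c g.u) ^ 48 + (c g.u) ^ 32 +
          (c g.u) ^ 16 + 1) + (c g.u) ^ 2 * (c g.u) ^ 64 + (c g.u) ^ 2 * (c g.u) ^ 48 +
          (c g.u) ^ 2 * (c g.u) ^ 32 + (c g.u) ^ 2 * (c g.u) ^ 16 + (c g.u) ^ 2 - (c g.u) ^ 2 *
          ((c g.u) ^ 112 + (c g.u) ^ 96 + (c g.u) ^ 80 + (c g.u) ^ 64 + (c g.u) ^ 48 +
          (c g.u) ^ 32 + (c g.u) ^ 16 + 1)) * this + ((c g.u) ^ 104 + (c g.u) ^ 78 + (c g.u) ^ 52 +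
          (c g.u) ^ 26 + 1) * e)) with hW | hW
  · have k0 : ∀ x ∈ N, x.u = 1 → x.a = 0 := by
      intro x hx hu
      have : x.a ∈ W := ⟨x.b, by rw [← hu]; exact hx⟩
      rwa [hW, AddSubgroup.mem_bot] at this
    have k1 : ∀ x ∈ E N, c (x : G).u = 1 ∨ c (x : G).u = -1 := by
      intro x hx
      have := hE (powMonoidHom 2).ker (fun g _ => by
        rw [MonoidHom.mem_ker, powMonoidHom_apply, ← pow_mul, u16]) x hx
      rw [MonoidHom.mem_ker, powMonoidHom_apply] at this
      exact mul_self_eq_one_iff.1 (by rw [← map_mul, ← pow_two, this, map_one])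
    have k2 : ∀ x y : G, x.u = 1 → x.a = 0 → (c y.u = 1 ∨ c y.u = -1) → x * y = y * x := by
      intro x y hu ha hy
      ext : 1
      · simp [hu, ha]
      · rcases hy with h | h <;> simp [hu, ha, h, om, add_comm]
      · simp [hu]
    have : IsMulCommutative (E N) := by
      refine ⟨⟨fun x y => Subtype.ext (Subtype.ext ?_)⟩⟩
      show (x : G) * y = y * x
      rcases k1 x x.2 with h | h
      · have h := c_inj (h.trans (map_one c).symm)
        exact k2 _ _ h (k0 _ x.1.2 h) (k1 y y.2)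
      rcases k1 y y.2 with h' | h'
      · have h' := c_inj (h'.trans (map_one c).symm)
        exact (k2 _ _ h' (k0 _ y.1.2 h') (k1 x x.2)).symm
      have e : ((x : G) * (y : G)⁻¹).u = 1 := by simp [c_inj (h.trans h'.symm)]
      have := k2 _ y e (k0 _ (N.mul_mem x.1.2 (N.inv_mem y.1.2)) e) (.inr h')
      rw [inv_mul_cancel_right] at this
      calc (x : G) * y = (y * (x * (y : G)⁻¹)) * y := by rw [← this]
        _ = _ := by group
    exact @CommGroup.isNilpotent (E N) { (inferInstance : Group (E N)) with mul_comm := this.1.1 }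
  · refine (hN (eq_top_iff.2 fun x _ => ?_)).elim
    have hP := full N fun a => (hW.ge trivial : a ∈ W)
    have hpr : IsPrimitiveRoot (c g.u) 16 := by
      have := orderOf_eq_prime_pow (p := 2) (n := 3) h8 (c16 g.u)
      exact (show orderOf (c g.u) = 16 from this) ▸ IsPrimitiveRoot.orderOf _
    obtain ⟨i, -, hi⟩ := hpr.eq_pow_of_pow_eq_one (c16 x.u)
    have : x * (g ^ i)⁻¹ ∈ π.ker := by
      rw [MonoidHom.mem_ker, map_mul, map_inv, map_pow, mul_inv_eq_one]
      exact c_inj (by rw [map_pow]; exact hi.symm)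
    simpa using N.mul_mem (hP this) (N.pow_mem hg i)

lemma solv : IsSolvable G := by
  have := pP.isNilpotent
  exact Group.isSolvable_of_ker_le_range π.ker.subtype π (by simp)

lemma idx : ¬ 3 ∣ π.ker.index := by
  rw [index_ker, MonoidHom.range_eq_top.2 π_surj, card_top]
  intro h
  obtain ⟨x, hx⟩ := exists_prime_orderOf_dvd_card' 3 h
  have := orderOf_dvd_of_pow_eq_one (u16 x)
  rw [hx] at this
  norm_num at this

lemma noquot {L : Type} [Field L] [CharP L 3] [Finite L] (n : ℕ) (hc : Nat.card L = 3 ^ (2 * n))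
    (σ : L →+* L) (hσ : ∀ x, σ (σ x) = x) (ψ : L × L → G)
    (h1 : ∀ x : L × L, x.2 + σ x.2 + σ x.1 * x.1 = 0 → ψ x ∈ π.ker)
    (h2 : ∀ g ∈ π.ker, ∃ x : L × L, x.2 + σ x.2 + σ x.1 * x.1 = 0 ∧ ψ x = g)
    (hm : ∀ x y : L × L, x.2 + σ x.2 + σ x.1 * x.1 = 0 → y.2 + σ y.2 + σ y.1 * y.1 = 0 →
      ψ (x.1 + y.1, x.2 + y.2 - x.1 * σ y.1) = ψ x * ψ y) : False := by
  have t3 : (3 : L) = 0 := by exact_mod_cast CharP.cast_eq_zero L 3
  have hn : 81 < Nat.card L := by
    choose ξ hξ e using fun p : K × K => h2 ⟨p.1, p.2, 1⟩ rfl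
    have := Nat.card_le_card_of_injective (fun o : Option (K × K) => o.elim (0, 1) ξ) (by
      have k : ∀ p, ξ p ≠ (0, 1) := fun p h => by
        have := hξ p
        rw [h] at this
        simp only [map_one, map_zero, mul_zero, add_zero] at this
        exact one_ne_zero (α := L) (by linear_combination t3 - this)
      rintro (_ | p) (_ | q) h
      · rfl
      · exact (k q h.symm).elim
      · exact (k p h).elim
      · have : (⟨p.1, p.2, 1⟩ : G) = ⟨q.1, q.2, 1⟩ := by rw [← e, ← e]; exact congrArg ψ h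
        exact congrArg some (Prod.ext (congrArg G.a this) (congrArg G.b this)))
    rw [Finite.card_option, Nat.card_prod, Nat.card_prod, cK] at this
    nlinarith
  have hs : ∀ a : L, a * σ a + σ (a * σ a) + σ a * a = 0 := fun a => by
    rw [map_mul, hσ]; linear_combination a * σ a * t3
  have hcl : ∀ x y : L × L, x.2 + σ x.2 + σ x.1 * x.1 = 0 → y.2 + σ y.2 + σ y.1 * y.1 = 0 →
      (x.2 + y.2 - x.1 * σ y.1) + σ (x.2 + y.2 - x.1 * σ y.1) + σ (x.1 + y.1) * (x.1 + y.1) = 0 := by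
    intro x y hx hy
    simp only [map_add, map_sub, map_mul, hσ]
    linear_combination hx + hy
  have h0 : ψ (0, 0) = 1 := by
    have := hm (0, 0) (0, 0) (by simp) (by simp)
    simpa using this
  have hz : ∀ x y : L × L, x.2 + σ x.2 + σ x.1 * x.1 = 0 → y.2 + σ y.2 + σ y.1 * y.1 = 0 →
      ψ x * ψ y = ψ y * ψ x * ψ (0, y.1 * σ x.1 - x.1 * σ y.1) := by
    intro x y hx hy
    rw [← hm x y hx hy, ← hm y x hy hx, ← hm _ (0, _) (hcl y x hy hx) (by
      simp only [map_sub, map_mul, hσ]; ring)]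
    congr 2
    · simp [add_comm]
    · simp only [map_zero]; ring
  have := Fintype.ofFinite L
  have := Fintype.ofFinite K
  obtain ⟨a, a', hne, e⟩ := Fintype.exists_ne_map_eq_of_card_lt (fun a : L => (ψ (a, a * σ a)).a)
    (by rw [← Nat.card_eq_fintype_card, ← Nat.card_eq_fintype_card, cK]; exact hn)
  have e1 := hm (a', a' * σ a') (-a', -a' * σ (-a')) (hs _) (hs _)
  rw [show ((a', a' * σ a').1 + (-a', -a' * σ (-a')).1, (a', a' * σ a').2 + (-a', -a' * σ (-a')).2 -
    (a', a' * σ a').1 * σ (-a', -a' * σ (-a')).1) = (0, 0) from Prod.ext (by simp) (by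
      simp only [map_neg]; linear_combination a' * σ a' * t3), h0] at e1
  have e2 := hm (a, a * σ a) (-a', -a' * σ (-a')) (hs _) (hs _)
  have hx := hcl (a, a * σ a) (-a', -a' * σ (-a')) (hs _) (hs _)
  have hA := congrArg G.a e2
  have hA' := congrArg G.a e1
  rw [mul_a, memP.1 (h1 (_, _) (hs _))] at hA hA'
  rw [show (ψ (a, a * σ a)).a = _ from e, ← hA', one_a] at hA
  generalize (a, a * σ a).2 + _ - _ = b at hx hA
  have hd : a + -a' ≠ 0 := fun h => hne (by linear_combination h)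
  change b + σ b + σ (a + -a') * (a + -a') = 0 at hx
  change (ψ (a + -a', b)).a = 0 at hA
  generalize a + -a' = d at hx hA hd
  have hd' : σ d ≠ 0 := (map_ne_zero σ).2 hd
  have key : ∀ t, t + σ t = 0 → ψ (0, t) = 1 := by
    intro t ht
    have := hz (d, b) (-t / σ d, -t / σ d * σ (-t / σ d)) hx (hs _)
    rw [show (-t / σ d, -t / σ d * σ (-t / σ d)).1 * σ (d, b).1 - (d, b).1 *
      σ (-t / σ d, -t / σ d * σ (-t / σ d)).1 = t by
        simp only [map_div₀, map_neg, hσ]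
        field_simp
        linear_combination ht - t * t3] at this
    rw [← mul_right_inj (ψ (-t / σ d, -t / σ d * σ (-t / σ d)) * ψ (d, b)), ← this, mul_one,
      ← commutatorElement_eq_one_iff_mul_comm, comm (h1 (d, b) hx) (h1 (_, _) (hs _)), hA]
    ext : 1 <;> simp [om]
  obtain ⟨t, ht⟩ := gen
  obtain ⟨x, hx, ex⟩ := h2 ⟨t, 0, 1⟩ rfl
  obtain ⟨y, hy, ey⟩ := h2 ⟨1, 0, 1⟩ rfl
  have := hz x y hx hy
  rw [key _ (by simp only [map_sub, map_mul, hσ]; ring), mul_one, ex, ey,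
    ← commutatorElement_eq_one_iff_mul_comm, comm rfl rfl] at this
  have := congrArg G.b this
  simp only [om, frobenius_def, one_b] at this
  have t0 : t ≠ 0 := by rintro rfl; simp at ht
  have h2 : t ^ 2 = 1 := mul_left_cancel₀ t0 (by linear_combination this)
  have := orderOf_dvd_of_pow_eq_one h2
  rw [ht] at this
  norm_num at this

end Pool.Agent.H13.Form8
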