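import Mathlib

/-! Gap between subspaces: the averaging argument. -/

namespace Pool.Agent.H13.Gap

open Cardinal Set

universe u

variable {𝕜 : Type} [RCLike 𝕜] {E : Type u} [NormedAddCommGroup E] [NormedSpace 𝕜 E]

/-- every vector of `G₁` is within `0.56 ‖x‖` of `G₂` -/
def Near (G₁ G₂ : Submodule 𝕜 E) : Prop :=
  ∀ x ∈ G₁, ∃ y ∈ G₂, ‖x - y‖ ≤ 0.56 * ‖x‖

def Small (G : Submodule 𝕜 E) (l : Cardinal.{u}) (T : Set E) : Prop :=
  ∃ S : Set E, S ⊆ G ∧ #S < l ∧ ∀ x ∈ T, ∃ w ∈ Submodule.span 𝕜 S, ‖x - w‖ ≤ 0.99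

theorem cover {G : Submodule 𝕜 E} {l : Cardinal.{u}} (hl : l.IsRegular) {T D : Set E}
    (hD : #D < l) (U : E → Set E) (hT : ∀ x ∈ T, ∃ d ∈ D, x ∈ U d) (hn : ¬ Small G l T) :
    ∃ d ∈ D, ¬ Small G l (T ∩ U d) := by
  by_contra hc
  push Not at hc
  choose S hS1 hS2 hS3 using hc
  apply hn
  refine ⟨⋃ d : D, S d.1 d.2, ?_, ?_, ?_⟩
  · exact iUnion_subset fun d => hS1 d.1 d.2
  · exact (card_iUnion_lt_iff_forall_of_isRegular hl hD).2 fun d => hS2 d.1 d.2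
  · intro x hx
    obtain ⟨d, hd, hxd⟩ := hT x hx
    obtain ⟨w, hw, hxw⟩ := hS3 d hd x ⟨hx, hxd⟩
    exact ⟨w, Submodule.span_mono (subset_iUnion (fun d : D => S d.1 d.2) ⟨d, hd⟩) hw, hxw⟩

theorem small_sphere {G₁ G₂ : Submodule 𝕜 E} (h12 : Near G₁ G₂) (h21 : Near G₂ G₁)
    {l : Cardinal.{u}} (hl : l.IsRegular) {D : Set E} (hD : #D < l) (hDG : D ⊆ G₂)
    (hnet : ∀ y ∈ G₂, ‖y‖ ≤ 3 → ∃ d ∈ D, ‖y - d‖ ≤ 0.001) :
    Small G₁ l {x | x ∈ G₁ ∧ ‖x‖ = 1} := by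
  by_contra hn
  obtain ⟨d₀, -, hd₀⟩ := cover hl hD (fun d => {x | ‖x - d‖ ≤ 0.561}) (T := {x | x ∈ G₁ ∧ ‖x‖ = 1})
    (by
      rintro x ⟨hx, hx1⟩
      obtain ⟨y, hy, hxy⟩ := h12 x hx
      have h1 : ‖y‖ ≤ 3 := by
        have := norm_sub_norm_le y x
        rw [norm_sub_rev] at this
        linarith
      obtain ⟨d, hd, hyd⟩ := hnet y hy h1
      refine ⟨d, hd, ?_⟩
      have := norm_sub_le_norm_sub_add_norm_sub x y d
      show ‖x - d‖ ≤ 0.561
      linarith) hn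
  set T₁ := {x | x ∈ G₁ ∧ ‖x‖ = 1} ∩ {x | ‖x - d₀‖ ≤ 0.561} with hT₁
  have key : ∀ n : ℕ, ∃ T ⊆ T₁, ¬ Small G₁ l T ∧ ∃ X ∈ G₁, ∃ Y ∈ G₂, ∀ x ∈ T,
      ‖(n : 𝕜) • x - X - Y‖ ≤ n * 0.63 ∧ ‖x - Y‖ ≤ n * 0.63 + 1 := by
    intro n
    induction n with
    | zero =>
      refine ⟨T₁, subset_rfl, hd₀, 0, G₁.zero_mem, 0, G₂.zero_mem, ?_⟩
      rintro x ⟨⟨-, hx⟩, -⟩
      simp [hx]
    | succ n ih =>
      obtain ⟨T, hT, hTs, X, hX, Y, hY, hXY⟩ := ih
      have hne : T.Nonempty := by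
        by_contra h
        rw [not_nonempty_iff_eq_empty] at h
        apply hTs
        refine ⟨∅, empty_subset _, by simpa using hl.pos, ?_⟩
        simp [h]
      obtain ⟨x', hx'⟩ := hne
      obtain ⟨d, hd, hdn⟩ := cover hl hD (fun d => {x | ‖x - x' - d‖ ≤ 0.63}) (T := T)
        (by
          intro x hx
          obtain ⟨⟨hxG, -⟩, hxd⟩ := hT hx
          obtain ⟨⟨hxG', -⟩, hxd'⟩ := hT hx'
          have h0 : ‖x - x'‖ ≤ 1.122 := by
            have := norm_sub_le_norm_sub_add_norm_sub x d₀ x'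
            rw [norm_sub_rev d₀] at this
            have h1 : ‖x - d₀‖ ≤ 0.561 := hxd
            have h2 : ‖x' - d₀‖ ≤ 0.561 := hxd'
            linarith
          obtain ⟨y, hy, hxy⟩ := h12 (x - x') (G₁.sub_mem hxG hxG')
          have h1 : ‖y‖ ≤ 3 := by
            have := norm_sub_norm_le y (x - x')
            rw [norm_sub_rev y] at this
            linarith
          obtain ⟨d, hd, hyd⟩ := hnet y hy h1
          refine ⟨d, hd, ?_⟩
          have := norm_sub_le_norm_sub_add_norm_sub (x - x') y d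
          show ‖x - x' - d‖ ≤ 0.63
          linarith) hTs
      refine ⟨_, inter_subset_left.trans hT, hdn, X + x', G₁.add_mem hX (hT hx').1.1, Y + d,
        G₂.add_mem hY (hDG hd), ?_⟩
      rintro x ⟨hx, hxd⟩
      have hxd : ‖x - x' - d‖ ≤ 0.63 := hxd
      constructor
      · have e : ((n + 1 : ℕ) : 𝕜) • x - (X + x') - (Y + d)
            = ((n : 𝕜) • x - X - Y) + (x - x' - d) := by
          push_cast
          rw [add_smul, one_smul]
          abel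
        rw [e]
        have := norm_add_le ((n : 𝕜) • x - X - Y) (x - x' - d)
        have := (hXY x hx).1
        push_cast
        linarith
      · have e : x - (Y + d) = (x - x' - d) + (x' - Y) := by abel
        rw [e]
        have := norm_add_le (x - x' - d) (x' - Y)
        have := (hXY x' hx').2
        push_cast
        linarith
  obtain ⟨T, hT, hTs, X, hX, Y, hY, hXY⟩ := key 1000
  obtain ⟨Z, hZ, hYZ⟩ := h21 Y hY
  apply hTs
  refine ⟨{X + Z}, by simpa using G₁.add_mem hX hZ, by simpa using hl.nat_lt 1, ?_⟩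
  intro x hx
  obtain ⟨h1, h2⟩ := hXY x hx
  have hx1 : ‖x‖ = 1 := (hT hx).1.2
  have h3 : ‖Y‖ ≤ 632 := by
    have := norm_sub_norm_le Y x
    rw [norm_sub_rev] at this
    push_cast at h2
    linarith
  refine ⟨((1000 : ℕ) : 𝕜)⁻¹ • (X + Z), Submodule.smul_mem _ _ (Submodule.subset_span rfl), ?_⟩
  have hne : ((1000 : ℕ) : 𝕜) ≠ 0 := by norm_num
  have e : x - ((1000 : ℕ) : 𝕜)⁻¹ • (X + Z)
      = ((1000 : ℕ) : 𝕜)⁻¹ • ((((1000 : ℕ) : 𝕜) • x - X - Y) + (Y - Z)) := by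
    have : x = ((1000 : ℕ) : 𝕜)⁻¹ • (((1000 : ℕ) : 𝕜) • x) := by
      rw [smul_smul, inv_mul_cancel₀ hne, one_smul]
    conv_lhs => rw [this]
    rw [← smul_sub]
    congr 1
    abel
  rw [e, norm_smul, norm_inv, RCLike.norm_natCast]
  have := norm_add_le (((1000 : ℕ) : 𝕜) • x - X - Y) (Y - Z)
  push_cast at h1 this ⊢
  rw [inv_mul_le_iff₀ (by norm_num)]
  linarith

theorem closure_of_small {G : Submodule 𝕜 E} {l : Cardinal.{u}}
    (h : Small G l {x | x ∈ G ∧ ‖x‖ = 1}) :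
    ∃ S : Set E, S ⊆ G ∧ #S < l ∧ (G : Set E) ⊆ closure (Submodule.span 𝕜 S : Set E) := by
  obtain ⟨S, hS, hl, hw⟩ := h
  refine ⟨S, hS, hl, ?_⟩
  have hle : Submodule.span 𝕜 S ≤ G := Submodule.span_le.2 hS
  have h1 : ∀ x ∈ G, ∃ w ∈ Submodule.span 𝕜 S, ‖x - w‖ ≤ 0.99 * ‖x‖ := by
    intro x hx
    by_cases h0 : x = 0
    · exact ⟨0, Submodule.zero_mem _, by simp [h0]⟩
    have hn : ‖x‖ ≠ 0 := norm_ne_zero_iff.2 h0
    have hn' : ((‖x‖ : ℝ) : 𝕜) ≠ 0 := by exact_mod_cast hn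
    obtain ⟨w, hw1, hw2⟩ := hw (((‖x‖ : ℝ) : 𝕜)⁻¹ • x) ⟨G.smul_mem _ hx, by
      rw [norm_smul, norm_inv, RCLike.norm_ofReal, abs_norm, inv_mul_cancel₀ hn]⟩
    refine ⟨((‖x‖ : ℝ) : 𝕜) • w, Submodule.smul_mem _ _ hw1, ?_⟩
    have e : x - ((‖x‖ : ℝ) : 𝕜) • w = ((‖x‖ : ℝ) : 𝕜) • (((‖x‖ : ℝ) : 𝕜)⁻¹ • x - w) := by
      rw [smul_sub, smul_smul, mul_inv_cancel₀ hn', one_smul]
    rw [e, norm_smul, RCLike.norm_ofReal, abs_norm, mul_comm]
    exact mul_le_mul_of_nonneg_right hw2 (norm_nonneg _)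
  have h2 : ∀ k : ℕ, ∀ x ∈ G, ∃ w ∈ Submodule.span 𝕜 S, ‖x - w‖ ≤ 0.99 ^ k * ‖x‖ := by
    intro k
    induction k with
    | zero => intro x _; exact ⟨0, Submodule.zero_mem _, by simp⟩
    | succ k ih =>
      intro x hx
      obtain ⟨w, hw1, hw2⟩ := ih x hx
      obtain ⟨w', hw1', hw2'⟩ := h1 (x - w) (G.sub_mem hx (hle hw1))
      refine ⟨w + w', Submodule.add_mem _ hw1 hw1', ?_⟩
      rw [← sub_sub, pow_succ]
      nlinarith
  intro x hx
  rw [Metric.mem_closure_iff]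
  intro ε hε
  have ht : Filter.Tendsto (fun k : ℕ => (0.99 : ℝ) ^ k * ‖x‖) Filter.atTop (nhds 0) := by
    simpa using (tendsto_pow_atTop_nhds_zero_of_lt_one (r := (0.99 : ℝ)) (by norm_num)
      (by norm_num)).mul_const ‖x‖
  obtain ⟨k, hk⟩ := (ht.eventually (gt_mem_nhds hε)).exists
  obtain ⟨w, hw1, hw2⟩ := h2 k x hx
  exact ⟨w, hw1, by rw [dist_eq_norm]; linarith⟩

/-- finite dimension passes across a small gap -/
theorem finite_of_near {G₁ G₂ : Submodule 𝕜 E} (h12 : Near G₁ G₂) (h21 : Near G₂ G₁)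
    [FiniteDimensional 𝕜 G₂] : FiniteDimensional 𝕜 G₁ := by
  haveI : ProperSpace G₂ := FiniteDimensional.proper 𝕜 G₂
  obtain ⟨t, -, htf, ht⟩ := (isCompact_closedBall (0 : G₂) 3).finite_cover_balls
    (e := 0.001) (by norm_num)
  have hs := small_sphere h12 h21 isRegular_aleph0 (D := Subtype.val '' t)
    (lt_aleph0_iff_set_finite.2 (htf.image _)) (by rintro _ ⟨y, -, rfl⟩; exact y.2) (by
      intro y hy h3
      have : (⟨y, hy⟩ : G₂) ∈ Metric.closedBall (0 : G₂) 3 := by simpa using h3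
      obtain ⟨d, hd, hyd⟩ := mem_iUnion₂.1 (ht this)
      refine ⟨d, ⟨d, hd, rfl⟩, ?_⟩
      have : dist (⟨y, hy⟩ : G₂) d < 0.001 := hyd
      rw [Subtype.dist_eq, dist_eq_norm] at this
      exact this.le)
  obtain ⟨S, -, hS, hc⟩ := closure_of_small hs
  haveI : FiniteDimensional 𝕜 (Submodule.span 𝕜 S) :=
    FiniteDimensional.span_of_finite 𝕜 (lt_aleph0_iff_set_finite.1 hS)
  have hcl : IsClosed (Submodule.span 𝕜 S : Set E) :=
    (Submodule.span 𝕜 S).closed_of_finiteDimensional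
  rw [hcl.closure_eq] at hc
  exact Submodule.finiteDimensional_of_le (S₂ := Submodule.span 𝕜 S) hc

theorem dense_span (S : Set E) : ∃ T : Set E, T ⊆ Submodule.span 𝕜 S ∧ #T ≤ max ℵ₀ #S ∧
    (Submodule.span 𝕜 S : Set E) ⊆ closure T := by
  obtain ⟨q, hq⟩ := TopologicalSpace.exists_dense_seq 𝕜
  let A : Set E := range (fun p : ULift.{u} ℕ × S => q p.1.down • (p.2 : E))
  have hA : #A ≤ max ℵ₀ #S := by
    refine mk_range_le.trans ?_
    simp only [mk_prod, mk_uLift, mk_nat, lift_aleph0, lift_id]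
    refine (mul_le_max _ _).trans ?_
    simp
  refine ⟨AddSubmonoid.closure A, ?_, ?_, ?_⟩
  · have : AddSubmonoid.closure A ≤ (Submodule.span 𝕜 S).toAddSubmonoid := by
      rw [AddSubmonoid.closure_le]
      rintro _ ⟨p, rfl⟩
      exact Submodule.smul_mem _ _ (Submodule.subset_span p.2.2)
    exact this
  · have : (AddSubmonoid.closure A : Set E) ⊆ range (fun l : List A => (l.map Subtype.val).sum) := by
      intro x hx
      obtain ⟨l, hl, rfl⟩ := AddSubmonoid.exists_list_of_mem_closure hx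
      refine ⟨l.pmap (fun y hy => (⟨y, hy⟩ : A)) hl, ?_⟩
      simp [List.map_pmap]
    refine (mk_le_mk_of_subset this).trans (mk_range_le.trans ((mk_list_le_max _).trans ?_))
    exact max_le (le_max_left _ _) hA
  · intro x hx
    obtain ⟨n, f, g, rfl⟩ := Submodule.mem_span_set'.1 hx
    have : ∑ i, f i • (g i : E) ∈ (AddSubmonoid.closure A).topologicalClosure := by
      refine AddSubmonoid.sum_mem _ fun i _ => ?_
      have hc : Continuous fun c : 𝕜 => c • (g i : E) := by fun_prop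
      have h1 : f i • (g i : E) ∈ closure ((fun c : 𝕜 => c • (g i : E)) '' range q) :=
        mem_closure_image hc.continuousAt (hq (f i))
      refine closure_mono ?_ h1
      rintro _ ⟨_, ⟨k, rfl⟩, rfl⟩
      exact AddSubmonoid.subset_closure ⟨(⟨k⟩, g i), rfl⟩
    exact this

/-- a dense set of `G₂` gives a dense set of `G₁` of no larger infinite size -/
theorem dense_of_near {G₁ G₂ : Submodule 𝕜 E} (h12 : Near G₁ G₂) (h21 : Near G₂ G₁)
    {D : Set G₂} (hD : Dense D) : ∃ T : Set G₁, Dense T ∧ #T ≤ max ℵ₀ #D := by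
  have hs := small_sphere h12 h21 (isRegular_succ (le_max_left ℵ₀ #D)) (D := Subtype.val '' D)
    (by
      rw [Order.lt_succ_iff, mk_image_eq Subtype.val_injective]
      exact le_max_right _ _) (by rintro _ ⟨y, -, rfl⟩; exact y.2) (by
      intro y hy _
      obtain ⟨d, hd, hyd⟩ := Metric.mem_closure_iff.1 (hD ⟨y, hy⟩) 0.001 (by norm_num)
      refine ⟨d, ⟨d, hd, rfl⟩, ?_⟩
      rw [Subtype.dist_eq, dist_eq_norm] at hyd
      exact hyd.le)
  obtain ⟨S, hSG, hS, hc⟩ := closure_of_small hs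
  rw [Order.lt_succ_iff] at hS
  obtain ⟨T, hT1, hT2, hT3⟩ := dense_span (𝕜 := 𝕜) S
  have hTG : T ⊆ G₁ := hT1.trans (Submodule.span_le.2 hSG)
  refine ⟨Subtype.val ⁻¹' T, ?_, ?_⟩
  · intro x
    rw [Metric.mem_closure_iff]
    intro ε hε
    have hx : (x : E) ∈ closure T := by
      have := closure_mono hT3 (hc x.2)
      rwa [closure_closure] at this
    obtain ⟨t, ht, hxt⟩ := Metric.mem_closure_iff.1 hx ε hε
    exact ⟨⟨t, hTG ht⟩, ht, hxt⟩
  · exact (mk_preimage_of_injective _ _ Subtype.val_injective).trans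
      (hT2.trans (max_le (le_max_left _ _) hS))

end Pool.Agent.H13.Gap
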