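import Mathlib

namespace Pool.Agent.H13.Gon
open Finset

section defs
variable {V E : Type} [Fintype E] [DecidableEq V] (s t : E → V)

/-- Laplacian of the multigraph whose edge `e` joins `s e` and `t e`. -/
def lap (f : V → ℤ) (v : V) : ℤ :=
  ∑ e, ((if s e = v then f v - f (t e) else 0) + if t e = v then f v - f (s e) else 0)

/-- For each `v`, `D - 1_v` is equivalent to an effective divisor. -/
def PosRank (D : V → ℤ) : Prop :=
  ∀ v, ∃ f : V → ℤ, ∀ w, 0 ≤ D w - (if w = v then 1 else 0) - lap s t f w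

/-- Divisorial gonality. -/
noncomputable def gon [Fintype V] : ℕ :=
  sInf {d | ∃ D : V → ℤ, (∀ v, 0 ≤ D v) ∧ ∑ v, D v = d ∧ PosRank s t D}

def wt (f : V → ℤ) (r : V → ℕ) (v : V) : ℤ :=
  ∑ e, ((if s e = v then f v - f (t e) + if r (t e) < r v then 1 else 0 else 0) +
    if t e = v then f v - f (s e) + if r (s e) < r v then 1 else 0 else 0)

theorem nu [Fintype V] [Nonempty V] (f g : V → ℤ) (r : V → ℕ) :
    ∃ v, wt s t f r v ≤ lap s t g v := by
  obtain ⟨v, -, hv⟩ := exists_max_image univ (fun v => toLex (g v - f v, -(r v : ℤ))) univ_nonempty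
  refine ⟨v, sum_le_sum fun e _ => ?_⟩
  have h1 := Prod.Lex.toLex_le_toLex.1 (hv (s e) (mem_univ _))
  have h2 := Prod.Lex.toLex_le_toLex.1 (hv (t e) (mem_univ _))
  simp only at h1 h2
  split_ifs <;> omega

end defs

def dg (c i : ℕ) : ℕ := c / 16 ^ i % 16

def go : ℕ → ℕ → List ℕ → Bool
  | 0, _, L => !L.isEmpty
  | k + 1, b, L => (List.range (b + 1)).all fun a => go k (b - a) (L.filter fun c => a ≤ dg c k)

theorem go_ok (X : ℕ → ℕ) (k : ℕ) : ∀ b L, ∑ i ∈ range k, X i ≤ b → go k b L = true →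
    ∃ c ∈ L, ∀ i < k, X i ≤ dg c i := by
  induction k with
  | zero =>
    rintro b (_ | ⟨c, L⟩) _ h
    · cases h
    · exact ⟨c, by simp, by simp⟩
  | succ k ih =>
    intro b L h h'
    rw [sum_range_succ] at h
    obtain ⟨c, hc, hx⟩ := ih _ _ (by omega)
      (List.all_eq_true.1 h' (X k) (List.mem_range.2 (by omega)))
    exact ⟨c, (List.mem_filter.1 hc).1, by grind⟩

theorem lap_add {V E : Type} [Fintype E] [DecidableEq V] (s t : E → V) (f g : V → ℤ) (v : V) :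
    lap s t (f + g) v = lap s t f v + lap s t g v := by
  simp only [lap, ← sum_add_distrib, Pi.add_apply]
  refine sum_congr rfl fun e _ => ?_
  split_ifs <;> ring

theorem lap_sum {V E : Type} [Fintype V] [Fintype E] [DecidableEq V] (s t : E → V) (f : V → ℤ) :
    ∑ v, lap s t f v = 0 := by
  simp only [lap]
  rw [sum_comm]
  simp [sum_add_distrib]

theorem lb {n : ℕ} {E : Type} [Fintype E] (s t : E → Fin (n + 1)) (b : ℕ) (C : List ℕ)
    (l1 : go (n + 1) b C = true)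
    (l2 : ∀ c ∈ C, ∀ v : Fin (n + 1), (dg c v : ℤ) + (if v = 0 then 1 else 0) -
      (if v = Fin.ofNat (n + 1) (dg c (3 * (n + 1))) then 1 else 0) <
      wt s t (fun w => dg c (w + (n + 1))) (fun w => dg c (w + 2 * (n + 1))) v) :
    b + 2 ≤ gon s t := by
  refine le_csInf ⟨n + 1, 1, by simp, by simp, fun v => ⟨0, fun w => ?_⟩⟩ ?_
  · split_ifs <;> simp [lap]
  rintro d ⟨X, -, hd, hX⟩
  by_contra hlt
  obtain ⟨f, hf⟩ := hX 0
  obtain ⟨Y, hY⟩ : ∃ Y : ℕ → ℕ, ∀ v : Fin (n + 1),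
      (Y v : ℤ) = X v - (if v = 0 then 1 else 0) - lap s t f v :=
    ⟨fun i => (X (Fin.ofNat _ i) - (if Fin.ofNat (n + 1) i = 0 then 1 else 0) -
      lap s t f (Fin.ofNat _ i)).toNat, fun v => by simpa using hf v⟩
  have hs : ((∑ i ∈ range (n + 1), Y i : ℕ) : ℤ) = d - 1 := by
    rw [← Fin.sum_univ_eq_sum_range]
    simp [hY, hd, lap_sum]
  obtain ⟨c, hc, hx⟩ := go_ok Y (n + 1) b C (by omega) l1
  obtain ⟨g, hg⟩ := hX (Fin.ofNat _ (dg c (3 * (n + 1))))
  obtain ⟨v, hv⟩ := nu s t (fun w => dg c (w + (n + 1))) (g - f) fun w => dg c (w + 2 * (n + 1))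
  have h1 := lap_add s t f (g - f) v
  have h2 := l2 c hc v
  have h3 := hx v v.2
  have h4 := hY v
  have h5 := hg v
  rw [add_sub_cancel] at h1
  omega

theorem ub {V E : Type} [Fintype V] [Fintype E] [DecidableEq V] (s t : E → V) (D : V → ℤ) (d : ℕ)
    (F : V → V → ℤ) (h : (∀ v, 0 ≤ D v) ∧ ∑ v, D v = d ∧
      ∀ v w, 0 ≤ D w - (if w = v then 1 else 0) - lap s t (F v) w) : gon s t ≤ d :=
  Nat.sInf_le ⟨D, h.1, h.2.1, fun v => ⟨F v, h.2.2 v⟩⟩

end Pool.Agent.H13.Gon
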