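import Mathlib
import Pool.Agent.H15.Kne

namespace Pool.Agent.H13.Harb
open Finset Pointwise

variable {G : Type*} [AddCommGroup G] [Fintype G] [DecidableEq G]

def lam (B : Finset G) (d : G) : ℕ := (B.filter fun x => x + d ∉ B).card

omit [Fintype G] in
lemma lam_add (B : Finset G) (d e : G) : lam B (d + e) ≤ lam B d + lam B e := by
  have h : (B.filter fun x => x + (d + e) ∉ B) ⊆ (B.filter fun x => x + d ∉ B) ∪
      (B.filter fun x => x + e ∉ B).image (· - d) := by
    intro x hx
    rw [mem_filter] at hx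
    by_cases k : x + d ∈ B
    · exact mem_union_right _ (mem_image.2 ⟨x + d, mem_filter.2 ⟨k, by rw [add_assoc]; exact hx.2⟩,
        by simp⟩)
    · exact mem_union_left _ (mem_filter.2 ⟨hx.1, k⟩)
  exact (card_le_card h).trans ((card_union_le _ _).trans (Nat.add_le_add_left card_image_le _))

lemma lam_sum (B : Finset G) : ∑ d, lam B d = B.card * (Fintype.card G - B.card) := by
  simp only [lam, card_filter]
  rw [sum_comm, ← smul_eq_mul, ← sum_const]
  refine sum_congr rfl fun x _ => ?_
  rw [← card_filter, ← card_compl]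
  exact card_bij (fun d _ => x + d) (by simp) (by simp) fun y hy => ⟨y - x, by simpa using hy, by simp⟩

lemma inter (A B T : Finset G) (g : G) (hA : A ⊆ T) (hB : ∀ b ∈ B, g - b ∈ T) :
    A.card + B.card ≤ T.card + (A.filter fun x => g - x ∈ B).card := by
  have c1 := card_union_add_card_inter A (B.image fun x => g - x)
  rw [card_image_of_injective _ sub_right_injective] at c1
  have c2 : A ∪ (B.image fun x => g - x) ⊆ T := union_subset hA (by
    intro x hx; obtain ⟨b, hb, rfl⟩ := mem_image.1 hx; exact hB b hb)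
  have c3 : A ∩ (B.image fun x => g - x) ⊆ A.filter fun x => g - x ∈ B := by
    intro x hx
    obtain ⟨hx, hy⟩ := mem_inter.1 hx
    obtain ⟨b, hb, rfl⟩ := mem_image.1 hy
    exact mem_filter.2 ⟨hx, by simpa using hb⟩
  have := card_le_card c2
  have := card_le_card c3
  omega

lemma grow (X B : Finset G) (hD : 3 * Fintype.card G ≤ 5 * (X - X).card) :
    ∃ a ∈ X, ∃ b ∈ X, 5 * (B.card * (Fintype.card G - B.card)) ≤
      7 * Fintype.card G * lam B (a - b) := by
  have n0 : 0 < Fintype.card G := Fintype.card_pos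
  obtain ⟨d, hd, hm⟩ := exists_max_image (X - X) (lam B) (card_pos.1 (by omega))
  obtain ⟨a, ha, b, hb, rfl⟩ := mem_sub.1 hd
  refine ⟨a, ha, b, hb, ?_⟩
  have h2 : ∀ g, lam B g ≤ 2 * lam B (a - b) := by
    intro g
    have := inter (X - X) (X - X) univ g (subset_univ _) (by simp)
    rw [card_univ] at this
    obtain ⟨x, hx⟩ : ((X - X).filter fun x => g - x ∈ X - X).Nonempty := card_pos.1 (by omega)
    rw [mem_filter] at hx
    have e := lam_add B x (g - x)
    rw [add_sub_cancel] at e
    have := hm _ hx.1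
    have := hm _ hx.2
    omega
  rw [← lam_sum, ← sum_add_sum_compl (X - X)]
  have s1 := sum_le_card_nsmul (X - X) (lam B) _ hm
  have s2 := sum_le_card_nsmul (X - X)ᶜ (lam B) _ fun x _ => h2 x
  rw [card_compl] at s2
  have c := card_le_univ (X - X)
  obtain ⟨w, hw⟩ := Nat.exists_eq_add_of_le c
  rw [hw, Nat.add_sub_cancel_left] at s2
  rw [hw] at hD ⊢
  simp only [smul_eq_mul] at s1 s2
  nlinarith

def U (B : Finset G) (a b : G) : Finset G := B.image (· + a) ∪ B.image (· + b)

omit [Fintype G] in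
lemma card_U (B : Finset G) (a b : G) : B.card + lam B (a - b) ≤ (U B a b).card := by
  have h : B.image (· + b) ∪ (B.filter fun x => x + (a - b) ∉ B).image (· + a) ⊆ U B a b :=
    union_subset subset_union_right ((image_subset_image (filter_subset _ _)).trans subset_union_left)
  refine le_trans ?_ (card_le_card h)
  rw [card_union_of_disjoint, card_image_of_injective _ (add_left_injective _),
    card_image_of_injective _ (add_left_injective _), lam]
  rw [disjoint_left]
  intro x hx hy
  obtain ⟨y, hy', rfl⟩ := mem_image.1 hy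
  obtain ⟨z, hz, e⟩ := mem_image.1 hx
  apply (mem_filter.1 hy').2
  rwa [show y + (a - b) = z by rw [← add_sub_assoc, ← e]; simp]

omit [Fintype G] in
lemma mem_U {B : Finset G} {a b x : G} (h : x ∈ U B a b) : ∃ y ∈ B, ∃ s ∈ ({a, b} : Finset G),
    x = y + s := by
  rcases mem_union.1 h with h | h <;> obtain ⟨y, hy, rfl⟩ := mem_image.1 h
  · exact ⟨y, hy, a, by simp, rfl⟩
  · exact ⟨y, hy, b, by simp, rfl⟩

open Pool.Agent.H15.Kne in
lemma big (X : Finset G) (h : Fintype.card G < 3 * X.card) :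
    3 * Fintype.card G ≤ 5 * (X - X).card ∨
      ∃ H : AddSubgroup G, H.index = 2 ∧ ∃ r, ∀ x ∈ X, x - r ∈ H := by
  obtain ⟨r, hr⟩ : X.Nonempty := card_pos.1 (by omega)
  have e : ((X : Set G) + -(X : Set G)).ncard = (X - X).card := by
    rw [← sub_eq_add_neg, ← coe_sub, Set.ncard_coe_finset]
  have kn := kneser (X : Set G) (-(X : Set G)) ⟨r, hr⟩ ⟨-r, by simpa using hr⟩
  set H := st ((X : Set G) + -(X : Set G))
  obtain ⟨k, hk⟩ := dvd (X : Set G) H
  obtain ⟨l, hl⟩ := dvd (-(X : Set G)) H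
  have hd := H.index_mul_card
  have c1 := Set.ncard_le_ncard (sub_add (X : Set G) H)
  have c2 := Set.ncard_le_ncard (sub_add (-(X : Set G)) H)
  rw [Set.ncard_neg] at c2
  rw [Set.ncard_coe_finset] at c1 c2
  rw [Nat.card_eq_fintype_card (α := G), show Nat.card H = (H : Set G).ncard from rfl] at hd
  have h0 : 0 < (H : Set G).ncard := (Set.ncard_pos (Set.toFinite _)).2 ⟨0, zero_mem _⟩
  rw [e, hk, hl] at kn
  rw [hk] at c1
  rw [hl] at c2
  by_cases hh : 3 * Fintype.card G ≤ 5 * (X - X).card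
  · exact Or.inl hh
  right
  have a1 : H.index < 3 * k := by
    apply Nat.lt_of_mul_lt_mul_left (a := (H : Set G).ncard); nlinarith
  have a2 : H.index < 3 * l := by
    apply Nat.lt_of_mul_lt_mul_left (a := (H : Set G).ncard); nlinarith
  have a3 : 5 * k + 5 * l < 3 * H.index + 5 := by
    apply Nat.lt_of_mul_lt_mul_left (a := (H : Set G).ncard); nlinarith
  refine ⟨H, by omega, r, fun x hx => ?_⟩
  have k1 : k = 1 := by omega
  have : co H r = (X : Set G) + H := Set.eq_of_subset_of_ncard_le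
    (fun y hy => ⟨r, hr, _, hy, by simp⟩) (by rw [hk, k1, co_card, mul_one])
  have q : x ∈ co H r := this ▸ sub_add _ _ hx
  exact q

/-- Four distinct elements of `A` with sum `g`. -/
def Four (A : Finset G) (g : G) : Prop := ∃ a ∈ A, ∃ b ∈ A, ∃ c ∈ A, ∃ d ∈ A,
  a ≠ b ∧ a ≠ c ∧ a ≠ d ∧ b ≠ c ∧ b ≠ d ∧ c ≠ d ∧ a + b + c + d = g

lemma coset (k : ℕ) (hk : 500 ≤ k) (hn : Fintype.card G = 9 * k)
    (two : ∀ y : G, (univ.filter fun x => x + x = y).card ≤ 2) (A : Finset G)
    (hA : A.card = 3 * k + 4) (H : AddSubgroup G) (hH : H.index = 2) (r a b : G)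
    (h : ∀ x ∈ (A.erase a).erase b, x - r ∈ H) : Four A (∑ x ∈ A, x) := by
  classical
  have hd := H.index_mul_card
  rw [hH, Nat.card_eq_fintype_card (α := G), hn] at hd
  have i2 := fun a b : G => AddSubgroup.add_mem_iff_of_index_two hH (a := a) (b := b)
  have rr : r + r ∈ H := (i2 r r).2 Iff.rfl
  set R := A.filter fun x => x - r ∈ H with hR
  have cR : 3 * k + 2 ≤ R.card := by
    have : (A.erase a).erase b ⊆ R := fun x hx =>
      mem_filter.2 ⟨mem_of_mem_erase (mem_of_mem_erase hx), h x hx⟩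
    have := card_le_card this
    have := pred_card_le_card_erase (s := A) (a := a)
    have := pred_card_le_card_erase (s := A.erase a) (a := b)
    omega
  obtain ⟨u, hu, v, hv, huv, hy⟩ : ∃ u ∈ A, ∃ v ∈ A, u ≠ v ∧ ∑ x ∈ A, x - u - v ∈ H := by
    obtain ⟨u, hu, v, hv, huv⟩ := one_lt_card.1 (show 1 < R.card by omega)
    rw [mem_filter] at hu hv
    by_cases s : ∑ x ∈ A, x ∈ H
    · refine ⟨u, hu.1, v, hv.1, huv, ?_⟩
      have := H.sub_mem (H.sub_mem (H.sub_mem s hu.2) hv.2) rr
      convert this using 1; abel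
    · obtain ⟨w, hw, hw2⟩ : ∃ w ∈ A, w - r ∉ H := by
        by_contra! hh
        apply s
        have e1 : ∑ x ∈ A, (x - r) ∈ H := H.sum_mem hh
        rw [sum_sub_distrib, sum_const, hA] at e1
        obtain ⟨j, hj⟩ : ∃ j, 3 * k + 4 = j + j := ⟨(3 * k + 4) / 2, by omega⟩
        have := H.add_mem e1 (H.nsmul_mem rr j)
        rwa [hj, add_nsmul, smul_add, sub_add_cancel] at this
      refine ⟨u, hu.1, w, hw, fun e => hw2 (e ▸ hu.2), ?_⟩
      have q : ∑ x ∈ A, x + -(w - r) ∈ H := (i2 _ _).2 (by rw [neg_mem_iff]; tauto)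
      have := H.sub_mem (H.sub_mem q hu.2) rr
      convert this using 1; abel
  set y := ∑ x ∈ A, x - u - v with hyy
  set S := (R.erase u).erase v with hS
  have cS : 3 * k ≤ S.card := by
    have := pred_card_le_card_erase (s := R) (a := u)
    have := pred_card_le_card_erase (s := R.erase u) (a := v)
    rw [hS]; omega
  have mS : ∀ x ∈ S, x ≠ v ∧ x ≠ u ∧ x ∈ A ∧ x - r ∈ H := by
    intro x hx; simpa [hS, hR] using hx
  have cT : (univ.filter fun x => x - r ∈ H).card = Nat.card H := by
    rw [show Nat.card H = (H : Set G).ncard from rfl, ← Pool.Agent.H15.Kne.co_card H r,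
      ← Set.ncard_coe_finset]
    congr 1; ext x; simp [Pool.Agent.H15.Kne.co]
  have := inter S S (univ.filter fun x => x - r ∈ H) y
    (fun x hx => mem_filter.2 ⟨mem_univ _, (mS x hx).2.2.2⟩) (fun x hx => mem_filter.2 ⟨mem_univ _, by
      have := H.sub_mem (H.sub_mem hy (mS x hx).2.2.2) rr
      convert this using 1; abel⟩)
  obtain ⟨x, hx, hx2⟩ := exists_mem_notMem_of_card_lt_card
    (show (univ.filter fun x => x + x = y).card < (S.filter fun x => y - x ∈ S).card by
      have := two y; omega)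
  rw [mem_filter] at hx
  have m1 := mS _ hx.1
  have m2 := mS _ hx.2
  refine ⟨u, hu, v, hv, x, m1.2.2.1, y - x, m2.2.2.1, huv, m1.2.1.symm, m2.2.1.symm, m1.1.symm,
    m2.1.symm, fun e => hx2 (mem_filter.2 ⟨mem_univ _, eq_sub_iff_add_eq.1 e⟩), ?_⟩
  rw [hyy]; abel

lemma four (k : ℕ) (hk : 500 ≤ k) (hn : Fintype.card G = 9 * k)
    (two : ∀ y : G, (univ.filter fun x => x + x = y).card ≤ 2) (A : Finset G)
    (hA : A.card = 3 * k + 4) : Four A (∑ x ∈ A, x) := by
  have hb : ∀ a b : G, 3 * k + 2 ≤ ((A.erase a).erase b).card := fun a b => by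
    have := pred_card_le_card_erase (s := A) (a := a)
    have := pred_card_le_card_erase (s := A.erase a) (a := b)
    omega
  by_contra hF
  have hD : ∀ a b : G, 3 * Fintype.card G ≤ 5 * ((A.erase a).erase b - (A.erase a).erase b).card :=
    fun a b => (big _ (by have := hb a b; omega)).resolve_right fun ⟨H, hH, r, h⟩ =>
      hF (coset k hk hn two A hA H hH r a b h)
  apply hF
  generalize ∑ x ∈ A, x = g
  obtain ⟨a, ha, b, hb, h1⟩ := grow _ A (hD 0 0)
  obtain ⟨c, hc, d, hd, h2⟩ := grow _ (U A a b) (hD a b)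
  have u1 := card_U A a b
  have u2 := card_U (U A a b) c d
  have u3 := card_le_univ (U A a b)
  have u4 := inter A (U (U A a b) c d) univ g (subset_univ _) (by simp)
  rw [card_univ] at u4
  rw [hn] at h1 h2 u3 u4
  rw [hA] at h1 u1 u4
  have t1 : 10 * k ≤ 7 * lam A (a - b) := by
    obtain ⟨j, rfl⟩ : ∃ j, k = j + 2 := ⟨k - 2, by omega⟩
    rw [show 9 * (j + 2) - (3 * (j + 2) + 4) = 6 * j + 8 by omega] at h1
    apply Nat.le_of_mul_le_mul_left (c := 9 * (j + 2)) _ (by omega)
    nlinarith
  have t2 : 6 * k + 21 ≤ (U (U A a b) c d).card := by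
    by_contra hh
    generalize (U A a b).card = x at *
    generalize lam (U A a b) (c - d) = t at *
    obtain ⟨w, hw⟩ := Nat.exists_eq_add_of_le u3
    rw [hw, Nat.add_sub_cancel_left, ← hw] at h2
    have q1 : 31 * k + 28 ≤ 7 * x := by omega
    have q2 : x + t ≤ 6 * k + 20 := by omega
    zify at *
    have q3 : (w : ℤ) = 9 * k - x := by omega
    rw [q3] at h2
    have p1 : (0 : ℤ) ≤ (7 * x - 31 * k - 28) * (6 * k + 20 - x) :=
      mul_nonneg (by omega) (by omega)
    have p2 : (0 : ℤ) ≤ (7 * x - 31 * k - 28) * (k - 500) := mul_nonneg (by omega) (by omega)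
    have p3 : (0 : ℤ) ≤ k * (6 * k + 20 - x - t) := mul_nonneg (by omega) (by omega)
    have p4 : (0 : ℤ) ≤ k * (k - 500) := mul_nonneg (by omega) (by omega)
    nlinarith
  have ab : a ≠ b := by
    rintro rfl
    have z : lam A (a - a) = 0 := by simp [lam]
    omega
  have cd : c ≠ d := by
    rintro rfl
    have : (U (U A a b) c c).card ≤ (U A a b).card := by
      rw [U, union_self]; exact card_image_le
    have z : lam (U A a b) (c - c) = 0 := by simp [lam]
    rw [z] at h2
    have : (U A a b).card ≤ A.card + A.card :=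
      (card_union_le _ _).trans (add_le_add card_image_le card_image_le)
    omega
  have cZ : ((({a, b} : Finset G) ×ˢ ({c, d} : Finset G)).biUnion fun p =>
      ({p.1, p.2, g - p.1 - p.1 - p.2, g - p.1 - p.2 - p.2} : Finset G) ∪
        univ.filter fun x => x + x = g - p.1 - p.2).card ≤ 24 := by
    refine (card_biUnion_le_card_mul _ _ 6 fun p _ => ?_).trans ?_
    · exact (card_union_le _ _).trans (add_le_add card_le_four (two _))
    · rw [card_product]
      have := card_le_two (a := a) (b := b)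
      have := card_le_two (a := c) (b := d)
      nlinarith
  obtain ⟨x, hx, hx2⟩ := exists_mem_notMem_of_card_lt_card
    (lt_of_le_of_lt cZ (show 24 < (A.filter fun x => g - x ∈ U (U A a b) c d).card by omega))
  rw [mem_filter] at hx
  obtain ⟨y, hy, t, ht, e1⟩ := mem_U hx.2
  obtain ⟨z, hz, s, hs, rfl⟩ := mem_U hy
  simp only [mem_biUnion, not_exists, not_and] at hx2
  have := hx2 (s, t) (mem_product.2 ⟨hs, ht⟩)
  simp only [mem_union, mem_insert, mem_singleton, mem_filter, mem_univ, true_and, not_or] at this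
  obtain ⟨⟨n1, n2, n3, n4⟩, n5⟩ := this
  simp only [mem_erase] at ha hb hc hd
  have sA : s ∈ A := by rcases mem_insert.1 hs with rfl | q; exact ha.2.2; exact mem_singleton.1 q ▸ hb.2.2
  have tA : t ∈ A ∧ t ≠ a ∧ t ≠ b := by
    rcases mem_insert.1 ht with rfl | q
    · exact ⟨hc.2.2, hc.2.1, hc.1⟩
    · rw [mem_singleton.1 q]; exact ⟨hd.2.2, hd.2.1, hd.1⟩
  have e2 : g = x + z + s + t := by rw [sub_eq_iff_eq_add] at e1; rw [e1]; abel
  refine ⟨x, hx.1, z, hz, s, sA, t, tA.1, ?_, n1, n2, ?_, ?_, ?_, e2.symm⟩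
  · rintro rfl; exact n5 (by rw [e2]; abel)
  · rintro rfl; exact n3 (by rw [e2]; abel)
  · rintro rfl; exact n4 (by rw [e2]; abel)
  · rintro rfl
    rcases mem_insert.1 hs with q | q
    · exact tA.2.1 q
    · exact tA.2.2 (mem_singleton.1 q)

end Pool.Agent.H13.Harb
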