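import Mathlib

open Set Filter Topology

namespace Pool.Agent.H13.Supp

/-- `(S, supp)` is a supp-semigroup with `X` the union of the supports, and it is supp-perfect. -/
structure Perfect {S X : Type} [Semigroup S] (supp : S → Set X) : Prop where
  mul : ∀ f g, supp (f * g) ⊆ supp f ∪ supp g
  comm : ∀ f g, supp f ∩ supp g = ∅ → f * g = g * f
  cover : ⋃ f, supp f = univ
  fin : ∀ f, (supp f).Finite
  finS : ∀ F : Set X, F.Finite → {f | supp f ⊆ F}.Finite
  cent : ∀ F : Set X, F.Finite →
    {f | supp f ⊆ F} = {g | ∀ t ∈ {f | supp f ⊆ Fᶜ}, g * t = t * g}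

/-- The semi-Zariski topology. -/
def semiZariski (S : Type) [Semigroup S] : TopologicalSpace S :=
  TopologicalSpace.generateFrom
    ({U | ∃ a b c : WithOne S, U = {s : S | a * s * b ≠ c}} ∪
      {U | ∃ a b c d : WithOne S, U = {s : S | a * s * b ≠ c * s * d}})

inductive T
  | o : T
  | c : T
  | u : Finset ℕ → T
  | e : ℕ → ℕ → T

open Classical in
noncomputable def m : T → T → T
  | .u A, .e y z => if (y ∈ A ↔ y + z + 1 ∈ A) then .o else .c
  | _, _ => .o

lemma m_cases (s t : T) : m s t = .o ∨ m s t = .c := by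
  cases s <;> cases t <;> simp only [m, true_or]
  split_ifs <;> simp

noncomputable instance : Semigroup T where
  mul := m
  mul_assoc a b c := by
    show m (m a b) c = m a (m b c)
    rcases m_cases a b with h | h <;> rcases m_cases b c with h' | h' <;> rw [h, h'] <;>
      cases a <;> rfl

lemma mul_def (s t : T) : s * t = m s t := rfl

def sp : T → Set ℕ
  | .u A => A
  | .e y z => {y, y + z + 1}
  | _ => ∅

lemma comm' (f g : T) (h : sp f ∩ sp g = ∅) : f * g = g * f := by
    have k : ∀ (A : Finset ℕ) y z, (A : Set ℕ) ∩ {y, y + z + 1} = ∅ → m (.u A) (.e y z) = .o := by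
      intro A y z h
      have h1 : y ∉ A := fun h' => (h.le ⟨h', by simp⟩ : y ∈ (∅ : Set ℕ))
      have h2 : y + z + 1 ∉ A := fun h' => (h.le ⟨h', by simp⟩ : _ ∈ (∅ : Set ℕ))
      simp [m, h1, h2]
    cases f <;> cases g <;> try rfl
    · exact k _ _ _ h
    · exact (k _ _ _ (by rwa [inter_comm])).symm

lemma perfect : Perfect sp where
  mul f g := by rcases m_cases f g with h | h <;> simp [mul_def, h, sp]
  comm := comm'
  cover := eq_univ_of_forall fun x => mem_iUnion.2 ⟨.u {x}, by simp [sp]⟩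
  fin f := by cases f <;> simp [sp]
  finS F hF := by
    obtain ⟨N, hN⟩ := hF.bddAbove
    refine (((toFinite {T.o, T.c}).union (hF.finite_subsets.preimage
      (f := fun A : Finset ℕ => (A : Set ℕ)) Finset.coe_injective.injOn |>.image T.u)).union
      (((finite_Iic N).prod (finite_Iic N)).image fun p => T.e p.1 p.2)).subset ?_
    rintro (_ | _ | A | ⟨y, z⟩) h
    · simp
    · simp
    · exact .inl (.inr ⟨A, h, rfl⟩)
    · have : y + z + 1 ≤ N := hN (h (by simp [sp]))
      exact .inr ⟨(y, z), ⟨by simp; omega, by simp; omega⟩, rfl⟩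
  cent F hF := by
    ext g
    refine ⟨fun h t ht => comm' _ _ (eq_empty_of_forall_notMem fun x hx => ht hx.2 (h hx.1)),
      fun h => ?_⟩
    obtain ⟨N, hN⟩ := hF.bddAbove
    rcases g with _ | _ | A | ⟨y, z⟩
    · simp [sp]
    · simp [sp]
    · intro y hy
      by_contra hy'
      obtain ⟨K, hK⟩ := A.bddAbove
      have := h (.e y (N + K)) (by
        rintro x (rfl | rfl)
        · exact hy'
        · exact fun h => by have := hN h; omega)
      have h1 : y ∈ A := hy
      have h2 : y + (N + K) + 1 ∉ A := fun h => by have := hK h; omega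
      simp [mul_def, m, h1, h2] at this
    · intro x hx
      by_contra hx'
      have := h (.u {x}) (by simpa [sp] using hx')
      rcases hx with rfl | rfl
      · simp [mul_def, m] at this
        omega
      · simp [mul_def, m] at this
        omega

def tau : TopologicalSpace T where
  IsOpen O := T.u {0} ∈ O → ∀ᶠ n in atTop, T.u (Finset.Icc 1 n) ∈ O
  isOpen_univ := by simp
  isOpen_inter s t hs ht h := (hs h.1).and (ht h.2)
  isOpen_sUnion S hS := fun ⟨O, hO, h⟩ => (hS O hO h).mono fun n hn => ⟨O, hO, hn⟩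

lemma ne0 (n : ℕ) : T.u (Finset.Icc 1 n) ≠ T.u {0} := by
  intro h
  have : (0 : ℕ) ∈ Finset.Icc 1 n := by rw [T.u.inj h]; simp
  simp at this

lemma nb (s : T) (N : ℕ) : {t | t = s ∨ (s = T.u {0} ∧ ∃ n ≥ N, t = T.u (Finset.Icc 1 n))} ∈
    @nhds T tau s := by
  letI := tau
  refine IsOpen.mem_nhds ?_ (.inl rfl)
  rintro (h | ⟨-, n, -, h⟩)
  · exact (eventually_ge_atTop N).mono fun n hn => .inr ⟨h.symm, n, hn, rfl⟩
  · exact (ne0 n h.symm).elim

lemma t2 : @T2Space T tau := by
  letI := tau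
  have k : ∀ s, s ≠ T.u {0} → ∃ N, ∀ n ≥ N, s ≠ T.u (Finset.Icc 1 n) := by
    rintro (_ | _ | A | _) h
    · exact ⟨0, by simp⟩
    · exact ⟨0, by simp⟩
    · refine ⟨A.card + 1, fun n hn e => ?_⟩
      rw [T.u.inj e] at hn
      simp at hn
    · exact ⟨0, by simp⟩
  refine t2Space_iff_nhds.2 fun s t hst => ?_
  by_cases hs : s = T.u {0}
  · obtain ⟨N, hN⟩ := k t fun h => hst (hs.trans h.symm)
    refine ⟨_, nb s N, _, nb t 0, disjoint_left.2 ?_⟩
    rintro x (rfl | ⟨-, n, hn, rfl⟩) (h | ⟨h, -⟩)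
    exacts [hst h, hst (hs.trans h.symm), hN n hn h.symm, hst (hs.trans h.symm)]
  · obtain ⟨N, hN⟩ := k s hs
    refine ⟨_, nb s 0, _, nb t N, disjoint_left.2 ?_⟩
    rintro x (rfl | ⟨h, -⟩) h'
    · rcases h' with h | ⟨-, n, hn, h⟩
      exacts [hst h, hN n hn h]
    · exact hs h

lemma cmul : @ContinuousMul T tau _ := by
  letI := tau
  refine ⟨continuous_iff_continuousAt.2 fun ⟨s, t⟩ => ?_⟩
  have : ∃ N, ∀ s' t', (s' = s ∨ (s = T.u {0} ∧ ∃ n ≥ N, s' = T.u (Finset.Icc 1 n))) →
      (t' = t ∨ (t = T.u {0} ∧ ∃ n ≥ N, t' = T.u (Finset.Icc 1 n))) → m s' t' = m s t := by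
    rcases t with _ | _ | A | ⟨y, z⟩
    · refine ⟨0, ?_⟩
      rintro s' t' - (rfl | ⟨h, -⟩)
      · cases s' <;> cases s <;> rfl
      · cases h
    · refine ⟨0, ?_⟩
      rintro s' t' - (rfl | ⟨h, -⟩)
      · cases s' <;> cases s <;> rfl
      · cases h
    · refine ⟨0, ?_⟩
      rintro s' t' - (rfl | ⟨-, n, -, rfl⟩) <;> cases s' <;> cases s <;> rfl
    · refine ⟨y + z + 1, ?_⟩
      rintro s' t' (rfl | ⟨rfl, n, hn, rfl⟩) (rfl | ⟨h, -⟩)
      · rfl
      · cases h
      · simp only [m, Finset.mem_Icc, Finset.mem_singleton]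
        congr 1
        exact propext (by omega)
      · cases h
  obtain ⟨N, hN⟩ := this
  refine (continuousAt_const (y := s * t)).congr ?_
  rw [nhds_prod_eq]
  filter_upwards [prod_mem_prod (nb s N) (nb t N)] with p hp
  exact (hN _ _ hp.1 hp.2).symm

lemma not_open : ¬ IsOpen[tau] {f | 0 ∈ sp f} := by
  intro h
  obtain ⟨n, hn⟩ := (h (by simp [sp])).exists
  simp [sp] at hn

/-- Hausdorff topologies with continuous shifts refine the semi-Zariski topology. -/
lemma le_semiZariski {S : Type} [Semigroup S] [τ : TopologicalSpace S] [T2Space S]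
    (hl : ∀ a : S, Continuous fun s => a * s) (hr : ∀ a : S, Continuous fun s => s * a) :
    τ ≤ semiZariski S := by
  have k : ∀ a b : WithOne S, ∃ φ : S → S, Continuous φ ∧ ∀ s : S, a * s * b = φ s := by
    intro a b
    induction a using WithOne.recOneCoe with
    | one =>
      induction b using WithOne.recOneCoe with
      | one => exact ⟨id, continuous_id, by simp⟩
      | coe b => exact ⟨_, hr b, by simp⟩
    | coe a =>
      induction b using WithOne.recOneCoe with
      | one => exact ⟨_, hl a, by simp⟩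
      | coe b => exact ⟨_, (hr b).comp (hl a), by simp⟩
  refine le_generateFrom ?_
  rintro U (⟨a, b, c, rfl⟩ | ⟨a, b, c, d, rfl⟩)
  · obtain ⟨φ, hφ, e⟩ := k a b
    simp only [e]
    induction c using WithOne.recOneCoe with
    | one => simp
    | coe c => simpa using isOpen_ne_fun hφ continuous_const
  · obtain ⟨φ, hφ, e⟩ := k a b
    obtain ⟨ψ, hψ, e'⟩ := k c d
    simpa [e, e'] using isOpen_ne_fun hφ hψ

end Pool.Agent.H13.Supp
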