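import Mathlib
import Pool.Agent.H13.Supp

open Set Filter Topology

namespace Pool.Agent.H13.Heis

/-- Centralizer of a subset. -/
def Cent {S : Type} [Semigroup S] (T : Set S) : Set S := {g | ∀ f ∈ T, f * g = g * f}

/-- Finite double centralizers. -/
def FDC (S : Type) [Semigroup S] : Prop := ∀ F : Set S, F.Finite → (Cent (Cent F)).Finite

/-- `A` is a countable union of subspaces that are discrete in the topology induced by `τ`. -/
def SigmaDiscrete {S : Type} (τ : TopologicalSpace S) (A : Set S) : Prop :=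
  ∃ D : ℕ → Set S, ⋃ n, D n = A ∧ ∀ n, @DiscreteTopology (D n) (τ.induced Subtype.val)

abbrev K := ZMod 2

@[ext] structure H where
  w : ℕ →₀ K
  f : ℕ → K
  a : K

noncomputable def ev : (ℕ → K) →ₗ[K] (ℕ →₀ K) →ₗ[K] K where
  toFun f := Finsupp.linearCombination K f
  map_add' f g := by ext; simp
  map_smul' c f := by ext; simp

lemma ev_single (f : ℕ → K) (i : ℕ) : ev f (Finsupp.single i 1) = f i := by simp [ev]

lemma ev_pi (w : ℕ →₀ K) (i : ℕ) : ev (Pi.single i 1) w = w i := by
  induction w using Finsupp.induction_linear with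
  | zero => simp
  | add u v hu hv => simp [hu, hv]
  | single j c =>
    by_cases h : j = i
    · subst h; simp [ev]
    · simp [ev, h, Ne.symm h]

noncomputable instance : Group H where
  mul x y := ⟨x.w + y.w, x.f + y.f, x.a + y.a + ev x.f y.w⟩
  one := ⟨0, 0, 0⟩
  inv x := ⟨-x.w, -x.f, -x.a + ev x.f x.w⟩
  mul_assoc x y z := by
    refine H.ext (add_assoc _ _ _) (add_assoc _ _ _) ?_
    show x.a + y.a + ev x.f y.w + z.a + ev (x.f + y.f) z.w =
      x.a + (y.a + z.a + ev y.f z.w) + ev x.f (y.w + z.w)
    simp only [map_add, LinearMap.add_apply]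
    ring
  one_mul x := by
    refine H.ext (zero_add _) (zero_add _) ?_
    show 0 + x.a + ev 0 x.w = x.a
    simp
  mul_one x := by
    refine H.ext (add_zero _) (add_zero _) ?_
    show x.a + 0 + ev x.f 0 = x.a
    simp
  inv_mul_cancel x := by
    refine H.ext (neg_add_cancel _) (neg_add_cancel _) ?_
    show -x.a + ev x.f x.w + x.a + ev (-x.f) x.w = 0
    simp only [map_neg, LinearMap.neg_apply]
    ring

lemma mul_def (x y : H) : x * y = ⟨x.w + y.w, x.f + y.f, x.a + y.a + ev x.f y.w⟩ := rfl

noncomputable def om (x y : H) : K := ev x.f y.w - ev y.f x.w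

lemma comm_iff (x y : H) : x * y = y * x ↔ om x y = 0 := by
  simp only [mul_def, H.ext_iff, om, add_comm x.w, add_comm x.f, add_comm x.a, true_and,
    add_right_inj, sub_eq_zero]

lemma om_sub (x y z : H) : om x ⟨y.w - z.w, y.f - z.f, 0⟩ = om x y - om x z := by
  simp only [om, map_sub, LinearMap.sub_apply]
  ring

lemma om_inj {x y : H} (h : ∀ z, om x z = om y z) (ha : x.a = y.a) : x = y := by
  refine H.ext (Finsupp.ext fun i => ?_) (funext fun i => ?_) ha
  · simpa [om, ev_pi] using h ⟨0, Pi.single i 1, 0⟩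
  · simpa [om, ev_single] using h ⟨Finsupp.single i 1, 0, 0⟩

lemma om_cc {F : Set H} {g : H} (hg : g ∈ Cent (Cent F)) {y z : H}
    (h : ∀ t ∈ F, om t y = om t z) : om g y = om g z := by
  rw [← sub_eq_zero, ← om_sub, ← comm_iff]
  exact (hg _ fun t ht => by rw [comm_iff, om_sub, h t ht, sub_self]).symm

lemma fdc : FDC H := by
  classical
  intro F hF
  haveI := hF.to_subtype
  let Φ : H → ((F → K) → K) × K := fun g =>
    (fun p => if h : ∃ z, (fun t : F => om t z) = p then om g h.choose else 0, g.a)
  refine Finite.of_finite_image (f := Φ) (toFinite _) fun g hg g' hg' e => ?_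
  refine om_inj (fun z => ?_) (congrArg Prod.snd e)
  have h : ∃ z', (fun t : F => om t z') = fun t : F => om t z := ⟨z, rfl⟩
  have e1 := congrFun (congrArg Prod.fst e) fun t : F => om t z
  simp only [Φ, dif_pos h] at e1
  have k : ∀ t ∈ F, om t z = om t h.choose := fun t ht => (congrFun h.choose_spec ⟨t, ht⟩).symm
  rw [om_cc hg k, om_cc hg' k, e1]

lemma cc_one (g : H) : (Cent (Cent {g})).encard ≤ 8 := by
  classical
  let Φ : H → (K → K) × K := fun x =>
    (fun p => if h : ∃ z, om g z = p then om x h.choose else 0, x.a)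
  have : InjOn Φ (Cent (Cent {g})) := by
    intro x hx y hy e
    refine om_inj (fun z => ?_) (congrArg Prod.snd e)
    have h : ∃ z', om g z' = om g z := ⟨z, rfl⟩
    have e1 := congrFun (congrArg Prod.fst e) (om g z)
    simp only [Φ, dif_pos h] at e1
    have k : ∀ t ∈ ({g} : Set H), om t z = om t h.choose := by
      rintro t rfl
      exact h.choose_spec.symm
    rw [om_cc hx k, om_cc hy k, e1]
  rw [← this.encard_image]
  refine (encard_le_encard (subset_univ _)).trans ?_
  simp

def D : Type := (ℕ →₀ K) × K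
instance : TopologicalSpace D := ⊥
instance : DiscreteTopology D := ⟨rfl⟩
instance : Countable D := inferInstanceAs (Countable ((ℕ →₀ K) × K))

def emb (x : H) : D × (ℕ → K) := ((x.w, x.a), x.f)

lemma emb_inj : Function.Injective emb := fun x y h =>
  H.ext (congrArg (·.1.1) h) (congrArg (·.2) h) (congrArg (·.1.2) h)

def tau : TopologicalSpace H := .induced emb inferInstance

lemma isEmb : @IsEmbedding _ _ tau _ emb := @IsEmbedding.mk _ _ tau _ _ (@IsInducing.mk _ _ tau _ _ rfl) emb_inj

lemma cev (w : ℕ →₀ K) : Continuous fun f : ℕ → K => ev f w := by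
  simp only [ev, LinearMap.coe_mk, AddHom.coe_mk, Finsupp.linearCombination_apply, Finsupp.sum]
  fun_prop

lemma tau_le : tau ≤ Supp.semiZariski H := by
  letI := tau
  haveI := isEmb.t2Space
  have h1 : Continuous fun x : H => (emb x).1 := continuous_fst.comp isEmb.continuous
  have h2 : Continuous fun x : H => x.f := continuous_snd.comp isEmb.continuous
  refine Supp.le_semiZariski (fun a => ?_) fun a => ?_
  · refine isEmb.continuous_iff.2 (Continuous.prodMk ?_ (continuous_const.add h2))
    exact (continuous_of_discreteTopology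
      (β := D)
      (f := fun p : D => (a.w + p.1, a.a + p.2 + ev a.f p.1))).comp h1
  · refine isEmb.continuous_iff.2 (Continuous.prodMk ?_ (h2.add continuous_const))
    exact (continuous_of_discreteTopology
      (β := D)
      (f := fun p : D × K => (p.1.1 + a.w, p.1.2 + a.a + p.2))).comp
      (h1.prodMk ((cev a.w).comp h2))

instance : Uncountable H := by
  haveI : Uncountable (ℕ → K) := by
    rw [← Cardinal.aleph0_lt_mk_iff]
    simp [Cardinal.aleph0_lt_continuum]
  exact Function.Injective.uncountable (f := fun f : ℕ → K => (⟨0, f, 0⟩ : H))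
    fun f g h => congrArg H.f h

lemma ctble {A : Set H}
    (h : @DiscreteTopology A ((Supp.semiZariski H).induced Subtype.val)) : A.Countable := by
  letI := tau
  haveI := isEmb.secondCountableTopology
  haveI : DiscreteTopology A := ⟨le_bot_iff.1 ((induced_mono tau_le).trans
    (@DiscreteTopology.eq_bot _ (_) h).le)⟩
  exact countable_coe_iff.1 (TopologicalSpace.separableSpace_iff_countable.1 inferInstance)

lemma not_sd : ¬ SigmaDiscrete (Supp.semiZariski H) univ := fun ⟨_, h, h'⟩ =>
  not_countable_univ (h ▸ countable_iUnion fun n => ctble (h' n))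

open Supp in
/-- `H` has no perfect support map. -/
lemma not_perfect {X : Type*} (supp : H → Set X)
    (comm : ∀ f g, supp f ∩ supp g = ∅ → f * g = g * f) (fin : ∀ f, (supp f).Finite)
    (finS : ∀ F : Set X, F.Finite → F ⊆ (⋃ f, supp f) → {f | supp f ⊆ F}.Finite)
    (cent : ∀ F : Set X, F.Finite → F ⊆ (⋃ f, supp f) →
      {f | supp f ⊆ F} = Cent {f | supp f ⊆ (⋃ f, supp f) \ F}) : False := by
  classical
  letI := tau
  haveI := isEmb.secondCountableTopology
  have hop : ∀ t : H, IsOpen {g | t * g ≠ g * t} := fun t => by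
    refine tau_le _ (TopologicalSpace.isOpen_generateFrom_of_mem (.inr ⟨t, 1, 1, t, ?_⟩))
    ext g
    simp [← WithOne.coe_mul]
  have hsub : ∀ f, supp f ⊆ ⋃ f, supp f := fun f => subset_iUnion supp f
  have k1 : ∀ (f : H) (x : X), x ∈ supp f → ∀ n : ℕ, ∃ (U : Set H) (F : Set X), IsOpen U ∧ f ∈ U ∧
      F.Finite ∧ F ⊆ (⋃ f, supp f) ∧ x ∉ F ∧ supp f \ {x} ⊆ F ∧
      ∀ g ∈ U, x ∉ supp g → n ≤ (supp g ∩ F).ncard := by
    intro f x hx n
    induction n with
    | zero => exact ⟨univ, supp f \ {x}, isOpen_univ, trivial, (fin f).diff,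
        diff_subset.trans (hsub f), by simp, subset_rfl, by simp⟩
    | succ n ih =>
      obtain ⟨U, F, hU, hf, hF, hFX, hxF, hfF, hn⟩ := ih
      have : f ∉ Cent {f | supp f ⊆ (⋃ f, supp f) \ F} := by
        rw [← cent F hF hFX]
        exact fun h => hxF (h hx)
      simp only [Cent, mem_setOf_eq, not_forall] at this
      obtain ⟨t, ht, htf⟩ := this
      refine ⟨U ∩ {g | t * g ≠ g * t}, F ∪ supp t \ {x}, hU.inter (hop t), ⟨hf, htf⟩,
        hF.union (fin t).diff, union_subset hFX (diff_subset.trans (hsub t)), by simp [hxF],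
        hfF.trans subset_union_left, fun g hg hxg => ?_⟩
      obtain ⟨y, hy1, hy2⟩ := nonempty_iff_ne_empty.2 fun h => hg.2 (comm t g h)
      refine Nat.succ_le_of_lt ((hn g hg.1 hxg).trans_lt (ncard_lt_ncard ⟨inter_subset_inter_right _
        subset_union_left, fun h => ?_⟩ ((fin g).inter_of_left _)))
      exact (ht hy1).2 (h ⟨hy2, .inr ⟨hy1, fun e => hxg (e ▸ hy2)⟩⟩).2
  have k2 : ∀ n, {f | (supp f).ncard = n}.Countable := by
    intro n
    have : ∀ f : H, ∃ U, IsOpen U ∧ f ∈ U ∧ ((supp f).ncard = n →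
        (U ∩ {f | (supp f).ncard = n}).Finite) := by
      intro f
      choose U F hU hf _ _ _ _ hn using fun x : supp f => k1 f x x.2 (n + 1)
      haveI := (fin f).to_subtype
      refine ⟨⋂ x, U x, isOpen_iInter_of_finite hU, mem_iInter.2 hf, fun e =>
        (finS _ (fin f) (hsub f)).subset fun g hg => ?_⟩
      refine (eq_of_subset_of_ncard_le (fun x hx => ?_) (e ▸ hg.2).le (fin g)).ge
      by_contra h
      have := (hn ⟨x, hx⟩ g (mem_iInter.1 hg.1 _) h).trans
        (ncard_le_ncard inter_subset_left (fin g))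
      have h2 : (supp g).ncard = n := hg.2
      omega
    choose U hU hf hfin using this
    obtain ⟨T, hT, hTc, hTU⟩ := TopologicalSpace.countable_cover_nhdsWithin
      (s := {f | (supp f).ncard = n}) (f := fun f => U f ∩ {f | (supp f).ncard = n})
      fun f _ => inter_mem (mem_nhdsWithin_of_mem_nhds ((hU f).mem_nhds (hf f))) self_mem_nhdsWithin
    exact (hTc.biUnion fun f h => (hfin f (hT h)).countable).mono hTU
  exact not_countable_univ ((countable_iUnion k2).mono fun f _ => mem_iUnion.2 ⟨(supp f).ncard, rfl⟩)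

end Pool.Agent.H13.Heis
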