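import Mathlib

namespace Pool.Agent.H13.Hill

open Set Filter Topology MeasureTheory intervalIntegral

variable {E : Type} [NormedAddCommGroup E] [NormedSpace ℂ E] [CompleteSpace E]

theorem dyson (B : ℝ → E →L[ℂ] E) (hc : ∀ u : ℝ → E, Continuous u → Continuous fun x => B x (u x))
    {L : ℝ} (hL : 0 ≤ L) (hB : ∀ x v, ‖B x v‖ ≤ L * ‖v‖) (x₀ : ℝ) (v : E) :
    ∃ u : ℂ → ℝ → E, (∀ μ, u μ x₀ = v) ∧ (∀ μ x, HasDerivAt (u μ) (μ • B x (u μ x)) x) ∧
      ∀ x, ∃ r : ℂ → E, AnalyticAt ℂ r 0 ∧ r 0 = ∫ t in x₀..x, B t v ∧ ∀ μ, u μ x = v + μ • r μ := by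
  let U : ℕ → ℝ → E := fun n => Nat.rec (fun _ => v) (fun _ w x => ∫ t in x₀..x, B t (w t)) n
  have U0 : ∀ x, U 0 x = v := fun _ => rfl
  have US : ∀ n x, U (n + 1) x = ∫ t in x₀..x, B t (U n t) := fun _ _ => rfl
  have Uc : ∀ n, Continuous (U n) := by
    intro n
    induction n with
    | zero => exact continuous_const
    | succ n ih =>
      exact continuous_iff_continuousAt.2 fun x =>
        ((hc _ ih).integral_hasStrictDerivAt x₀ x).hasDerivAt.continuousAt
  have Ud : ∀ n x, HasDerivAt (U (n + 1)) (B x (U n x)) x := fun n x =>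
    ((hc _ (Uc n)).integral_hasStrictDerivAt x₀ x).hasDerivAt
  have Ub : ∀ n x, ‖U n x‖ ≤ ‖v‖ * ((L * |x - x₀|) ^ n / n.factorial) := by
    intro n
    induction n with
    | zero => intro x; simp [U0]
    | succ n ih =>
      intro x
      rw [US]
      refine norm_integral_le_integral_norm_uIoc.trans ?_
      have h1 : ∫ t in uIoc x₀ x, ‖B t (U n t)‖ ≤
          ∫ t in uIoc x₀ x, (L * ‖v‖ * L ^ n / n.factorial) * |t - x₀| ^ n := by
        refine setIntegral_mono ((hc _ (Uc n)).norm.intervalIntegrable x₀ x).def' 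
          (Continuous.intervalIntegrable (by fun_prop) x₀ x).def' fun t => ?_
        refine (hB _ _).trans ((mul_le_mul_of_nonneg_left (ih t) hL).trans (le_of_eq ?_))
        rw [mul_pow]; ring
      rw [MeasureTheory.integral_const_mul, integral_pow_abs_sub_uIoc] at h1
      refine h1.trans (le_of_eq ?_)
      rw [Nat.factorial_succ, mul_pow]
      push_cast
      field_simp
      ring
  have Ub' : ∀ (n k : ℕ) (μ : ℂ) (M R x : ℝ), ‖μ‖ ≤ M → |x - x₀| ≤ R →
      ‖μ ^ n • U (n + k) x‖ ≤ ‖v‖ * (L * R) ^ k * ((M * (L * R)) ^ n / n.factorial) := by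
    intro n k μ M R x h1 h2
    have hM : 0 ≤ M := (norm_nonneg _).trans h1
    have hR : 0 ≤ R := (abs_nonneg _).trans h2
    rw [norm_smul, norm_pow]
    calc ‖μ‖ ^ n * ‖U (n + k) x‖ ≤ M ^ n * (‖v‖ * ((L * R) ^ (n + k) / n.factorial)) := by
          refine mul_le_mul (by gcongr) ((Ub _ x).trans ?_) (norm_nonneg _) (by positivity)
          gcongr
          exact Nat.le_add_right _ _
      _ = _ := by rw [mul_pow M, pow_add]; ring
  have sm : ∀ (k : ℕ) (μ : ℂ) (x : ℝ), Summable fun n => μ ^ n • U (n + k) x := fun k μ x =>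
    Summable.of_norm_bounded ((Real.summable_pow_div_factorial _).mul_left _)
      fun n => Ub' n k μ _ _ x le_rfl le_rfl
  refine ⟨fun μ x => v + μ • ∑' n, μ ^ n • U (n + 1) x, fun μ => ?_, fun μ x => ?_, fun x => ?_⟩
  · simp [US]
  · have h1 := hasDerivAt_tsum_of_isPreconnected (t := Metric.ball x₀ (|x - x₀| + 1))
      (g := fun n y => μ ^ n • U (n + 1) y) (g' := fun n y => B y (μ ^ n • U (n + 0) y))
      ((((Real.summable_pow_div_factorial (‖μ‖ * (L * (|x - x₀| + 1)))).mul_left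
        (‖v‖ * (L * (|x - x₀| + 1)) ^ 0))).mul_left L)
      Metric.isOpen_ball (convex_ball _ _).isPreconnected
      (fun n y _ => by simpa using (Ud n y).fun_const_smul (μ ^ n))
      (fun n y hy => (hB _ _).trans (mul_le_mul_of_nonneg_left
        (Ub' n 0 μ _ _ y le_rfl (le_of_lt (by simpa [Real.dist_eq] using hy))) hL))
      (Metric.mem_ball_self (by positivity)) (sm 1 μ x₀) (y := x) (by simp [Real.dist_eq])
    refine ((h1.const_smul μ).const_add v).congr_deriv ?_
    dsimp only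
    rw [← (B x).map_tsum (sm 0 μ x), (sm 0 μ x).tsum_eq_zero_add, ← (sm 1 μ x).tsum_const_smul]
    simp [U0, pow_succ', mul_smul]
  · refine ⟨fun μ => ∑' n, μ ^ n • U (n + 1) x, ?_, ?_, fun μ => rfl⟩
    · have := Complex.differentiableOn_tsum_of_summable_norm (U := Metric.ball 0 1)
        (F := fun (n : ℕ) (μ : ℂ) => μ ^ n • U (n + 1) x)
        ((Real.summable_pow_div_factorial (1 * (L * |x - x₀|))).mul_left (‖v‖ * (L * |x - x₀|) ^ 1))
        (fun k => by fun_prop) Metric.isOpen_ball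
        (fun k w hw => Ub' k 1 w _ _ x (mem_ball_zero_iff.1 hw).le le_rfl)
      exact this.analyticAt (Metric.ball_mem_nhds _ one_pos)
    · simp only
      rw [(sm 1 0 x).tsum_eq_zero_add]
      simp [US, U0]

/-- abstract construction from two periodic solutions at the spectral point `0` -/
theorem hill {p m dp dm q : ℝ → ℂ} {T : ℝ} {Δ G : ℂ} (hT : 0 < T)
    (hp : ∀ x, HasDerivAt p (dp x) x) (hm : ∀ x, HasDerivAt m (dm x) x)
    (hdp : ∀ x, HasDerivAt dp (q x * p x) x) (hdm : ∀ x, HasDerivAt dm (q x * m x) x)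
    (hq : Continuous q) (hW : ∀ x, p x * dm x - m x * dp x = Δ) (hΔ : Δ ≠ 0)
    (pp : Function.Periodic p T) (pm : Function.Periodic m T)
    (pdp : Function.Periodic dp T) (pdm : Function.Periodic dm T)
    (g1 : ∫ x in (0 : ℝ)..T, p x * p x = G) (g2 : ∫ x in (0 : ℝ)..T, p x * m x = G)
    (g3 : ∫ x in (0 : ℝ)..T, m x * m x = G) (x₀ : ℝ) (a b : ℂ) :
    ∃ y dy : ℂ → ℝ → ℂ, (∀ w, y w x₀ = a ∧ dy w x₀ = b ∧ ∀ x, HasDerivAt (y w) (dy w x) x ∧
      HasDerivAt (dy w) ((q x - w) * y w x) x) ∧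
      ∃ r dr : ℂ → ℂ, AnalyticAt ℂ r 0 ∧ AnalyticAt ℂ dr 0 ∧
        r 0 = G / Δ ^ 2 * (a * (dm x₀ - dp x₀) + b * (p x₀ - m x₀)) * (p x₀ - m x₀) ∧
        dr 0 = G / Δ ^ 2 * (a * (dm x₀ - dp x₀) + b * (p x₀ - m x₀)) * (dp x₀ - dm x₀) ∧
        ∀ w, y w (x₀ + T) = a + w * r w ∧ dy w (x₀ + T) = b + w * dr w := by
  have cp : Continuous p := continuous_iff_continuousAt.2 fun x => (hp x).continuousAt
  have cm : Continuous m := continuous_iff_continuousAt.2 fun x => (hm x).continuousAt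
  let B : ℝ → (ℂ × ℂ) →L[ℂ] (ℂ × ℂ) := fun x =>
    (p x • ContinuousLinearMap.fst ℂ ℂ ℂ + m x • ContinuousLinearMap.snd ℂ ℂ ℂ).smulRight
      (m x / Δ, -p x / Δ)
  have hB : ∀ x v, B x v = ((p x * v.1 + m x * v.2) * (m x / Δ), (p x * v.1 + m x * v.2) * (-p x / Δ)) :=
    fun x v => by simp [B]
  obtain ⟨C1, hC1⟩ := (pp.isBounded_of_continuous hT.ne' cp).exists_norm_le
  obtain ⟨C2, hC2⟩ := (pm.isBounded_of_continuous hT.ne' cm).exists_norm_le
  have b1 : ∀ x, ‖p x‖ ≤ |C1| + |C2| := fun x => by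
    linarith [hC1 _ ⟨x, rfl⟩, le_abs_self C1, abs_nonneg C2]
  have b2 : ∀ x, ‖m x‖ ≤ |C1| + |C2| := fun x => by
    linarith [hC2 _ ⟨x, rfl⟩, le_abs_self C2, abs_nonneg C1]
  set C := |C1| + |C2|
  have hC : 0 ≤ C := by positivity
  obtain ⟨u, u0, ud, ur⟩ := dyson B (fun u hu => by simp only [hB]; fun_prop)
    (L := 2 * C * (C / ‖Δ‖)) (by positivity) (fun x v => by
      have h1 : ‖p x * v.1 + m x * v.2‖ ≤ 2 * C * ‖v‖ := by
        refine (norm_add_le _ _).trans ?_
        rw [norm_mul, norm_mul]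
        have := mul_le_mul (b1 x) (norm_fst_le v) (norm_nonneg _) hC
        have := mul_le_mul (b2 x) (norm_snd_le v) (norm_nonneg _) hC
        linarith
      rw [hB, Prod.norm_def, mul_right_comm]
      refine max_le ?_ ?_ <;> simp only [norm_mul, norm_div, norm_neg] <;> gcongr
      exacts [b2 x, b1 x]) x₀
    ((a * dm x₀ - b * m x₀) / Δ, (b * p x₀ - a * dp x₀) / Δ)
  refine ⟨fun w x => p x * (u w x).1 + m x * (u w x).2, fun w x => dp x * (u w x).1 + dm x * (u w x).2,
    fun w => ⟨?_, ?_, fun x => ⟨?_, ?_⟩⟩, ?_⟩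
  · simp only [u0]; field_simp; rw [← hW x₀]; ring
  · simp only [u0]; field_simp; rw [← hW x₀]; ring
  · refine (((hp x).fun_mul (ud w x).fst).fun_add ((hm x).fun_mul (ud w x).snd)).congr_deriv ?_
    simp only [hB, Prod.smul_fst, Prod.smul_snd, smul_eq_mul]
    ring
  · refine (((hdp x).fun_mul (ud w x).fst).fun_add ((hdm x).fun_mul (ud w x).snd)).congr_deriv ?_
    simp only [hB, Prod.smul_fst, Prod.smul_snd, smul_eq_mul]
    field_simp
    rw [← hW x]
    ring
  · obtain ⟨r, r1, r2, r3⟩ := ur (x₀ + T)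
    have per : ∀ f : ℝ → ℂ, Function.Periodic f T → ∫ x in (0 : ℝ)..T, f x = G →
        ∫ x in x₀..x₀ + T, f x = G := fun f hf h => by
      rw [hf.intervalIntegral_add_eq x₀ 0, zero_add, h]
    have k1 := per _ (pp.mul pp) g1
    have k2 := per _ (pp.mul pm) g2
    have k3 := per _ (pm.mul pm) g3
    simp only [Pi.mul_apply] at k1 k2 k3
    set v : ℂ × ℂ := ((a * dm x₀ - b * m x₀) / Δ, (b * p x₀ - a * dp x₀) / Δ) with hv
    have ci : IntervalIntegrable (fun t => B t v) volume x₀ (x₀ + T) :=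
      Continuous.intervalIntegrable (by simp only [hB]; fun_prop) _ _
    have e1 : (r 0).1 = G / Δ * (v.1 + v.2) := by
      rw [r2]
      have := (ContinuousLinearMap.fst ℂ ℂ ℂ).intervalIntegral_comp_comm ci
      simp only [ContinuousLinearMap.coe_fst'] at this
      rw [← this]
      have e : (fun t => (B t v).1) = fun t => v.1 / Δ * (p t * m t) + v.2 / Δ * (m t * m t) := by
        ext t; rw [hB]; ring
      rw [e, integral_add (Continuous.intervalIntegrable (by fun_prop) _ _)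
        (Continuous.intervalIntegrable (by fun_prop) _ _), intervalIntegral.integral_const_mul,
        intervalIntegral.integral_const_mul, k2, k3]
      ring
    have e2 : (r 0).2 = -(G / Δ * (v.1 + v.2)) := by
      rw [r2]
      have := (ContinuousLinearMap.snd ℂ ℂ ℂ).intervalIntegral_comp_comm ci
      simp only [ContinuousLinearMap.coe_snd'] at this
      rw [← this]
      have e : (fun t => (B t v).2) = fun t => -v.1 / Δ * (p t * p t) + -v.2 / Δ * (p t * m t) := by
        ext t; rw [hB]; ring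
      rw [e, integral_add (Continuous.intervalIntegrable (by fun_prop) _ _)
        (Continuous.intervalIntegrable (by fun_prop) _ _), intervalIntegral.integral_const_mul,
        intervalIntegral.integral_const_mul, k1, k2]
      ring
    have a1 : AnalyticAt ℂ (fun w => (r w).1) 0 := analyticAt_fst.comp r1
    have a2 : AnalyticAt ℂ (fun w => (r w).2) 0 := analyticAt_snd.comp r1
    refine ⟨fun w => p x₀ * (r w).1 + m x₀ * (r w).2, fun w => dp x₀ * (r w).1 + dm x₀ * (r w).2,
      by fun_prop, by fun_prop, ?_, ?_, fun w => ⟨?_, ?_⟩⟩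
    · simp only [e1, e2, hv]; field_simp; ring
    · simp only [e1, e2, hv]; field_simp; ring
    · simp only [r3, pp x₀, pm x₀, hv, Prod.fst_add, Prod.snd_add, Prod.smul_fst, Prod.smul_snd,
        smul_eq_mul]
      field_simp; rw [← hW x₀]; ring
    · simp only [r3, pdp x₀, pdm x₀, hv, Prod.fst_add, Prod.snd_add, Prod.smul_fst, Prod.smul_snd,
        smul_eq_mul]
      field_simp; rw [← hW x₀]; ring

end Pool.Agent.H13.Hill
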