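import Mathlib

/-! Cantor functions with ratio `1/b`, and a Hoelder lift built from them. -/

namespace Pool.Agent.H13.Hold

open Set Filter Topology MeasureTheory

noncomputable def G (b : ℝ) : ℕ → ℝ → ℝ
  | 0 => fun x => if 1 ≤ x then 1 else 0
  | n + 1 => fun x => (G b n (b * x) + G b n (b * x - (b - 1))) / 2

structure IsCantor (b : ℝ) (c : ℝ → ℝ) : Prop where
  mono : Monotone c
  zero : ∀ x ≤ 0, c x = 0
  one : ∀ x, 1 ≤ x → c x = 1
  eqn : ∀ x, c x = (c (b * x) + c (b * x - (b - 1))) / 2

theorem exists_cantor {b : ℝ} (hb : 4 ≤ b) : ∃ c, IsCantor b c := by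
  have hm : ∀ n, Monotone (G b n) := by
    intro n
    induction n with
    | zero =>
      intro x y hxy
      simp only [G]
      split_ifs with h1 h2 <;> first | linarith | (exfalso; linarith)
    | succ n ih =>
      intro x y hxy
      simp only [G]
      have h1 : b * x ≤ b * y := by nlinarith
      have := ih h1
      have := ih (show b * x - (b - 1) ≤ b * y - (b - 1) by linarith)
      linarith
  have h0 : ∀ n x, x ≤ 0 → G b n x = 0 := by
    intro n
    induction n with
    | zero => intro x hx; simp only [G]; rw [if_neg (by linarith)]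
    | succ n ih =>
      intro x hx
      simp only [G]
      rw [ih _ (by nlinarith), ih _ (by nlinarith)]
      norm_num
  have h1 : ∀ n x, 1 ≤ x → G b n x = 1 := by
    intro n
    induction n with
    | zero => intro x hx; simp only [G]; rw [if_pos hx]
    | succ n ih =>
      intro x hx
      simp only [G]
      rw [ih _ (by nlinarith), ih _ (by nlinarith)]
      norm_num
  have hle : ∀ n x, G b n x ≤ 1 := fun n x => by
    rw [← h1 n (max x 1) (le_max_right _ _)]; exact hm n (le_max_left _ _)
  have hge : ∀ n x, 0 ≤ G b n x := fun n x => by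
    rw [← h0 n (min x 0) (min_le_right _ _)]; exact hm n (min_le_left _ _)
  have hinc : ∀ n x, G b n x ≤ G b (n + 1) x := by
    intro n
    induction n with
    | zero =>
      intro x
      by_cases hx : 1 ≤ x
      · rw [h1 0 x hx, h1 1 x hx]
      · have : G b 0 x = 0 := by simp only [G]; rw [if_neg hx]
        rw [this]; exact hge _ _
    | succ n ih =>
      intro x
      have e1 := ih (b * x)
      have e2 := ih (b * x - (b - 1))
      show (G b n (b * x) + G b n (b * x - (b - 1))) / 2
        ≤ (G b (n + 1) (b * x) + G b (n + 1) (b * x - (b - 1))) / 2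
      linarith
  have ht : ∀ x, Tendsto (fun n => G b n x) atTop (𝓝 (⨆ n, G b n x)) := fun x =>
    tendsto_atTop_ciSup (monotone_nat_of_le_succ fun n => hinc n x) ⟨1, by
      rintro _ ⟨n, rfl⟩; exact hle n x⟩
  refine ⟨fun x => ⨆ n, G b n x, ?_, ?_, ?_, ?_⟩
  · intro x y hxy
    exact le_of_tendsto_of_tendsto' (ht x) (ht y) fun n => hm n hxy
  · intro x hx; simp [h0 _ x hx]
  · intro x hx; simp [h1 _ x hx]
  · intro x
    have a1 := (ht x).comp (tendsto_add_atTop_nat 1)
    have a2 := ((ht (b * x)).add (ht (b * x - (b - 1)))).div_const 2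
    exact tendsto_nhds_unique a1 a2

namespace IsCantor

variable {b : ℝ} {c : ℝ → ℝ}

theorem le_one (h : IsCantor b c) (x : ℝ) : c x ≤ 1 := by
  rw [← h.one (max x 1) (le_max_right _ _)]; exact h.mono (le_max_left _ _)

theorem nonneg (h : IsCantor b c) (x : ℝ) : 0 ≤ c x := by
  rw [← h.zero (min x 0) (min_le_right _ _)]; exact h.mono (min_le_left _ _)

theorem pos (h : IsCantor b c) (hb : 4 ≤ b) {s : ℝ} (hs : 0 < s) : 0 < c s := by
  have key : ∀ n : ℕ, 0 < c ((1 / b) ^ n) := by
    intro n
    induction n with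
    | zero => rw [h.one _ (by simp)]; norm_num
    | succ n ih =>
      rw [h.eqn]
      have e : b * (1 / b) ^ (n + 1) = (1 / b) ^ n := by
        rw [pow_succ]; field_simp
      rw [e]
      have := h.nonneg ((1 / b) ^ n - (b - 1))
      linarith
  obtain ⟨n, hn⟩ := exists_pow_lt_of_lt_one hs (show 1 / b < 1 by
    rw [div_lt_one (by linarith)]; linarith)
  exact (key n).trans_le (h.mono hn.le)

theorem hold (h : IsCantor b c) (hb : 4 ≤ b) (n : ℕ) : ∀ u t : ℝ, 0 ≤ t → t ≤ (1 / b) ^ n / 2 →
    c (u + t) - c u ≤ (1 / 2) ^ n := by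
  induction n with
  | zero => intro u t _ _; have := h.le_one (u + t); have := h.nonneg u; simp; linarith
  | succ n ih =>
    intro u t ht0 ht
    have hb0 : 0 < b := by linarith
    have e : b * t ≤ (1 / b) ^ n / 2 := by
      have : b * ((1 / b) ^ (n + 1) / 2) = (1 / b) ^ n / 2 := by
        rw [pow_succ]; field_simp
      rw [← this]; exact mul_le_mul_of_nonneg_left ht hb0.le
    have e1 : (1 / b) ^ n ≤ 1 := pow_le_one₀ (by positivity) (by
      rw [div_le_one hb0]; linarith)
    have i1 := ih (b * u) (b * t) (by positivity) e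
    have i2 := ih (b * u - (b - 1)) (b * t) (by positivity) e
    rw [h.eqn (u + t), h.eqn u, pow_succ]
    have f1 : b * (u + t) = b * u + b * t := by ring
    have f2 : b * (u + t) - (b - 1) = b * u - (b - 1) + b * t := by ring
    rw [f2, f1]
    by_cases hu : 1 ≤ b * u
    · rw [h.one _ hu, h.one (b * u + b * t) (by nlinarith)]
      linarith
    · rw [h.zero (b * u - (b - 1)) (by linarith), h.zero (b * u - (b - 1) + b * t) (by linarith)]
      linarith

theorem meas (h : IsCantor b c) (hb : 4 ≤ b) (n : ℕ) : ∀ t : ℝ, 0 ≤ t → t ≤ (1 / b) ^ n →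
    volume {x | c (x + t) ≠ c x} ≤ ENNReal.ofReal (2 * (2 / b) ^ n) := by
  induction n with
  | zero =>
    intro t ht0 ht
    have : {x | c (x + t) ≠ c x} ⊆ Icc (-1) 1 := by
      intro x hx
      simp only [pow_zero] at ht
      by_contra hc
      apply hx
      rw [mem_Icc, not_and_or, not_le, not_le] at hc
      rcases hc with hc | hc
      · rw [h.zero _ (by linarith), h.zero _ (by linarith)]
      · rw [h.one _ (by linarith), h.one _ (by linarith)]
    refine (measure_mono this).trans ?_
    rw [Real.volume_Icc]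
    norm_num
  | succ n ih =>
    intro t ht0 ht
    have hb0 : 0 < b := by linarith
    have e : b * t ≤ (1 / b) ^ n := by
      have : b * ((1 / b) ^ (n + 1)) = (1 / b) ^ n := by
        rw [pow_succ]; field_simp
      rw [← this]; exact mul_le_mul_of_nonneg_left ht hb0.le
    have i := ih (b * t) (by positivity) e
    set A := {x | c (x + b * t) ≠ c x} with hA
    have hsub : {x | c (x + t) ≠ c x} ⊆ (fun x => b * x) ⁻¹' A ∪
        (fun x => b * x) ⁻¹' ((fun x => x + (-(b - 1))) ⁻¹' A) := by
      intro x hx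
      by_contra hc
      apply hx
      simp only [hA, mem_union, mem_preimage, mem_ofPred_eq, not_or, not_not] at hc
      rw [h.eqn (x + t), h.eqn x]
      have f1 : b * (x + t) = b * x + b * t := by ring
      have f2 : b * (x + t) - (b - 1) = b * x + (-(b - 1)) + b * t := by ring
      rw [f2, f1, hc.1, hc.2, sub_eq_add_neg (b * x)]
    refine (measure_mono hsub).trans ((measure_union_le _ _).trans ?_)
    rw [Real.volume_preimage_mul_left hb0.ne', Real.volume_preimage_mul_left hb0.ne',
      measure_preimage_add_right, ← add_mul, ← ENNReal.ofReal_add (abs_nonneg _) (abs_nonneg _)]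
    refine (mul_le_mul_right i _).trans ?_
    rw [← ENNReal.ofReal_mul (by positivity), abs_of_pos (by positivity)]
    apply ENNReal.ofReal_le_ofReal
    rw [pow_succ]
    apply le_of_eq
    field_simp
    ring

end IsCantor

/-- periodised Cantor function -/
noncomputable def P (c : ℝ → ℝ) (x : ℝ) : ℝ := ⌊x⌋ + c (x - ⌊x⌋)

theorem P_add_one (c : ℝ → ℝ) (x : ℝ) : P c (x + 1) = P c x + 1 := by
  simp only [P, Int.floor_add_one]
  push_cast
  rw [show x + 1 - (⌊x⌋ + 1) = x - ⌊x⌋ by ring]
  ring

theorem P_diff {b : ℝ} {c : ℝ → ℝ} (h : IsCantor b c) (y t : ℝ) (ht0 : 0 ≤ t) (ht : t ≤ 1) :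
    P c (y + t) - P c y = (c (y - ⌊y⌋ + t) - c (y - ⌊y⌋)) +
      (c (y - (⌊y⌋ + 1 : ℤ) + t) - c (y - (⌊y⌋ + 1 : ℤ))) := by
  have h1 := Int.floor_le y
  have h2 := Int.lt_floor_add_one y
  push_cast
  rw [h.zero (y - (⌊y⌋ + 1)) (by linarith)]
  by_cases hc : y + t < ⌊y⌋ + 1
  · have : ⌊y + t⌋ = ⌊y⌋ := by
      rw [Int.floor_eq_iff]; constructor <;> linarith
    simp only [P, this]
    rw [h.zero (y - (⌊y⌋ + 1) + t) (by linarith), show y + t - ⌊y⌋ = y - ⌊y⌋ + t by ring]
    ring
  · have : ⌊y + t⌋ = ⌊y⌋ + 1 := by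
      rw [Int.floor_eq_iff]; push_cast; constructor <;> linarith
    simp only [P, this]
    push_cast
    rw [h.one (y - ⌊y⌋ + t) (by linarith), show y + t - (⌊y⌋ + 1) = y - (⌊y⌋ + 1) + t by ring]
    ring

theorem P_mono {b : ℝ} {c : ℝ → ℝ} (h : IsCantor b c) : Monotone (P c) := by
  intro x y hxy
  rcases (Int.floor_mono hxy).eq_or_lt with e | e
  · simp only [P, e]
    have := h.mono (show x - ⌊y⌋ ≤ y - ⌊y⌋ by linarith)
    linarith
  · have e' : (⌊x⌋ : ℝ) + 1 ≤ ⌊y⌋ := by exact_mod_cast e
    have := h.le_one (x - ⌊x⌋)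
    have := h.nonneg (y - ⌊y⌋)
    simp only [P]
    linarith

theorem P_abs {b : ℝ} {c : ℝ → ℝ} (h : IsCantor b c) (x : ℝ) : |P c x| ≤ |x| + 1 := by
  have h1 := Int.floor_le x
  have h2 := Int.lt_floor_add_one x
  have := h.le_one (x - ⌊x⌋)
  have := h.nonneg (x - ⌊x⌋)
  have := le_abs_self x
  have := neg_abs_le x
  rw [abs_le]
  simp only [P]
  constructor <;> linarith

theorem P_pos {b : ℝ} {c : ℝ → ℝ} (h : IsCantor b c) (hb : 4 ≤ b) {s : ℝ} (hs : 0 < s) :
    P c 0 < P c s := by
  have h1 : P c 0 = 0 := by simp [P, h.zero 0 le_rfl]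
  have h2 : 0 < P c (min s (1 / 2)) := by
    have h3 : 0 < min s (1 / 2) := lt_min hs (by norm_num)
    have h4 : ⌊min s (1 / 2)⌋ = 0 := by
      rw [Int.floor_eq_iff]
      have := min_le_right s (1 / 2)
      constructor <;> push_cast <;> linarith
    simp only [P, h4]
    simpa using h.pos hb h3
  rw [h1]
  exact h2.trans_le (P_mono h (min_le_left _ _))

theorem weights (δ : ℕ → ℝ) (hδ : ∀ n, 0 < δ n) : ∃ ε : ℕ → ℝ, (∀ k, 0 < ε k) ∧ HasSum ε 1 ∧
    ∀ M, ∃ s ≤ δ M, HasSum (fun k => ε (k + (M + 1))) s := by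
  let a : ℕ → ℝ := fun n => Nat.rec 1 (fun k x => min (x / 2) (δ k)) n
  have ha : ∀ k, a (k + 1) = min (a k / 2) (δ k) := fun k => rfl
  have hpos : ∀ k, 0 < a k := by
    intro k
    induction k with
    | zero => show (0 : ℝ) < 1; norm_num
    | succ k ih => rw [ha]; exact lt_min (by linarith) (hδ k)
  have hle : ∀ k, a k ≤ (1 / 2) ^ k := by
    intro k
    induction k with
    | zero => show (1 : ℝ) ≤ _; norm_num
    | succ k ih => rw [ha, pow_succ]; exact (min_le_left _ _).trans (by linarith)
  have ht : Tendsto a atTop (𝓝 0) :=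
    squeeze_zero (fun k => (hpos k).le) hle
      (tendsto_pow_atTop_nhds_zero_of_lt_one (by norm_num) (by norm_num))
  have hε : ∀ k, 0 < a k - a (k + 1) := by
    intro k
    have := min_le_left (a k / 2) (δ k)
    have := hpos k
    rw [ha]; linarith
  have hs : ∀ m, HasSum (fun k => a (k + m) - a (k + m + 1)) (a m) := by
    intro m
    rw [hasSum_iff_tendsto_nat_of_nonneg (fun k => (hε (k + m)).le)]
    have e : ∀ n, ∑ i ∈ Finset.range n, (a (i + m) - a (i + m + 1)) = a m - a (n + m) := by
      intro n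
      induction n with
      | zero => simp
      | succ n ih => rw [Finset.sum_range_succ, ih, show n + 1 + m = n + m + 1 by ring]; ring
    simp_rw [e]
    simpa using (ht.comp (tendsto_add_atTop_nat m)).const_sub (a m)
  refine ⟨fun k => a k - a (k + 1), hε, hs 0, fun M => ⟨a (M + 1), ?_, hs (M + 1)⟩⟩
  rw [ha]; exact min_le_right _ _

theorem exists_lift {b : ℝ} (hb : 4 ≤ b) (δ : ℕ → ℝ) (hδ : ∀ n, 0 < δ n) :
    ∃ H : ℝ → ℝ, StrictMono H ∧ (∀ x, H (x + 1) = H x + 1) ∧
      (∀ (n : ℕ) (u t : ℝ), 0 ≤ t → t ≤ (1 / b) ^ n / 2 → H (u + t) - H u ≤ 2 * (1 / 2) ^ n) ∧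
      ∀ (M : ℕ) (t : ℝ), 0 ≤ t → t ≤ (1 / b) ^ M → ∃ B : Set ℝ, MeasurableSet B ∧
        volume B ≤ ENNReal.ofReal (8 * (M + 1) * (2 / b) ^ M) ∧
        ∀ x ∈ Ioc (0 : ℝ) 1, x ∉ B → H (x + t) - H x ≤ δ M := by
  obtain ⟨c, hc⟩ := exists_cantor hb
  obtain ⟨ε, hε, hε1, hεt⟩ := weights δ hδ
  have hb0 : 0 < b := by linarith
  obtain ⟨q₀, hq₀⟩ := TopologicalSpace.exists_dense_seq (Icc (0 : ℝ) 1)
  let q : ℕ → ℝ := fun k => (q₀ k : ℝ)
  have hq : ∀ k, 0 ≤ q k ∧ q k ≤ 1 := fun k => (q₀ k).2
  have hsum : ∀ x, Summable fun k => ε k * P c (x - q k) := by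
    intro x
    refine Summable.of_norm_bounded (hε1.summable.mul_right (|x| + 2)) fun k => ?_
    rw [Real.norm_eq_abs, abs_mul, abs_of_pos (hε k)]
    refine mul_le_mul_of_nonneg_left ((P_abs hc _).trans ?_) (hε k).le
    have := abs_sub x (q k)
    rw [abs_of_nonneg (hq k).1] at this
    linarith [(hq k).2]
  let H : ℝ → ℝ := fun x => ∑' k, ε k * P c (x - q k)
  have hH : ∀ x t, HasSum (fun k => ε k * (P c (x - q k + t) - P c (x - q k))) (H (x + t) - H x) := by
    intro x t
    have e : (fun k => ε k * (P c (x - q k + t) - P c (x - q k)))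
        = fun k => ε k * P c (x + t - q k) - ε k * P c (x - q k) := by
      funext k
      rw [show x + t - q k = x - q k + t by ring]; ring
    rw [e]
    exact (hsum (x + t)).hasSum.sub (hsum x).hasSum
  have hper : ∀ x, H (x + 1) = H x + 1 := by
    intro x
    have := hH x 1
    simp only [P_add_one, add_sub_cancel_left, mul_one] at this
    linarith [this.unique hε1]
  have hmono : Monotone H := by
    intro x y hxy
    have := (hH x (y - x)).nonneg fun k => mul_nonneg (hε k).le
      (sub_nonneg.2 (P_mono hc (by linarith)))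
    rw [add_sub_cancel] at this
    linarith
  have hint : ∀ (n : ℤ) x, H (x + n) = H x + n := by
    intro n x
    induction n using Int.induction_on with
    | zero => simp
    | succ n ih => push_cast at ih ⊢; rw [← add_assoc, hper, ih]; ring
    | pred n ih =>
      push_cast at ih ⊢
      have := hper (x + (-n - 1))
      rw [show x + (-(n : ℝ) - 1) + 1 = x + -n by ring, ih] at this
      linarith
  have hs0 : ∀ x y, 0 ≤ x → x < 1 → x < y → H x < H y := by
    intro x y hx0 hx1 hxy
    obtain ⟨k, hk⟩ := hq₀.exists_mem_open (s := Subtype.val ⁻¹' Ioo x (min y 1))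
      (isOpen_Ioo.preimage continuous_subtype_val) (by
        have : x < min y 1 := lt_min hxy hx1
        have h2 := min_le_right y 1
        exact ⟨⟨(x + min y 1) / 2, by constructor <;> linarith⟩, by
          show (x + min y 1) / 2 ∈ Ioo x (min y 1)
          constructor <;> linarith⟩)
    have hk1 : x < q k := hk.1
    have hk2 : q k < y := hk.2.trans_le (min_le_left _ _)
    have := hasSum_lt (i := k) (f := fun _ => (0 : ℝ)) (fun j => mul_nonneg (hε j).le
      (sub_nonneg.2 (P_mono hc (show x - q j ≤ x - q j + (y - x) by linarith))))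
      (mul_pos (hε k) (sub_pos.2 (by
        refine (P_mono hc (show x - q k ≤ 0 by linarith)).trans_lt (P_pos hc hb ?_)
        linarith))) hasSum_zero (hH x (y - x))
    rw [add_sub_cancel] at this
    linarith
  refine ⟨H, ?_, hper, ?_, ?_⟩
  · intro x y hxy
    have := hs0 (x - ⌊x⌋) (y - ⌊x⌋) (by linarith [Int.floor_le x])
      (by linarith [Int.lt_floor_add_one x]) (by linarith)
    have e1 := hint ⌊x⌋ (x - ⌊x⌋)
    have e2 := hint ⌊x⌋ (y - ⌊x⌋)
    rw [sub_add_cancel] at e1 e2
    linarith
  · intro n u t ht0 ht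
    have e1 : (1 / b) ^ n ≤ 1 := pow_le_one₀ (by positivity) (by
      rw [div_le_one hb0]; linarith)
    have := hasSum_le (fun k => mul_le_mul_of_nonneg_left (show P c (u - q k + t) - P c (u - q k)
      ≤ 2 * (1 / 2) ^ n by
        rw [P_diff hc _ _ ht0 (by linarith)]
        have a1 := hc.hold hb n (u - q k - ⌊u - q k⌋) t ht0 ht
        have a2 := hc.hold hb n (u - q k - (⌊u - q k⌋ + 1 : ℤ)) t ht0 ht
        linarith) (hε k).le) (hH u t) (hε1.mul_right _)
    linarith
  · intro M t ht0 ht
    have e1 : (1 / b) ^ M ≤ 1 := pow_le_one₀ (by positivity) (by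
      rw [div_le_one hb0]; linarith)
    set A := {x | c (x + t) ≠ c x} with hA
    have hAm : MeasurableSet A := by
      have m1 : Measurable c := hc.mono.measurable
      exact (measurableSet_eq_fun (m1.comp (measurable_add_const t)) m1).compl
    refine ⟨⋃ k ∈ Finset.range (M + 1), ⋃ j ∈ Finset.Icc (-1 : ℤ) 2,
      (fun x => x + (-(q k) - j)) ⁻¹' A, ?_, ?_, ?_⟩
    · exact Finset.measurableSet_biUnion _ fun k _ => Finset.measurableSet_biUnion _ fun j _ =>
        hAm.preimage (measurable_add_const _)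
    · refine (measure_biUnion_finset_le _ _).trans ?_
      refine (Finset.sum_le_sum (g := fun _ => ENNReal.ofReal (8 * (2 / b) ^ M)) fun k _ => ?_).trans ?_
      · refine (measure_biUnion_finset_le _ _).trans ?_
        simp only [measure_preimage_add_right, Finset.sum_const]
        have := hc.meas hb M t ht0 ht
        rw [show (Finset.Icc (-1 : ℤ) 2).card = 4 by decide, nsmul_eq_mul]
        refine (mul_le_mul_right this _).trans ?_
        rw [← ENNReal.ofReal_natCast, ← ENNReal.ofReal_mul (by positivity)]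
        apply ENNReal.ofReal_le_ofReal
        push_cast
        linarith
      · rw [Finset.sum_const, Finset.card_range, nsmul_eq_mul, ← ENNReal.ofReal_natCast,
          ← ENNReal.ofReal_mul (by positivity)]
        apply ENNReal.ofReal_le_ofReal
        push_cast
        linarith
    · intro x hx hxB
      simp only [mem_iUnion, not_exists, mem_preimage, hA, mem_ofPred_eq, not_not] at hxB
      have hz : ∀ k ∈ Finset.range (M + 1), ε k * (P c (x - q k + t) - P c (x - q k)) = 0 := by
        intro k hk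
        have f1 : -1 ≤ ⌊x - q k⌋ := by
          rw [Int.le_floor]; push_cast; linarith [hx.1, (hq k).2]
        have f2 : ⌊x - q k⌋ ≤ 1 := by
          have : ⌊x - q k⌋ < 2 := by
            rw [Int.floor_lt]; push_cast; linarith [hx.2, (hq k).1]
          omega
        have g1 := hxB k hk ⌊x - q k⌋ (by rw [Finset.mem_Icc]; omega)
        have g2 := hxB k hk (⌊x - q k⌋ + 1) (by rw [Finset.mem_Icc]; omega)
        rw [show ∀ j : ℤ, x + (-q k - j) = x - q k - j by intro j; ring] at g1 g2
        rw [P_diff hc _ _ ht0 (by linarith), g1, g2]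
        simp
      have h2 := (hasSum_nat_add_iff' (M + 1)).2 (hH x t)
      rw [Finset.sum_eq_zero hz, sub_zero] at h2
      obtain ⟨s, hs, hss⟩ := hεt M
      refine (hasSum_le (fun k => ?_) h2 hss).trans hs
      have : P c (x - q (k + (M + 1)) + t) ≤ P c (x - q (k + (M + 1))) + 1 := by
        rw [← P_add_one]; exact P_mono hc (by linarith)
      have := hε (k + (M + 1))
      nlinarith

end Pool.Agent.H13.Hold
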