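import Mathlib
import Pool.Agent.H13.Hold1

namespace Pool.Agent.H13.Hold

open Set Filter Topology MeasureTheory

theorem lift_int {H : ℝ → ℝ} (hper : ∀ x, H (x + 1) = H x + 1) (n : ℤ) (x : ℝ) :
    H (x + n) = H x + n := by
  induction n using Int.induction_on with
  | zero => simp
  | succ n ih => push_cast at ih ⊢; rw [← add_assoc, hper, ih]; ring
  | pred n ih =>
    push_cast at ih ⊢
    have := hper (x + (-n - 1))
    rw [show x + (-(n : ℝ) - 1) + 1 = x + -n by ring, ih] at this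
    linarith

theorem exists_homeo {H : ℝ → ℝ} (hm : StrictMono H) (hc : Continuous H)
    (hper : ∀ x, H (x + 1) = H x + 1) :
    ∃ h : UnitAddCircle ≃ₜ UnitAddCircle, ∀ x : ℝ, h (x : UnitAddCircle) = (H x : ℝ) := by
  have hp : Function.Periodic (fun x : ℝ => ((H x : ℝ) : UnitAddCircle)) 1 := by
    intro x
    simp only [hper, AddCircle.coe_add, AddCircle.coe_period, add_zero]
  let F : UnitAddCircle → UnitAddCircle := hp.lift
  have hF : ∀ x : ℝ, F (x : UnitAddCircle) = (H x : ℝ) := fun x => hp.lift_coe x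
  have hFc : Continuous F := by
    rw [(QuotientAddGroup.isQuotientMap_mk _).continuous_iff]
    exact (AddCircle.continuous_mk' 1).comp hc
  have hinj : Function.Injective F := by
    intro x y hxy
    induction x using QuotientAddGroup.induction_on with | _ x => ?_
    induction y using QuotientAddGroup.induction_on with | _ y => ?_
    rw [hF, hF, eq_comm, ← sub_eq_zero, ← AddCircle.coe_sub, AddCircle.coe_eq_zero_iff] at hxy
    obtain ⟨n, hn⟩ := hxy
    simp only [zsmul_eq_mul, mul_one] at hn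
    have : y = x + n := hm.injective (by rw [lift_int hper]; linarith)
    rw [this, eq_comm, ← sub_eq_zero, ← AddCircle.coe_sub, AddCircle.coe_eq_zero_iff]
    exact ⟨n, by simp⟩
  have hsurj : Function.Surjective F := by
    intro y
    induction y using QuotientAddGroup.induction_on with | _ y => ?_
    have h1 := Int.floor_le (y - H 0)
    have h2 := Int.lt_floor_add_one (y - H 0)
    have : y - ⌊y - H 0⌋ ∈ Icc (H 0) (H 1) := by
      have := hper 0
      rw [zero_add] at this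
      constructor <;> linarith
    obtain ⟨x, -, hx⟩ := intermediate_value_Icc zero_le_one hc.continuousOn this
    refine ⟨x, ?_⟩
    rw [hF, hx, eq_comm, ← sub_eq_zero, ← AddCircle.coe_sub, AddCircle.coe_eq_zero_iff]
    exact ⟨⌊y - H 0⌋, by simp⟩
  exact ⟨Continuous.homeoOfEquivCompactToT2 (f := Equiv.ofBijective F ⟨hinj, hsurj⟩) hFc, hF⟩

theorem holder_real {N : ℕ} (hN : 2 ≤ N) {H : ℝ → ℝ} (hm : Monotone H)
    (hh : ∀ (n : ℕ) (u t : ℝ), 0 ≤ t → t ≤ (1 / (2 : ℝ) ^ N) ^ n / 2 →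
      H (u + t) - H u ≤ 2 * (1 / 2) ^ n) (x y : ℝ) (hxy : |x - y| ≤ 1 / 2) :
    |H x - H y| ≤ 8 * |x - y| ^ ((N : ℝ)⁻¹) := by
  wlog h : y ≤ x generalizing x y
  · rw [abs_sub_comm (H x), abs_sub_comm x]
    exact this y x (by rwa [abs_sub_comm]) (le_of_not_ge h)
  rcases h.eq_or_lt with rfl | h
  · simp only [sub_self, abs_zero]; positivity
  rw [abs_of_pos (sub_pos.2 h)] at hxy ⊢
  rw [abs_of_nonneg (sub_nonneg.2 (hm h.le))]
  have hb : (1 : ℝ) < 2 ^ N := one_lt_pow₀ (by norm_num) (by omega)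
  obtain ⟨n, hn1, hn2⟩ := exists_nat_pow_near_of_lt_one (x := 2 * (x - y)) (y := 1 / (2 : ℝ) ^ N)
    (by linarith) (by linarith) (by positivity) (by rw [div_lt_one (by linarith)]; exact hb)
  have h1 := hh n y (x - y) (by linarith) (by linarith)
  rw [add_sub_cancel] at h1
  have h2 : (1 / 2 : ℝ) ^ (n + 2) ≤ (x - y) ^ ((N : ℝ)⁻¹) := by
    rw [Real.le_rpow_inv_iff_of_pos (by positivity) (by linarith) (by positivity),
      Real.rpow_natCast]
    have e : ((1 / 2 : ℝ) ^ (n + 2)) ^ N = (1 / 2 ^ N) ^ (n + 1) * (1 / 2 ^ N) := by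
      rw [← pow_succ, ← pow_mul, mul_comm, pow_mul, one_div_pow]
    have e2 : (1 / 2 ^ N : ℝ) ≤ 1 / 2 := by
      apply one_div_le_one_div_of_le (by norm_num)
      calc (2 : ℝ) = 2 ^ 1 := by norm_num
        _ ≤ 2 ^ N := pow_le_pow_right₀ (by norm_num) (by omega)
    rw [e]
    have : (0 : ℝ) < (1 / 2 ^ N) ^ (n + 1) := by positivity
    nlinarith
  rw [pow_add] at h2
  linarith

theorem continuous_of_holder {α C : ℝ} (hα : 0 < α) {H : ℝ → ℝ}
    (h : ∀ x y, |x - y| ≤ 1 / 2 → |H x - H y| ≤ C * |x - y| ^ α) : Continuous H := by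
  rw [continuous_iff_continuousAt]
  intro y
  rw [ContinuousAt, tendsto_iff_norm_sub_tendsto_zero]
  have h1 : Tendsto (fun x : ℝ => C * |x - y| ^ α) (𝓝 y) (𝓝 0) := by
    have : Continuous fun x : ℝ => C * |x - y| ^ α :=
      continuous_const.mul ((continuous_abs.comp (continuous_sub_right y)).rpow_const
        fun _ => Or.inr hα.le)
    simpa [Real.zero_rpow hα.ne'] using this.tendsto y
  refine squeeze_zero' (Eventually.of_forall fun _ => norm_nonneg _) ?_ h1
  filter_upwards [Metric.closedBall_mem_nhds y (show (0 : ℝ) < 1 / 2 by norm_num)] with x hx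
  exact h x y hx

theorem dist_coe_le (a b : ℝ) : dist (a : UnitAddCircle) (b : UnitAddCircle) ≤ |a - b| := by
  rw [dist_eq_norm, ← AddCircle.coe_sub]
  exact QuotientAddGroup.norm_mk_le_norm

theorem holder_circle {α C : ℝ} {H : ℝ → ℝ} {h : UnitAddCircle → UnitAddCircle}
    (hF : ∀ x : ℝ, h (x : UnitAddCircle) = (H x : ℝ))
    (hh : ∀ x y, |x - y| ≤ 1 / 2 → |H x - H y| ≤ C * |x - y| ^ α) (x y : UnitAddCircle) :
    dist (h x) (h y) ≤ C * dist x y ^ α := by
  induction x using QuotientAddGroup.induction_on with | _ x => ?_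
  induction y using QuotientAddGroup.induction_on with | _ y => ?_
  have e1 : ((y + round (x - y) : ℝ) : UnitAddCircle) = (y : ℝ) := by
    rw [← sub_eq_zero, ← AddCircle.coe_sub, AddCircle.coe_eq_zero_iff]
    exact ⟨round (x - y), by simp⟩
  have e2 : dist (x : UnitAddCircle) (y : ℝ) = |x - (y + round (x - y))| := by
    rw [dist_eq_norm, ← AddCircle.coe_sub, UnitAddCircle.norm_eq, sub_sub]
  rw [e2, ← e1, hF, hF]
  refine (dist_coe_le _ _).trans (hh _ _ ?_)
  rw [← sub_sub]
  exact abs_sub_round _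

theorem parseval_shift (g : C(UnitAddCircle, ℂ)) (t : ℝ) :
    HasSum (fun n : ℤ => ‖fourierCoeff g n‖ ^ 2 * ‖fourier n (t : UnitAddCircle) - 1‖ ^ 2)
      (∫ x in Ioc (0 : ℝ) 1, ‖g ((x + t : ℝ) : UnitAddCircle) - g (x : ℝ)‖ ^ 2) := by
  let d : C(UnitAddCircle, ℂ) := ⟨fun x => g (x + (t : ℝ)) - g x, by fun_prop⟩
  have h1 := hasSum_sq_fourierCoeff (ContinuousMap.toLp (E := ℂ) 2 AddCircle.haarAddCircle ℂ d)
  have h2 : ∀ n, fourierCoeff d n = fourierCoeff g n * (fourier n (t : UnitAddCircle) - 1) := by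
    intro n
    have i1 : Integrable (fun x : UnitAddCircle => fourier (-n) x • g (x + (t : ℝ)))
        AddCircle.haarAddCircle :=
      Continuous.integrable_of_hasCompactSupport (by fun_prop) (HasCompactSupport.of_compactSpace _)
    have i2 : Integrable (fun x : UnitAddCircle => fourier (-n) x • g x)
        AddCircle.haarAddCircle :=
      Continuous.integrable_of_hasCompactSupport (by fun_prop) (HasCompactSupport.of_compactSpace _)
    have e1 : fourierCoeff d n = (∫ x : UnitAddCircle, fourier (-n) x • g (x + (t : ℝ))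
        ∂AddCircle.haarAddCircle) - fourierCoeff g n := by
      simp only [fourierCoeff]
      rw [← integral_sub i1 i2]
      congr 1
      funext x
      simp only [d, ContinuousMap.coe_mk, smul_sub]
    have e2 : (∫ x : UnitAddCircle, fourier (-n) x • g (x + (t : ℝ)) ∂AddCircle.haarAddCircle)
        = fourierCoeff g n * fourier n (t : UnitAddCircle) := by
      simp only [fourierCoeff]
      rw [← integral_add_right_eq_self (fun x : UnitAddCircle => fourier (-n) x • g x) (t : ℝ),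
        ← integral_mul_const]
      congr 1
      funext x
      have a1 : fourier (-n) (x + ((t : ℝ) : UnitAddCircle))
          = fourier (-n) x * fourier (-n) ((t : ℝ) : UnitAddCircle) := by
        simp only [fourier_apply, smul_add, AddCircle.toCircle_add, Circle.coe_mul]
      have a2 : fourier (-n) ((t : ℝ) : UnitAddCircle) * fourier n ((t : ℝ) : UnitAddCircle)
          = 1 := by
        rw [← fourier_add]; simp
      simp only [smul_eq_mul, a1]
      linear_combination (-(fourier (-n) x * g (x + (t : ℝ)))) * a2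
    rw [e1, e2]; ring
  simp only [fourierCoeff_toLp, h2, norm_mul, mul_pow] at h1
  convert h1 using 1
  have h3 : (∫ x : UnitAddCircle, ‖(ContinuousMap.toLp (E := ℂ) 2 AddCircle.haarAddCircle ℂ d) x‖ ^ 2
      ∂AddCircle.haarAddCircle) = ∫ x : UnitAddCircle, ‖d x‖ ^ 2 ∂AddCircle.haarAddCircle := by
    apply integral_congr_ae
    filter_upwards [ContinuousMap.coeFn_toLp (p := 2) (𝕜 := ℂ) AddCircle.haarAddCircle d] with x hx
    rw [hx]
  rw [h3, AddCircle.integral_haarAddCircle, ← UnitAddCircle.integral_preimage 0]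
  simp [d]

theorem fourier_lower {b : ℝ} (hb : 4 ≤ b) (M : ℕ) (n : ℤ) (h1 : b ^ M ≤ |(n : ℝ)|)
    (h2 : |(n : ℝ)| ≤ b ^ (M + 1)) :
    4 / b ^ 2 ≤ ‖fourier n (((1 / b) ^ (M + 1) / 2 : ℝ) : UnitAddCircle) - 1‖ ^ 2 := by
  have hb0 : 0 < b := by linarith
  set t : ℝ := (1 / b) ^ (M + 1) / 2 with ht
  have e : fourier n ((t : ℝ) : UnitAddCircle) = Complex.exp (Complex.I * (2 * Real.pi * n * t : ℝ)) := by
    rw [fourier_coe_apply]; congr 1; push_cast; ring
  rw [e, Complex.norm_exp_I_mul_ofReal_sub_one, Real.norm_eq_abs, sq_abs]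
  have a1 : 1 / (2 * b) ≤ |(n : ℝ)| * t := by
    have : 1 / (2 * b) = b ^ M * t := by
      rw [ht, one_div_pow, pow_succ]; field_simp
    rw [this]; exact mul_le_mul_of_nonneg_right h1 (by positivity)
  have a2 : |(n : ℝ)| * t ≤ 1 / 2 := by
    have : (1 : ℝ) / 2 = b ^ (M + 1) * t := by
      rw [ht, one_div_pow]; field_simp
    rw [this]; exact mul_le_mul_of_nonneg_right h2 (by positivity)
  have a3 : Real.sin (2 * Real.pi * n * t / 2) ^ 2 = Real.sin (Real.pi * (|(n : ℝ)| * t)) ^ 2 := by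
    rcases abs_choice (n : ℝ) with h | h
    · rw [h]; congr 2; ring
    · rw [h, show Real.pi * (-(n : ℝ) * t) = -(2 * Real.pi * n * t / 2) by ring, Real.sin_neg,
        neg_sq]
  have a4 := Real.mul_le_sin (x := Real.pi * (|(n : ℝ)| * t)) (by positivity) (by
    nlinarith [Real.pi_pos])
  have a5 : 2 / Real.pi * (Real.pi * (|(n : ℝ)| * t)) = 2 * (|(n : ℝ)| * t) := by
    field_simp
  have a6 : 1 / b ≤ Real.sin (Real.pi * (|(n : ℝ)| * t)) := by
    have : 1 / b = 2 * (1 / (2 * b)) := by field_simp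
    linarith
  rw [mul_pow, a3]
  have a7 := pow_le_pow_left₀ (by positivity) a6 2
  have : 4 / b ^ 2 = 2 ^ 2 * (1 / b) ^ 2 := by field_simp; norm_num
  linarith

theorem summable_of_modulus {p : ℝ} (hp1 : 1 < p) (hp2 : p ≤ 2) {β : ℕ} (hβ : 4 ≤ β)
    (hβp : 2 < (β : ℝ) ^ (p - 1)) (g : C(UnitAddCircle, ℂ)) (K : ℝ)
    (hg : ∀ M : ℕ, (∫ x in Ioc (0 : ℝ) 1, ‖g ((x + (1 / (β : ℝ)) ^ (M + 1) / 2 : ℝ) : UnitAddCircle)
      - g (x : ℝ)‖ ^ 2) ≤ K * ((M + 1) * (2 / β) ^ M)) :
    Summable fun n : ℤ => ‖fourierCoeff g n‖ ^ p := by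
  have hb : (4 : ℝ) ≤ β := by exact_mod_cast hβ
  have hb0 : (0 : ℝ) < β := by linarith
  set r : ℝ := (β : ℝ) ^ (2 - p) with hr
  have hr0 : 0 < r := by positivity
  have hr1 : r * (2 / β) < 1 := by
    have e : r * (β : ℝ) ^ (p - 1) = β := by
      rw [hr, ← Real.rpow_add hb0]; norm_num
    rw [← mul_div_assoc, div_lt_one hb0]
    nlinarith
  let F : ℕ × ℤ → ℝ := fun z => (r ^ (z.1 + 1) * (β ^ 2 / 4)) * (‖fourierCoeff g z.2‖ ^ 2 *
    ‖fourier z.2 (((1 / (β : ℝ)) ^ (z.1 + 1) / 2 : ℝ) : UnitAddCircle) - 1‖ ^ 2)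
  have hF : Summable F := by
    rw [summable_prod_of_nonneg (fun z => by positivity)]
    refine ⟨fun M => by
      dsimp only [F]
      exact (parseval_shift g _).summable.mul_left _, ?_⟩
    have s1 : Summable fun M : ℕ => (r * (β ^ 2 / 4) * K) * (((M : ℝ) + 1) * (r * (2 / β)) ^ M) := by
      refine Summable.mul_left _ ?_
      have n1 : ‖r * (2 / β)‖ < 1 := by rw [Real.norm_eq_abs, abs_of_pos (by positivity)]; exact hr1
      have := (summable_pow_mul_geometric_of_norm_lt_one 1 n1).add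
        (summable_geometric_of_norm_lt_one n1)
      refine this.congr fun M => ?_
      ring
    refine Summable.of_nonneg_of_le (fun M => tsum_nonneg fun n => by positivity) (fun M => ?_) s1
    dsimp only [F]
    rw [((parseval_shift g _).mul_left _).tsum_eq]
    refine (mul_le_mul_of_nonneg_left (hg M) (by positivity)).trans (le_of_eq ?_)
    rw [mul_pow]; ring
  have hF2 : Summable fun n : ℤ => F (Nat.log β n.natAbs, n) :=
    hF.comp_injective (i := fun n : ℤ => (Nat.log β n.natAbs, n)) fun _ _ h => (Prod.ext_iff.1 h).2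
  have hS := (Real.summable_abs_int_rpow hp1).add hF2
  refine Summable.of_norm_bounded_eventually hS ?_
  filter_upwards [eventually_cofinite_ne (0 : ℤ)] with n hn
  have hn' : n.natAbs ≠ 0 := by omega
  have e0 : |(n : ℝ)| = (n.natAbs : ℝ) := by simp
  set M := Nat.log β n.natAbs with hM
  have h1 : (β : ℝ) ^ M ≤ |(n : ℝ)| := by
    rw [e0]; exact_mod_cast Nat.pow_log_le_self β hn'
  have h2 : |(n : ℝ)| ≤ (β : ℝ) ^ (M + 1) := by
    rw [e0]; exact_mod_cast (Nat.lt_pow_succ_log_self (by omega) n.natAbs).le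
  have h3 := fourier_lower hb M n h1 h2
  have hpos : 0 < |(n : ℝ)| := by rw [abs_pos]; exact_mod_cast hn
  set a := ‖fourierCoeff g n‖ with ha
  have ha0 : 0 ≤ a := norm_nonneg _
  rw [Real.norm_eq_abs, abs_of_nonneg (by positivity)]
  have hF0 : 0 ≤ F (M, n) := by positivity
  by_cases hc : a ≤ |(n : ℝ)|⁻¹
  · have := Real.rpow_le_rpow ha0 hc (by linarith : 0 ≤ p)
    rw [Real.inv_rpow hpos.le, ← Real.rpow_neg hpos.le] at this
    linarith
  · have hc' : |(n : ℝ)|⁻¹ < a := lt_of_not_ge hc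
    have hapos : 0 < a := (inv_pos.2 hpos).trans hc'
    have k1 : a ^ p = a ^ 2 * (a⁻¹) ^ (2 - p) := by
      rw [Real.inv_rpow ha0, ← Real.rpow_neg ha0, ← Real.rpow_natCast, ← Real.rpow_add hapos]
      norm_num
    have k2 : (a⁻¹) ^ (2 - p) ≤ r ^ (M + 1) := by
      have : a⁻¹ ≤ (β : ℝ) ^ (M + 1) := ((inv_lt_comm₀ hapos hpos).2 hc').le.trans h2
      refine (Real.rpow_le_rpow (by positivity) this (by linarith)).trans (le_of_eq ?_)
      rw [hr, ← Real.rpow_natCast, ← Real.rpow_natCast, ← Real.rpow_mul hb0.le,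
        ← Real.rpow_mul hb0.le, mul_comm]
    have k3 : a ^ 2 * r ^ (M + 1) ≤ F (M, n) := by
      have : a ^ 2 * r ^ (M + 1) = (r ^ (M + 1) * (β ^ 2 / 4)) * (a ^ 2 * (4 / β ^ 2)) := by
        field_simp
      rw [this]
      exact mul_le_mul_of_nonneg_left (mul_le_mul_of_nonneg_left h3 (by positivity))
        (by positivity)
    have k4 : 0 ≤ |(n : ℝ)| ^ (-p) := by positivity
    have k5 := mul_le_mul_of_nonneg_left k2 (sq_nonneg a)
    linarith

end Pool.Agent.H13.Hold
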