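import Mathlib.Tactic.NormNum
import Mathlib.Data.Nat.Bitwise

/-! Kernel friendly loops. -/

namespace Pool.Agent.H13

/-- `allBelow n f` is true iff `f i` holds for all `i < n`. -/
noncomputable def allBelow (n : ℕ) (f : ℕ → Bool) : Bool :=
  Nat.rec (motive := fun _ => Bool) true (fun i ih => Bool.rec false ih (f i)) n

/-- `anyBelow n f` is true iff `f i` holds for some `i < n`. -/
noncomputable def anyBelow (n : ℕ) (f : ℕ → Bool) : Bool :=
  Nat.rec (motive := fun _ => Bool) false (fun i ih => Bool.rec ih true (f i)) n

/-- evaluate `x` to a literal once, then pass it on. -/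
noncomputable def force {α : Type} (x : ℕ) (f : ℕ → α) : α :=
  Nat.rec (motive := fun _ => α) (f 0) (fun i _ => f (Nat.succ i)) x

/-- lazy or -/
noncomputable def orr (a b : Bool) : Bool := Bool.rec b true a

/-- lazy and -/
noncomputable def andd (a b : Bool) : Bool := Bool.rec false b a

/-- lazy if -/
noncomputable def iff' {α : Type} (c : Bool) (a b : α) : α := Bool.rec b a c

@[simp] theorem force_eq {α : Type} (x : ℕ) (f : ℕ → α) : force x f = f x := by
  cases x <;> rfl

@[simp] theorem orr_eq (a b : Bool) : orr a b = (a || b) := by cases a <;> rfl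

@[simp] theorem andd_eq (a b : Bool) : andd a b = (a && b) := by cases a <;> rfl

@[simp] theorem iff'_eq {α : Type} (c : Bool) (a b : α) : iff' c a b = if c then a else b := by
  cases c <;> rfl

theorem allBelow_iff (n : ℕ) (f : ℕ → Bool) : allBelow n f = true ↔ ∀ i < n, f i = true := by
  induction n with
  | zero => simp [allBelow]
  | succ n ih =>
    have : allBelow (n + 1) f = Bool.rec false (allBelow n f) (f n) := rfl
    rw [this]
    constructor
    · intro h i hi
      cases hf : f n with
      | false => rw [hf] at h; exact absurd h (by simp)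
      | true =>
        rw [hf] at h
        rcases Nat.lt_succ_iff_lt_or_eq.1 hi with h1 | rfl
        · exact ih.1 h i h1
        · exact hf
    · intro h
      rw [h n (Nat.lt_succ_self n)]
      exact ih.2 fun i hi => h i (Nat.lt_succ_of_lt hi)

theorem anyBelow_iff (n : ℕ) (f : ℕ → Bool) : anyBelow n f = true ↔ ∃ i < n, f i = true := by
  induction n with
  | zero => simp [anyBelow]
  | succ n ih =>
    have : anyBelow (n + 1) f = Bool.rec (anyBelow n f) true (f n) := rfl
    rw [this]
    constructor
    · intro h
      cases hf : f n with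
      | false =>
        rw [hf] at h
        obtain ⟨i, hi, h1⟩ := ih.1 h
        exact ⟨i, Nat.lt_succ_of_lt hi, h1⟩
      | true => exact ⟨n, Nat.lt_succ_self n, hf⟩
    · rintro ⟨i, hi, h⟩
      cases hf : f n with
      | true => rfl
      | false =>
        rcases Nat.lt_succ_iff_lt_or_eq.1 hi with h1 | rfl
        · exact ih.2 ⟨i, h1, h⟩
        · rw [hf] at h; exact absurd h (by simp)

end Pool.Agent.H13
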