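import Mathlib

/-! Kronecker's density theorem on finite-dimensional tori. -/

open Filter Topology UnitAddTorus

namespace Pool.Agent.H13.Kron

variable {d : Type} [Fintype d]

lemma mF_add (n : d → ℤ) (x y : UnitAddTorus d) :
    mFourier n (x + y) = mFourier n x * mFourier n y := by
  simp only [mFourier, ContinuousMap.coe_mk, Pi.add_apply, ← Finset.prod_mul_distrib]
  refine Finset.prod_congr rfl fun i _ => ?_
  simp only [fourier_apply, smul_add, AddCircle.toCircle_add, Circle.coe_mul]

lemma mF_zero (n : d → ℤ) : mFourier n (0 : UnitAddTorus d) = 1 := by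
  simp [mFourier]

lemma mF_nsmul (n : d → ℤ) (x : UnitAddTorus d) (k : ℕ) :
    mFourier n (k • x) = mFourier n x ^ k := by
  induction k with
  | zero => simp [mF_zero]
  | succ k ih => rw [succ_nsmul, mF_add, ih, pow_succ]

lemma mF_coe (n : d → ℤ) (g : d → ℝ) :
    mFourier n (fun i => (g i : UnitAddCircle)) =
      Complex.exp (2 * Real.pi * Complex.I * (∑ i, (n i : ℝ) * g i : ℝ)) := by
  simp only [mFourier, ContinuousMap.coe_mk, fourier_coe_apply, ← Complex.exp_sum]
  congr 1
  push_cast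
  rw [Finset.mul_sum]
  refine Finset.sum_congr rfl fun i _ => by ring

theorem kron (g : d → ℝ) (hg : ∀ n : d → ℤ, n ≠ 0 → ∀ k : ℤ, ∑ i, (n i : ℝ) * g i ≠ k)
    (L : AddSubgroup (UnitAddTorus d)) (hL : IsClosed (L : Set (UnitAddTorus d)))
    (hγ : (fun i => (g i : UnitAddCircle)) ∈ L) : L = ⊤ := by
  set γ : UnitAddTorus d := fun i => (g i : UnitAddCircle) with hγdef
  rw [eq_top_iff]
  intro x _
  by_contra hx
  have hne : ∀ n : d → ℤ, n ≠ 0 → mFourier n γ ≠ 1 := by
    intro n hn h
    rw [hγdef, mF_coe, Complex.exp_eq_one_iff] at h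
    obtain ⟨k, hk⟩ := h
    apply hg n hn k
    have h2 : (2 * Real.pi * Complex.I : ℂ) ≠ 0 := by simp [Real.pi_ne_zero]
    have : ((∑ i, (n i : ℝ) * g i : ℝ) : ℂ) = k := by
      apply mul_left_cancel₀ h2
      rw [hk]; ring
    exact_mod_cast this
  let ℓ : ℕ → C(UnitAddTorus d, ℂ) → ℂ := fun N f =>
    (N : ℂ)⁻¹ * ∑ k ∈ Finset.range N, (f (x + k • γ) - f (k • γ))
  have hb : ∀ N f, ‖ℓ N f‖ ≤ 2 * ‖f‖ := by
    intro N f
    rcases Nat.eq_zero_or_pos N with rfl | hN
    · simp [ℓ]
    simp only [ℓ, norm_mul, norm_inv, Complex.norm_natCast]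
    have : ‖∑ k ∈ Finset.range N, (f (x + k • γ) - f (k • γ))‖ ≤ N * (2 * ‖f‖) := by
      refine (norm_sum_le _ _).trans ?_
      refine (Finset.sum_le_card_nsmul _ _ (2 * ‖f‖) fun k _ => ?_).trans (by simp)
      refine (norm_sub_le _ _).trans ?_
      have := f.norm_coe_le_norm (x + k • γ)
      have := f.norm_coe_le_norm (k • γ)
      linarith
    have hN' : (0 : ℝ) < N := by exact_mod_cast hN
    rw [inv_mul_le_iff₀ hN']
    exact this
  have hsub : ∀ N f f', ℓ N (f - f') = ℓ N f - ℓ N f' := by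
    intro N f f'
    simp only [ℓ, ContinuousMap.sub_apply, ← mul_sub, ← Finset.sum_sub_distrib]
    congr 1
    refine Finset.sum_congr rfl fun k _ => by ring
  let S : Submodule ℂ C(UnitAddTorus d, ℂ) :=
    { carrier := {f | Tendsto (fun N => ℓ N f) atTop (𝓝 0)}
      add_mem' := by
        intro f f' hf hf'
        have := Tendsto.add hf hf'
        simp only [add_zero] at this
        refine this.congr fun N => ?_
        simp only [ℓ, ContinuousMap.add_apply, ← mul_add, ← Finset.sum_add_distrib]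
        congr 1
        refine Finset.sum_congr rfl fun k _ => by ring
      zero_mem' := by simp [ℓ]
      smul_mem' := by
        intro c f hf
        have := Tendsto.const_mul c hf
        simp only [mul_zero] at this
        refine this.congr fun N => ?_
        simp only [ℓ, ContinuousMap.smul_apply, smul_eq_mul, ← mul_sub, ← Finset.mul_sum]
        ring }
  have hSc : IsClosed (S : Set C(UnitAddTorus d, ℂ)) := by
    refine isClosed_of_closure_subset fun f hf => ?_
    change Tendsto (fun N => ℓ N f) atTop (𝓝 0)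
    rw [Metric.tendsto_atTop]
    intro ε hε
    obtain ⟨f', hf', hd⟩ := Metric.mem_closure_iff.1 hf (ε / 4) (by positivity)
    obtain ⟨N0, hN0⟩ := Metric.tendsto_atTop.1 (show Tendsto (fun N => ℓ N f') atTop (𝓝 0) from hf')
      (ε / 2) (by positivity)
    refine ⟨N0, fun N hN => ?_⟩
    have h1 := hN0 N hN
    have h2 := hb N (f - f')
    rw [hsub] at h2
    rw [dist_eq_norm] at hd
    rw [dist_zero_right] at h1 ⊢
    have := norm_add_le (ℓ N f - ℓ N f') (ℓ N f')
    rw [sub_add_cancel] at this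
    linarith
  have hS : S = ⊤ := by
    rw [eq_top_iff, ← span_mFourier_closure_eq_top]
    refine Submodule.topologicalClosure_minimal _ ?_ hSc
    rw [Submodule.span_le]
    rintro _ ⟨n, rfl⟩
    change Tendsto (fun N => ℓ N (mFourier n)) atTop (𝓝 0)
    by_cases hn : n = 0
    · subst hn
      simp [ℓ, mFourier_zero]
    have hz := hne n hn
    have hz1 : ‖mFourier n γ‖ ≤ 1 := by
      have := (mFourier n).norm_coe_le_norm γ
      rwa [mFourier_norm] at this
    have hform : ∀ N, ℓ N (mFourier n) =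
        (N : ℂ)⁻¹ * ((mFourier n x - 1) * ((mFourier n γ ^ N - 1) / (mFourier n γ - 1))) := by
      intro N
      simp only [ℓ, mF_add, mF_nsmul]
      rw [← geom_sum_eq hz]
      congr 1
      rw [Finset.mul_sum]
      refine Finset.sum_congr rfl fun k _ => by ring
    simp only [hform]
    refine Tendsto.zero_mul_isBoundedUnder_le (tendsto_inv_atTop_nhds_zero_nat (𝕜 := ℂ)) ?_
    refine isBoundedUnder_of ⟨‖mFourier n x - 1‖ * (2 / ‖mFourier n γ - 1‖), fun N => ?_⟩
    simp only [Function.comp, norm_mul, norm_div]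
    gcongr
    refine (norm_sub_le _ _).trans ?_
    rw [norm_pow, norm_one]
    have := pow_le_one₀ (n := N) (norm_nonneg _) hz1
    linarith
  have hcl : IsClosed ((fun y => x + y) '' (L : Set (UnitAddTorus d))) :=
    (Homeomorph.addLeft x).isClosedMap _ hL
  obtain ⟨f, hf0, hf1, -⟩ := exists_continuous_zero_one_of_isClosed hL hcl (by
    rw [Set.disjoint_left]
    rintro _ hy ⟨z, hz, rfl⟩
    exact hx (by simpa using L.sub_mem hy hz))
  let F : C(UnitAddTorus d, ℂ) := ⟨fun y => (f y : ℂ), by fun_prop⟩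
  have hF : Tendsto (fun N => ℓ N F) atTop (𝓝 0) := (hS ▸ Submodule.mem_top : F ∈ S)
  have hF1 : ∀ N, 0 < N → ℓ N F = 1 := by
    intro N hN
    have : ∀ k ∈ Finset.range N, F (x + k • γ) - F (k • γ) = 1 := by
      intro k _
      have h1 : f (x + k • γ) = 1 := hf1 ⟨k • γ, L.nsmul_mem hγ k, rfl⟩
      have h0 : f (k • γ) = 0 := hf0 (L.nsmul_mem hγ k)
      simp [F, h1, h0]
    simp only [ℓ]
    rw [Finset.sum_congr rfl this]
    have : (N : ℂ) ≠ 0 := by exact_mod_cast hN.ne'
    simp [this]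
  have : Tendsto (fun N => ℓ N F) atTop (𝓝 1) :=
    tendsto_const_nhds.congr' ((eventually_gt_atTop 0).mono fun N hN => (hF1 N hN).symm)
  exact zero_ne_one (tendsto_nhds_unique hF this)

/-- Density of a subgroup of an arbitrary power of the circle. -/
theorem dense_of {I : Type} (B : AddSubgroup (I → UnitAddCircle))
    (h : ∀ F : Finset I, ∃ g : I → ℝ, (fun i => (g i : UnitAddCircle)) ∈ B ∧
      ∀ n : F → ℤ, n ≠ 0 → ∀ k : ℤ, ∑ i : F, (n i : ℝ) * g i ≠ k) :
    Dense (B : Set (I → UnitAddCircle)) := by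
  rw [dense_iff_inter_open]
  rintro U hU ⟨x, hx⟩
  obtain ⟨F, u, hu, hsub⟩ := isOpen_pi_iff.1 hU x hx
  obtain ⟨g, hgB, hg⟩ := h F
  let ρ : (I → UnitAddCircle) →+ UnitAddTorus F :=
    { toFun := fun y i => y i, map_zero' := rfl, map_add' := fun _ _ => rfl }
  have htop := kron (fun i : F => g i) hg (B.map ρ).topologicalClosure
    (AddSubgroup.isClosed_topologicalClosure _)
    (AddSubgroup.le_topologicalClosure _ ⟨_, hgB, rfl⟩)
  have hmem : ρ x ∈ closure ((B.map ρ : AddSubgroup _) : Set (UnitAddTorus F)) := by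
    have : ρ x ∈ (B.map ρ).topologicalClosure := htop ▸ AddSubgroup.mem_top _
    exact this
  obtain ⟨_, hz, y, hy, rfl⟩ := mem_closure_iff.1 hmem (Set.univ.pi fun i : F => u i)
    (isOpen_set_pi Set.finite_univ fun i _ => (hu i i.2).1) (fun i _ => (hu i i.2).2)
  exact ⟨y, hsub fun i hi => hz ⟨i, hi⟩ trivial, hy⟩

end Pool.Agent.H13.Kron
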