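import Mathlib

namespace Pool.Agent.H13.MY

open Set Filter Topology MeasureTheory intervalIntegral

variable {E : Type} [NormedAddCommGroup E] [NormedSpace ℝ E]

theorem gron1 {w w' : ℝ → E} {a b L ε : ℝ} (hL : 0 < L) (hε : 0 ≤ ε)
    (hw : ∀ t ∈ Icc a b, HasDerivWithinAt w (w' t) (Icc a b) t)
    (hb : ∀ t ∈ Icc a b, ‖w' t‖ ≤ L * ‖w t‖ + L * ε) {p t : ℝ} (hp : p ∈ Icc a b) (ht : t ∈ Icc a b)
    (hpt : p ≤ t) : ‖w t‖ ≤ (‖w p‖ + ε) * Real.exp (L * (b - a)) := by
  have hsub : Icc p t ⊆ Icc a b := Icc_subset_Icc hp.1 ht.2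
  have := norm_le_gronwallBound_of_norm_deriv_right_le (f := w) (f' := w') (a := p) (b := t)
    (δ := ‖w p‖) (K := L) (ε := L * ε)
    (fun s hs => (hw s (hsub hs)).continuousWithinAt.mono hsub)
    (fun s hs => (hw s (hsub (Ico_subset_Icc_self hs))).mono_of_mem_nhdsWithin
      (mem_of_superset (Icc_mem_nhdsGE_of_mem hs) hsub)) le_rfl
    (fun s hs => hb s (hsub (Ico_subset_Icc_self hs))) t ⟨hpt, le_rfl⟩
  rw [gronwallBound_of_K_ne_0 hL.ne'] at this
  simp only at this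
  rw [mul_div_cancel_left₀ _ hL.ne'] at this
  have h1 : Real.exp (L * (t - p)) ≤ Real.exp (L * (b - a)) := by
    apply Real.exp_le_exp.2
    apply mul_le_mul_of_nonneg_left _ hL.le
    linarith [hp.1, ht.2]
  nlinarith [norm_nonneg (w p)]

theorem gron {w w' : ℝ → E} {a b L ε : ℝ} (hL : 0 < L) (hε : 0 ≤ ε)
    (hw : ∀ t ∈ Icc a b, HasDerivWithinAt w (w' t) (Icc a b) t)
    (hb : ∀ t ∈ Icc a b, ‖w' t‖ ≤ L * ‖w t‖ + L * ε) {p t : ℝ} (hp : p ∈ Icc a b) (ht : t ∈ Icc a b) :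
    ‖w t‖ ≤ (‖w p‖ + ε) * Real.exp (L * (b - a)) := by
  rcases le_total p t with h | h
  · exact gron1 hL hε hw hb hp ht h
  · have hm : ∀ s ∈ Icc (-b) (-a), -s ∈ Icc a b := fun s hs => ⟨by linarith [hs.2], by linarith [hs.1]⟩
    have := gron1 (w := fun s => w (-s)) (w' := fun s => (-1 : ℝ) • w' (-s)) (a := -b) (b := -a) hL hε
      (fun s hs => (hw _ (hm s hs)).scomp s (hasDerivAt_neg s).hasDerivWithinAt hm)
      (fun s hs => by simpa using hb _ (hm s hs)) (p := -p) (t := -t)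
      ⟨by linarith [hp.2], by linarith [hp.1]⟩ ⟨by linarith [ht.2], by linarith [ht.1]⟩ (by linarith)
    simpa [show -a + b = b - a by ring] using this

/-- solution of the linear equation on `[a, b]` -/
def Sol (A : ℝ → E →L[ℝ] E) (a b : ℝ) (y : ℝ → E) : Prop :=
  ∀ t ∈ Icc a b, HasDerivWithinAt y (A t (y t)) (Icc a b) t

theorem Sol.mono {A : ℝ → E →L[ℝ] E} {a b c d : ℝ} {y : ℝ → E} (h : Sol A a b y) (h1 : a ≤ c)
    (h2 : d ≤ b) : Sol A c d y := fun t ht =>
  (h t (Icc_subset_Icc h1 h2 ht)).mono (Icc_subset_Icc h1 h2)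

theorem Sol.le {A : ℝ → E →L[ℝ] E} {a b L : ℝ} {y : ℝ → E} (h : Sol A a b y) (hL : 0 < L)
    (hA : ∀ t ∈ Icc a b, ‖A t‖ ≤ L) {p t : ℝ} (hp : p ∈ Icc a b) (ht : t ∈ Icc a b) :
    ‖y t‖ ≤ ‖y p‖ * Real.exp (L * (b - a)) := by
  simpa using gron hL le_rfl h (fun s hs => by
    simpa using ((A s).le_opNorm (y s)).trans (mul_le_mul_of_nonneg_right (hA s hs) (norm_nonneg _)))
    hp ht

theorem exists_sol [CompleteSpace E] {A : ℝ → E →L[ℝ] E} (hc : Continuous A) {a b p : ℝ}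
    (hp : p ∈ Icc a b) (v : E) : ∃ y, Sol A a b y ∧ y p = v := by
  obtain ⟨L₀, hL₀⟩ := (isCompact_Icc (a := a) (b := b)).exists_bound_of_continuousOn hc.continuousOn
  set L := |L₀| + 1
  have hL : 0 < L := by positivity
  have hA : ∀ t ∈ Icc a b, ‖A t‖ ≤ L := fun t ht => by linarith [hL₀ t ht, le_abs_self L₀]
  set R := ‖v‖ * Real.exp (L * (b - a)) + 1
  have hR : 0 < R := by positivity
  let ρ : E → E := fun x => (R / max R ‖x‖) • x
  have hm : ∀ x : E, 0 < max R ‖x‖ := fun x => lt_max_of_lt_left hR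
  have ρ1 : ∀ x, ‖ρ x‖ ≤ R := fun x => by
    simp only [ρ, norm_smul, Real.norm_eq_abs, abs_of_pos (div_pos hR (hm x))]
    rw [div_mul_eq_mul_div, div_le_iff₀ (hm x)]
    exact mul_le_mul_of_nonneg_left (le_max_right _ _) hR.le
  have ρ2 : ∀ x, ‖ρ x‖ ≤ ‖x‖ := fun x => by
    simp only [ρ, norm_smul, Real.norm_eq_abs, abs_of_pos (div_pos hR (hm x))]
    exact mul_le_of_le_one_left (norm_nonneg _) ((div_le_one (hm x)).2 (le_max_left _ _))
  have ρ3 : ∀ x y, ‖ρ x - ρ y‖ ≤ 2 * ‖x - y‖ := fun x y => by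
    have e : ρ x - ρ y = ρ x - (R / max R ‖x‖) • y + (R / max R ‖x‖ - R / max R ‖y‖) • y := by
      simp only [ρ, sub_smul]; abel
    have h1 : ‖ρ x - (R / max R ‖x‖) • y‖ ≤ ‖x - y‖ := by
      simp only [ρ, ← smul_sub, norm_smul, Real.norm_eq_abs, abs_of_pos (div_pos hR (hm x))]
      exact mul_le_of_le_one_left (norm_nonneg _) ((div_le_one (hm x)).2 (le_max_left _ _))
    have h2 : |max R ‖y‖ - max R ‖x‖| ≤ ‖x - y‖ := by
      refine (abs_max_sub_max_le_max _ _ _ _).trans ?_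
      simp only [sub_self, abs_zero]
      refine max_le (norm_nonneg _) ?_
      rw [abs_sub_comm]; exact abs_norm_sub_norm_le _ _
    have h3 : ‖(R / max R ‖x‖ - R / max R ‖y‖) • y‖ ≤ ‖x - y‖ := by
      rw [norm_smul, Real.norm_eq_abs, div_sub_div _ _ (hm x).ne' (hm y).ne', mul_comm (max R ‖x‖) R,
        ← mul_sub, abs_div, abs_mul, abs_of_pos hR, abs_of_pos (mul_pos (hm x) (hm y)),
        div_mul_eq_mul_div, div_le_iff₀ (mul_pos (hm x) (hm y))]
      calc R * |max R ‖y‖ - max R ‖x‖| * ‖y‖ ≤ max R ‖x‖ * ‖x - y‖ * max R ‖y‖ := by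
            gcongr
            exacts [le_max_left _ _, le_max_right _ _]
        _ = _ := by ring
    rw [e]
    linarith [norm_add_le (ρ x - (R / max R ‖x‖) • y) ((R / max R ‖x‖ - R / max R ‖y‖) • y)]
  have hab : 0 ≤ b - a := by linarith [hp.1, hp.2]
  have PL : IsPicardLindelof (fun t x => A t (ρ x)) (⟨p, hp⟩ : Icc a b) v
      ⟨L * R * (b - a), by positivity⟩ 0 ⟨L * R, by positivity⟩ ⟨L * 2, by positivity⟩ := by
    constructor
    · intro t ht
      refine LipschitzOnWith.of_dist_le_mul fun x _ y _ => ?_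
      rw [dist_eq_norm, dist_eq_norm, ← map_sub]
      refine ((A t).le_opNorm _).trans ?_
      show _ ≤ L * 2 * _
      rw [mul_assoc]
      exact mul_le_mul (hA t ht) (ρ3 x y) (norm_nonneg _) hL.le
    · intro x _
      exact (hc.clm_apply continuous_const).continuousOn
    · intro t ht x _
      exact ((A t).le_opNorm _).trans (mul_le_mul (hA t ht) (ρ1 x) (norm_nonneg _) hL.le)
    · show L * R * max (b - p) (p - a) ≤ L * R * (b - a) - 0
      rw [sub_zero]
      exact mul_le_mul_of_nonneg_left (max_le (by linarith [hp.1]) (by linarith [hp.2])) (by positivity)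
  obtain ⟨y, h1, h2⟩ := PL.exists_eq_forall_mem_Icc_hasDerivWithinAt₀
  refine ⟨y, fun t ht => ?_, h1⟩
  have h3 := gron hL le_rfl h2 (fun s hs => by
    simpa using ((A s).le_opNorm _).trans (mul_le_mul (hA s hs) (ρ2 (y s)) (norm_nonneg _) hL.le)) hp ht
  have h1' : y p = v := h1
  rw [h1', add_zero] at h3
  have : ρ (y t) = y t := by
    simp only [ρ]
    rw [max_eq_left (by linarith), div_self hR.ne', one_smul]
  simpa only [this] using h2 t ht

/-- the tent function -/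
noncomputable def c (u : ℝ) : ℝ := Real.arccos (Real.cos (Real.pi * u)) / Real.pi

theorem c_cont : Continuous c := by
  unfold c
  exact (Real.continuous_arccos.comp (by fun_prop)).div_const _

theorem c_mem (u : ℝ) : c u ∈ Icc (0 : ℝ) 1 :=
  ⟨div_nonneg (Real.arccos_nonneg _) Real.pi_pos.le, (div_le_one Real.pi_pos).2 (Real.arccos_le_pi _)⟩

theorem c_per : Function.Periodic c 2 := fun u => by
  unfold c
  rw [mul_add, mul_comm Real.pi 2, Real.cos_add_two_pi]

theorem c_id {u : ℝ} (h : u ∈ Icc (0 : ℝ) 1) : c u = u := by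
  unfold c
  rw [Real.arccos_cos (mul_nonneg Real.pi_pos.le h.1) (mul_le_of_le_one_right Real.pi_pos.le h.2)]
  field_simp

theorem c_neg (u : ℝ) : c (-u) = c u := by unfold c; rw [mul_neg, Real.cos_neg]

theorem c_zero (N m : ℕ) : c (2 * N * m) = 0 := by
  have := c_per.nat_mul_eq (N * m)
  rw [c_id (u := 0) (by simp)] at this
  rw [← this]; congr 1; push_cast; ring

theorem c_int [CompleteSpace E] {k : ℝ → E} (hk : Continuous k) (h0 : ∫ s in (0 : ℝ)..1, k s = 0) (p : ℝ) :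
    ∫ u in p..p + 2, k (c u) = 0 := by
  have hp : Function.Periodic (fun u => k (c u)) 2 := fun u => by simp only [c_per u]
  have hkc : Continuous fun u => k (c u) := hk.comp c_cont
  rw [hp.intervalIntegral_add_eq p (-1), show (-1 : ℝ) + 2 = 1 by norm_num,
    ← integral_add_adjacent_intervals (b := 0) (hkc.intervalIntegrable _ _) (hkc.intervalIntegrable _ _)]
  have h1 : ∫ u in (0 : ℝ)..1, k (c u) = 0 := by
    rw [← h0]
    refine integral_congr fun u hu => ?_
    rw [uIcc_of_le zero_le_one] at hu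
    simp only [c_id hu]
  have h2 : ∫ u in (-1 : ℝ)..0, k (c u) = 0 := by
    have := integral_comp_neg (a := 0) (b := 1) (fun u => k (c u))
    simp only [c_neg, neg_zero] at this
    rw [← this, h1]
  rw [h1, h2, add_zero]

theorem averaging [CompleteSpace E] {g : ℝ × ℝ → E} (hg : Continuous g) {a b : ℝ}
    (h0 : ∀ t ∈ Icc a b, ∫ s in (0 : ℝ)..1, g (t, s) = 0) {ε : ℝ} (hε : 0 < ε) :
    ∃ N : ℕ, ∀ t ∈ Icc a b, ‖∫ τ in a..t, g (τ, c (2 * N * τ))‖ ≤ ε := by
  rcases lt_or_ge b a with hab | hab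
  · exact ⟨0, fun t ht => absurd (ht.1.trans ht.2) (not_le.2 hab)⟩
  have hK : IsCompact (Icc a b ×ˢ Icc (0 : ℝ) 1) := isCompact_Icc.prod isCompact_Icc
  obtain ⟨M, hM⟩ := hK.exists_bound_of_continuousOn hg.continuousOn
  set ρ := ε / (2 * (b - a + 1))
  have hρ : 0 < ρ := by positivity
  obtain ⟨δ, hδ, hu⟩ := Metric.uniformContinuousOn_iff_le.1 (hK.uniformContinuousOn_of_continuous
    hg.continuousOn) ρ hρ
  obtain ⟨N₀, hN⟩ := exists_nat_gt (max (1 / δ) (2 * |M| / ε))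
  have hN0 : (0 : ℝ) < N₀ := lt_of_le_of_lt (le_max_of_le_left (by positivity)) hN
  set h : ℝ := 1 / N₀
  have hh : 0 < h := by positivity
  have hhδ : h ≤ δ := by
    have := (le_max_left _ _).trans hN.le
    rw [div_le_iff₀ hδ] at this
    rw [div_le_iff₀ hN0]; linarith
  have hhM : |M| * h ≤ ε / 2 := by
    have := (le_max_right _ _).trans hN.le
    rw [div_le_iff₀ hε] at this
    rw [mul_one_div, div_le_iff₀ hN0]; linarith
  have hG : Continuous fun τ => g (τ, c (2 * N₀ * τ)) :=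
    hg.comp (continuous_id.prodMk (c_cont.comp (by fun_prop)))
  have step : ∀ p, a ≤ p → p + h ≤ b → ‖∫ τ in p..p + h, g (τ, c (2 * N₀ * τ))‖ ≤ ρ * h := by
    intro p h1 h2
    have hp : p ∈ Icc a b := ⟨h1, by linarith⟩
    have hk : Continuous fun s => g (p, s) := by fun_prop
    have z : ∫ τ in p..p + h, g (p, c (2 * N₀ * τ)) = 0 := by
      rw [integral_comp_mul_left (fun u => g (p, c u)) (by positivity),
        show 2 * N₀ * (p + h) = 2 * N₀ * p + 2 by simp only [h]; field_simp, c_int hk (h0 p hp), smul_zero]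
    have hk2 : Continuous fun τ => g (p, c (2 * N₀ * τ)) := hk.comp (c_cont.comp (by fun_prop))
    rw [← sub_zero (∫ τ in p..p + h, _), ← z,
      ← integral_sub (hG.intervalIntegrable _ _) (hk2.intervalIntegrable _ _)]
    have := norm_integral_le_of_norm_le_const (a := p) (b := p + h) (C := ρ)
      (f := fun τ => g (τ, c (2 * N₀ * τ)) - g (p, c (2 * N₀ * τ))) (fun τ hτ => by
        rw [uIoc_of_le (by linarith)] at hτ
        rw [← dist_eq_norm]
        refine hu _ ⟨⟨by linarith [hτ.1], by linarith [hτ.2]⟩, c_mem _⟩ _ ⟨hp, c_mem _⟩ ?_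
        rw [Prod.dist_eq, dist_self, Real.dist_eq]
        refine max_le ?_ hδ.le
        rw [abs_of_pos (by linarith [hτ.1])]; linarith [hτ.2])
    simpa [abs_of_pos hh] using this
  have ind : ∀ k : ℕ, a + k * h ≤ b → ‖∫ τ in a..a + k * h, g (τ, c (2 * N₀ * τ))‖ ≤ ρ * (k * h) := by
    intro k
    induction k with
    | zero => simp
    | succ k ih =>
      intro hk
      push_cast at hk ⊢
      have h1 : (0 : ℝ) ≤ k * h := by positivity
      rw [← integral_add_adjacent_intervals (b := a + k * h) (hG.intervalIntegrable _ _)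
        (hG.intervalIntegrable _ _), show a + (k + 1) * h = a + k * h + h by ring]
      have := step (a + k * h) (by linarith) (by linarith)
      have := ih (by linarith)
      refine (norm_add_le _ _).trans (by linarith)
  refine ⟨N₀, fun t ht => ?_⟩
  set k := ⌊(t - a) / h⌋₊
  have k1 : (k : ℝ) * h ≤ t - a := (le_div_iff₀ hh).1 (Nat.floor_le (div_nonneg (by linarith [ht.1]) hh.le))
  have k2 : t - a < (k + 1) * h := (div_lt_iff₀ hh).1 (Nat.lt_floor_add_one _)
  have k0 : (0 : ℝ) ≤ k * h := by positivity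
  rw [← integral_add_adjacent_intervals (b := a + k * h) (hG.intervalIntegrable _ _)
    (hG.intervalIntegrable _ _)]
  have h1 := ind k (by linarith [ht.2])
  have h2 := norm_integral_le_of_norm_le_const (a := a + k * h) (b := t) (C := |M|)
    (f := fun τ => g (τ, c (2 * N₀ * τ))) (fun τ hτ => by
      rw [uIoc_of_le (by linarith)] at hτ
      exact (hM _ ⟨⟨by linarith [hτ.1], by linarith [hτ.2, ht.2]⟩, c_mem _⟩).trans (le_abs_self _))
  rw [abs_of_nonneg (a := t - _) (by linarith)] at h2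
  have h3 : ρ * (k * h) ≤ ε / 2 := by
    have : ρ * (2 * (b - a + 1)) = ε := by simp only [ρ]; field_simp
    nlinarith [ht.2]
  have h4 : |M| * (t - (a + k * h)) ≤ |M| * h := mul_le_mul_of_nonneg_left (by linarith) (abs_nonneg _)
  refine (norm_add_le _ _).trans (by linarith)

theorem glue {W : ℕ → ℝ → E} (hc : ∀ m, Continuous (W m)) (h0 : ∀ m n : ℕ, W m n = 0) :
    ∃ ω : ℝ → E, Continuous ω ∧ ∀ m : ℕ, ∀ t ∈ Icc (m : ℝ) (m + 1), ω t = W m t := by
  have key : ∀ m : ℕ, ∀ t ∈ Icc (m : ℝ) (m + 1), W ⌊t⌋₊ t = W m t := by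
    intro m t ht
    rcases ht.2.eq_or_lt with rfl | h
    · exact_mod_cast (h0 _ (m + 1)).trans (h0 m (m + 1)).symm
    · rw [(Nat.floor_eq_iff ((Nat.cast_nonneg m).trans ht.1)).2 ⟨ht.1, h⟩]
  have hlf : LocallyFinite fun m : ℕ => Icc (m : ℝ) (m + 1) := by
    intro x
    obtain ⟨n, hn⟩ := exists_nat_gt x
    refine ⟨Iio n, Iio_mem_nhds hn, (finite_lt_nat n).subset ?_⟩
    rintro m ⟨t, h1, h2⟩
    exact_mod_cast h1.1.trans_lt h2
  have hon : ContinuousOn (fun t => W ⌊t⌋₊ t) (⋃ m : ℕ, Icc (m : ℝ) (m + 1)) :=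
    hlf.continuousOn_iUnion (fun _ => isClosed_Icc) fun m => (hc m).continuousOn.congr (key m)
  refine ⟨fun t => W ⌊max t 0⌋₊ (max t 0), hon.comp_continuous (by fun_prop) fun t => ?_, ?_⟩
  · exact mem_iUnion.2 ⟨⌊max t 0⌋₊, Nat.floor_le (le_max_right _ _), (Nat.lt_floor_add_one _).le⟩
  · intro m t ht
    simp only [max_eq_left ((Nat.cast_nonneg m).trans ht.1)]
    exact key m t ht

end Pool.Agent.H13.MY
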