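import Mathlib

/-! Ultrapowers that are enlargements and have a small initial segment. -/

open Filter

namespace Pool.Agent.H13.NS

universe u

variable {I : Type u}

/-- The star-extension of a set inside the ultrapower of `X` by `W`. -/
def star (W : Ultrafilter I) {X : Type} (A : Set X) : Set (Germ (W : Filter I) X) :=
  {x | x.LiftPred (· ∈ A)}

/-- The ultrapower by `W` is an enlargement, for subsets of every type `X`. -/
def Enl (W : Ultrafilter I) : Prop :=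
  ∀ (X : Type) (𝒜 : Set (Set X)), (∀ t : Finset (Set X), (t : Set (Set X)) ⊆ 𝒜 →
    (⋂₀ (t : Set (Set X))).Nonempty) → ∃ x : Germ (W : Filter I) X, ∀ A ∈ 𝒜, x ∈ star W A

/-- The monad of an ultrafilter. -/
def monad (W : Ultrafilter I) (F : Ultrafilter ℕ+) : Set (Germ (W : Filter I) ℕ+) :=
  {x | ∀ A ∈ F, x ∈ star W A}

/-- Tilde divisibility of ultrafilters. -/
def TDvd (F G : Ultrafilter ℕ+) : Prop := ∀ A ∈ F, {n | ∃ a ∈ A, a ∣ n} ∈ G

theorem exists_enl (U : Ultrafilter ℕ) : ∃ (I : Type 1) (W : Ultrafilter I) (π : I → ℕ),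
    Enl W ∧ W.map π = U ∧ ∀ (f : I → ℕ+) (D : ℕ → Set ℕ+), (∀ n, (D n).Finite) →
      (∀ᶠ i in (W : Filter I), f i ∈ D (π i)) →
      ∃ c : ℕ → ℕ+, ∀ᶠ i in (W : Filter I), f i = c (π i) := by
  let J : Type 1 := ∀ p : (Σ X : Type, Ultrafilter X), p.1
  let V : Ultrafilter J :=
    Ultrafilter.of (Filter.pi fun p : (Σ X : Type, Ultrafilter X) => (p.2 : Filter p.1))
  have hV : (V : Filter J) ≤ Filter.pi fun p : (Σ X : Type, Ultrafilter X) => (p.2 : Filter p.1) :=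
    Ultrafilter.of_le _
  let W : Ultrafilter (ℕ × J) := U.bind fun n => V.map (Prod.mk n)
  have hW : ∀ P : ℕ × J → Prop, (∀ᶠ i in (W : Filter (ℕ × J)), P i) ↔
      ∀ᶠ n in (U : Filter ℕ), ∀ᶠ j in (V : Filter J), P (n, j) := fun P => Iff.rfl
  refine ⟨ℕ × J, W, Prod.fst, fun X 𝒜 h𝒜 => ?_, ?_, fun f D hD h => ?_⟩
  · obtain ⟨F, hF⟩ := Ultrafilter.exists_ultrafilter_of_finite_inter_nonempty 𝒜 h𝒜
    refine ⟨(fun i : ℕ × J => i.2 ⟨X, F⟩ : ℕ × J → X), fun A hA => ?_⟩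
    refine (hW fun i => i.2 ⟨X, F⟩ ∈ A).2 (Eventually.of_forall fun n => ?_)
    exact ((tendsto_eval_pi _ (⟨X, F⟩ : Σ X : Type, Ultrafilter X)).mono_left hV).eventually (hF hA)
  · refine Ultrafilter.coe_le_coe.1 fun A hA => ?_
    exact (hW fun i => i.1 ∈ A).2 (mem_of_superset hA fun n hn => Eventually.of_forall fun _ => hn)
  · have : ∀ n, ∃ c : ℕ+, (∀ᶠ j in (V : Filter J), f (n, j) ∈ D n) →
        ∀ᶠ j in (V : Filter J), f (n, j) = c := by
      intro n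
      by_cases hn : ∀ᶠ j in (V : Filter J), f (n, j) ∈ D n
      · obtain ⟨c, -, hc⟩ := Ultrafilter.eq_pure_of_finite_mem (f := V.map fun j => f (n, j)) (hD n) hn
        refine ⟨c, fun _ => ?_⟩
        have : ({c} : Set ℕ+) ∈ V.map fun j => f (n, j) := by rw [hc]; exact rfl
        exact this
      · exact ⟨1, fun h => absurd h hn⟩
    choose c hc using this
    exact ⟨c, (hW fun i => f i = c i.1).2 (((hW _).1 h).mono fun n hn => hc n hn)⟩

theorem exists_gen : ∃ H : Ultrafilter (ℕ × ℕ), {q : ℕ × ℕ | q.2 ≤ q.1} ∈ H ∧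
    ∀ S : Set (ℕ × ℕ), (∀ n j j', (n, j) ∈ S → (n, j') ∈ S → j = j') → Sᶜ ∈ H := by
  let Φ : Filter (ℕ × ℕ) :=
    { sets := {S | ∃ k, ∀ n, {j | j ≤ n ∧ (n, j) ∉ S}.ncard ≤ k}
      univ_sets := ⟨0, fun n => by simp⟩
      sets_of_superset := fun {S T} ⟨k, hk⟩ hST => ⟨k, fun n => by
        refine le_trans (Set.ncard_le_ncard ?_ ?_) (hk n)
        · exact fun j hj => ⟨hj.1, fun h => hj.2 (hST h)⟩
        · exact (Set.finite_le_nat n).subset fun j hj => hj.1⟩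
      inter_sets := fun {S T} ⟨k, hk⟩ ⟨l, hl⟩ => ⟨k + l, fun n => by
        refine le_trans (le_trans (Set.ncard_le_ncard ?_ ?_) (Set.ncard_union_le _ _))
          (add_le_add (hk n) (hl n))
        · intro j hj
          by_cases h : (n, j) ∈ S
          · exact Or.inr ⟨hj.1, fun h' => hj.2 ⟨h, h'⟩⟩
          · exact Or.inl ⟨hj.1, h⟩
        · exact (Set.finite_le_nat n).subset fun j hj => hj.elim And.left And.left⟩ }
  have : Φ.NeBot := ⟨fun h => by
    obtain ⟨k, hk⟩ : ∅ ∈ Φ := by rw [h]; trivial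
    have h1 := hk k
    have h2 : {j | j ≤ k ∧ (k, j) ∉ (∅ : Set (ℕ × ℕ))} = (Finset.range (k + 1) : Set ℕ) := by
      ext j; simp [Nat.lt_succ_iff]
    rw [h2, Set.ncard_coe_finset, Finset.card_range] at h1
    omega⟩
  refine ⟨Ultrafilter.of Φ, Ultrafilter.of_le Φ ⟨0, fun n => ?_⟩,
    fun S hS => Ultrafilter.of_le Φ ⟨1, fun n => ?_⟩⟩
  · have : {j | j ≤ n ∧ (n, j) ∉ {q : ℕ × ℕ | q.2 ≤ q.1}} = ∅ := by ext j; simp
    rw [this]; simp
  · rw [Set.ncard_le_one_iff ((Set.finite_le_nat n).subset fun j hj => hj.1)]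
    exact fun ha hb => hS n _ _ (not_not.1 ha.2) (not_not.1 hb.2)

noncomputable def pr (n : ℕ) : ℕ+ := ⟨Nat.nth Nat.Prime n, (Nat.prime_nth_prime n).pos⟩

lemma pr_prime (n : ℕ) : (pr n : ℕ).Prime := Nat.prime_nth_prime n

lemma pr_dvd {a b : ℕ} (h : (pr a : ℕ) ∣ pr b) : a = b :=
  Nat.nth_injective Nat.infinite_setOfPred_prime
    ((Nat.prime_dvd_prime_iff_eq (pr_prime a) (pr_prime b)).1 h)

end Pool.Agent.H13.NS
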