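import Mathlib

open Finset

namespace Pool.Agent.H13.Pat

lemma hall {ι V : Type} [Fintype ι] [DecidableEq V] (T : ι → Finset V) (Z : Finset V)
    (h : ∀ i, Fintype.card ι + #Z ≤ #(T i)) :
    ∃ f : ι → V, Function.Injective f ∧ ∀ i, f i ∈ T i ∧ f i ∉ Z := by
  classical
  obtain ⟨f, hf, h'⟩ := (all_card_le_biUnion_card_iff_exists_injective fun i => T i \ Z).1 (by
    intro s
    rcases s.eq_empty_or_nonempty with rfl | ⟨i, hi⟩
    · simp
    · have h1 := card_le_card (subset_biUnion_of_mem (fun i => T i \ Z) hi)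
      have h2 := le_card_sdiff Z (T i)
      have h3 := card_le_univ s
      have := h i
      omega)
  exact ⟨f, hf, fun i => mem_sdiff.1 (h' i)⟩

def F : Finset (Finset (Fin 16)) :=
  {{0, 1}, {0, 8}, {0, 9}, {1, 10}, {1, 11}, {0, 12}, {0, 13}, {1, 14}, {1, 15},
    {2, 5}, {3, 6}, {4, 7}}

def p (e : Finset (Fin 16)) : Fin 3 :=
  if 12 ∈ e ∨ 13 ∈ e ∨ 14 ∈ e ∨ 15 ∈ e then 1 else if 0 ∈ e ∨ 1 ∈ e then 0 else 2

variable {V : Type} [Fintype V] [DecidableEq V]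

/-- neighbourhood along a set of edges -/
def Nb (R : Finset (Finset V)) (x : V) : Finset V := univ.filter fun y => {x, y} ∈ R

def Copy (R : Fin 3 → Finset (Finset V)) : Prop :=
  ∃ φ : Fin 16 → V, Function.Injective φ ∧ ∀ e ∈ F, e.image φ ∈ R (p e)

lemma copy8 (R : Fin 3 → Finset (Finset V)) (a : Fin 8 → V) (ha : Function.Injective a)
    (h0 : {a 0, a 1} ∈ R 0) (h1 : {a 2, a 5} ∈ R 2) (h2 : {a 3, a 6} ∈ R 2) (h3 : {a 4, a 7} ∈ R 2)
    (b1 : 16 ≤ #(Nb (R 0) (a 0))) (b2 : 16 ≤ #(Nb (R 0) (a 1))) (b3 : 16 ≤ #(Nb (R 1) (a 0)))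
    (b4 : 16 ≤ #(Nb (R 1) (a 1))) : Copy R := by
  obtain ⟨f, hf, h⟩ := hall (![Nb (R 0) (a 0), Nb (R 0) (a 0), Nb (R 0) (a 1), Nb (R 0) (a 1),
    Nb (R 1) (a 0), Nb (R 1) (a 0), Nb (R 1) (a 1), Nb (R 1) (a 1)] : Fin 8 → _) (univ.image a) (by
      intro i
      rw [card_image_of_injective _ ha]
      fin_cases i <;> simpa)
  refine ⟨Fin.append a f, Fin.append_injective_iff.2 ⟨ha, hf, fun i j e =>
    (h j).2 (mem_image.2 ⟨i, mem_univ _, e⟩)⟩, ?_⟩
  simp only [F, mem_insert, mem_singleton, forall_eq_or_imp, forall_eq, image_insert,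
    image_singleton]
  exact ⟨h0, (mem_filter.1 (h 0).1).2, (mem_filter.1 (h 1).1).2, (mem_filter.1 (h 2).1).2,
    (mem_filter.1 (h 3).1).2, (mem_filter.1 (h 4).1).2, (mem_filter.1 (h 5).1).2,
    (mem_filter.1 (h 6).1).2, (mem_filter.1 (h 7).1).2, h1, h2, h3⟩

lemma copy5 (R : Fin 3 → Finset (Finset V)) (b : Fin 5 → V) (hb : Function.Injective b)
    (h0 : {b 0, b 1} ∈ R 0) (h1 : 16 ≤ #(Nb (R 2) (b 2))) (h2 : 16 ≤ #(Nb (R 2) (b 3)))
    (h3 : 16 ≤ #(Nb (R 2) (b 4)))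
    (b1 : 16 ≤ #(Nb (R 0) (b 0))) (b2 : 16 ≤ #(Nb (R 0) (b 1))) (b3 : 16 ≤ #(Nb (R 1) (b 0)))
    (b4 : 16 ≤ #(Nb (R 1) (b 1))) : Copy R := by
  obtain ⟨f, hf, h⟩ := hall (![Nb (R 2) (b 2), Nb (R 2) (b 3), Nb (R 2) (b 4)] : Fin 3 → _)
    (univ.image b) (by
      intro i
      rw [card_image_of_injective _ hb]
      fin_cases i <;> simp <;> omega)
  exact copy8 R (Fin.append b f) (Fin.append_injective_iff.2 ⟨hb, hf, fun i j e =>
    (h j).2 (mem_image.2 ⟨i, mem_univ _, e⟩)⟩) h0 (mem_filter.1 (h 0).1).2 (mem_filter.1 (h 1).1).2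
    (mem_filter.1 (h 2).1).2 b1 b2 b3 b4

lemma pick (B Z : Finset V) (k : ℕ) (h : k + #Z ≤ #B) :
    ∃ f : Fin k → V, Function.Injective f ∧ ∀ i, f i ∈ B ∧ f i ∉ Z :=
  hall (fun _ => B) Z fun _ => by simpa using h

lemma copy2 (R : Fin 3 → Finset (Finset V)) {x y : V} (hxy : x ≠ y) (B : Finset V) (hB : 5 ≤ #B)
    (h0 : {x, y} ∈ R 0) (h1 : ∀ z ∈ B, 16 ≤ #(Nb (R 2) z))
    (b1 : 16 ≤ #(Nb (R 0) x)) (b2 : 16 ≤ #(Nb (R 0) y)) (b3 : 16 ≤ #(Nb (R 1) x))
    (b4 : 16 ≤ #(Nb (R 1) y)) : Copy R := by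
  obtain ⟨f, hf, h⟩ := pick B {x, y} 3 (by rw [card_pair hxy]; exact hB)
  refine copy5 R (Fin.append ![x, y] f) (Fin.append_injective_iff.2 ⟨?_, hf, fun i j e =>
    (h j).2 ?_⟩) h0 (h1 _ (h 0).1) (h1 _ (h 1).1) (h1 _ (h 2).1) b1 b2 b3 b4
  · intro i j
    fin_cases i <;> fin_cases j <;> simp [hxy, hxy.symm]
  · rw [← e]
    fin_cases i <;> simp

lemma edges (S : Finset (Finset V)) (hS : ∀ e ∈ S, #e = 2) (x : V) :
    #(S.filter (x ∈ ·)) ≤ #(Nb S x) := by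
  refine le_trans (card_le_card fun e he => ?_) (card_image_le (f := fun y => {x, y}))
  obtain ⟨h1, h2⟩ := mem_filter.1 he
  obtain ⟨a, b, -, rfl⟩ := card_eq_two.1 (hS e h1)
  rcases mem_insert.1 h2 with rfl | h
  · exact mem_image.2 ⟨b, mem_filter.2 ⟨mem_univ _, h1⟩, rfl⟩
  · obtain rfl := mem_singleton.1 h
    exact mem_image.2 ⟨a, mem_filter.2 ⟨mem_univ _, pair_comm a x ▸ h1⟩, pair_comm _ _⟩

lemma covers (S : Finset (Finset V)) (hS : ∀ e ∈ S, #e = 2) (W : Finset V) (k : ℕ)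
    (g : V → Finset (Finset V)) (h : ∀ e ∈ S, ∃ x ∈ e, x ∈ W ∨ e ∈ g x)
    (hk : ∀ x ∉ W, #(g x) ≤ k) : #S ≤ (#W + k) * Fintype.card V := by
  have : S ⊆ W.biUnion (fun x => S.filter (x ∈ ·)) ∪ Wᶜ.biUnion g := by
    intro e he
    obtain ⟨x, hx, h⟩ := h e he
    by_cases hW : x ∈ W
    · exact mem_union_left _ (mem_biUnion.2 ⟨x, hW, mem_filter.2 ⟨he, hx⟩⟩)
    · exact mem_union_right _ (mem_biUnion.2 ⟨x, mem_compl.2 hW, h.resolve_left hW⟩)
  refine (card_le_card this).trans ((card_union_le _ _).trans ?_)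
  rw [add_mul, mul_comm k]
  exact add_le_add (card_biUnion_le_card_mul _ _ _ fun x _ => (edges S hS x).trans (card_le_univ _))
    ((card_biUnion_le_card_mul _ _ _ fun x hx => hk x (mem_compl.1 hx)).trans
      (Nat.mul_le_mul_right _ (card_le_univ _)))

lemma exb (H : Finset (Finset V)) (hH : ∀ e ∈ H, #e = 2) (h : ¬ Copy fun _ => H) :
    #H ≤ 20 * Fintype.card V := by
  let B := univ.filter fun x => 16 ≤ #(Nb H x)
  have hk : ∀ x ∉ B, #(H.filter (x ∈ ·)) ≤ 16 := fun x hx => (edges H hH x).trans (by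
    simp [B] at hx
    omega)
  by_cases hB : 5 ≤ #B
  · refine (covers H hH ∅ 16 (fun x => if x ∈ B then ∅ else H.filter (x ∈ ·)) (fun e he => ?_)
      fun x _ => ?_).trans (by simp; omega)
    · obtain ⟨a, b, hab, rfl⟩ := card_eq_two.1 (hH e he)
      by_cases ha : a ∈ B
      · by_cases hb : b ∈ B
        · exact (h (copy2 _ hab B hB he (fun z hz => (mem_filter.1 hz).2) (mem_filter.1 ha).2
            (mem_filter.1 hb).2 (mem_filter.1 ha).2 (mem_filter.1 hb).2)).elim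
        · exact ⟨b, by simp, .inr (by simp [hb, he])⟩
      · exact ⟨a, by simp, .inr (by simp [ha, he])⟩
    · split_ifs with hx
      exacts [by simp, hk x hx]
  · refine (covers H hH B 16 (fun x => H.filter (x ∈ ·)) (fun e he => ?_) hk).trans
      (Nat.mul_le_mul_right _ (by omega))
    obtain ⟨a, b, hab, rfl⟩ := card_eq_two.1 (hH e he)
    exact ⟨a, by simp, .inr (by simp [he])⟩

def M3 (R : Finset (Finset V)) : Prop :=
  ∃ a : Fin 6 → V, Function.Injective a ∧ {a 0, a 3} ∈ R ∧ {a 1, a 4} ∈ R ∧ {a 2, a 5} ∈ R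

lemma m3a (R : Finset (Finset V)) (B : Finset V) (hB : 3 ≤ #B) (h : ∀ z ∈ B, 16 ≤ #(Nb R z)) :
    M3 R := by
  obtain ⟨z, hz, h1⟩ := pick B ∅ 3 (by simpa using hB)
  obtain ⟨f, hf, h2⟩ := hall (fun i => Nb R (z i)) (univ.image z) fun i => by
    rw [card_image_of_injective _ hz]
    have := h _ (h1 i).1
    simp
    omega
  exact ⟨Fin.append z f, Fin.append_injective_iff.2 ⟨hz, hf, fun i j e =>
    (h2 j).2 (mem_image.2 ⟨i, mem_univ _, e⟩)⟩, (mem_filter.1 (h2 0).1).2, (mem_filter.1 (h2 1).1).2,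
    (mem_filter.1 (h2 2).1).2⟩

lemma m3b (R S : Finset (Finset V)) (hS : ∀ e ∈ S, #e = 2) (hR : S ⊆ R)
    (h : ∀ x, #(S.filter (x ∈ ·)) ≤ 16) (hc : 64 < #S) : M3 R := by
  have k : ∀ T : Finset V, #T ≤ 4 → ∃ a b, a ≠ b ∧ {a, b} ∈ R ∧ a ∉ T ∧ b ∉ T := by
    intro T hT
    have := card_biUnion_le_card_mul T (fun x => S.filter (x ∈ ·)) 16 fun x _ => h x
    obtain ⟨e, he, hn⟩ := exists_mem_notMem_of_card_lt_card (s := T.biUnion _) (t := S)
      (this.trans_lt (by omega))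
    obtain ⟨a, b, hab, rfl⟩ := card_eq_two.1 (hS e he)
    exact ⟨a, b, hab, hR he, fun h => hn (mem_biUnion.2 ⟨a, h, by simp [he]⟩),
      fun h => hn (mem_biUnion.2 ⟨b, h, by simp [he]⟩)⟩
  obtain ⟨a, b, h1, h2, -, -⟩ := k ∅ (by simp)
  obtain ⟨c, d, h3, h4, h5, h6⟩ := k {a, b} (card_le_two.trans (by norm_num))
  obtain ⟨e, f, h7, h8, h9, h10⟩ := k {a, b, c, d} card_le_four
  refine ⟨![a, c, e, b, d, f], ?_, h2, h4, h8⟩
  simp only [mem_insert, mem_singleton, not_or] at h5 h6 h9 h10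
  rw [← List.nodup_ofFn]
  simp only [List.ofFn_succ, List.ofFn_zero]
  simp
  grind

lemma copyM (R : Fin 3 → Finset (Finset V)) {x y : V} (hxy : x ≠ y) (a : Fin 6 → V)
    (ha : Function.Injective a) (h1 : {a 0, a 3} ∈ R 2) (h2 : {a 1, a 4} ∈ R 2)
    (h3 : {a 2, a 5} ∈ R 2) (hx : x ∉ univ.image a) (hy : y ∉ univ.image a) (h0 : {x, y} ∈ R 0)
    (b1 : 16 ≤ #(Nb (R 0) x)) (b2 : 16 ≤ #(Nb (R 0) y)) (b3 : 16 ≤ #(Nb (R 1) x))
    (b4 : 16 ≤ #(Nb (R 1) y)) : Copy R := by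
  refine copy8 R (Fin.append ![x, y] a) (Fin.append_injective_iff.2 ⟨?_, ha, fun i j e => ?_⟩)
    h0 h1 h2 h3 b1 b2 b3 b4
  · intro i j
    fin_cases i <;> fin_cases j <;> simp [hxy, hxy.symm]
  · fin_cases i
    exacts [hx (mem_image.2 ⟨j, mem_univ _, e.symm⟩), hy (mem_image.2 ⟨j, mem_univ _, e.symm⟩)]

/-- The dichotomy. `R i` is the set of edges of colour `i`. -/
lemma dich (R : Fin 3 → Finset (Finset V)) (h2 : ∀ i, ∀ e ∈ R i, #e = 2)
    (hall : ∀ x y, x ≠ y → ∃ i, {x, y} ∈ R i)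
    (hfree : ∀ i j k, i ≠ j → i ≠ k → j ≠ k → ¬ Copy ![R i, R j, R k]) :
    (∃ (x y : V) (k l : Fin 3), #((R k).filter fun e => x ∉ e ∧ y ∉ e) ≤ 64 ∧
      #((R l).filter (y ∈ ·)) ≤ 16) ∨
    ∃ (W : Finset V) (d : V → Fin 3), #W ≤ 198 ∧ ∀ x ∉ W, ∀ i ≠ d x, #((R i).filter (x ∈ ·)) ≤ 16 := by
  let B : Fin 3 → Finset V := fun i => univ.filter fun x => 16 ≤ #(Nb (R i) x)
  have hB : ∀ {i x}, x ∈ B i ↔ 16 ≤ #(Nb (R i) x) := by simp [B]
  have hs : ∀ i x, x ∉ B i → #((R i).filter (x ∈ ·)) ≤ 16 := fun i x hx =>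
    (edges _ (h2 i) x).trans (not_le.1 (mt hB.2 hx)).le
  by_cases h : ∃ i j, i ≠ j ∧ 23 ≤ #(B i ∩ B j)
  · left
    obtain ⟨i, j, hij, hc⟩ := h
    obtain ⟨k, hik, hjk, hk⟩ : ∃ k, i ≠ k ∧ j ≠ k ∧ ∀ m, m = i ∨ m = j ∨ m = k := by
      clear hc; revert i j; decide
    have all3 : ∀ x y, x ≠ y → (∀ m, x ∈ B m) → (∀ m, y ∈ B m) → False := by
      intro x y hxy hx hy
      obtain ⟨m, hm⟩ := hall x y hxy
      rcases hk m with rfl | rfl | rfl
      · exact hfree m k j hik hij hjk.symm (copy2 _ hxy (B m ∩ B j) (by omega) hm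
          (fun z hz => hB.1 (mem_inter.1 hz).2) (hB.1 (hx _)) (hB.1 (hy _)) (hB.1 (hx _)) (hB.1 (hy _)))
      · exact hfree m k i hjk hij.symm hik.symm (copy2 _ hxy (B i ∩ B m) (by omega) hm
          (fun z hz => hB.1 (mem_inter.1 hz).1) (hB.1 (hx _)) (hB.1 (hy _)) (hB.1 (hx _)) (hB.1 (hy _)))
      · exact hfree m i j hik.symm hjk.symm hij (copy2 _ hxy (B i ∩ B j) (by omega) hm
          (fun z hz => hB.1 (mem_inter.1 hz).2) (hB.1 (hx _)) (hB.1 (hy _)) (hB.1 (hx _)) (hB.1 (hy _)))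
    have nm : ¬ M3 (R k) := by
      rintro ⟨a, ha, h1, h2', h3⟩
      let T := (B i ∩ B j) \ univ.image a
      have hT : 17 ≤ #T := by
        have := le_card_sdiff (univ.image a) (B i ∩ B j)
        rw [card_image_of_injective _ ha, card_univ, Fintype.card_fin] at this
        exact le_trans (by omega) this
      have e : ∀ x ∈ T, ∀ y ∈ T, x ≠ y → {x, y} ∈ R k := by
        intro x hx y hy hxy
        obtain ⟨hx, hx'⟩ := mem_sdiff.1 hx
        obtain ⟨hy, hy'⟩ := mem_sdiff.1 hy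
        rw [mem_inter] at hx hy
        obtain ⟨m, hm⟩ := hall x y hxy
        rcases hk m with rfl | rfl | rfl
        · exact (hfree m j k hij hik hjk (copyM _ hxy a ha h1 h2' h3 hx' hy' hm
            (hB.1 hx.1) (hB.1 hy.1) (hB.1 hx.2) (hB.1 hy.2))).elim
        · exact (hfree m i k hij.symm hjk hik (copyM _ hxy a ha h1 h2' h3 hx' hy' hm
            (hB.1 hx.2) (hB.1 hy.2) (hB.1 hx.1) (hB.1 hy.1))).elim
        · exact hm
      have e2 : ∀ x ∈ T, ∀ m, x ∈ B m := by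
        intro x hx m
        rcases hk m with rfl | rfl | rfl
        · exact (mem_inter.1 (mem_sdiff.1 hx).1).1
        · exact (mem_inter.1 (mem_sdiff.1 hx).1).2
        · refine hB.2 (le_trans ?_ (card_le_card (s := T.erase x) fun y hy =>
            mem_filter.2 ⟨mem_univ _, e x hx y (mem_erase.1 hy).2 (mem_erase.1 hy).1.symm⟩))
          rw [card_erase_of_mem hx]
          omega
      obtain ⟨x, hx, y, hy, hxy⟩ := one_lt_card.1 (show 1 < #T by omega)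
      exact all3 x y hxy (e2 x hx) (e2 y hy)
    have hY : #(B k) ≤ 2 := by
      by_contra hc
      exact nm (m3a _ (B k) (by omega) fun z hz => hB.1 hz)
    obtain ⟨x, y, l, hxy, hl⟩ : ∃ x y l, (∀ z ∈ B k, z = x ∨ z = y) ∧ y ∉ B l := by
      rcases hY.eq_or_lt with h | h
      · obtain ⟨x, y, hxy, e⟩ := card_eq_two.1 h
        by_cases hy : ∀ m, y ∈ B m
        · obtain ⟨l, hl⟩ := not_forall.1 fun hx => all3 x y hxy hx hy
          exact ⟨y, x, l, by simp [e], hl⟩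
        · obtain ⟨l, hl⟩ := not_forall.1 hy
          exact ⟨x, y, l, by simp [e], hl⟩
      · obtain ⟨y, -, hy⟩ := exists_mem_notMem_of_card_lt_card (s := B k) (t := B i ∩ B j) (by omega)
        have : Nonempty V := ⟨y⟩
        obtain ⟨x, hx⟩ := card_le_one_iff_subset_singleton.1 (show #(B k) ≤ 1 by omega)
        exact ⟨x, y, k, fun z hz => .inl (mem_singleton.1 (hx hz)), hy⟩
    refine ⟨x, y, k, l, ?_, hs l y hl⟩
    by_contra hc
    refine nm (m3b _ _ (fun e he => h2 k e (mem_filter.1 he).1) (filter_subset _ _) (fun z => ?_)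
      (not_le.1 hc))
    by_cases hz : z ∈ B k
    · rw [filter_eq_empty_iff.2, card_empty]
      · omega
      intro e he hze
      rcases hxy z hz with rfl | rfl
      exacts [(mem_filter.1 he).2.1 hze, (mem_filter.1 he).2.2 hze]
    · exact (card_le_card (filter_subset_filter _ (filter_subset _ _))).trans (hs k z hz)
  · right
    push Not at h
    let W := (univ : Finset (Fin 3 × Fin 3)).biUnion fun q => if q.1 = q.2 then ∅ else B q.1 ∩ B q.2
    have : ∀ x, ∃ d, x ∉ W → ∀ i ≠ d, x ∉ B i := by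
      intro x
      by_cases hx : ∃ d, x ∈ B d
      · obtain ⟨d, hd⟩ := hx
        exact ⟨d, fun hW i hi h => hW (mem_biUnion.2 ⟨(i, d), mem_univ _, by simp [hi, h, hd]⟩)⟩
      · exact ⟨0, fun _ i _ h => hx ⟨i, h⟩⟩
    choose d hd using this
    refine ⟨W, d, (card_biUnion_le_card_mul _ _ 22 fun q _ => ?_).trans (by simp),
      fun x hx i hi => hs i x (hd x hx i hi)⟩
    split_ifs with hq
    · simp
    · have := h _ _ hq
      omega

lemma small {X : Type} [Fintype X] [DecidableEq X] (s : ℕ) :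
    #(univ.filter fun G : Finset X => #G ≤ s) ≤ (Fintype.card X + 1) ^ s := by
  have : (Fintype.card X + 1) ^ s = #(univ : Finset (Fin s → Option X)) := by simp
  rw [this]
  refine card_le_card_of_surjOn (fun f => eraseNone (univ.image f)) fun G hG => ?_
  have hG : #G ≤ s := (mem_filter.1 hG).2
  refine ⟨fun j => if h : j.1 < #G then some (G.equivFin.symm ⟨j, h⟩).1 else none, by simp, ?_⟩
  ext x
  simp only [mem_eraseNone, mem_image, mem_univ, true_and]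
  constructor
  · rintro ⟨j, hj⟩
    split_ifs at hj with h
    exact Option.some.inj hj ▸ (G.equivFin.symm ⟨j, h⟩).2
  · intro hx
    exact ⟨⟨G.equivFin ⟨x, hx⟩, (G.equivFin ⟨x, hx⟩).2.trans_le hG⟩, by simp⟩

lemma cnt {E β : Type} [Fintype E] [DecidableEq E] [Fintype β] (A : β → E → Finset (Fin 3))
    (hA : ∀ b e, (A b e).Nonempty) (s : ℕ) (M : ℝ) (hM : ∀ b, (∏ e, #(A b e) : ℝ) ≤ M)
    (T : Finset (E → Fin 3)) (hT : ∀ c ∈ T, ∃ b, #(univ.filter fun e => c e ∉ A b e) ≤ s) :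
    (#T : ℝ) ≤ Fintype.card β * (M * (3 * Fintype.card E + 1) ^ s) := by
  classical
  choose d hd using hA
  have h1 : T ⊆ univ.biUnion fun b => univ.filter fun c : E → Fin 3 =>
      #(univ.filter fun e => c e ∉ A b e) ≤ s := fun c hc => by simpa using hT c hc
  refine (Nat.cast_le.2 ((card_le_card h1).trans card_biUnion_le)).trans ?_
  rw [Nat.cast_sum, ← nsmul_eq_mul]
  refine sum_le_card_nsmul _ _ _ fun b _ => ?_
  have h2 := card_le_card_of_injOn (s := univ.filter fun c : E → Fin 3 =>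
      #(univ.filter fun e => c e ∉ A b e) ≤ s)
    (t := Fintype.piFinset (A b) ×ˢ univ.filter fun G : Finset (E × Fin 3) => #G ≤ s)
    (fun c => (fun e => if c e ∈ A b e then c e else d b e,
      (univ.filter fun e => c e ∉ A b e).image fun e => (e, c e))) (by
      intro c hc
      refine mem_coe.2 (mem_product.2 ⟨Fintype.mem_piFinset.2 fun e => ?_,
        mem_filter.2 ⟨mem_univ _, card_image_le.trans (mem_filter.1 hc).2⟩⟩)
      show (if c e ∈ A b e then c e else d b e) ∈ _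
      split_ifs with h
      exacts [h, hd b e]) (by
      intro c _ c' _ h
      obtain ⟨h1, h2⟩ := Prod.mk.inj h
      funext e
      by_cases he : c e ∈ A b e
      · by_cases he' : c' e ∈ A b e
        · simpa [he, he'] using congrFun h1 e
        · simpa [eq_comm] using (h2.ge (mem_image_of_mem _ (mem_filter.2 ⟨mem_univ e, he'⟩)))
            |> fun h => by
              obtain ⟨e', -, h⟩ := mem_image.1 h
              obtain ⟨rfl, h⟩ := Prod.mk.inj h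
              exact h
      · obtain ⟨e', -, h⟩ := mem_image.1 (h2.le (mem_image_of_mem _ (mem_filter.2 ⟨mem_univ e, he⟩)))
        obtain ⟨rfl, h⟩ := Prod.mk.inj h
        exact h.symm)
  rw [card_product, Fintype.card_piFinset] at h2
  refine (Nat.cast_le.2 (h2.trans (Nat.mul_le_mul_left _ (small s)))).trans ?_
  push_cast
  rw [Fintype.card_prod, Fintype.card_fin, Nat.cast_mul, mul_comm _ ((3 : ℕ) : ℝ)]
  exact mul_le_mul_of_nonneg_right (hM b) (by positivity)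

lemma prd {E : Type} [Fintype E] (P : E → Prop) [DecidablePred P] :
    (∏ e, if P e then 3 else 2 : ℝ) = 2 ^ Fintype.card E * (3 / 2) ^ #(univ.filter P) := by
  rw [← card_univ, ← prod_const, ← prod_const, prod_filter, ← prod_mul_distrib]
  refine prod_congr rfl fun e _ => ?_
  split_ifs <;> norm_num

lemma asym : ∀ᶠ n : ℕ in Filter.atTop, ∀ N t : ℕ, n * (n - 1) = 2 * N → 2 * n ≤ t + 4 →
    (n * (n * (3 * 3)) : ℝ) * (2 ^ N * (3 / 2) ^ n * (3 * N + 1) ^ 80) +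
      3 ^ n * (1 * (3 * N + 1) ^ (230 * n)) < 2 ^ (N - 1) * (3 / 2) ^ t := by
  have h1 := (tendsto_pow_const_div_const_pow_of_one_lt 242 (r := 3 / 2) (by norm_num)).eventually
    (gt_mem_nhds (show (0 : ℝ) < 1 / 200 by norm_num))
  have h2 := (tendsto_pow_const_div_const_pow_of_one_lt 690 (r := 7 / 5) (by norm_num)).eventually
    (gt_mem_nhds (show (0 : ℝ) < 1 / 20 by norm_num))
  filter_upwards [h1, h2, Filter.eventually_ge_atTop 4] with n h1 h2 hn N t hN ht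
  obtain ⟨m, rfl⟩ : ∃ m, n = m + 1 := ⟨n - 1, by omega⟩
  rw [Nat.add_sub_cancel] at hN
  obtain ⟨K, rfl⟩ : ∃ K, N = K + 1 := ⟨N - 1, by
    have : 0 < (m + 1) * m := Nat.mul_pos (by omega) (by omega)
    omega⟩
  rw [Nat.add_sub_cancel]
  rw [div_lt_iff₀ (by positivity)] at h1 h2
  have h3 : (3 * ((K + 1 : ℕ) : ℝ) + 1) ≤ ((m + 1 : ℕ) : ℝ) ^ 3 := by
    have : 3 * (K + 1) + 1 ≤ (m + 1) ^ 3 := by nlinarith
    exact_mod_cast this
  have h4 : ((3 : ℝ) / 2) ^ (m + 1) * (3 / 2) ^ (m + 1) ≤ (3 / 2) ^ t * (3 / 2) ^ 4 := by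
    rw [← pow_add, ← pow_add]
    exact pow_le_pow_right₀ (by norm_num) (by omega)
  have h5 : (1 : ℝ) ≤ (3 / 2) ^ t := one_le_pow₀ (by norm_num)
  have h6 : (((7 : ℝ) / 5) ^ m) ^ (m + 1) ≤ 2 ^ (K + 1) := by
    rw [← pow_mul, mul_comm, hN, pow_mul]
    exact pow_le_pow_left₀ (by norm_num) (by norm_num) _
  have hx : (0 : ℝ) ≤ ((m + 1 : ℕ) : ℝ) := Nat.cast_nonneg _
  have hy : (0 : ℝ) ≤ 3 * ((K + 1 : ℕ) : ℝ) + 1 := by positivity
  generalize ((m + 1 : ℕ) : ℝ) = x at h1 h2 h3 hx ⊢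
  generalize 3 * ((K + 1 : ℕ) : ℝ) + 1 = y at h3 hy ⊢
  have a1 : y ^ 80 ≤ x ^ 240 := (pow_le_pow_left₀ hy h3 80).trans_eq (by rw [← pow_mul])
  have a2 : 3 ^ (m + 1) * (1 * y ^ (230 * (m + 1))) ≤ (21 / 100 * (7 / 5) ^ m) ^ (m + 1) := by
    rw [one_mul, pow_mul y 230 (m + 1), ← mul_pow]
    refine pow_le_pow_left₀ (mul_nonneg zero_le_three (pow_nonneg hy _)) ?_ _
    have : y ^ 230 ≤ x ^ 690 := (pow_le_pow_left₀ hy h3 230).trans_eq (by rw [← pow_mul])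
    rw [pow_succ (7 / 5 : ℝ)] at h2
    generalize y ^ 230 = u at this ⊢
    generalize x ^ 690 = v at this h2
    linarith
  have a3 : ((21 : ℝ) / 100 * (7 / 5) ^ m) ^ (m + 1) ≤ 21 / 100 * 2 ^ (K + 1) := by
    rw [mul_pow]
    exact mul_le_mul (pow_le_of_le_one (by norm_num) (by norm_num) (by omega)) h6 (by positivity)
      (by norm_num)
  have a4 : x * (x * (3 * 3)) * (2 ^ (K + 1) * (3 / 2) ^ (m + 1) * y ^ 80) ≤
      9 * 2 ^ (K + 1) * (1 / 200 * ((3 / 2) ^ t * (3 / 2) ^ 4)) :=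
    calc _ ≤ x * (x * (3 * 3)) * (2 ^ (K + 1) * (3 / 2) ^ (m + 1) * x ^ 240) := by gcongr
      _ = 9 * 2 ^ (K + 1) * (x ^ 242 * (3 / 2) ^ (m + 1)) := by ring
      _ ≤ 9 * 2 ^ (K + 1) * (1 / 200 * (3 / 2) ^ (m + 1) * (3 / 2) ^ (m + 1)) := by gcongr
      _ ≤ _ := by rw [mul_assoc (1 / 200 : ℝ)]; gcongr
  have a5 : (0 : ℝ) < 2 ^ K := by positivity
  rw [pow_succ 2 K] at a3 a4 ⊢
  nlinarith [mul_le_mul_of_nonneg_left h5 a5.le]

end Pool.Agent.H13.Pat
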