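import Mathlib
import Pool.Agent.H13.Pat1

open Finset

namespace Pool.Agent.H13.Pat

variable {V : Type} [Fintype V] [DecidableEq V]

def Fr (H : Finset (Finset V)) : Type := {c : Finset V → Option (Fin 3) //
  (∀ e : Finset V, c e = none ↔ e ∉ H) ∧
    ¬ ∃ φ : Fin 16 → V, Function.Injective φ ∧ (∀ e ∈ F, e.image φ ∈ H) ∧
      (∀ e ∈ F, ∀ e' ∈ F, (c (e.image φ) = c (e'.image φ) ↔ p e = p e'))}

instance (H : Finset (Finset V)) : Finite (Fr H) := by unfold Fr; infer_instance

lemma ub : (Nat.card (Fr (powersetCard 2 (univ : Finset V))) : ℝ) ≤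
    (Fintype.card V * (Fintype.card V * (3 * 3)) : ℝ) * (2 ^ #(powersetCard 2 (univ : Finset V)) *
      (3 / 2) ^ Fintype.card V * (3 * #(powersetCard 2 (univ : Finset V)) + 1) ^ 80) +
    3 ^ Fintype.card V * (1 * (3 * #(powersetCard 2 (univ : Finset V)) + 1) ^
      (230 * Fintype.card V)) := by
  classical
  set K := powersetCard 2 (univ : Finset V) with hK
  have mK : ∀ {e}, e ∈ K ↔ #e = 2 := by simp [hK]
  have := Fintype.ofFinite (Fr K)
  let g : Fr K → K → Fin 3 := fun c e => (c.1 e).getD 0
  have hg : ∀ (c : Fr K) (e : K), c.1 e = some (g c e) := fun c e => by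
    cases h : c.1 e with
    | none => exact ((c.2.1 e).1 h e.2).elim
    | some i => simp [g, h]
  have gi : Function.Injective g := fun c c' h => Subtype.ext (funext fun e => by
    by_cases he : e ∈ K
    · rw [hg c ⟨e, he⟩, hg c' ⟨e, he⟩, h]
    · rw [(c.2.1 e).2 he, (c'.2.1 e).2 he])
  let A : V × V × Fin 3 × Fin 3 → K → Finset (Fin 3) := fun b e =>
    if b.1 ∈ e.1 then univ else if b.2.1 ∈ e.1 then univ.erase b.2.2.2 else univ.erase b.2.2.1
  have ne : ∀ e : K, e.1.Nonempty := fun e => card_pos.1 (by rw [mK.1 e.2]; norm_num)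
  choose ch hch using ne
  let A' : (V → Fin 3) → K → Finset (Fin 3) := fun d e => {d (ch e)}
  let T1 := univ.filter fun c : K → Fin 3 => ∃ b, #(univ.filter fun e => c e ∉ A b e) ≤ 80
  let T2 := univ.filter fun c : K → Fin 3 =>
    ∃ b, #(univ.filter fun e => c e ∉ A' b e) ≤ 230 * Fintype.card V
  have h1 := cnt A (fun b e => by
      simp only [A]
      split_ifs <;> simp [← card_pos]) 80 (2 ^ #K * (3 / 2) ^ Fintype.card V) (fun b => by
      have : ∀ e, (#(A b e) : ℝ) = if b.1 ∈ e.1 then 3 else 2 := fun e => by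
        simp only [A]
        split_ifs <;> simp
      simp only [this]
      rw [prd, Fintype.card_coe]
      refine mul_le_mul_of_nonneg_left (pow_le_pow_right₀ (by norm_num) ?_) (by positivity)
      refine le_trans ?_ ((edges K (fun e => mK.1) b.1).trans (card_le_univ _))
      exact card_le_card_of_injOn Subtype.val (fun e he => by simpa using he)
        Subtype.val_injective.injOn) T1 fun c hc => (mem_filter.1 hc).2
  have h2 := cnt A' (fun b e => by simp [A']) (230 * Fintype.card V) 1 (fun b => by simp [A']) T2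
    fun c hc => (mem_filter.1 hc).2
  simp only [Fintype.card_prod, Fintype.card_fin, Fintype.card_coe, Fintype.card_fun] at h1 h2
  push_cast at h1 h2
  rw [show (3 * 3 : ℝ) = 9 by norm_num]
  refine le_trans ?_ (add_le_add h1 h2)
  rw [Nat.card_eq_fintype_card, ← card_univ, ← card_image_of_injective _ gi]
  refine mod_cast (card_le_card fun c hc => ?_).trans (card_union_le T1 T2)
  obtain ⟨c, -, rfl⟩ := mem_image.1 hc
  let R : Fin 3 → Finset (Finset V) := fun i => K.filter fun e => c.1 e = some i
  have hR : ∀ (e : K) i, g c e = i → e.1 ∈ R i := fun e i h => mem_filter.2 ⟨e.2, h ▸ hg c e⟩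
  rcases dich R (fun i e he => mK.1 (mem_filter.1 he).1)
    (fun x y hxy => ⟨_, hR ⟨_, mK.2 (card_pair hxy)⟩ _ rfl⟩) (by
      rintro i j k hij hik hjk ⟨φ, hφ, h⟩
      have hs : Function.Injective ![i, j, k] := by
        intro a b
        fin_cases a <;> fin_cases b <;> simp [*, hij.symm, hik.symm, hjk.symm]
      have h' : ∀ e ∈ F, e.image φ ∈ R (![i, j, k] (p e)) := fun e he => by
        have := h e he
        generalize p e = q at this ⊢
        fin_cases q <;> exact this
      refine c.2.2 ⟨φ, hφ, fun e he => (mem_filter.1 (h' e he)).1, fun e he e' he' => ?_⟩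
      rw [(mem_filter.1 (h' e he)).2, (mem_filter.1 (h' e' he')).2, Option.some_inj, hs.eq_iff])
    with ⟨x, y, k, l, h1, h2⟩ | ⟨W, d, hW, h⟩
  · refine mem_union_left _ (mem_filter.2 ⟨mem_univ _, (x, y, k, l), ?_⟩)
    refine (card_le_card_of_injOn Subtype.val (fun e he => ?_) Subtype.val_injective.injOn).trans
      ((card_union_le _ _).trans (add_le_add h1 h2))
    have he := (mem_filter.1 he).2
    simp only [A] at he
    split_ifs at he with a b
    · simp at he
    · exact mem_union_right _ (mem_filter.2 ⟨hR e _ (by simpa using he), b⟩)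
    · exact mem_union_left _ (mem_filter.2 ⟨hR e _ (by simpa using he), a, b⟩)
  · refine mem_union_right _ (mem_filter.2 ⟨mem_univ _, d, ?_⟩)
    rw [← card_image_of_injective _ Subtype.val_injective]
    refine (covers _ (fun e he => ?_) W 32
      (fun x => (univ.erase (d x)).biUnion fun i => (R i).filter (x ∈ ·)) (fun e he => ?_)
      fun x hx => ?_).trans (Nat.mul_le_mul_right _ (by omega))
    · obtain ⟨e, -, rfl⟩ := mem_image.1 he
      exact mK.1 e.2
    · obtain ⟨e, he, rfl⟩ := mem_image.1 he
      exact ⟨ch e, hch e, .inr (mem_biUnion.2 ⟨g c e, by simpa [A'] using he,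
        mem_filter.2 ⟨hR e _ rfl, hch e⟩⟩)⟩
    · exact (card_biUnion_le_card_mul _ _ 16 fun i hi => h x hx i (mem_erase.1 hi).1).trans
        (by simp)

lemma lb {u v : V} (huv : u ≠ v) : ∃ t, 2 * Fintype.card V ≤ t + 4 ∧
    (2 : ℝ) ^ (#(powersetCard 2 (univ : Finset V)) - 1) * (3 / 2) ^ t ≤
      Nat.card (Fr ((powersetCard 2 (univ : Finset V)).erase {u, v})) := by
  classical
  set H := (powersetCard 2 (univ : Finset V)).erase {u, v} with hH
  let A : H → Finset (Fin 3) := fun e => if u ∈ e.1 ∨ v ∈ e.1 then univ else univ.erase 2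
  refine ⟨#(univ.filter fun e : H => u ∈ e.1 ∨ v ∈ e.1), ?_, ?_⟩
  · have := card_le_card_of_injOn (s := ({u, v} : Finset V) ×ˢ ({u, v} : Finset V)ᶜ)
      (t := (univ.filter fun e : H => u ∈ e.1 ∨ v ∈ e.1).image Subtype.val)
      (fun q => {q.1, q.2}) (by
        rintro ⟨a, b⟩ h
        obtain ⟨ha, hb⟩ := mem_product.1 h
        have hb := mem_compl.1 hb
        refine mem_image.2 ⟨⟨{a, b}, mem_erase.2 ⟨fun e => hb (e ▸ by simp), ?_⟩⟩, ?_, rfl⟩
        · simpa using card_pair fun e : a = b => hb (e ▸ ha)
        · rcases mem_insert.1 ha with rfl | h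
          · simp
          · simp [← mem_singleton.1 h]) (by
        rintro ⟨a, b⟩ h ⟨a', b'⟩ h' e
        obtain ⟨ha, hb⟩ := mem_product.1 h
        obtain ⟨ha', hb'⟩ := mem_product.1 h'
        have hb := mem_compl.1 hb
        have hb' := mem_compl.1 hb'
        have e : ({a, b} : Set V) = {a', b'} := by simpa using congrArg (fun s : Finset V => (s : Set V)) e
        rcases Set.pair_eq_pair_iff.1 e with ⟨rfl, rfl⟩ | ⟨rfl, rfl⟩
        exacts [rfl, (hb ha').elim])
    rw [card_product, card_compl, card_pair huv, card_image_of_injective _ Subtype.val_injective]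
      at this
    omega
  · have e1 : #(powersetCard 2 (univ : Finset V)) - 1 = Fintype.card H := by
      rw [Fintype.card_coe, card_erase_of_mem (by simpa using card_pair huv)]
    rw [e1, ← prd]
    have : ∀ e, (if u ∈ e.1 ∨ v ∈ e.1 then 3 else 2 : ℝ) = #(A e) := fun e => by
      simp only [A]
      split_ifs <;> simp
    simp only [this]
    rw [← Nat.cast_prod, ← Fintype.card_piFinset, ← Nat.card_eq_finsetCard, Nat.cast_le]
    refine Nat.card_le_card_of_injective (fun c => ⟨fun e => if h : e ∈ H then some (c.1 ⟨e, h⟩)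
      else none, fun e => by by_cases h : e ∈ H <;> simp only [h, dif_pos, dif_neg] <;> simp, ?_⟩) fun c c' h =>
        Subtype.ext (funext fun e => by simpa [e.2] using congrFun (congrArg Subtype.val h) e)
    rintro ⟨φ, hφ, h1, h2⟩
    replace h2 : ∀ e (he : e ∈ F) e' (he' : e' ∈ F),
        c.1 ⟨_, h1 e he⟩ = c.1 ⟨_, h1 e' he'⟩ ↔ p e = p e' := fun e he e' he' => by
      have := h2 e he e' he'
      beta_reduce at this
      rwa [dif_pos (h1 e he), dif_pos (h1 _ he'), Option.some_inj] at this
    have k : ∀ e (he : e ∈ F), c.1 ⟨_, h1 e he⟩ = 2 → ∀ a b, (ab : {a, b} ∈ F) → p {a, b} = p e →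
        φ a = u ∨ φ b = u ∨ φ a = v ∨ φ b = v := by
      intro e he h a b he' hp
      have := (h2 _ he' e he).2 hp
      rw [h] at this
      have h3 := Fintype.mem_piFinset.1 c.2 ⟨_, h1 _ he'⟩
      rw [this] at h3
      simp only [A] at h3
      split_ifs at h3 with h4
      · simp only [image_insert, image_singleton, mem_insert, mem_singleton] at h4
        tauto
      · simp at h3
    have hne := (mem_erase.1 (h1 {0, 1} (by decide))).1
    have k2 : ¬ (φ 0 = u ∧ φ 1 = v) ∧ ¬ (φ 0 = v ∧ φ 1 = u) :=
      ⟨fun h => hne (by simp [h.1, h.2]), fun h => hne (by simp [h.1, h.2, pair_comm])⟩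
    have d1 := (h2 {0, 8} (by decide) {0, 12} (by decide)).not.2 (by decide)
    have d2 := (h2 {0, 8} (by decide) {2, 5} (by decide)).not.2 (by decide)
    have d3 := (h2 {0, 12} (by decide) {2, 5} (by decide)).not.2 (by decide)
    have inj : ∀ a b, φ a = φ b → a = b := fun a b h => hφ h
    have tri : ∀ a b c : Fin 3, a ≠ b → a ≠ c → b ≠ c → a = 2 ∨ b = 2 ∨ c = 2 := by decide
    rcases tri _ _ _ d1 d2 d3 with h | h | h
    · have := k _ (by decide) h 0 8 (by decide) (by decide)
      have := k _ (by decide) h 0 9 (by decide) (by decide)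
      have := k _ (by decide) h 1 10 (by decide) (by decide)
      have := k _ (by decide) h 1 11 (by decide) (by decide)
      clear k h d1 d2 d3 h2 hne
      grind
    · have := k _ (by decide) h 0 12 (by decide) (by decide)
      have := k _ (by decide) h 0 13 (by decide) (by decide)
      have := k _ (by decide) h 1 14 (by decide) (by decide)
      have := k _ (by decide) h 1 15 (by decide) (by decide)
      clear k h d1 d2 d3 h2 hne
      grind
    · have := k _ (by decide) h 2 5 (by decide) (by decide)
      have := k _ (by decide) h 3 6 (by decide) (by decide)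
      have := k _ (by decide) h 4 7 (by decide) (by decide)
      clear k h d1 d2 d3 h2 hne
      grind

end Pool.Agent.H13.Pat
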