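import Mathlib

set_option autoImplicit false

namespace Pool.Agent.H13.Planar

/-- A drawing in the plane: distinct points, edges are simple arcs joining their ends, whose
interiors avoid all vertices and all other edges. -/
def IsPlanar {V : Type} (G : SimpleGraph V) : Prop :=
  ∃ (p : V → ℝ × ℝ) (γ : V → V → unitInterval → ℝ × ℝ),
    Function.Injective p ∧
    (∀ u v, G.Adj u v →
      Continuous (γ u v) ∧ Function.Injective (γ u v) ∧
      γ u v 0 = p u ∧ γ u v 1 = p v ∧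
      (∀ w t, γ u v t = p w → t = 0 ∨ t = 1)) ∧
    (∀ u v x y, G.Adj u v → G.Adj x y → s(u, v) ≠ s(x, y) →
      ∀ t r, γ u v t = γ x y r → t = 0 ∨ t = 1)

/-- The graph with edge list `E`. -/
def gr {V : Type} (E : List (V × V)) : SimpleGraph V where
  Adj u v := u ≠ v ∧ ((u, v) ∈ E ∨ (v, u) ∈ E)
  symm := ⟨fun _ _ h => ⟨h.1.symm, h.2.symm⟩⟩
  loopless := ⟨fun _ h => h.1 rfl⟩

def o (a b c : ℤ × ℤ) : ℤ := (b.1 - a.1) * (c.2 - a.2) - (b.2 - a.2) * (c.1 - a.1)

def sgnA (x y : ℤ) : Bool :=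
  (decide (0 ≤ x) && decide (0 ≤ y) && decide (0 < x + y)) ||
    (decide (x ≤ 0) && decide (y ≤ 0) && decide (x + y < 0))

def sgnB (x y : ℤ) : Bool :=
  (decide (0 < x) && decide (0 < y)) || (decide (x < 0) && decide (y < 0))

def ok (a b c d : ℤ × ℤ) : Bool := sgnA (o c d a) (o c d b) || sgnB (o a b c) (o a b d)

def pt (a b : ℤ × ℤ) (t : ℝ) : ℝ × ℝ :=
  ((1 - t) * a.1 + t * b.1, (1 - t) * a.2 + t * b.2)

lemma pt_swap (a b : ℤ × ℤ) (t : ℝ) : pt b a t = pt a b (1 - t) := by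
  unfold pt; ext <;> simp <;> ring

lemma ok_sound (a b c d : ℤ × ℤ) (h : ok a b c d = true) (t r : ℝ) (t0 : 0 < t) (t1 : t < 1)
    (r0 : 0 ≤ r) (r1 : r ≤ 1) : pt a b t ≠ pt c d r := by
  intro e
  have e1 : (1 - t) * a.1 + t * b.1 = (1 - r) * c.1 + r * d.1 := congrArg Prod.fst e
  have e2 : (1 - t) * a.2 + t * b.2 = (1 - r) * c.2 + r * d.2 := congrArg Prod.snd e
  have k1 : (1 - t) * (o c d a : ℝ) + t * (o c d b : ℝ) = 0 := by
    unfold o; push_cast
    linear_combination ((d.1 : ℝ) - c.1) * e2 - ((d.2 : ℝ) - c.2) * e1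
  have k2 : (1 - r) * (o a b c : ℝ) + r * (o a b d : ℝ) = 0 := by
    unfold o; push_cast
    linear_combination ((b.2 : ℝ) - a.2) * e1 - ((b.1 : ℝ) - a.1) * e2
  have s0 : 0 < 1 - t := by linarith
  have s1 : 0 ≤ 1 - r := by linarith
  simp only [ok, sgnA, sgnB, Bool.or_eq_true, Bool.and_eq_true, decide_eq_true_eq] at h
  generalize o c d a = x at *
  generalize o c d b = y at *
  generalize o a b c = u at *
  generalize o a b d = v at *
  rcases h with (⟨⟨h1, h2⟩, h3⟩ | ⟨⟨h1, h2⟩, h3⟩) | (⟨h1, h2⟩ | ⟨h1, h2⟩)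
  · have a1 : (0 : ℝ) ≤ x := by exact_mod_cast h1
    have a2 : (0 : ℝ) ≤ y := by exact_mod_cast h2
    have a3 : (0 : ℝ) < x + y := by exact_mod_cast h3
    have := mul_nonneg s0.le a1
    have := mul_nonneg t0.le a2
    have b1 : (x : ℝ) = 0 := by
      rcases mul_eq_zero.1 (show (1 - t) * (x : ℝ) = 0 by linarith) with h | h <;> linarith
    have b2 : (y : ℝ) = 0 := by
      rcases mul_eq_zero.1 (show t * (y : ℝ) = 0 by linarith) with h | h <;> linarith
    linarith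
  · have a1 : (0 : ℝ) ≤ -x := by have : (x : ℝ) ≤ 0 := by exact_mod_cast h1
                                 linarith
    have a2 : (0 : ℝ) ≤ -y := by have : (y : ℝ) ≤ 0 := by exact_mod_cast h2
                                 linarith
    have a3 : (x : ℝ) + y < 0 := by exact_mod_cast h3
    have := mul_nonneg s0.le a1
    have := mul_nonneg t0.le a2
    have b1 : (x : ℝ) = 0 := by
      rcases mul_eq_zero.1 (show (1 - t) * (x : ℝ) = 0 by linarith) with h | h <;> linarith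
    have b2 : (y : ℝ) = 0 := by
      rcases mul_eq_zero.1 (show t * (y : ℝ) = 0 by linarith) with h | h <;> linarith
    linarith
  · have a1 : (0 : ℝ) < u := by exact_mod_cast h1
    have a2 : (0 : ℝ) < v := by exact_mod_cast h2
    rcases r0.eq_or_lt with h | h
    · subst h; linarith
    · have := mul_nonneg s1 a1.le
      have := mul_pos h a2
      linarith
  · have a1 : (0 : ℝ) < -u := by have : (u : ℝ) < 0 := by exact_mod_cast h1
                                 linarith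
    have a2 : (0 : ℝ) < -v := by have : (v : ℝ) < 0 := by exact_mod_cast h2
                                 linarith
    rcases r0.eq_or_lt with h | h
    · subst h; linarith
    · have := mul_nonneg s1 a1.le
      have := mul_pos h a2
      linarith

lemma inner (t : unitInterval) (h : ¬ (t = 0 ∨ t = 1)) : 0 < (t : ℝ) ∧ (t : ℝ) < 1 := by
  rw [not_or] at h
  exact ⟨lt_of_le_of_ne t.2.1 fun e => h.1 (Subtype.ext e.symm),
    lt_of_le_of_ne t.2.2 fun e => h.2 (Subtype.ext e)⟩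

theorem planar_of {V : Type} (P : V → ℤ × ℤ) (E : List (V × V)) (hinj : Function.Injective P)
    (h1 : ∀ e ∈ E, ∀ w, w = e.1 ∨ w = e.2 ∨ ok (P e.1) (P e.2) (P w) (P w) = true)
    (h2 : ∀ e ∈ E, ∀ f ∈ E, e = f ∨ ok (P e.1) (P e.2) (P f.1) (P f.2) = true) :
    IsPlanar (gr E) := by
  have hp : Function.Injective (fun v => (((P v).1 : ℝ), ((P v).2 : ℝ))) := by
    intro u v h
    have a1 : ((P u).1 : ℝ) = (P v).1 := congrArg Prod.fst h
    have a2 : ((P u).2 : ℝ) = (P v).2 := congrArg Prod.snd h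
    exact hinj (Prod.ext (by exact_mod_cast a1) (by exact_mod_cast a2))
  have hi : ∀ u v, u ≠ v → ∀ t r : ℝ, pt (P u) (P v) t = pt (P u) (P v) r → t = r := by
    intro u v huv t r e
    have e1 := congrArg Prod.fst e
    have e2 := congrArg Prod.snd e
    simp only [pt] at e1 e2
    by_contra hc
    have hc' : t - r ≠ 0 := fun e' => hc (by linarith)
    refine huv (hp (Prod.ext ?_ ?_))
    · apply mul_left_cancel₀ hc'; linarith
    · apply mul_left_cancel₀ hc'; linarith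
  have nf : ∀ u v, (gr E).Adj u v → ∀ t : ℝ, ∃ e ∈ E, ∃ τ : ℝ, s(u, v) = s(e.1, e.2) ∧
      pt (P u) (P v) t = pt (P e.1) (P e.2) τ ∧ (τ = t ∨ τ = 1 - t) := by
    intro u v h t
    rcases h.2 with h' | h'
    · exact ⟨_, h', t, rfl, rfl, Or.inl rfl⟩
    · exact ⟨_, h', 1 - t, Sym2.eq_swap, pt_swap _ _ _, Or.inr rfl⟩
  refine ⟨fun v => (((P v).1 : ℝ), ((P v).2 : ℝ)), fun u v t => pt (P u) (P v) t, hp,
    fun u v h => ⟨by unfold pt; fun_prop, fun t r e => Subtype.ext (hi u v h.1 _ _ e),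
      by simp [pt], by simp [pt], fun w t e => ?_⟩, fun u v x y h h' hne t r e => ?_⟩
  · by_contra hc
    obtain ⟨t0, t1⟩ := inner t hc
    by_cases hu : w = u
    · subst hu
      have := hi w v h.1 t 0 (by rw [show pt (P w) (P v) t = _ from e]; simp [pt])
      linarith
    by_cases hv : w = v
    · subst hv
      have := hi u w h.1 t 1 (by rw [show pt (P u) (P w) t = _ from e]; simp [pt])
      linarith
    obtain ⟨f, hf, τ, hs, hτ, hτ'⟩ := nf u v h t
    have hw : ¬ (w = f.1 ∨ w = f.2) := by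
      rw [← Sym2.mem_iff, ← hs, Sym2.mem_iff]; tauto
    have hk := h1 f hf w
    refine ok_sound _ _ _ _ (by tauto : ok (P f.1) (P f.2) (P w) (P w) = true) τ 0
      (by rcases hτ' with h | h <;> linarith) (by rcases hτ' with h | h <;> linarith) le_rfl
      zero_le_one ?_
    rw [← hτ, show pt (P u) (P v) t = _ from e]; simp [pt]
  · by_contra hc
    obtain ⟨t0, t1⟩ := inner t hc
    obtain ⟨f, hf, τ, hs, hτ, hτ'⟩ := nf u v h t
    obtain ⟨g, hg, σ, hs', hσ, hσ'⟩ := nf x y h' r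
    have r0 := r.2.1
    have r1 := r.2.2
    rcases h2 f hf g hg with hk | hk
    · exact hne (by rw [hs, hs', hk])
    · exact ok_sound _ _ _ _ hk τ σ (by rcases hτ' with h | h <;> linarith)
        (by rcases hτ' with h | h <;> linarith) (by rcases hσ' with h | h <;> linarith)
        (by rcases hσ' with h | h <;> linarith) (by rw [← hτ, ← hσ]; exact e)

def sA (p q r s : ℕ) : Bool :=
  (Nat.ble q p && Nat.ble s r && Nat.blt (q + s) (p + r)) ||
    (Nat.ble p q && Nat.ble r s && Nat.blt (p + r) (q + s))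

def sB (p q r s : ℕ) : Bool := (Nat.blt q p && Nat.blt s r) || (Nat.blt p q && Nat.blt r s)

def okN : ℕ × ℕ → ℕ × ℕ → ℕ × ℕ → ℕ × ℕ → Bool
  | (a1, a2), (b1, b2), (c1, c2), (d1, d2) =>
    sB (b1 * c2 + b2 * a1 + a2 * c1) (b1 * a2 + a1 * c2 + b2 * c1)
        (b1 * d2 + b2 * a1 + a2 * d1) (b1 * a2 + a1 * d2 + b2 * d1) ||
      sA (d1 * a2 + d2 * c1 + c2 * a1) (d1 * c2 + c1 * a2 + d2 * a1)
        (d1 * b2 + d2 * c1 + c2 * b1) (d1 * c2 + c1 * b2 + d2 * b1)

def up (a : ℕ × ℕ) : ℤ × ℤ := (a.1, a.2)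

lemma o_up (a b c : ℕ × ℕ) : o (up a) (up b) (up c) =
    ((b.1 * c.2 + b.2 * a.1 + a.2 * c.1 : ℕ) : ℤ) - ((b.1 * a.2 + a.1 * c.2 + b.2 * c.1 : ℕ) : ℤ) := by
  unfold o up; push_cast; ring

lemma okN_ok (a b c d : ℕ × ℕ) (h : okN a b c d = true) : ok (up a) (up b) (up c) (up d) = true := by
  obtain ⟨a1, a2⟩ := a
  obtain ⟨b1, b2⟩ := b
  obtain ⟨c1, c2⟩ := c
  obtain ⟨d1, d2⟩ := d
  simp only [ok, o_up]
  simp only [okN] at h
  generalize b1 * c2 + b2 * a1 + a2 * c1 = p1 at *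
  generalize b1 * a2 + a1 * c2 + b2 * c1 = p2 at *
  generalize b1 * d2 + b2 * a1 + a2 * d1 = p3 at *
  generalize b1 * a2 + a1 * d2 + b2 * d1 = p4 at *
  generalize d1 * a2 + d2 * c1 + c2 * a1 = p5 at *
  generalize d1 * c2 + c1 * a2 + d2 * a1 = p6 at *
  generalize d1 * b2 + d2 * c1 + c2 * b1 = p7 at *
  generalize d1 * c2 + c1 * b2 + d2 * b1 = p8 at *
  simp only [sA, sB, sgnA, sgnB, Bool.or_eq_true, Bool.and_eq_true, decide_eq_true_eq,
    Nat.ble_eq, Nat.blt_eq] at h ⊢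
  omega

def eqN : ℕ × ℕ → ℕ × ℕ → Bool
  | (a1, a2), (b1, b2) => Nat.beq a1 b1 && Nat.beq a2 b2

lemma eqN_eq (a b : ℕ × ℕ) (h : eqN a b = true) : a = b := by
  obtain ⟨a1, a2⟩ := a
  obtain ⟨b1, b2⟩ := b
  simp only [eqN, Bool.and_eq_true, Nat.beq_eq] at h
  rw [h.1, h.2]

def chkV (C : List (ℕ × ℕ)) (Q : List ((ℕ × ℕ) × (ℕ × ℕ))) : Bool :=
  Q.all fun a => C.all fun w => okN a.1 a.2 w w || eqN w a.1 || eqN w a.2

def chkE (Q' Q : List ((ℕ × ℕ) × (ℕ × ℕ))) : Bool :=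
  Q'.all fun a => Q.all fun b => okN a.1 a.2 b.1 b.2 || (eqN a.1 b.1 && eqN a.2 b.2)

theorem planar_nat {n : ℕ} (C : List (ℕ × ℕ)) (E : List (Fin n × Fin n))
    (Q : List ((ℕ × ℕ) × (ℕ × ℕ)))
    (hQ : E.map (fun e => (C.getD e.1 (0, 0), C.getD e.2 (0, 0))) = Q) (hlen : C.length = n)
    (hnd : C.Nodup) (h1 : chkV C Q = true) (h2 : chkE Q Q = true) : IsPlanar (gr E) := by
  have hi : Function.Injective (fun v : Fin n => C.getD v (0, 0)) := by
    intro u v h
    simp only at h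
    rw [List.getD_eq_getElem _ _ (by omega : (u : ℕ) < C.length),
      List.getD_eq_getElem _ _ (by omega : (v : ℕ) < C.length)] at h
    exact Fin.ext ((List.Nodup.getElem_inj_iff hnd).1 h)
  have hm : ∀ e ∈ E, (C.getD e.1 (0, 0), C.getD e.2 (0, 0)) ∈ Q := fun e he => by
    rw [← hQ]; exact List.mem_map.2 ⟨e, he, rfl⟩
  simp only [chkV, chkE, List.all_eq_true, Bool.or_eq_true, Bool.and_eq_true] at h1 h2
  refine planar_of (fun v : Fin n => up (C.getD v (0, 0))) E (fun u v h => hi ?_) (fun e he w => ?_)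
    (fun e he f hf => ?_)
  · simp only [up, Prod.mk.injEq, Nat.cast_inj] at h
    exact Prod.ext h.1 h.2
  · have hw : C.getD w (0, 0) ∈ C := by
      rw [List.getD_eq_getElem _ _ (by omega : (w : ℕ) < C.length)]; exact List.getElem_mem _
    rcases h1 _ (hm e he) _ hw with (h | h) | h
    · exact Or.inr (Or.inr (okN_ok _ _ _ _ h))
    · exact Or.inl (hi (eqN_eq _ _ h))
    · exact Or.inr (Or.inl (hi (eqN_eq _ _ h)))
  · rcases h2 _ (hm e he) _ (hm f hf) with h | h
    · exact Or.inr (okN_ok _ _ _ _ h)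
    · exact Or.inl (Prod.ext (hi (eqN_eq _ _ h.1)) (hi (eqN_eq _ _ h.2)))

/-- Maximal planar: planar, and no proper supergraph on the same vertices is planar. -/
def IsMaxPlanar {V : Type} (G : SimpleGraph V) : Prop :=
  IsPlanar G ∧ ∀ u v, u ≠ v → ¬ G.Adj u v → ¬ IsPlanar (G ⊔ SimpleGraph.edge u v)

theorem exists_max {V : Type} [Finite V] (G : SimpleGraph V) (h : IsPlanar G) :
    ∃ H : SimpleGraph V, G ≤ H ∧ IsMaxPlanar H := by
  obtain ⟨H, hH, hm⟩ := Finite.exists_le_maximal (p := fun H : SimpleGraph V => IsPlanar H) h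
  refine ⟨H, hH, hm.1, fun u v huv hn hp => hn ?_⟩
  exact hm.2 hp le_sup_left (Or.inr (by simp [SimpleGraph.edge_adj, huv]))

end Pool.Agent.H13.Planar
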