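import Mathlib

/-! Poor and conglomerated filters, statistical measures; a ccc quotient without measure. -/

open Filter Set

namespace Pool.Agent.H13.Poor

/-- A proper filter containing all cofinite sets. -/
def Free (F : Filter ℕ) : Prop := F.NeBot ∧ F ≤ cofinite

def IsPoor (F : Filter ℕ) : Prop :=
  ∀ 𝒜 : Set (Set ℕ), (∀ A ∈ 𝒜, Aᶜ ∉ F) → (𝒜.Pairwise fun A B => (A ∩ B)ᶜ ∈ F) → 𝒜.Countable

def Stat (μ : Set ℕ → ℝ) : Prop :=
  (∀ A, 0 ≤ μ A) ∧ (∀ A B, Disjoint A B → μ (A ∪ B) = μ A + μ B) ∧ μ univ = 1 ∧ ∀ k, μ {k} = 0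

def Generated (F : Filter ℕ) : Prop := ∃ μ, Stat μ ∧ ∀ A, A ∈ F ↔ μ A = 1

def Congl (F : Filter ℕ) : Prop :=
  ∃ D : ℕ → Set ℕ, Pairwise (fun m n => Disjoint (D m) (D n)) ∧ (∀ n, (D n)ᶜ ∈ F) ∧
    ∀ M : Set ℕ, M.Infinite → (⋃ n ∈ M, D n)ᶜ ∉ F

/-- proper end extension -/
def lt (s t : Set ℚ) : Prop := ∃ q ∈ t, s = t ∩ Iio q

lemma lt.sub {s t : Set ℚ} (h : lt s t) : s ⊆ t := by
  obtain ⟨q, -, rfl⟩ := h; exact inter_subset_left

lemma lt.ne {s t : Set ℚ} (h : lt s t) : s ≠ t := by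
  obtain ⟨q, hq, h⟩ := h
  rintro rfl
  exact lt_irrefl q (h ▸ hq : q ∈ s ∩ Iio q).2

lemma pred_countable (t : Set ℚ) : {s | lt s t}.Countable :=
  (countable_range fun q => t ∩ Iio q).mono (by rintro _ ⟨q, _, h⟩; exact ⟨q, h.symm⟩)

lemma pred_chain {s s' t : Set ℚ} (h : lt s t) (h' : lt s' t) : s = s' ∨ lt s s' ∨ lt s' s := by
  have key : ∀ q r : ℚ, q ∈ t → q < r → lt (t ∩ Iio q) (t ∩ Iio r) := fun q r hq h =>
    ⟨q, ⟨hq, h⟩, by rw [inter_assoc, Iio_inter_Iio, min_eq_right h.le]⟩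
  obtain ⟨q, hq, rfl⟩ := h
  obtain ⟨r, hr, rfl⟩ := h'
  rcases lt_trichotomy q r with h | rfl | h
  exacts [Or.inr (Or.inl (key _ _ hq h)), Or.inl rfl, Or.inr (Or.inr (key _ _ hr h))]

lemma chain_countable (C : Set (Set ℚ)) (h : ∀ s ∈ C, ∀ t ∈ C, s = t ∨ lt s t ∨ lt t s) :
    C.Countable := by
  by_cases hm : ∃ t ∈ C, ∀ s ∈ C, ¬ lt t s
  · obtain ⟨t, ht, hm⟩ := hm
    refine ((pred_countable t).insert t).mono fun s hs => ?_
    rcases h s hs t ht with g | g | g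
    exacts [Or.inl g, Or.inr g, absurd g (hm s hs)]
  push Not at hm
  choose! u hu q hq hq' using hm
  have key : ∀ s ∈ C, ∀ s' ∈ C, q s = q s' → ¬ lt s s' := by
    rintro s hs s' hs' e ⟨r, hr, hr'⟩
    have h1 : r < q s := by rw [e]; exact (hq' s' hs' ▸ hr : r ∈ u s' ∩ Iio (q s')).2
    have h2 : r ∉ u s := fun h => lt_irrefl r (hr' ▸ (hq' s hs).symm ▸ ⟨h, h1⟩ : r ∈ s' ∩ Iio r).2
    have h3 : q s ∉ s' := fun h => lt_irrefl (q s')
      (hq' s' hs' ▸ (e ▸ h) : q s' ∈ u s' ∩ Iio (q s')).2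
    rcases h s' hs' _ (hu s hs) with g | g | g
    exacts [h2 (g ▸ hr), h2 (g.sub hr), h3 (g.sub (hq s hs))]
  refine (Set.MapsTo.countable_of_injOn (mapsTo_univ q C) ?_ countable_univ)
  intro s hs s' hs' e
  rcases h s hs s' hs' with g | g | g
  exacts [g, absurd g (key s hs s' hs' e), absurd g (key s' hs' s hs e.symm)]

def Anti (a : Finset (Set ℚ)) : Prop := ∀ s ∈ a, ∀ t ∈ a, ¬ lt s t

lemma ccc_aux {ι : Type} : ∀ (n : ℕ) (Γ : Set ι) (a : ι → Finset (Set ℚ)),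
    (∀ γ ∈ Γ, (a γ).card ≤ n ∧ Anti (a γ)) →
    (Γ.Pairwise fun γ δ => ∃ s ∈ a γ, ∃ t ∈ a δ, lt s t ∨ lt t s) → Γ.Countable := by
  classical
  intro n
  induction n with
  | zero =>
    intro Γ a h1 h2
    refine Set.Subsingleton.countable fun γ hγ δ hδ => ?_
    by_contra hne
    obtain ⟨s, hs, -⟩ := h2 hγ hδ hne
    have := Finset.card_pos.2 ⟨s, hs⟩
    have := (h1 γ hγ).1
    omega
  | succ n ih =>
    intro Γ a h1 h2
    have hx : ∀ x, {γ ∈ Γ | x ∈ a γ}.Countable := by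
      intro x
      refine ih _ (fun γ => (a γ).erase x) (fun γ hγ => ⟨?_, fun s hs t ht =>
        (h1 γ hγ.1).2 s (Finset.mem_of_mem_erase hs) t (Finset.mem_of_mem_erase ht)⟩) ?_
      · rw [Finset.card_erase_of_mem hγ.2]; have := (h1 γ hγ.1).1; omega
      · intro γ hγ δ hδ hne
        obtain ⟨s, hs, t, ht, h⟩ := h2 hγ.1 hδ.1 hne
        refine ⟨s, Finset.mem_erase.2 ⟨?_, hs⟩, t, Finset.mem_erase.2 ⟨?_, ht⟩, h⟩
        · rintro rfl
          exact h.elim ((h1 δ hδ.1).2 _ hδ.2 _ ht) ((h1 δ hδ.1).2 _ ht _ hδ.2)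
        · rintro rfl
          exact h.elim ((h1 γ hγ.1).2 _ hs _ hγ.2) ((h1 γ hγ.1).2 _ hγ.2 _ hs)
    by_contra hΓ
    have hne : (cocountable ⊓ 𝓟 Γ : Filter ι).NeBot := by
      rw [inf_principal_neBot_iff]
      intro S hS
      by_contra hc
      exact hΓ ((mem_cocountable.1 hS).mono fun γ hγ hγ' => hc ⟨γ, hγ', hγ⟩)
    let U := Ultrafilter.of (cocountable ⊓ 𝓟 Γ : Filter ι)
    have hU : (U : Filter ι) ≤ cocountable ⊓ 𝓟 Γ := Ultrafilter.of_le _
    have hΓU : Γ ∈ U := (hU.trans inf_le_right) (mem_principal_self _)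
    have hc : ∀ S : Set ι, S.Countable → Sᶜ ∈ U := fun S hS =>
      (hU.trans inf_le_left) (mem_cocountable.2 (by simpa using hS))
    let e : ι → ℕ → Set ℚ := fun γ j => (a γ).toList.getD j ∅
    have he : ∀ γ ∈ Γ, ∀ t ∈ a γ, ∃ j ∈ Finset.range (n + 1), e γ j = t := by
      intro γ hγ t ht
      obtain ⟨j, hj, rfl⟩ := List.getElem_of_mem (Finset.mem_toList.2 ht)
      refine ⟨j, Finset.mem_range.2 ?_, List.getD_eq_getElem _ _ hj⟩
      have := (h1 γ hγ).1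
      rw [Finset.length_toList] at hj
      omega
    have key : ∀ α ∈ Γ, ∃ s ∈ a α, ∃ j, ∀ᶠ β in (U : Filter ι), lt s (e β j) := by
      intro α hα
      have h3 : (⋃ s ∈ a α, ⋃ t ∈ {t | lt t s}, {γ ∈ Γ | t ∈ a γ}).Countable :=
        (a α).countable_toSet.biUnion fun s _ => (pred_countable s).biUnion fun t _ => hx t
      have h4 : ∀ᶠ β in (U : Filter ι), ∃ s ∈ a α, ∃ j ∈ Finset.range (n + 1), lt s (e β j) := by
        filter_upwards [hΓU, hc _ h3, hc _ (countable_singleton α)] with β hβ hβ' hne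
        obtain ⟨s, hs, t, ht, h | h⟩ := h2 hα hβ (Ne.symm hne)
        · obtain ⟨j, hj, rfl⟩ := he β hβ t ht
          exact ⟨s, hs, j, hj, h⟩
        · exact (hβ' (mem_iUnion₂.2 ⟨s, hs, mem_iUnion₂.2 ⟨t, h, hβ, ht⟩⟩)).elim
      obtain ⟨s, hs, h5⟩ := (Ultrafilter.eventually_exists_mem_iff (a α).finite_toSet).1 h4
      obtain ⟨j, -, h6⟩ := (Ultrafilter.eventually_exists_mem_iff
        (Finset.range (n + 1)).finite_toSet).1 h5
      exact ⟨s, hs, j, h6⟩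
    choose! s hs j hj using key
    apply hΓ
    have : Γ ⊆ ⋃ i, ⋃ t ∈ s '' {α ∈ Γ | j α = i}, {γ ∈ Γ | t ∈ a γ} := fun α hα =>
      mem_iUnion.2 ⟨j α, mem_biUnion ⟨α, ⟨hα, rfl⟩, rfl⟩ ⟨hα, hs α hα⟩⟩
    refine (countable_iUnion fun i => (chain_countable _ ?_).biUnion fun t _ => hx t).mono this
    rintro _ ⟨α, ⟨hα, rfl⟩, rfl⟩ _ ⟨β, ⟨hβ, hβ'⟩, rfl⟩
    obtain ⟨γ, g1, g2⟩ := ((hj α hα).and (hj β hβ)).exists
    rw [hβ'] at g2
    exact pred_chain g1 g2

lemma ccc {ι : Type} (Γ : Set ι) (a : ι → Finset (Set ℚ)) (h1 : ∀ γ ∈ Γ, Anti (a γ))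
    (h2 : Γ.Pairwise fun γ δ => ∃ s ∈ a γ, ∃ t ∈ a δ, lt s t ∨ lt t s) : Γ.Countable := by
  have : Γ ⊆ ⋃ n, {γ ∈ Γ | (a γ).card ≤ n} := fun γ hγ => mem_iUnion.2 ⟨_, hγ, le_rfl⟩
  exact (countable_iUnion fun n => ccc_aux n _ a (fun γ hγ => ⟨hγ.2, h1 γ hγ.1⟩)
    (h2.mono (sep_subset _ _))).mono this

lemma no_weight (m : Set ℚ → ℝ) (h0 : ∀ t, 0 < m t) (hle : ∀ t, m t ≤ 1)
    (h1 : ∀ (s : ℕ → Set ℚ), (∀ i j, i < j → lt (s i) (s j)) →
      ∀ N, ∑ i ∈ Finset.range N, m (s i) ≤ 1) : False := by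
  let Ext : Set ℚ × ℚ → Set (Set ℚ) := fun p => {t | lt p.1 t ∧ ∃ r < p.2, t ⊆ Iio r}
  let ok : Set ℚ × ℚ → Prop := fun p => ∃ r < p.2, p.1 ⊆ Iio r
  have step : ∀ p : {p // ok p}, ∃ p' : {p // ok p}, lt p.1.1 p'.1.1 ∧ p'.1.2 < p.1.2 ∧
      ∀ t ∈ Ext p.1, m t < 2 * m p'.1.1 := by
    rintro ⟨⟨s, r⟩, r', hr, hs⟩
    obtain ⟨r'', a1, a2⟩ := exists_between hr
    have hne : insert r' s ∈ Ext (s, r) := by
      refine ⟨⟨r', mem_insert _ _, ?_⟩, r'', a2, insert_subset a1 (hs.trans (Iio_subset_Iio a1.le))⟩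
      ext x
      exact ⟨fun h => ⟨Or.inr h, hs h⟩, fun h => h.1.resolve_left (ne_of_lt h.2)⟩
    have hb : BddAbove (m '' Ext (s, r)) := ⟨1, by rintro _ ⟨t, -, rfl⟩; exact hle t⟩
    have hp : 0 < sSup (m '' Ext (s, r)) := (h0 _).trans_le (le_csSup hb ⟨_, hne, rfl⟩)
    obtain ⟨_, ⟨t, ⟨ht, u, hu, hu'⟩, rfl⟩, h⟩ := exists_lt_of_lt_csSup
      (show (m '' Ext (s, r)).Nonempty from ⟨_, _, hne, rfl⟩) (half_lt_self hp)
    obtain ⟨v, b1, b2⟩ := exists_between hu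
    exact ⟨⟨(t, v), u, b1, hu'⟩, ht, b2, fun t' ht' => by
      have := le_csSup hb ⟨_, ht', rfl⟩
      linarith⟩
  choose f hf1 hf2 hf3 using step
  let p : ℕ → {p // ok p} := fun n => f^[n] ⟨(∅, 1), 0, one_pos, empty_subset _⟩
  have hp : ∀ n, p (n + 1) = f (p n) := fun n => Function.iterate_succ_apply' _ _ _
  let s : ℕ → Set ℚ := fun n => (p n).1.1
  have hs : ∀ n, lt (s n) (s (n + 1)) := fun n => by simp only [s, hp]; exact hf1 _
  choose q hq hq' using hs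
  have hmono : Monotone s := monotone_nat_of_le_succ fun n => by rw [hq' n]; exact inter_subset_left
  have hr : StrictAnti fun n => (p n).1.2 := strictAnti_nat_of_succ_lt fun n => by
    simp only [hp]; exact hf2 _
  have hk : ∀ i k, s i = s (i + 1 + k) ∩ Iio (q i) := by
    intro i k
    induction k with
    | zero => exact hq' i
    | succ k ih =>
      have : q i < q (i + 1 + k) :=
        (hq' (i + 1 + k) ▸ hmono (Nat.le_add_right _ k) (hq i) : q i ∈ _ ∩ Iio (q (i + 1 + k))).2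
      rw [ih, hq' (i + 1 + k), inter_assoc, Iio_inter_Iio, min_eq_right this.le]
      rfl
  have hlt : ∀ i j, i < j → lt (s i) (s j) := fun i j h => by
    obtain ⟨k, rfl⟩ := Nat.exists_eq_add_of_le (show i + 1 ≤ j from h)
    exact ⟨q i, hmono (Nat.le_add_right _ k) (hq i), hk i k⟩
  have hE : ∀ n, (⋃ k, s k) ∈ Ext (p n).1 := by
    intro n
    refine ⟨⟨q n, mem_iUnion.2 ⟨_, hq n⟩, ?_⟩, _, hr (Nat.lt_succ_self n), iUnion_subset fun k => ?_⟩
    · ext x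
      refine ⟨fun h => ⟨mem_iUnion.2 ⟨n, h⟩, ((hq' n).subset h).2⟩, fun h => ?_⟩
      obtain ⟨k, hk'⟩ := mem_iUnion.1 h.1
      change x ∈ s n
      rw [hk n k]
      exact ⟨hmono (by omega) hk', h.2⟩
    · obtain ⟨r, a1, a2⟩ := (p (n + 1 + k)).2
      exact (hmono (show k ≤ n + 1 + k by omega)).trans
        (a2.trans (Iio_subset_Iio (a1.le.trans (hr.antitone (by omega)))))
  obtain ⟨N, hN⟩ := exists_nat_gt (2 / m (⋃ k, s k))
  have h2 := h1 (fun i => s (i + 1)) (fun i j h => hlt _ _ (by omega)) N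
  have h3 : ∑ _i ∈ Finset.range N, m (⋃ k, s k) / 2 ≤ ∑ i ∈ Finset.range N, m (s (i + 1)) :=
    Finset.sum_le_sum fun i _ => by
      have := hf3 (p i) _ (hE i)
      rw [← hp] at this
      change _ < 2 * m (s (i + 1)) at this
      linarith
  rw [Finset.sum_const, Finset.card_range, nsmul_eq_mul] at h3
  rw [div_lt_iff₀ (h0 _)] at hN
  linarith

lemma Stat.mono {μ : Set ℕ → ℝ} (h : Stat μ) {A B : Set ℕ} (hAB : A ⊆ B) : μ A ≤ μ B := by
  have := h.2.1 A (B \ A) disjoint_sdiff_right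
  rw [union_sdiff_cancel hAB] at this
  linarith [h.1 (B \ A)]

lemma Stat.compl {μ : Set ℕ → ℝ} (h : Stat μ) (A : Set ℕ) : μ Aᶜ = 1 - μ A := by
  have := h.2.1 A Aᶜ disjoint_compl_right
  rw [union_compl_self, h.2.2.1] at this
  linarith

lemma Stat.union {μ : Set ℕ → ℝ} (h : Stat μ) (A B : Set ℕ) :
    μ (A ∪ B) + μ (A ∩ B) = μ A + μ B := by
  have h1 := h.2.1 A (B \ A) disjoint_sdiff_right
  have h2 := h.2.1 (A ∩ B) (B \ A) (disjoint_sdiff_right.mono_left inter_subset_left)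
  rw [union_sdiff_self] at h1
  rw [inter_comm, inter_union_sdiff] at h2
  rw [inter_comm]
  linarith

theorem exists_poor : ∃ F : Filter ℕ, Free F ∧ IsPoor F ∧ ¬ Generated F := by
  classical
  obtain ⟨e⟩ : Nonempty (ℕ ≃ Finset ℚ × Finset (Finset ℚ)) := nonempty_equiv_of_countable
  let X : Set ℚ → Set ℕ := fun t => {n | (e n).1.filter (· ∈ t) ∈ (e n).2}
  let Y : Finset (Set ℚ) → Set ℕ := fun a => ⋂ t ∈ a, X t
  let F₀ : Filter ℕ :=
    { sets := {S | ∃ (b : Finset (Set ℚ)) (N : ℕ), ∀ n ≥ N, Anti (b.filter (n ∈ X ·)) → n ∈ S}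
      univ_sets := ⟨∅, 0, fun _ _ _ => trivial⟩
      sets_of_superset := fun ⟨b, N, h⟩ hS => ⟨b, N, fun n hn ha => hS (h n hn ha)⟩
      inter_sets := fun ⟨b, N, h⟩ ⟨b', N', h'⟩ => ⟨b ∪ b', max N N', fun n hn ha =>
        ⟨h n (le_of_max_le_left hn) fun s hs t ht => ha s
          (Finset.filter_subset_filter _ Finset.subset_union_left hs) t
          (Finset.filter_subset_filter _ Finset.subset_union_left ht),
        h' n (le_of_max_le_right hn) fun s hs t ht => ha s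
          (Finset.filter_subset_filter _ Finset.subset_union_right hs) t
          (Finset.filter_subset_filter _ Finset.subset_union_right ht)⟩⟩ }
  let 𝒮 : Set (Filter ℕ)ᵒᵈ := {G | OrderDual.ofDual G ≤ F₀ ∧
    ∀ a, Anti a → (OrderDual.ofDual G ⊓ 𝓟 (Y a)).NeBot}
  have h0 : OrderDual.toDual F₀ ∈ 𝒮 := by
    refine ⟨le_rfl, fun a ha => inf_principal_neBot_iff.2 ?_⟩
    rintro S ⟨b, N, h⟩
    have : ∀ s t : Set ℚ, ∃ q, s ≠ t → ¬ (q ∈ s ↔ q ∈ t) := fun s t => by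
      by_contra hc
      push Not at hc
      exact (hc 0).1 (Set.ext fun q => (hc q).2)
    choose d hd using this
    obtain ⟨q₀, hq₀⟩ := Infinite.exists_notMem_finset ((Finset.range N).biUnion fun n => (e n).1)
    let E : Finset ℚ := insert q₀ ((a ×ˢ b).image fun p => d p.1 p.2)
    let n := e.symm (E, a.image fun t => E.filter (· ∈ t))
    have hn : ∀ t, n ∈ X t ↔ ∃ s ∈ a, E.filter (· ∈ s) = E.filter (· ∈ t) := fun t => by
      simp [X, n]
    refine ⟨n, h n ?_ ?_, mem_iInter₂.2 fun t ht => (hn t).2 ⟨t, ht, rfl⟩⟩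
    · by_contra hc
      exact hq₀ (Finset.mem_biUnion.2 ⟨n, Finset.mem_range.2 (not_le.1 hc), by simp [n, E]⟩)
    · have : b.filter (n ∈ X ·) ⊆ a := by
        intro t ht
        obtain ⟨htb, ht⟩ := Finset.mem_filter.1 ht
        obtain ⟨s, hs, h⟩ := (hn t).1 ht
        by_contra hc
        have hE : d s t ∈ E := Finset.mem_insert_of_mem
          (Finset.mem_image.2 ⟨(s, t), Finset.mem_product.2 ⟨hs, htb⟩, rfl⟩)
        have := Finset.ext_iff.1 h (d s t)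
        simp only [Finset.mem_filter, hE, true_and] at this
        exact hd s t (fun h => hc (h ▸ hs)) this
      exact fun s hs t ht => ha s (this hs) t (this ht)
  obtain ⟨G, -, hG⟩ := zorn_le_nonempty₀ 𝒮 (fun c hc hch y hy => by
    refine ⟨OrderDual.toDual (⨅ G ∈ c, OrderDual.ofDual G),
      ⟨(biInf_le (fun G => OrderDual.ofDual G) hy).trans (hc hy).1, fun a ha =>
        inf_principal_neBot_iff.2 fun S hS => ?_⟩,
      fun z hz => biInf_le (fun G => OrderDual.ofDual G) hz⟩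
    obtain ⟨G, hG, hS⟩ := (mem_biInf_of_directed (f := fun G => OrderDual.ofDual G)
      hch.directedOn ⟨y, hy⟩).1 hS
    exact inf_principal_neBot_iff.1 ((hc hG).2 a ha) S hS) _ h0
  let F : Filter ℕ := OrderDual.ofDual G
  have hF : F ≤ F₀ := hG.1.1
  have hpos : ∀ a, Anti a → (Y a)ᶜ ∉ F := fun a ha h => by
    obtain ⟨x, h1, h2⟩ := inf_principal_neBot_iff.1 (hG.1.2 a ha) _ h
    exact h1 h2
  have hmax : ∀ A : Set ℕ, Aᶜ ∉ F → ∃ a, Anti a ∧ (Y a)ᶜ ∪ A ∈ F := by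
    intro A hA
    by_contra hc
    push Not at hc
    have : OrderDual.toDual (F ⊓ 𝓟 Aᶜ) ∈ 𝒮 := ⟨inf_le_left.trans hF, fun a ha => ⟨fun h => by
      refine hc a ha ?_
      change F ⊓ 𝓟 Aᶜ ⊓ 𝓟 (Y a) = ⊥ at h
      rw [inf_assoc, inf_principal, inf_principal_eq_bot, compl_inter, compl_compl, union_comm] at h
      exact h⟩⟩
    have h2 : F ≤ F ⊓ 𝓟 Aᶜ := hG.2 this (inf_le_left : F ⊓ 𝓟 Aᶜ ≤ F)
    exact hA (le_principal_iff.1 (h2.trans inf_le_right))
  have hX : ∀ s t, lt s t → (X s ∩ X t)ᶜ ∈ F := fun s t h =>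
    hF ⟨{s, t}, 0, fun n _ ha hn => ha s (by simp [hn.1]) t (by simp [hn.2]) h⟩
  refine ⟨F, ⟨⟨fun h => hpos ∅ (by simp [Anti]) (by rw [h]; trivial)⟩, hF.trans fun S hS => ?_⟩,
    fun 𝒜 h1 h2 => ?_, ?_⟩
  · rw [Nat.cofinite_eq_atTop, mem_atTop_sets] at hS
    exact hS.elim fun N hN => ⟨∅, N, fun n hn _ => hN n hn⟩
  · choose! a ha ha' using hmax
    refine ccc 𝒜 a (fun A hA => ha A (h1 A hA)) fun A hA B hB hne => ?_
    by_contra hc
    push Not at hc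
    refine hpos (a A ∪ a B) (fun s hs t ht => ?_) ?_
    · rcases Finset.mem_union.1 hs with hs | hs <;> rcases Finset.mem_union.1 ht with ht | ht
      exacts [ha A (h1 A hA) s hs t ht, (hc s hs t ht).1, (hc t ht s hs).2, ha B (h1 B hB) s hs t ht]
    · filter_upwards [ha' A (h1 A hA), ha' B (h1 B hB), h2 hA hB hne] with n g1 g2 g3 g4
      simp only [Y, Finset.set_biInter_inter] at g4
      exact g3 ⟨g1.resolve_left fun h => h g4.1, g2.resolve_left fun h => h g4.2⟩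
  · rintro ⟨μ, hμ, h⟩
    have hnull : ∀ A : Set ℕ, Aᶜ ∈ F ↔ μ A = 0 := fun A => by
      rw [h, hμ.compl]; constructor <;> intro <;> linarith
    have hle : ∀ A, μ A ≤ 1 := fun A => hμ.2.2.1 ▸ hμ.mono (subset_univ A)
    refine no_weight (fun t => μ (X t)) (fun t => (hμ.1 _).lt_of_ne' fun h => ?_) (fun t => hle _)
      fun s hs N => le_trans (le_of_eq ?_) (hle (⋃ i ∈ Finset.range N, X (s i)))
    · refine hpos {t} (fun a ha b hb hab => hab.ne ?_) (by simpa [Y] using (hnull _).2 h)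
      rw [Finset.mem_singleton.1 ha, Finset.mem_singleton.1 hb]
    · induction N with
      | zero => simpa using ((hnull ∅).1 (by simp)).symm
      | succ N ih =>
        have h1 := hμ.union (X (s N)) (⋃ i ∈ Finset.range N, X (s i))
        have h2 : μ (X (s N) ∩ ⋃ i ∈ Finset.range N, X (s i)) = 0 := by
          rw [← hnull]
          have : ∀ᶠ n in F, ∀ i ∈ Finset.range N, n ∈ (X (s i) ∩ X (s N))ᶜ :=
            (eventually_all_finset _).2 fun i hi => hX _ _ (hs i N (Finset.mem_range.1 hi))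
          filter_upwards [this] with n hn hn'
          obtain ⟨i, hi, h⟩ := mem_iUnion₂.1 hn'.2
          exact hn i hi ⟨h, hn'.1⟩
        rw [Finset.sum_range_succ, Finset.range_add_one, Finset.set_biUnion_insert, ih]
        linarith

/-- An almost disjoint family indexed by all sets of naturals. -/
lemma exists_ad : ∃ M : (ℕ → Bool) → Set ℕ, (∀ x, (M x).Infinite) ∧
    ∀ x y, x ≠ y → (M x ∩ M y).Finite := by
  let c : (ℕ → Bool) → ℕ → ℕ := fun x n => Encodable.encode (List.ofFn fun i : Fin n => x i)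
  have hc : ∀ x y n m, c x n = c y m → n = m ∧ ∀ i < n, x i = y i := by
    intro x y n m h
    have h1 := Encodable.encode_injective h
    obtain rfl : n = m := by simpa using congrArg List.length h1
    exact ⟨rfl, fun i hi => congrFun (List.ofFn_injective h1) ⟨i, hi⟩⟩
  refine ⟨fun x => range (c x), fun x => infinite_range_of_injective fun n m h => (hc _ _ _ _ h).1,
    fun x y hxy => ?_⟩
  obtain ⟨i, hi⟩ := Function.ne_iff.1 hxy
  refine ((finite_le_nat i).image (c x)).subset ?_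
  rintro _ ⟨⟨n, rfl⟩, m, h⟩
  exact ⟨n, not_lt.1 fun hn => hi ((hc _ _ _ _ h.symm).2 i hn), rfl⟩

theorem IsPoor.not_congl {F : Filter ℕ} (h : IsPoor F) : ¬ Congl F := by
  rintro ⟨D, h1, h2, h3⟩
  obtain ⟨M, hM, hM'⟩ := exists_ad
  let A : (ℕ → Bool) → Set ℕ := fun x => ⋃ n ∈ M x, D n
  have key : ∀ x y, x ≠ y → (A x ∩ A y)ᶜ ∈ F := fun x y hxy => by
    filter_upwards [(eventually_all_finite (hM' x y hxy)).2 fun n _ => h2 n] with k hk hk'
    obtain ⟨n, hn, a⟩ := mem_iUnion₂.1 hk'.1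
    obtain ⟨m, hm, b⟩ := mem_iUnion₂.1 hk'.2
    by_cases hnm : n = m
    · exact hk n ⟨hn, hnm ▸ hm⟩ a
    · exact disjoint_left.1 (h1 hnm) a b
  have := h (range A) (by rintro _ ⟨x, rfl⟩; exact h3 _ (hM x)) (by
    rintro _ ⟨x, rfl⟩ _ ⟨y, rfl⟩ hne
    exact key x y fun e => hne (e ▸ rfl))
  have hinj : Function.Injective A := fun x y e => by
    by_contra hne
    have := key x y hne
    rw [← e, inter_self] at this
    exact h3 _ (hM x) this
  rw [← image_univ] at this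
  have hu : Uncountable (ℕ → Bool) := by
    rw [← Cardinal.aleph0_lt_mk_iff]
    simp [Cardinal.aleph0_lt_continuum]
  exact not_countable_univ (countable_of_injective_of_countable_image hinj.injOn this)

end Pool.Agent.H13.Poor
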