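import Mathlib

namespace Pool.Agent.H13.Rams
open Finset Filter

theorem lim {C : Type} [Finite C] (f : ℕ → C) : ∃ c, ∀ᶠ x in hyperfilter ℕ, f x = c := by
  obtain ⟨c, hc⟩ := Ultrafilter.eq_pure_of_finite ((hyperfilter ℕ).map f)
  refine ⟨c, ?_⟩
  have : {c} ∈ (hyperfilter ℕ).map f := by rw [hc]; simp
  exact this

theorem ev_gt (y : ℕ) : ∀ᶠ x in hyperfilter ℕ, y < x :=
  Nat.hyperfilter_le_atTop (eventually_gt_atTop y)

theorem ramsey_inf {C : Type} [Finite C] (P : Finset ℕ → C) (M : ℕ) :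
    ∃ a : ℕ → ℕ, StrictMono a ∧ ∀ S S' : Finset ℕ, S.card = S'.card → S.card ≤ M →
      P (S.image a) = P (S'.image a) := by
  choose D hD using fun (P : Finset ℕ → C) (B : Finset ℕ) => lim fun x => P (insert x B)
  have nx : ∀ T : Finset ℕ, ∃ x, (∀ y ∈ T, y < x) ∧ ∀ B ∈ T.powerset, ∀ j ∈ range M,
      D^[j] P (insert x B) = D^[j + 1] P B := fun T => by
    refine Eventually.exists (f := (hyperfilter ℕ : Filter ℕ)) (Eventually.and ?_ ?_)
    · exact (eventually_all_finset _).2 fun y _ => ev_gt y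
    · refine (eventually_all_finset _).2 fun B _ => (eventually_all_finset _).2 fun j _ => ?_
      rw [Function.iterate_succ_apply']
      exact hD _ _
  choose nx h1 h2 using nx
  let T : ℕ → Finset ℕ := fun n => Nat.rec ∅ (fun _ T => insert (nx T) T) n
  have hT : Monotone T := monotone_nat_of_le_succ fun n => subset_insert _ _
  have hm : ∀ {i j}, i < j → nx (T i) ∈ T j := fun h => hT h (mem_insert_self _ _)
  have ha : StrictMono fun n => nx (T n) := fun i j h => h1 _ _ (hm h)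
  have key : ∀ S : Finset ℕ, ∀ j, j + S.card ≤ M →
      D^[j] P (S.image fun n => nx (T n)) = D^[j + S.card] P ∅ := by
    intro S
    induction S using Finset.induction_on_max with
    | empty => simp
    | insert s S hs ih =>
      intro j hj
      rw [card_insert_of_notMem fun h => (hs s h).false] at hj ⊢
      rw [image_insert, h2 _ _ (mem_powerset.2 (image_subset_iff.2 fun x hx => hm (hs x hx))) _
        (mem_range.2 (by omega)), ih _ (by omega)]
      rw [add_right_comm, add_assoc]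
  refine ⟨_, ha, fun S S' e h => ?_⟩
  exact (key S 0 (by omega)).trans (e ▸ (key S' 0 (by omega)).symm)

theorem ramsey (C : Type) [Finite C] (m : ℕ) : ∃ N, ∀ P : Finset ℕ → C, ∃ a : ℕ → ℕ,
    StrictMono a ∧ a m < N ∧ ∀ S ⊆ range m, ∀ S' ⊆ range m, S.card = S'.card →
      P (S.image a) = P (S'.image a) := by
  by_contra hc
  push Not at hc
  choose P hP using hc
  choose Q hQ using fun S => lim fun N => P N S
  obtain ⟨a, ha, h⟩ := ramsey_inf Q m
  obtain ⟨N, h1, h2⟩ := ((ev_gt (a m)).and ((eventually_all_finset (range m).powerset).2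
    fun S _ => hQ (S.image a))).exists
  obtain ⟨S, hS, S', hS', e, hne⟩ := hP N a ha h1
  rw [h2 S (mem_powerset.2 hS), h2 S' (mem_powerset.2 hS')] at hne
  exact hne (h S S' e (by simpa using card_le_card hS))

def rk (S : Finset ℕ) (x : ℕ) : ℕ := (S.filter (· < x)).card

theorem rk_mono (S : Finset ℕ) : Monotone (rk S) := fun _ _ h =>
  card_le_card (monotone_filter_right _ fun _ _ hz => lt_of_lt_of_le hz h)

theorem rk_lt {S : Finset ℕ} {x y : ℕ} (hx : x ∈ S) (h : x < y) : rk S x < rk S y :=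
  card_lt_card ((ssubset_iff_of_subset (monotone_filter_right _ fun _ _ hz => lt_trans hz h)).2
    ⟨x, by simp [hx, h], by simp⟩)

theorem rk_sm (S : Finset ℕ) : StrictMonoOn (rk S) S := fun _ hx _ _ h => rk_lt hx h

theorem rk_card {S : Finset ℕ} {x : ℕ} (hx : x ∈ S) : rk S x < S.card :=
  card_lt_card (filter_ssubset.2 ⟨x, hx, by simp⟩)

theorem rk_image (S : Finset ℕ) : S.image (rk S) = range S.card :=
  eq_of_subset_of_card_le (image_subset_iff.2 fun _ hx => mem_range.2 (rk_card hx))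
    (by rw [card_image_of_injOn (rk_sm S).injOn, card_range])

theorem rk_map {S : Finset ℕ} {g : ℕ → ℕ} (hg : StrictMonoOn g S) {x : ℕ} (hx : x ∈ S) :
    rk (S.image g) (g x) = rk S x := by
  unfold rk
  rw [filter_image, card_image_of_injOn (hg.injOn.mono (coe_subset.2 (filter_subset _ _)))]
  congr 1
  exact filter_congr fun y hy => hg.lt_iff_lt hy hx

open Classical in
theorem hom (ι : Type) [Finite ι] (m : ℕ) : ∃ N, ∀ (C : Type) (χ : ι → Finset ℕ → C),
    ∃ a : ℕ → ℕ, StrictMono a ∧ a m < N ∧ ∀ S ⊆ range m, ∀ f : ℕ → ℕ, StrictMonoOn f S →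
      S.image f ⊆ range m → ∀ i i', ∀ B ⊆ S, ∀ B' ⊆ S, (χ i (B.image a) = χ i' (B'.image a) ↔
        χ i ((B.image f).image a) = χ i' ((B'.image f).image a)) := by
  obtain ⟨N, hN⟩ := ramsey (ι → ι → (Fin m → Prop) → (Fin m → Prop) → Prop) m
  refine ⟨N, fun C χ => ?_⟩
  let F : Finset ℕ → (Fin m → Prop) → Finset ℕ := fun T U =>
    T.filter fun y => ∃ u : Fin m, U u ∧ rk T y = u
  obtain ⟨a, ha, hm, h⟩ := hN fun T i i' U V => χ i (F T U) = χ i' (F T V)
  refine ⟨a, ha, hm, fun S hS f hf hfS i i' B hB B' hB' => ?_⟩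
  have pat : ∀ g : ℕ → ℕ, StrictMonoOn g S → ∀ B ⊆ S,
      F (S.image g) (fun u => ∃ x ∈ B, rk S x = u) = B.image g := by
    intro g hg B hB
    ext y
    simp only [F, mem_filter, mem_image]
    constructor
    · rintro ⟨⟨z, hz, rfl⟩, u, ⟨x, hx, e⟩, e'⟩
      rw [rk_map hg hz, ← e] at e'
      exact ⟨x, hx, by rw [(rk_sm S).injOn hz (hB hx) e']⟩
    · rintro ⟨x, hx, rfl⟩
      exact ⟨⟨x, hB hx, rfl⟩, ⟨rk S x, (rk_card (hB hx)).trans_le (by simpa using card_le_card hS)⟩,
        ⟨x, hx, rfl⟩, rk_map hg (hB hx)⟩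
  have h1 := h S hS _ hfS (card_image_of_injOn hf.injOn).symm
  have h2 := congrFun (congrFun (congrFun (congrFun h1 i) i') fun u => ∃ x ∈ B, rk S x = u)
    fun u => ∃ x ∈ B', rk S x = u
  have hc : StrictMonoOn (a ∘ f) S := ha.comp_strictMonoOn hf
  simp only [image_image] at h2 ⊢
  rw [pat _ (ha.strictMonoOn _) _ hB, pat _ (ha.strictMonoOn _) _ hB', pat _ hc _ hB,
    pat _ hc _ hB'] at h2
  exact iff_of_eq h2

end Pool.Agent.H13.Rams
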