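import Mathlib

/-! Higher commutators of semigroups. -/

namespace Pool.Agent.H13.SN

universe u

variable {S : Type u} [Semigroup S]

/-- Matrices with rows indexed by `Fin d → Bool` and two columns. -/
abbrev Mat (d : ℕ) (S : Type u) : Type u := (Fin d → Bool) → Bool → S

/-- Generators of `M(α 0, …, α (d-1), β)`. -/
def gens {d : ℕ} (α : Fin d → Con S) (β : Con S) : Set (Mat d S) :=
  {x | ∃ i a b, α i a b ∧ x = fun ε _ => if ε i then b else a} ∪
  {x | ∃ a b, β a b ∧ x = fun _ c => if c then b else a}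

/-- The subalgebra `M(α 0, …, α (d-1), β)`. -/
def Mats {d : ℕ} (α : Fin d → Con S) (β : Con S) : Subsemigroup (Mat d S) :=
  Subsemigroup.closure (gens α β)

/-- The term condition modulo `δ`. -/
def TC {d : ℕ} (α : Fin d → Con S) (β δ : Con S) : Prop :=
  ∀ x ∈ Mats α β, (∀ ε, ε ≠ (fun _ => true) → δ (x ε false) (x ε true)) →
    δ (x (fun _ => true) false) (x (fun _ => true) true)

/-- The higher commutator `[α 0, …, α (d-1), β]`. -/
def hcomm {d : ℕ} (α : Fin d → Con S) (β : Con S) : Con S := sInf {δ | TC α β δ}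

/-- The binary commutator. -/
def comm2 (α β : Con S) : Con S := hcomm (fun _ : Fin 1 => α) β

def leftS (S : Type u) [Semigroup S] : ℕ → Con S
  | 0 => ⊤
  | k + 1 => comm2 ⊤ (leftS S k)

def rightS (S : Type u) [Semigroup S] : ℕ → Con S
  | 0 => ⊤
  | k + 1 => comm2 (rightS S k) ⊤

def Supernilpotent (S : Type u) [Semigroup S] : Prop :=
  ∃ d : ℕ, hcomm (fun _ : Fin d => (⊤ : Con S)) ⊤ = ⊥

def LeftNilpotent (S : Type u) [Semigroup S] : Prop := ∃ d, leftS S d = ⊥

def RightNilpotent (S : Type u) [Semigroup S] : Prop := ∃ d, rightS S d = ⊥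

lemma sInf_iff (A : Set (Con S)) (x y : S) : sInf A x y ↔ ∀ c ∈ A, c x y := Iff.rfl

/-- The commutator itself satisfies the term condition, so it is the least such congruence. -/
theorem tc_hcomm {d : ℕ} (α : Fin d → Con S) (β : Con S) : TC α β (hcomm α β) :=
  fun x hx h δ hδ => hδ x hx fun ε hε => h ε hε δ hδ

lemma TC.mono {d : ℕ} {α α' : Fin d → Con S} {β β' δ : Con S} (h : TC α β δ)
    (hα : ∀ i, α' i ≤ α i) (hβ : β' ≤ β) : TC α' β' δ := by
  intro x hx
  refine h x (Subsemigroup.closure_mono ?_ hx)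
  rintro y (⟨i, a, b, hab, rfl⟩ | ⟨a, b, hab, rfl⟩)
  · exact Or.inl ⟨i, a, b, hα i hab, rfl⟩
  · exact Or.inr ⟨a, b, hβ hab, rfl⟩

lemma tc2_of {α β δ : Con S} (P : S → S → S → S → Prop)
    (h1 : ∀ a b, α a b → P a a b b) (h2 : ∀ c d, β c d → P c d c d)
    (hm : ∀ a b c d a' b' c' d', P a b c d → P a' b' c' d' →
      P (a * a') (b * b') (c * c') (d * d'))
    (hc : ∀ a b c d, P a b c d → δ a b → δ c d) : TC (fun _ : Fin 1 => α) β δ := by
  intro x hx h
  have : P (x (fun _ => false) false) (x (fun _ => false) true) (x (fun _ => true) false)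
      (x (fun _ => true) true) := by
    clear h
    induction hx using Subsemigroup.closure_induction with
    | mem y hy =>
      rcases hy with ⟨i, a, b, hab, rfl⟩ | ⟨a, b, hab, rfl⟩
      · simpa using h1 a b hab
      · simpa using h2 a b hab
    | mul y z _ _ hy hz => exact hm _ _ _ _ _ _ _ _ hy hz
  exact hc _ _ _ _ this (h _ fun h' => by simpa using congrFun h' 0)

def Good (θ : Con S) : Prop := ∃ n, leftS S n ≤ θ ∧ rightS S n ≤ θ

lemma good_top : Good (⊤ : Con S) := ⟨0, le_rfl, le_rfl⟩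

lemma Good.mono {θ θ' : Con S} (h : Good θ) (hle : θ ≤ θ') : Good θ' :=
  let ⟨n, h1, h2⟩ := h; ⟨n, h1.trans hle, h2.trans hle⟩

lemma Good.step {θ θ' : Con S} (h : Good θ) (hl : TC (fun _ : Fin 1 => ⊤) θ θ')
    (hr : TC (fun _ : Fin 1 => θ) ⊤ θ') : Good θ' := by
  obtain ⟨n, h1, h2⟩ := h
  exact ⟨n + 1, sInf_le (hl.mono (fun _ => le_rfl) h1), sInf_le (hr.mono (fun _ => h2) le_rfl)⟩

lemma Good.nil (h : Good (⊥ : Con S)) : LeftNilpotent S ∧ RightNilpotent S :=
  let ⟨n, h1, h2⟩ := h; ⟨⟨n, le_bot_iff.1 h1⟩, ⟨n, le_bot_iff.1 h2⟩⟩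

/-- The plain term condition. -/
def SN (d : ℕ) (S : Type u) [Semigroup S] : Prop :=
  ∀ x ∈ Mats (fun _ : Fin d => (⊤ : Con S)) ⊤, (∀ ε, ε ≠ (fun _ => true) → x ε false = x ε true) →
    x (fun _ => true) false = x (fun _ => true) true

lemma sn_of {d : ℕ} (h : hcomm (fun _ : Fin d => (⊤ : Con S)) ⊤ = ⊥) : SN d S := by
  have := tc_hcomm (fun _ : Fin d => (⊤ : Con S)) ⊤
  rw [h] at this
  exact this

lemma blk_mem {d : ℕ} (i : Fin d) (a b : S) :
    (fun ε _ => if ε i then b else a) ∈ Mats (fun _ : Fin d => (⊤ : Con S)) ⊤ :=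
  Subsemigroup.subset_closure (Or.inl ⟨i, a, b, trivial, rfl⟩)

lemma col_mem {d : ℕ} (a b : S) :
    (fun _ c => if c then b else a) ∈ Mats (fun _ : Fin d => (⊤ : Con S)) ⊤ :=
  Subsemigroup.subset_closure (Or.inr ⟨a, b, trivial, rfl⟩)

lemma SN.op {d : ℕ} (h : SN d S) : SN d Sᵐᵒᵖ := by
  intro x hx hr
  have : (fun ε c => (x ε c).unop) ∈ Mats (fun _ : Fin d => (⊤ : Con S)) ⊤ := by
    clear hr
    induction hx using Subsemigroup.closure_induction with
    | mem y hy =>
      rcases hy with ⟨i, a, b, -, rfl⟩ | ⟨a, b, -, rfl⟩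
      · convert blk_mem i a.unop b.unop using 3
        exact apply_ite MulOpposite.unop _ _ _
      · convert col_mem (d := d) a.unop b.unop using 3
        exact apply_ite MulOpposite.unop _ _ _
    | mul y z _ _ hy hz => exact Subsemigroup.mul_mem _ hz hy
  exact MulOpposite.unop_injective (h _ this fun ε hε => congrArg MulOpposite.unop (hr ε hε))

end Pool.Agent.H13.SN
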