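import Pool.Agent.H13.SN0

/-! A left and right nilpotent semigroup that is not supernilpotent. -/

namespace Pool.Agent.H13.SN

@[ext] structure W where
  a : ℕ
  k : ℕ
  y : ℚ
  z : AddCircle (1 : ℚ)
  s : Bool

def W.ok (w : W) : Prop :=
  0 < w.a + w.k ∧ (w.k = 0 → w.y = 0 ∧ w.z = 0) ∧
  (w.k = 1 → ∃ j : ℕ, j ≤ w.a ∧ w.z = ((j * w.y : ℚ) : AddCircle (1 : ℚ)))

def sp (a k : ℕ) (y : ℚ) (z : AddCircle (1 : ℚ)) : Prop := 0 < a ∧ k = 1 ∧ y = 1 / a ∧ z = 0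

def X : Type := {w : W // w.ok}

open Classical in
noncomputable def fl (a k : ℕ) (y : ℚ) (z : AddCircle (1 : ℚ)) (j : ℕ) : Bool :=
  decide (sp a k y z ∧ j = 0)

lemma fl_iff {a k : ℕ} {y : ℚ} {z : AddCircle (1 : ℚ)} {j : ℕ} :
    fl a k y z j = true ↔ sp a k y z ∧ j = 0 := by simp [fl]

noncomputable def W.mul (v w : W) : W :=
  ⟨v.a + w.a, v.k + w.k, v.y + w.y, v.z + w.z + ((v.a * w.y : ℚ) : AddCircle (1 : ℚ)),
    fl (v.a + w.a) (v.k + w.k) (v.y + w.y)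
      (v.z + w.z + ((v.a * w.y : ℚ) : AddCircle (1 : ℚ))) v.k⟩

lemma W.ok_mul {v w : W} (hv : v.ok) (hw : w.ok) : (v.mul w).ok := by
  obtain ⟨v1, v2, v3⟩ := hv
  obtain ⟨w1, w2, w3⟩ := hw
  refine ⟨by simp only [W.mul]; omega, fun h => ?_, fun h => ?_⟩
  · simp only [W.mul] at h ⊢
    obtain ⟨a, b⟩ := v2 (by omega)
    obtain ⟨c, d⟩ := w2 (by omega)
    simp [a, b, c, d]
  · simp only [W.mul] at h ⊢
    rcases (by omega : (v.k = 0 ∧ w.k = 1) ∨ (v.k = 1 ∧ w.k = 0)) with ⟨h1, h2⟩ | ⟨h1, h2⟩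
    · obtain ⟨a, b⟩ := v2 h1
      obtain ⟨j, hj, hz⟩ := w3 h2
      refine ⟨j + v.a, by omega, ?_⟩
      rw [a, b, hz, zero_add, zero_add, ← AddCircle.coe_add]
      congr 1; push_cast; ring
    · obtain ⟨a, b⟩ := w2 h2
      obtain ⟨j, hj, hz⟩ := v3 h1
      exact ⟨j, by omega, by simp [a, b, hz]⟩

lemma mid {u v w : W} (hu : u.ok) (hv : v.ok) (hw : w.ok)
    (h : sp (u.a + v.a + w.a) (u.k + v.k + w.k) (u.y + v.y + w.y)
      (u.z + v.z + ((u.a * v.y : ℚ) : AddCircle (1 : ℚ)) + w.z +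
        ((((u.a + v.a : ℕ) : ℚ) * w.y : ℚ) : AddCircle (1 : ℚ)))) (h0 : u.k = 0) : v.k = 0 := by
  by_contra hk
  obtain ⟨h1, h2, h3, h4⟩ := h
  have hv1 : v.k = 1 := by omega
  have hw0 : w.k = 0 := by omega
  obtain ⟨a, b⟩ := hu.2.1 h0
  obtain ⟨c, d⟩ := hw.2.1 hw0
  obtain ⟨j, hj, hz⟩ := hv.2.2 hv1
  have hu1 := hu.1
  have hw1 := hw.1
  rw [a, c, zero_add, add_zero] at h3
  simp only [b, c, d, hz, zero_add, add_zero, mul_zero, AddCircle.coe_zero, ← AddCircle.coe_add] at h4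
  obtain ⟨n, hn⟩ := (AddCircle.coe_eq_zero_iff 1).1 h4
  rw [h3] at hn
  have hpos : (0 : ℚ) < (u.a + v.a + w.a : ℕ) := by exact_mod_cast h1
  simp only [zsmul_eq_mul, mul_one] at hn
  have : (n : ℚ) * (u.a + v.a + w.a : ℕ) = (j + u.a : ℕ) := by
    rw [hn]; field_simp; push_cast; ring
  have h5 : n * ((u.a + v.a + w.a : ℕ) : ℤ) = (j + u.a : ℕ) := by exact_mod_cast this
  have h6 : 0 < n := by
    by_contra hn0
    have : n * ((u.a + v.a + w.a : ℕ) : ℤ) ≤ 0 := mul_nonpos_of_nonpos_of_nonneg (by omega) (by positivity)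
    omega
  have : ((u.a + v.a + w.a : ℕ) : ℤ) ≤ n * ((u.a + v.a + w.a : ℕ) : ℤ) :=
    le_mul_of_one_le_left (by positivity) (by omega)
  omega

noncomputable instance : Semigroup X where
  mul v w := ⟨v.1.mul w.1, W.ok_mul v.2 w.2⟩
  mul_assoc u v w := by
    apply Subtype.ext
    change (u.1.mul v.1).mul w.1 = u.1.mul (v.1.mul w.1)
    have hz : u.1.z + v.1.z + ((u.1.a * v.1.y : ℚ) : AddCircle (1 : ℚ)) + w.1.z +
        ((((u.1.a + v.1.a : ℕ) : ℚ) * w.1.y : ℚ) : AddCircle (1 : ℚ)) =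
        u.1.z + (v.1.z + w.1.z + ((v.1.a * w.1.y : ℚ) : AddCircle (1 : ℚ))) +
        ((u.1.a * (v.1.y + w.1.y) : ℚ) : AddCircle (1 : ℚ)) := by
      push_cast
      simp only [add_mul, mul_add, AddCircle.coe_add]
      abel
    refine W.ext (add_assoc _ _ _) (add_assoc _ _ _) (add_assoc _ _ _) hz ?_
    simp only [W.mul]
    rw [Bool.eq_iff_iff, fl_iff, fl_iff, ← hz, ← add_assoc u.1.a, ← add_assoc u.1.k, ← add_assoc u.1.y]
    refine and_congr_right fun h => ⟨fun h' => by omega, fun h' => ?_⟩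
    have := mid u.2 v.2 w.2 h h'
    omega

lemma mul_val (v w : X) : (v * w).1 = v.1.mul w.1 := rfl

def th1 : Con X where
  r v w := v.1.a = w.1.a ∧ v.1.k = w.1.k ∧ v.1.y = w.1.y
  iseqv := ⟨fun _ => ⟨rfl, rfl, rfl⟩, fun h => ⟨h.1.symm, h.2.1.symm, h.2.2.symm⟩,
    fun h h' => ⟨h.1.trans h'.1, h.2.1.trans h'.2.1, h.2.2.trans h'.2.2⟩⟩
  mul' := by
    rintro a b c d ⟨h1, h2, h3⟩ ⟨h4, h5, h6⟩
    simp only [mul_val, W.mul, h1, h2, h3, h4, h5, h6, and_self]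

def th2 : Con X where
  r v w := th1 v w ∧ v.1.z = w.1.z
  iseqv := ⟨fun _ => ⟨th1.refl _, rfl⟩, fun h => ⟨th1.symm h.1, h.2.symm⟩,
    fun h h' => ⟨th1.trans h.1 h'.1, h.2.trans h'.2⟩⟩
  mul' := by
    rintro a b c d ⟨h, h7⟩ ⟨h', h8⟩
    refine ⟨th1.mul h h', ?_⟩
    simp only [mul_val, W.mul, h.1, h'.2.2, h7, h8]

lemma th2_mul {a b c d : X} (h : th2 a b) (h' : th2 c d) : a * c = b * d := by
  apply Subtype.ext
  obtain ⟨⟨h1, h2, h3⟩, h7⟩ := h
  obtain ⟨⟨h4, h5, h6⟩, h8⟩ := h'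
  simp only [mul_val, W.mul, h1, h2, h3, h4, h5, h6, h7, h8]

lemma abel_aux {A : Type} [AddCommGroup A] {a b c d a' b' c' d' : A} (t t' : A)
    (h : a + d = b + c) (h' : a' + d' = b' + c') :
    a + a' + t + (d + d' + t') = b + b' + t + (c + c' + t') := by
  calc _ = (a + d) + (a' + d') + (t + t') := by abel
    _ = _ := by rw [h, h']; abel

lemma abel_aux' {A : Type} [AddCommGroup A] {a b c d a' b' c' d' : A} (t t' : A)
    (h : a + d = b + c) (h' : a' + d' = b' + c') :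
    a + a' + t + (d + d' + t') = b + b' + t' + (c + c' + t) := by
  calc _ = (a + d) + (a' + d') + (t + t') := by abel
    _ = _ := by rw [h, h']; abel

lemma X_good : Good (⊥ : Con X) := by
  have t1 : TC (fun _ : Fin 1 => (⊤ : Con X)) ⊤ th1 := by
    refine tc2_of (fun a b c d => a.1.a + d.1.a = b.1.a + c.1.a ∧ a.1.k + d.1.k = b.1.k + c.1.k ∧
      a.1.y + d.1.y = b.1.y + c.1.y) (fun _ _ _ => ⟨rfl, rfl, rfl⟩)
      (fun _ _ _ => ⟨add_comm _ _, add_comm _ _, add_comm _ _⟩) ?_ ?_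
    · rintro a b c d a' b' c' d' ⟨h1, h2, h3⟩ ⟨h4, h5, h6⟩
      simp only [mul_val, W.mul]
      exact ⟨by omega, by omega, by linarith⟩
    · rintro a b c d ⟨h1, h2, h3⟩ ⟨h4, h5, h6⟩
      exact ⟨by omega, by omega, by linarith⟩
  have g1 : Good th1 := good_top.step t1 t1
  have g2 : Good th2 := by
    refine g1.step ?_ ?_
    · refine tc2_of (fun a b c d => th1 a b ∧ th1 c d ∧ a.1.z + d.1.z = b.1.z + c.1.z)
        (fun _ _ _ => ⟨th1.refl _, th1.refl _, rfl⟩) (fun _ _ h => ⟨h, h, add_comm _ _⟩) ?_ ?_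
      · rintro a b c d a' b' c' d' ⟨h1, h2, h3⟩ ⟨h4, h5, h6⟩
        refine ⟨th1.mul h1 h4, th1.mul h2 h5, ?_⟩
        simp only [mul_val, W.mul, h1.1, h2.1, h4.2.2, h5.2.2]
        exact abel_aux _ _ h3 h6
      · rintro a b c d ⟨h1, h2, h3⟩ ⟨h4, h5⟩
        rw [h5] at h3
        exact ⟨h2, (add_left_cancel h3).symm⟩
    · refine tc2_of (fun a b c d => th1 a c ∧ th1 b d ∧ a.1.z + d.1.z = b.1.z + c.1.z)
        (fun _ _ h => ⟨h, h, rfl⟩) (fun _ _ _ => ⟨th1.refl _, th1.refl _, add_comm _ _⟩) ?_ ?_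
      · rintro a b c d a' b' c' d' ⟨h1, h2, h3⟩ ⟨h4, h5, h6⟩
        refine ⟨th1.mul h1 h4, th1.mul h2 h5, ?_⟩
        simp only [mul_val, W.mul, h1.1, h2.1, h4.2.2, h5.2.2]
        exact abel_aux' _ _ h3 h6
      · rintro a b c d ⟨h1, h2, h3⟩ ⟨h4, h5⟩
        rw [h5] at h3
        exact ⟨th1.trans (th1.symm h1) (th1.trans h4 h2), (add_left_cancel h3).symm⟩
  refine g2.step ?_ ?_
  · refine tc2_of (fun a b c d => th2 a b ∧ th2 c d ∧ (a = b → c = d))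
      (fun _ _ _ => ⟨th2.refl _, th2.refl _, fun _ => rfl⟩) (fun _ _ h => ⟨h, h, id⟩) ?_ ?_
    · rintro a b c d a' b' c' d' ⟨h1, h2, -⟩ ⟨h4, h5, -⟩
      exact ⟨th2.mul h1 h4, th2.mul h2 h5, fun _ => th2_mul h2 h5⟩
    · rintro a b c d ⟨-, -, h⟩ h'
      exact h h'
  · refine tc2_of (fun a b c d => th2 a c ∧ th2 b d ∧ (a = b → c = d))
      (fun _ _ h => ⟨h, h, fun _ => rfl⟩) (fun _ _ _ => ⟨th2.refl _, th2.refl _, id⟩) ?_ ?_
    · rintro a b c d a' b' c' d' ⟨h1, h2, -⟩ ⟨h4, h5, -⟩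
      refine ⟨th2.mul h1 h4, th2.mul h2 h5, fun h => ?_⟩
      rw [← th2_mul h1 h4, ← th2_mul h2 h5, h]
    · rintro a b c d ⟨-, -, h⟩ h'
      exact h h'

def uu (n : ℕ) : X := ⟨⟨n + 1, 0, 0, 0, false⟩, by simp [W.ok]⟩
def cu (n : ℕ) (q : ℚ) : X := ⟨⟨n + 1, 1, q, 0, false⟩,
  by simp, by simp, fun _ => ⟨0, Nat.zero_le _, by simp⟩⟩
def uc (q : ℚ) : X := ⟨⟨1, 1, q, (q : ℚ), false⟩, by
  refine ⟨by simp, by simp, fun _ => ⟨1, le_rfl, by simp⟩⟩⟩

lemma X_not : ¬ Supernilpotent X := by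
  rintro ⟨d, hd⟩
  have h := sn_of hd
  let q : ℚ := 1 / ((d + 2 : ℕ) : ℚ)
  -- the middle part
  have hmid : ∀ k, k ≤ d → ∃ N ∈ Mats (fun _ : Fin d => (⊤ : Con X)) ⊤, ∀ ε, ∃ t : ℕ,
      ((∀ i, ε i = true) → t = 0) ∧ ((∃ i : Fin d, i.val < k ∧ ε i = false) → 0 < t) ∧
      th2 (N ε false) (cu (k + t * (d + 2)) q) ∧
      th2 (N ε true) (uu (k + t * (d + 2))) := by
    intro k
    induction k with
    | zero =>
      intro _
      refine ⟨_, col_mem (cu 0 q) (uu 0), fun ε => ⟨0, fun _ => rfl, by simp, ?_, ?_⟩⟩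
      · simpa using th2.refl (cu 0 q)
      · simpa using th2.refl (uu 0)
    | succ k ih =>
      intro hk
      obtain ⟨N, hN, hN'⟩ := ih (by omega)
      refine ⟨_, Subsemigroup.mul_mem _ hN (blk_mem ⟨k, hk⟩ (uu (d + 2)) (uu 0)), fun ε => ?_⟩
      obtain ⟨t, h1, h2, h3, h4⟩ := hN' ε
      cases he : ε ⟨k, hk⟩
      · refine ⟨t + 1, fun h => by simp [h] at he, fun _ => by omega, ?_, ?_⟩
        · refine th2.trans (th2.mul h3 (th2.refl _)) ?_
          simp only [he]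
          refine ⟨⟨?_, ?_, ?_⟩, ?_⟩ <;> simp [mul_val, W.mul, uu, cu]
          ring
        · refine th2.trans (th2.mul h4 (th2.refl _)) ?_
          simp only [he]
          refine ⟨⟨?_, ?_, ?_⟩, ?_⟩ <;> simp [mul_val, W.mul, uu, cu]
          ring
      · refine ⟨t, h1, ?_, ?_, ?_⟩
        · rintro ⟨i, hi, hi'⟩
          refine h2 ⟨i, ?_, hi'⟩
          by_contra hc
          have : i = ⟨k, hk⟩ := Fin.ext (by simp; omega)
          rw [this, he] at hi'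
          simp at hi'
        · refine th2.trans (th2.mul h3 (th2.refl _)) ?_
          simp only [he]
          refine ⟨⟨?_, ?_, ?_⟩, ?_⟩ <;> simp [mul_val, W.mul, uu, cu]
          ring
        · refine th2.trans (th2.mul h4 (th2.refl _)) ?_
          simp only [he]
          refine ⟨⟨?_, ?_, ?_⟩, ?_⟩ <;> simp [mul_val, W.mul, uu, cu]
          ring
  obtain ⟨N, hN, hN'⟩ := hmid d le_rfl
  have hq : ∀ t : ℕ, (q : AddCircle (1 : ℚ)) +
      (((((d + t * (d + 2) + 1 : ℕ) : ℚ) * q : ℚ)) : AddCircle (1 : ℚ)) = 0 := by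
    intro t
    rw [← AddCircle.coe_add]
    refine (AddCircle.coe_eq_zero_iff 1).2 ⟨(t + 1 : ℕ), ?_⟩
    simp only [q, zsmul_eq_mul, mul_one]
    push_cast
    field_simp
    ring
  have := h _ (Subsemigroup.mul_mem _ hN (col_mem (uu 0) (uc q))) (fun ε hε => by
    obtain ⟨t, -, h2, h3, h4⟩ := hN' ε
    have ht : 0 < t := h2 (by
      by_contra hc
      push Not at hc
      exact hε (funext fun i => by simpa using hc i i.2))
    change N ε false * uu 0 = N ε true * uc q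
    rw [th2_mul h3 (th2.refl _), th2_mul h4 (th2.refl _)]
    apply Subtype.ext
    simp only [mul_val, W.mul, uu, uc, cu, zero_add, add_zero, mul_zero, AddCircle.coe_zero, hq]
    refine W.ext rfl rfl rfl rfl ?_
    simp only
    rw [Bool.eq_iff_iff, fl_iff, fl_iff]
    simp only [one_ne_zero, and_false, and_true, false_iff]
    rintro ⟨-, -, h, -⟩
    simp only [q, one_div, inv_inj, Nat.cast_inj] at h
    have : 0 < t * (d + 2) := by positivity
    omega)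
  obtain ⟨t, h1, -, h3, h4⟩ := hN' (fun _ => true)
  obtain rfl := h1 fun _ => rfl
  change N _ false * uu 0 = N _ true * uc q at this
  rw [th2_mul h3 (th2.refl _), th2_mul h4 (th2.refl _)] at this
  have h5 := congrArg (fun x : X => x.1.s) this
  simp only [mul_val, W.mul, uu, uc, cu, zero_add, add_zero, mul_zero, AddCircle.coe_zero, hq] at h5
  rw [Bool.eq_iff_iff, fl_iff, fl_iff] at h5
  simp only [one_ne_zero, and_false, and_true, false_iff] at h5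
  exact h5 ⟨by omega, rfl, by simp [q]; ring, rfl⟩

end Pool.Agent.H13.SN
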