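import Pool.Agent.H13.SN0

/-! Cancellation and Ore conditions in supernilpotent semigroups. -/

namespace Pool.Agent.H13.SN

universe u

variable {S : Type u} [Semigroup S]

/-- `Long k x` : `x` is a product of `k + 1` elements. -/
def Long : ℕ → S → Prop
  | 0, _ => True
  | k + 1, x => ∃ a u, Long k a ∧ x = a * u

lemma Long.mul_right' {k : ℕ} {a : S} (h : Long k a) (u : S) : Long (k + 1) (a * u) := ⟨a, u, h, rfl⟩

lemma Long.mul_left' : ∀ {k : ℕ} {a : S}, Long k a → ∀ u : S, Long (k + 1) (u * a)
  | 0, a, _, u => ⟨u, a, trivial, rfl⟩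
  | _ + 1, _, ⟨b, v, hb, rfl⟩, u => ⟨u * b, v, hb.mul_left' u, (mul_assoc _ _ _).symm⟩

lemma Long.pred : ∀ {k : ℕ} {a : S}, Long (k + 1) a → Long k a
  | 0, _, _ => trivial
  | _ + 1, _, ⟨b, v, hb, rfl⟩ => ⟨b, v, hb.pred, rfl⟩

lemma Long.mul_right {k : ℕ} {a : S} (h : Long k a) (u : S) : Long k (a * u) := (h.mul_right' u).pred
lemma Long.mul_left {k : ℕ} {a : S} (h : Long k a) (u : S) : Long k (u * a) := (h.mul_left' u).pred

lemma Long.op : ∀ {k : ℕ} {a : S}, Long k a → Long k (MulOpposite.op a)
  | 0, _, _ => trivial
  | _ + 1, _, ⟨_, v, hb, rfl⟩ => hb.op.mul_left' (MulOpposite.op v)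

lemma exists_long (a : S) : ∀ k, ∃ e : S, Long k e
  | 0 => ⟨a, trivial⟩
  | k + 1 => let ⟨e, he⟩ := exists_long a k; ⟨e * a, he.mul_right' a⟩

theorem SN.cl {m : ℕ} (h : SN (m + 1) S) {w : S} (hw : Long m w) {b x y : S}
    (hb : b * (w * x) = b * (w * y)) : w * x = w * y := by
  have key : ∀ k (hk : k < m + 1) (w : S), Long k w →
      ∃ N ∈ Mats (fun _ : Fin (m + 1) => (⊤ : Con S)) ⊤, ∀ ε c,
        ((∀ j : Fin (m + 1), j.val ≤ k → ε j = true) → N ε c = w) ∧ N ε c = N ε false ∧
        ((∃ j : Fin (m + 1), j.val ≤ k ∧ ε j = false) → N ε c = b * w ∨ ∃ s, N ε c = s * (b * w)) := by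
    intro k
    induction k with
    | zero =>
      intro hk w _
      refine ⟨_, blk_mem ⟨0, hk⟩ (b * w) w, fun ε c => ⟨fun h => if_pos (h ⟨0, hk⟩ le_rfl), rfl, ?_⟩⟩
      rintro ⟨j, hj, hj'⟩
      have : j = ⟨0, hk⟩ := Fin.ext (by simpa using hj)
      subst this
      exact Or.inl (if_neg (by rw [hj']; simp))
    | succ k ih =>
      rintro hk _ ⟨a, u, ha, rfl⟩
      obtain ⟨N, hN, hN'⟩ := ih (by omega) a ha
      refine ⟨_, Subsemigroup.mul_mem _ hN (blk_mem ⟨k + 1, hk⟩ (b * (a * u)) u), fun ε c => ?_⟩
      obtain ⟨h1, h2, h3⟩ := hN' ε c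
      simp only [Pi.mul_apply]
      refine ⟨fun h => ?_, by rw [h2], ?_⟩
      · rw [h1 fun j hj => h j (by omega), h ⟨k + 1, hk⟩ le_rfl]; rfl
      · rintro ⟨j, hj, hj'⟩
        cases he : ε ⟨k + 1, hk⟩
        · exact Or.inr ⟨_, rfl⟩
        · have : j.val ≤ k := by
            by_contra hc
            have : j = ⟨k + 1, hk⟩ := Fin.ext (by simp; omega)
            rw [this, he] at hj'
            simp at hj'
          rcases h3 ⟨j, this, hj'⟩ with h4 | ⟨s, h4⟩
          · exact Or.inl (by rw [h4]; simp [mul_assoc])
          · exact Or.inr ⟨s, by rw [h4]; simp [mul_assoc]⟩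
  obtain ⟨N, hN, hN'⟩ := key m (Nat.lt_succ_self m) w hw
  have := h _ (Subsemigroup.mul_mem _ hN (col_mem x y)) (fun ε hε => by
    have hex : ∃ j : Fin (m + 1), j.val ≤ m ∧ ε j = false := by
      by_contra hc
      push Not at hc
      exact hε (funext fun j => by simpa using hc j (by omega))
    change N ε false * x = N ε true * y
    rw [(hN' ε true).2.1]
    rcases (hN' ε false).2.2 hex with h4 | ⟨s, h4⟩ <;> rw [h4] <;> simp only [mul_assoc, hb])
  change N _ false * x = N _ true * y at this
  rwa [(hN' _ false).1 fun _ _ => rfl, (hN' _ true).1 fun _ _ => rfl] at this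

theorem SN.cr {m : ℕ} (h : SN (m + 1) S) {w : S} (hw : Long m w) {b x y : S}
    (hb : x * w * b = y * w * b) : x * w = y * w :=
  MulOpposite.op_injective (h.op.cl hw.op (b := MulOpposite.op b) (x := MulOpposite.op x)
    (y := MulOpposite.op y) (congrArg MulOpposite.op hb))

/-- Symbols: a block or column generator reading one letter on one side. -/
inductive Sym (d : ℕ)
  | blk (i : Fin d) (e c : Bool)
  | col (e c : Bool)

def Sym.let' {d : ℕ} : Sym d → Bool
  | .blk _ _ c => c
  | .col _ c => c

def Sym.act {d : ℕ} (ε : Fin d → Bool) (k : Bool) : Sym d → Bool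
  | .blk i e _ => ε i == e
  | .col e _ => k == e

def Sym.lift {d : ℕ} (c : Bool) : Sym d → Sym (d + 1)
  | .blk i e _ => .blk i.succ e c
  | .col e _ => .col e c

def word {d : ℕ} (ε : Fin d → Bool) (k : Bool) : List (Sym d) → List Bool
  | [] => []
  | s :: t => if s.act ε k then s.let' :: word ε k t else word ε k t

def go {d : ℕ} : Bool → List (Sym d) → List (Sym (d + 1))
  | _, [] => []
  | p, s :: t =>
    if p = s.let' then s.lift p :: s.lift (!p) :: go p t
    else .blk 0 false p :: s.lift (!p) :: s.lift p :: go (!p) t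

def flips {d : ℕ} : Bool → List (Sym d) → ℕ
  | _, [] => 0
  | p, s :: t => if p = s.let' then flips p t else flips (!p) t + 1

def mu : List Bool → List Bool
  | [] => []
  | c :: t => c :: (!c) :: mu t

def alt : Bool → ℕ → List Bool
  | _, 0 => []
  | p, n + 1 => p :: alt (!p) n

@[simp] lemma act_lift {d : ℕ} (ε : Fin (d + 1) → Bool) (k c : Bool) (s : Sym d) :
    (s.lift c).act ε k = s.act (Fin.tail ε) k := by cases s <;> rfl

@[simp] lemma let_lift {d : ℕ} (c : Bool) (s : Sym d) : (s.lift c).let' = c := by cases s <;> rfl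

lemma word_go_true {d : ℕ} (ε : Fin (d + 1) → Bool) (h : ε 0 = true) (k : Bool) :
    ∀ (t : List (Sym d)) (p : Bool), word ε k (go p t) = mu (word (Fin.tail ε) k t)
  | [], _ => rfl
  | s :: t, p => by
    by_cases hp : p = s.let'
    · cases ha : s.act (Fin.tail ε) k <;> simp [go, hp, word, ha, mu, word_go_true ε h k t]
    · have hp' : s.let' = !p := by cases p <;> simpa using hp
      have hb : (Sym.blk (0 : Fin (d + 1)) false p).act ε k = false := by simp [Sym.act, h]
      cases ha : s.act (Fin.tail ε) k <;>
        simp [go, hp', word, ha, mu, word_go_true ε h k t, hb]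

lemma word_go_false {d : ℕ} (ε : Fin (d + 1) → Bool) (h : ε 0 = false) (k : Bool) :
    ∀ (t : List (Sym d)) (p : Bool),
      word ε k (go p t) = alt p (2 * (word (Fin.tail ε) k t).length + flips p t)
  | [], _ => rfl
  | s :: t, p => by
    have hb : (Sym.blk (0 : Fin (d + 1)) false p).act ε k = true := by simp [Sym.act, h]
    have hl : (Sym.blk (0 : Fin (d + 1)) false p).let' = p := rfl
    by_cases hp : p = s.let'
    · cases ha : s.act (Fin.tail ε) k
      · simp [go, ← hp, word, ha, flips, word_go_false ε h k t]
      · simp only [go, ← hp, word, ha, flips, if_true, act_lift, let_lift, word_go_false ε h k t,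
          List.length_cons]
        rw [show 2 * ((word (Fin.tail ε) k t).length + 1) + flips p t =
          2 * (word (Fin.tail ε) k t).length + flips p t + 1 + 1 by ring]
        simp [alt]
    · cases ha : s.act (Fin.tail ε) k
      · simp only [go, hp, word, ha, flips, if_false, act_lift, hb, if_true, Bool.false_eq_true,
          word_go_false ε h k t, hl]
        rw [← add_assoc]
        simp [alt]
      · simp only [go, hp, word, ha, flips, if_false, act_lift, hb, if_true, let_lift,
          word_go_false ε h k t, List.length_cons]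
        rw [show 2 * ((word (Fin.tail ε) k t).length + 1) + (flips (!p) t + 1) =
          2 * (word (Fin.tail ε) k t).length + flips (!p) t + 1 + 1 + 1 by ring]
        simp [alt, hl]

lemma mu_length : ∀ l, (mu l).length = 2 * l.length
  | [] => rfl
  | c :: t => by simp [mu, mu_length t]; ring

lemma mu_inj : ∀ l l', mu l = mu l' → l = l'
  | [], [], _ => rfl
  | [], _ :: _, h => by simp [mu] at h
  | _ :: _, [], h => by simp [mu] at h
  | c :: t, c' :: t', h => by
    simp only [mu, List.cons.injEq] at h
    rw [h.1, mu_inj t t' h.2.2]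

theorem exists_seq : ∀ d : ℕ, ∃ t : List (Sym d),
    (∀ ε, (word ε false t).length = (word ε true t).length) ∧
    (∀ ε, ε ≠ (fun _ => true) → word ε false t = word ε true t) ∧
    word (fun _ => true) false t ≠ word (fun _ => true) true t
  | 0 => ⟨[.col false false, .col true true], fun _ => rfl,
      fun ε h => absurd (Subsingleton.elim _ _) h, by decide⟩
  | d + 1 => by
    obtain ⟨t, h1, h2, h3⟩ := exists_seq d
    refine ⟨go true t, fun ε => ?_, fun ε hε => ?_, fun h => h3 ?_⟩
    · cases h : ε 0
      · rw [word_go_false ε h, word_go_false ε h, h1]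
      · rw [word_go_true ε h, word_go_true ε h, mu_length, mu_length, h1]
    · cases h : ε 0
      · rw [word_go_false ε h, word_go_false ε h, h1]
      · rw [word_go_true ε h, word_go_true ε h, h2]
        intro h'
        apply hε
        funext i
        refine Fin.cases h (fun j => congrFun h' j) i
    · rw [word_go_true _ rfl, word_go_true _ rfl] at h
      exact mu_inj _ _ h

/-- padded reading of one symbol -/
def piece (N k : ℕ) (act c : Bool) : List Bool :=
  if act then List.replicate (N - k) false ++ c :: List.replicate (k + 1) false else [false]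

def pword {d : ℕ} (N : ℕ) (ε : Fin d → Bool) (c : Bool) : ℕ → List (Sym d) → List Bool
  | _, [] => []
  | k, s :: t => piece N k (s.act ε c) s.let' ++ pword N ε c (k + 1) t

def psi (N : ℕ) : List Bool → List Bool
  | [] => List.replicate N false
  | c :: t => List.replicate N false ++ c :: psi N t

lemma pword_eq {d : ℕ} (N : ℕ) (ε : Fin d → Bool) (c : Bool) : ∀ (t : List (Sym d)) (k : ℕ),
    k + t.length = N → List.replicate k false ++ pword N ε c k t = psi N (word ε c t)
  | [], k, h => by simp at h; simp [pword, word, psi, h]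
  | s :: t, k, h => by
    have ih := pword_eq N ε c t (k + 1) (by simp at h; omega)
    cases ha : s.act ε c
    · simp only [pword, piece, ha, word, Bool.false_eq_true, if_false, ← ih]
      rw [List.replicate_succ']
      simp
    · simp only [pword, piece, ha, word, if_true, psi, ← ih]
      have : N = k + (N - k) := by simp at h; omega
      conv_rhs => rw [this, List.replicate_add]
      simp only [List.append_assoc, List.cons_append]
      rw [← this]

lemma psi_length (N : ℕ) : ∀ l, (psi N l).length = N + l.length * (N + 1)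
  | [] => by simp [psi]
  | c :: t => by simp [psi, psi_length N t]; ring

lemma psi_inj (N : ℕ) : ∀ l l', l.length = l'.length → psi N l = psi N l' → l = l'
  | [], [], _, _ => rfl
  | [], _ :: _, h, _ => by simp at h
  | _ :: _, [], h, _ => by simp at h
  | c :: t, c' :: t', h, h' => by
    simp only [psi, List.append_cancel_left_eq, List.cons.injEq] at h'
    rw [h'.1, psi_inj N t t' (by simpa using h) h'.2]

/-- evaluation of a list of letters followed by `r` -/
def ev (a b : S) (l : List Bool) (r : S) : S := l.foldr (fun c s => (if c then b else a) * s) r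

lemma ev_mul (a b : S) (r s : S) : ∀ l, ev a b l r * s = ev a b l (r * s)
  | [] => rfl
  | c :: l => by
    change _ * ev a b l r * s = _ * ev a b l (r * s)
    rw [mul_assoc, ev_mul a b r s l]

lemma exists_piece (a b : S) (N k : ℕ) (act c : Bool) :
    ∃ s : S, ∀ r, s * r = ev a b (piece N k act c) r := by
  cases act
  · exact ⟨a, fun _ => rfl⟩
  · refine ⟨ev a b (List.replicate (N - k) false ++ c :: List.replicate k false) a, fun r => ?_⟩
    rw [ev_mul]
    simp only [piece, if_true, ev, List.foldr_append, List.foldr_cons, List.replicate_succ',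
      List.foldr_nil, Bool.false_eq_true, if_false]

theorem SN.ore {m : ℕ} (h : SN (m + 1) S) {w : S} (hw : Long m w) (y y' : S) :
    ∃ s t, w * y * s = w * y' * t := by
  by_contra hc
  push Not at hc
  set a := w * y with ha
  set b := w * y' with hb
  have hform : ∀ l, ∃ x, ev a b l a = w * x := by
    intro l
    cases l with
    | nil => exact ⟨y, rfl⟩
    | cons c l =>
      cases c
      · exact ⟨y * ev a b l a, by rw [← mul_assoc]; rfl⟩
      · exact ⟨y' * ev a b l a, by rw [← mul_assoc]; rfl⟩
  have hinj : ∀ l l' : List Bool, l.length = l'.length → ev a b l a = ev a b l' a → l = l' := by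
    intro l
    induction l with
    | nil => intro l' hl _; exact (List.length_eq_zero_iff.1 hl.symm).symm
    | cons c l ih =>
      intro l' hl he
      cases l' with
      | nil => simp at hl
      | cons c' l' =>
        have he' : (if c then b else a) * ev a b l a = (if c' then b else a) * ev a b l' a := he
        have hcc : c = c' := by
          cases c <;> cases c'
          · rfl
          · exact absurd he' (hc _ _)
          · exact absurd he'.symm (hc _ _)
          · rfl
        subst hcc
        obtain ⟨x, hx⟩ := hform l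
        obtain ⟨x', hx'⟩ := hform l'
        rw [ih l' (by simpa using hl)]
        rw [hx, hx'] at he' ⊢
        exact h.cl hw he'
  obtain ⟨t, h1, h2, h3⟩ := exists_seq (m + 1)
  have key : ∀ (u : List (Sym (m + 1))) (k : ℕ),
      ∃ N ∈ Mats (fun _ : Fin (m + 1) => (⊤ : Con S)) ⊤,
        ∀ ε c, N ε c = ev a b (pword t.length ε c k u) a := by
    intro u
    induction u with
    | nil => exact fun k => ⟨_, col_mem a a, fun ε c => by simp [pword, ev]⟩
    | cons s u ih =>
      intro k
      obtain ⟨N, hN, hN'⟩ := ih (k + 1)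
      choose f hf using fun act => exists_piece a b t.length k act s.let'
      have : (fun ε c => f (s.act ε c)) ∈ Mats (fun _ : Fin (m + 1) => (⊤ : Con S)) ⊤ := by
        cases s with
        | blk i e c =>
          convert blk_mem i (f (false == e)) (f (true == e)) using 3 with ε
          simp only [Sym.act]
          cases ε i <;> rfl
        | col e c =>
          convert col_mem (d := m + 1) (f (false == e)) (f (true == e)) using 3 with ε c
          simp only [Sym.act]
          cases c <;> rfl
      refine ⟨_, Subsemigroup.mul_mem _ this hN, fun ε c => ?_⟩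
      simp only [Pi.mul_apply, hN', hf, pword, ev, List.foldr_append]
  obtain ⟨N, hN, hN'⟩ := key t 0
  have hp : ∀ ε c, pword t.length ε c 0 t = psi t.length (word ε c t) := fun ε c => by
    simpa using pword_eq t.length ε c t 0 (by simp)
  have := h N hN fun ε hε => by rw [hN', hN', hp, hp, h2 ε hε]
  rw [hN', hN', hp, hp] at this
  exact h3 (psi_inj _ _ _ (h1 _) (hinj _ _ (by rw [psi_length, psi_length, h1]) this))

theorem SN.ore' {m : ℕ} (h : SN (m + 1) S) {w : S} (hw : Long m w) (y y' : S) :
    ∃ s t, s * (y * w) = t * (y' * w) := by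
  obtain ⟨s, t, hst⟩ := h.op.ore hw.op (MulOpposite.op y) (MulOpposite.op y')
  exact ⟨s.unop, t.unop, congrArg MulOpposite.unop hst⟩

end Pool.Agent.H13.SN
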