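import Pool.Agent.H13.SN2

/-! The nilpotent group attached to a supernilpotent semigroup. -/

namespace Pool.Agent.H13.SN

universe u

open OreLocalization

variable {S : Type u} [Semigroup S]

def sand (e : S) : Subsemigroup S where
  carrier := {s | ∃ x, s = e * x * e}
  mul_mem' := by
    rintro _ _ ⟨x, rfl⟩ ⟨y, rfl⟩
    exact ⟨x * e * e * y, by simp only [mul_assoc]⟩

theorem exists_group {m : ℕ} (h : SN (m + 1) S) {e : S} (he : Long m e) :
    ∃ (G : Type u) (_ : Group G) (ι : S → G), (∀ x y, ι x * ι y = ι (x * e * e * y)) ∧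
      (∀ x y, ι x = ι y ↔ e * x * e = e * y * e) ∧ ∀ g, ∃ x y, g = (ι x)⁻¹ * ι y := by
  have cr : ∀ a b c : sand e, a * c = b * c → a = b := by
    rintro ⟨_, x, rfl⟩ ⟨_, y, rfl⟩ ⟨c, hc⟩ hh
    exact Subtype.ext (h.cr he (congrArg Subtype.val hh))
  have cl : ∀ a b c : sand e, c * a = c * b → a = b := by
    rintro ⟨_, x, rfl⟩ ⟨_, y, rfl⟩ ⟨c, hc⟩ hh
    apply Subtype.ext
    have hh' : c * (e * x * e) = c * (e * y * e) := congrArg Subtype.val hh
    simp only [mul_assoc] at hh' ⊢
    exact h.cl he hh'
  let j : S → sand e := fun x => ⟨e * x * e, x, rfl⟩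
  have ore : ∀ r s : sand e, ∃ p q : sand e, p * r = q * s := by
    rintro ⟨_, x, rfl⟩ ⟨_, y, rfl⟩
    obtain ⟨p, q, hpq⟩ := h.ore' he (e * (e * x)) (e * (e * y))
    refine ⟨j p, j q, Subtype.ext ?_⟩
    change e * p * e * (e * x * e) = e * q * e * (e * y * e)
    simp only [mul_assoc] at hpq ⊢
    rw [hpq]
  have hO : Nonempty (OreSet (⊤ : Submonoid (WithOne (sand e)))) := by
    rw [nonempty_oreSet_iff]
    constructor
    · rintro r1 r2 ⟨s, hs⟩ hh
      replace hh : r1 * s = r2 * s := hh
      clear hs
      induction s using WithOne.recOneCoe with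
      | one => exact ⟨1, by simpa using hh⟩
      | coe s =>
        refine ⟨⟨s, trivial⟩, ?_⟩
        induction r1 using WithOne.recOneCoe with
        | one =>
          induction r2 using WithOne.recOneCoe with
          | one => rfl
          | coe r2 =>
            rw [one_mul, ← WithOne.coe_mul, WithOne.coe_inj] at hh
            simp only [mul_one, ← WithOne.coe_mul, WithOne.coe_inj]
            exact cr _ _ s (by rw [mul_assoc, ← hh])
        | coe r1 =>
          induction r2 using WithOne.recOneCoe with
          | one =>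
            rw [one_mul, ← WithOne.coe_mul, WithOne.coe_inj] at hh
            simp only [mul_one, ← WithOne.coe_mul, WithOne.coe_inj]
            exact cr _ _ s (by rw [mul_assoc, hh])
          | coe r2 =>
            simp only [← WithOne.coe_mul, WithOne.coe_inj] at hh ⊢
            rw [cr _ _ _ hh]
    · rintro r ⟨s, hs⟩
      change ∃ (r' : WithOne (sand e)) (s' : (⊤ : Submonoid (WithOne (sand e)))), s' * r = r' * s
      clear hs
      induction r using WithOne.recOneCoe with
      | one => exact ⟨1, ⟨s, trivial⟩, by simp⟩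
      | coe r =>
        induction s using WithOne.recOneCoe with
        | one => exact ⟨r, 1, by simp⟩
        | coe s =>
          obtain ⟨p, q, hpq⟩ := ore r s
          exact ⟨q, ⟨p, trivial⟩, by simp only [← WithOne.coe_mul, hpq]⟩
  obtain ⟨hO⟩ := hO
  let G := OreLocalization (⊤ : Submonoid (WithOne (sand e))) (WithOne (sand e))
  have hinv : ∀ r s : WithOne (sand e), (r /ₒ (⟨s, trivial⟩ : (⊤ : Submonoid _)) : G) *
      (s /ₒ (⟨r, trivial⟩ : (⊤ : Submonoid _))) = 1 := fun r s =>
    OreLocalization.mul_inv (S := ⊤) ⟨r, trivial⟩ ⟨s, trivial⟩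
  have hu : ∀ g : G, IsUnit g := by
    intro g
    induction g using OreLocalization.ind with
    | c r s => exact ⟨⟨_, _, hinv r s.1, hinv s.1 r⟩, rfl⟩
  let gr : Group G := groupOfIsUnit hu
  let ι : S → G := fun x => numeratorHom ((j x : sand e) : WithOne (sand e))
  have hmul : ∀ x y, ι x * ι y = ι (x * e * e * y) := by
    intro x y
    simp only [ι, ← map_mul, ← WithOne.coe_mul]
    congr 2
    apply Subtype.ext
    change e * x * e * (e * y * e) = e * (x * e * e * y) * e
    simp only [mul_assoc]
  refine ⟨G, gr, ι, hmul, fun x y => ⟨fun hh => ?_, fun hh => ?_⟩, fun g => ?_⟩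
  · obtain ⟨⟨u, hu⟩, v, h1, h2⟩ := oreDiv_eq_iff.1 hh
    replace h2 : u = v := by simpa using h2
    subst h2
    replace h1 : u * (j y : sand e) = u * (j x : sand e) := h1
    clear hu
    induction u using WithOne.recOneCoe with
    | one =>
      simp only [one_mul, WithOne.coe_inj] at h1
      exact (congrArg Subtype.val h1).symm
    | coe u =>
      simp only [← WithOne.coe_mul, WithOne.coe_inj] at h1
      exact (congrArg Subtype.val (cl _ _ _ h1)).symm
  · simp only [ι]
    congr 2
    exact Subtype.ext hh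
  · induction g using OreLocalization.ind with
    | c r s =>
      have key : ∀ r : WithOne (sand e), ∃ x, ι x = ι e * numeratorHom r := by
        intro r
        induction r using WithOne.recOneCoe with
        | one => exact ⟨e, by rw [map_one, mul_one]⟩
        | coe r =>
          obtain ⟨_, x, rfl⟩ := r
          exact ⟨_, (hmul e x).symm⟩
      obtain ⟨x, hx⟩ := key s.1
      obtain ⟨y, hy⟩ := key r
      refine ⟨x, y, ?_⟩
      rw [hx, hy, eq_inv_mul_iff_mul_eq, mul_assoc]
      congr 1
      exact OreLocalization.mul_cancel (r := r) (s := s) (t := 1)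

/-- generators of the cube group -/
def ggens (d : ℕ) (G : Type u) [Group G] : Set (Mat d G) :=
  {x | ∃ i g, x = fun ε _ => if ε i then g else 1} ∪ {x | ∃ g, x = fun _ c => if c then g else 1}

theorem group_nil {d : ℕ} (h : SN d S) {e : S} {G : Type u} [Group G] (ι : S → G)
    (hmul : ∀ x y, ι x * ι y = ι (x * e * e * y))
    (hinj : ∀ x y, ι x = ι y ↔ e * x * e = e * y * e) (hfr : ∀ g, ∃ x y, g = (ι x)⁻¹ * ι y) :
    (⊤ : Subgroup G).lowerCentralSeries d = ⊥ := by
  have key : ∀ F ∈ Submonoid.closure (ggens d G),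
      ∃ N ∈ Mats (fun _ : Fin d => (⊤ : Con S)) ⊤, ∃ U : S, ∀ ε c,
        ∃ x, N ε c = e * x * e ∧ ι x = ι U * F ε c := by
    intro F hF
    induction hF using Submonoid.closure_induction_left with
    | one => exact ⟨_, col_mem (e * e * e) (e * e * e), e, fun ε c => ⟨e, by simp, by simp⟩⟩
    | mul_left f hf F _ ih =>
      obtain ⟨N, hN, U, hU⟩ := ih
      have step : ∀ (g : G) (p : (Fin d → Bool) → Bool → Bool),
          (∀ a b : S, (fun ε c => if p ε c then b else a) ∈ Mats (fun _ : Fin d => (⊤ : Con S)) ⊤) →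
          ∃ N ∈ Mats (fun _ : Fin d => (⊤ : Con S)) ⊤, ∃ U : S, ∀ ε c,
            ∃ x, N ε c = e * x * e ∧ ι x = ι U * ((if p ε c then g else 1) * F ε c) := by
        intro g p hp
        obtain ⟨u, v, huv⟩ := hfr (ι U * g * (ι U)⁻¹)
        refine ⟨_, Subsemigroup.mul_mem _ (hp (e * u * e) (e * v * e)) hN, u * e * e * U,
          fun ε c => ?_⟩
        obtain ⟨x, hx, hx'⟩ := hU ε c
        simp only [Pi.mul_apply, hx]
        cases p ε c
        · refine ⟨u * e * e * x, by simp [mul_assoc], ?_⟩
          rw [← hmul, ← hmul, hx']; simp [mul_assoc]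
        · refine ⟨v * e * e * x, by simp [mul_assoc], ?_⟩
          have : ι v = ι u * (ι U * g * (ι U)⁻¹) := by rw [huv]; group
          rw [← hmul, ← hmul, hx', this]; simp [mul_assoc]
      rcases hf with ⟨i, g, rfl⟩ | ⟨g, rfl⟩
      · exact step g (fun ε _ => ε i) (blk_mem i)
      · exact step g (fun _ c => c) col_mem
  have hinv : ∀ F ∈ Submonoid.closure (ggens d G), F⁻¹ ∈ Submonoid.closure (ggens d G) := by
    intro F hF
    induction hF using Submonoid.closure_induction with
    | mem f hf =>
      apply Submonoid.subset_closure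
      rcases hf with ⟨i, g, rfl⟩ | ⟨g, rfl⟩
      · exact Or.inl ⟨i, g⁻¹, by funext ε c; simp only [Pi.inv_apply]; split_ifs <;> simp⟩
      · exact Or.inr ⟨g⁻¹, by funext ε c; simp only [Pi.inv_apply]; split_ifs <;> simp⟩
    | one => simpa using Submonoid.one_mem _
    | mul x y _ _ hx hy => rw [mul_inv_rev]; exact Submonoid.mul_mem _ hy hx
  classical
  let on : ℕ → (Fin d → Bool) → Bool → Prop := fun k ε c =>
    c = true ∧ ∀ j : Fin d, j.val < k → ε j = true
  let A : ℕ → Subgroup G := fun k =>
    { carrier := {g | (fun ε c => if on k ε c then g else 1) ∈ Submonoid.closure (ggens d G)}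
      mul_mem' := fun {a b} ha hb => by
        simp only [Set.mem_ofPred_eq] at ha hb ⊢
        convert Submonoid.mul_mem _ ha hb using 1
        funext ε c
        simp only [Pi.mul_apply]
        split_ifs <;> simp
      one_mem' := by
        simp only [Set.mem_ofPred_eq, ite_self]
        exact Submonoid.one_mem _
      inv_mem' := fun {a} ha => by
        simp only [Set.mem_ofPred_eq] at ha ⊢
        convert hinv _ ha using 1
        funext ε c
        simp only [Pi.inv_apply]
        split_ifs <;> simp }
  have hA : ∀ k, k ≤ d → (⊤ : Subgroup G).lowerCentralSeries k ≤ A k := by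
    intro k
    induction k with
    | zero =>
      intro _ g _
      exact Submonoid.subset_closure (Or.inr ⟨g, by funext ε c; simp [on]⟩)
    | succ k ih =>
      intro hk
      rw [Subgroup.lowerCentralSeries_succ, Subgroup.commutator_le]
      intro g hg h' _
      have h1 : (fun ε c => if on k ε c then g else 1 : Mat d G) ∈ Submonoid.closure (ggens d G) :=
        ih (by omega) hg
      have h2 : (fun ε _ => if ε ⟨k, hk⟩ then h' else 1 : Mat d G) ∈ Submonoid.closure (ggens d G) :=
        Submonoid.subset_closure (Or.inl ⟨_, _, rfl⟩)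
      have h3 := Submonoid.mul_mem _ (Submonoid.mul_mem _ (Submonoid.mul_mem _ h1 h2) (hinv _ h1))
        (hinv _ h2)
      change _ ∈ Submonoid.closure _
      convert h3 using 1
      funext ε c
      simp only [Pi.mul_apply, Pi.inv_apply]
      have : on (k + 1) ε c ↔ on k ε c ∧ ε ⟨k, hk⟩ = true := by
        constructor
        · rintro ⟨a, b⟩
          exact ⟨⟨a, fun j hj => b j (by omega)⟩, b _ (by simp)⟩
        · rintro ⟨⟨a, b⟩, c'⟩
          refine ⟨a, fun j hj => ?_⟩
          by_cases hjk : j.val < k
          · exact b j hjk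
          · have : j = ⟨k, hk⟩ := Fin.ext (by simp; omega)
            rw [this]; exact c'
      by_cases a : on k ε c <;> by_cases b : ε ⟨k, hk⟩ = true <;>
        simp [this, a, b, commutatorElement_def]
  rw [eq_bot_iff]
  intro g hg
  obtain ⟨N, hN, U, hU⟩ := key _ (hA d le_rfl hg)
  have := h N hN fun ε hε => by
    obtain ⟨x, hx, hx'⟩ := hU ε false
    obtain ⟨y, hy, hy'⟩ := hU ε true
    rw [hx, hy, ← hinj, hx', hy', if_neg (by simp [on]), if_neg]
    rintro ⟨-, h'⟩
    exact hε (funext fun j => h' j j.2)
  obtain ⟨x, hx, hx'⟩ := hU (fun _ => true) false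
  obtain ⟨y, hy, hy'⟩ := hU (fun _ => true) true
  rw [hx, hy, ← hinj, hx', hy', if_neg (by simp [on]), if_pos (by simp [on])] at this
  exact (mul_left_cancel this).symm

end Pool.Agent.H13.SN
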