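import Pool.Agent.H13.SN3

/-! Supernilpotent semigroups are left and right nilpotent. -/

namespace Pool.Agent.H13.SN

universe u

variable {S : Type u} [Semigroup S]

def mkCon (r : S → S → Prop) (h1 : ∀ a, r a a) (h2 : ∀ {a b}, r a b → r b a)
    (h3 : ∀ {a b c}, r a b → r b c → r a c) (hl : ∀ {a b} c, r a b → r (c * a) (c * b))
    (hr : ∀ {a b} c, r a b → r (a * c) (b * c)) : Con S where
  r := r
  iseqv := ⟨h1, h2, h3⟩
  mul' := fun hab hcd => h3 (hr _ hab) (hl _ hcd)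

lemma cl' (θ : Con S) {a b : S} (c : S) (h : θ a b) : θ (c * a) (c * b) := θ.mul (θ.refl c) h
lemma cr' (θ : Con S) {a b : S} (c : S) (h : θ a b) : θ (a * c) (b * c) := θ.mul h (θ.refl c)

lemma Good.inf {θ θ' : Con S} (h : Good θ) (h' : Good θ') : Good (θ ⊓ θ') := by
  have hl : Antitone (leftS S) := antitone_nat_of_succ_le fun n => sInf_le
    (tc2_of (fun _ _ c d => leftS S n c d) (fun _ b _ => (leftS S n).refl b) (fun _ _ h => h)
      (fun _ _ _ _ _ _ _ _ h h' => (leftS S n).mul h h') fun _ _ _ _ h _ => h)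
  have hr : Antitone (rightS S) := antitone_nat_of_succ_le fun n => sInf_le
    (tc2_of (fun a b c d => rightS S n a c ∧ rightS S n b d) (fun _ _ h => ⟨h, h⟩)
      (fun c d _ => ⟨(rightS S n).refl c, (rightS S n).refl d⟩)
      (fun _ _ _ _ _ _ _ _ h h' => ⟨(rightS S n).mul h.1 h'.1, (rightS S n).mul h.2 h'.2⟩)
      fun _ _ _ _ h h' => (rightS S n).trans ((rightS S n).symm h.1) ((rightS S n).trans h' h.2))
  obtain ⟨n, h1, h2⟩ := h
  obtain ⟨n', h1', h2'⟩ := h'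
  exact ⟨max n n', le_inf ((hl (le_max_left _ _)).trans h1) ((hl (le_max_right _ _)).trans h1'),
    le_inf ((hr (le_max_left _ _)).trans h2) ((hr (le_max_right _ _)).trans h2')⟩

/-- Rees congruence of the ideal of products of `k + 1` elements. -/
def rees (k : ℕ) : Con S :=
  mkCon (fun a b => a = b ∨ (Long k a ∧ Long k b)) (fun _ => Or.inl rfl)
    (fun h => h.imp Eq.symm And.symm)
    (by
      rintro a b c (rfl | h) (rfl | h')
      exacts [Or.inl rfl, Or.inr h', Or.inr h, Or.inr ⟨h.1, h'.2⟩])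
    (fun c h => h.imp (congrArg _) fun h => ⟨h.1.mul_left c, h.2.mul_left c⟩)
    (fun c h => h.imp (congrArg (· * c)) fun h => ⟨h.1.mul_right c, h.2.mul_right c⟩)

lemma good_rees : ∀ k, Good (rees k : Con S)
  | 0 => good_top.mono fun _ _ _ => Or.inr ⟨trivial, trivial⟩
  | k + 1 => by
    refine (good_rees k).step ?_ ?_
    · refine tc2_of (fun a b c d => (c = d ∨ (Long k c ∧ Long k d)) ∧
        ((a = c ∧ b = d) ∨ rees (k + 1) c d)) (fun a b _ => ⟨Or.inl rfl, Or.inr (Or.inl rfl)⟩)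
        (fun c d h => ⟨h, Or.inl ⟨rfl, rfl⟩⟩) ?_ ?_
      · rintro a b c d a' b' c' d' ⟨h1, -⟩ ⟨h2, -⟩
        have : rees (k + 1) (c * c') (d * d') := by
          rcases h1 with rfl | h1
          · exact h2.imp (congrArg _) fun h => ⟨h.1.mul_left' _, h.2.mul_left' _⟩
          · exact Or.inr ⟨h1.1.mul_right' _, h1.2.mul_right' _⟩
        exact ⟨this.imp id fun h => ⟨h.1.pred, h.2.pred⟩, Or.inr this⟩
      · rintro a b c d ⟨-, ⟨rfl, rfl⟩ | h⟩ h'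
        exacts [h', h]
    · refine tc2_of (fun a b c d => rees k a c ∧ rees k b d ∧
        ((a = c ∧ b = d) ∨ (Long k c ∧ Long k d ∧ rees (k + 1) c d)))
        (fun a b h => ⟨h, h, ?_⟩)
        (fun c d _ => ⟨Or.inl rfl, Or.inl rfl, Or.inl ⟨rfl, rfl⟩⟩) ?_ ?_
      · rcases h with rfl | h
        exacts [Or.inl ⟨rfl, rfl⟩, Or.inr ⟨h.2, h.2, Or.inl rfl⟩]
      · rintro a b c d a' b' c' d' ⟨h1, h2, h3⟩ ⟨h1', h2', h3'⟩
        refine ⟨(rees k).mul h1 h1', (rees k).mul h2 h2', ?_⟩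
        rcases h3 with ⟨rfl, rfl⟩ | h3
        · rcases h3' with ⟨rfl, rfl⟩ | h3'
          · exact Or.inl ⟨rfl, rfl⟩
          · exact Or.inr ⟨h3'.1.mul_left _, h3'.2.1.mul_left _,
              Or.inr ⟨h3'.1.mul_left' _, h3'.2.1.mul_left' _⟩⟩
        · exact Or.inr ⟨h3.1.mul_right _, h3.2.1.mul_right _,
            Or.inr ⟨h3.1.mul_right' _, h3.2.1.mul_right' _⟩⟩
      · rintro a b c d ⟨-, -, ⟨rfl, rfl⟩ | h⟩ h'
        exacts [h', h.2.2]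

lemma Good.stepL {m : ℕ} {θ θ' : Con S} (h : Good θ') (h1 : θ' ≤ rees m)
    (h2 : ∀ c x, Long m x → θ (c * x) x) (h3 : ∀ a b y, θ' a b → θ (a * y) (b * y)) : Good θ := by
  refine h.step ?_ ?_
  · refine tc2_of (fun a b c d => θ' c d ∧ (θ c d ∨
      (Long m a ∧ Long m b ∧ Long m c ∧ Long m d ∧ θ a c ∧ θ b d)))
      (fun a b _ => ⟨θ'.refl b, Or.inl (θ.refl b)⟩) (fun c d h => ⟨h, ?_⟩) ?_ ?_
    · rcases h1 h with rfl | hl
      exacts [Or.inl (θ.refl _), Or.inr ⟨hl.1, hl.2, hl.1, hl.2, θ.refl _, θ.refl _⟩]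
    · rintro a b c d a' b' c' d' ⟨g1, -⟩ ⟨g2, g3 | ⟨la, lb, lc, ld, g3, g4⟩⟩
      · exact ⟨θ'.mul g1 g2, Or.inl (θ.trans (h3 _ _ _ g1) (cl' θ _ g3))⟩
      · exact ⟨θ'.mul g1 g2, Or.inr ⟨la.mul_left _, lb.mul_left _, lc.mul_left _, ld.mul_left _,
          θ.trans (h2 _ _ la) (θ.trans g3 (θ.symm (h2 _ _ lc))),
          θ.trans (h2 _ _ lb) (θ.trans g4 (θ.symm (h2 _ _ ld)))⟩⟩
    · rintro a b c d ⟨-, g | ⟨-, -, -, -, g3, g4⟩⟩ h'
      exacts [g, θ.trans (θ.symm g3) (θ.trans h' g4)]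
  · refine tc2_of (fun a b c d => θ' a c ∧ θ' b d ∧ ((θ a c ∧ θ b d) ∨
      (Long m c ∧ Long m d ∧ θ c d)))
      (fun a b h => ⟨h, h, ?_⟩)
      (fun c d _ => ⟨θ'.refl _, θ'.refl _, Or.inl ⟨θ.refl _, θ.refl _⟩⟩) ?_ ?_
    · rcases h1 h with rfl | hl
      exacts [Or.inl ⟨θ.refl _, θ.refl _⟩, Or.inr ⟨hl.2, hl.2, θ.refl _⟩]
    · rintro a b c d a' b' c' d' ⟨g1, g2, -⟩ ⟨g1', g2', ⟨g3, g4⟩ | ⟨lc, ld, g3⟩⟩
      · exact ⟨θ'.mul g1 g1', θ'.mul g2 g2', Or.inl ⟨θ.trans (h3 _ _ _ g1) (cl' θ _ g3),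
          θ.trans (h3 _ _ _ g2) (cl' θ _ g4)⟩⟩
      · exact ⟨θ'.mul g1 g1', θ'.mul g2 g2', Or.inr ⟨lc.mul_left _, ld.mul_left _,
          θ.trans (h2 _ _ lc) (θ.trans g3 (θ.symm (h2 _ _ ld)))⟩⟩
    · rintro a b c d ⟨-, -, ⟨g3, g4⟩ | g⟩ h'
      exacts [θ.trans (θ.symm g3) (θ.trans h' g4), g.2.2]

lemma Good.stepR {m : ℕ} {θ θ' : Con S} (h : Good θ') (h1 : θ' ≤ rees m)
    (h2 : ∀ c x, Long m x → θ (x * c) x) (h3 : ∀ a b y, θ' a b → θ (y * a) (y * b)) : Good θ := by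
  refine h.step ?_ ?_
  · refine tc2_of (fun a b c d => θ' c d ∧ (θ c d ∨
      (Long m a ∧ Long m b ∧ Long m c ∧ Long m d ∧ θ a c ∧ θ b d)))
      (fun a b _ => ⟨θ'.refl b, Or.inl (θ.refl b)⟩) (fun c d h => ⟨h, ?_⟩) ?_ ?_
    · rcases h1 h with rfl | hl
      exacts [Or.inl (θ.refl _), Or.inr ⟨hl.1, hl.2, hl.1, hl.2, θ.refl _, θ.refl _⟩]
    · rintro a b c d a' b' c' d' ⟨g2, g3 | ⟨la, lb, lc, ld, g3, g4⟩⟩ ⟨g1, -⟩
      · exact ⟨θ'.mul g2 g1, Or.inl (θ.trans (h3 _ _ _ g1) (cr' θ _ g3))⟩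
      · exact ⟨θ'.mul g2 g1, Or.inr ⟨la.mul_right _, lb.mul_right _, lc.mul_right _,
          ld.mul_right _, θ.trans (h2 _ _ la) (θ.trans g3 (θ.symm (h2 _ _ lc))),
          θ.trans (h2 _ _ lb) (θ.trans g4 (θ.symm (h2 _ _ ld)))⟩⟩
    · rintro a b c d ⟨-, g | ⟨-, -, -, -, g3, g4⟩⟩ h'
      exacts [g, θ.trans (θ.symm g3) (θ.trans h' g4)]
  · refine tc2_of (fun a b c d => θ' a c ∧ θ' b d ∧ ((θ a c ∧ θ b d) ∨
      (Long m c ∧ Long m d ∧ θ c d)))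
      (fun a b h => ⟨h, h, ?_⟩)
      (fun c d _ => ⟨θ'.refl _, θ'.refl _, Or.inl ⟨θ.refl _, θ.refl _⟩⟩) ?_ ?_
    · rcases h1 h with rfl | hl
      exacts [Or.inl ⟨θ.refl _, θ.refl _⟩, Or.inr ⟨hl.2, hl.2, θ.refl _⟩]
    · rintro a b c d a' b' c' d' ⟨g1', g2', ⟨g3, g4⟩ | ⟨lc, ld, g3⟩⟩ ⟨g1, g2, -⟩
      · exact ⟨θ'.mul g1' g1, θ'.mul g2' g2, Or.inl ⟨θ.trans (h3 _ _ _ g1) (cr' θ _ g3),
          θ.trans (h3 _ _ _ g2) (cr' θ _ g4)⟩⟩
      · exact ⟨θ'.mul g1' g1, θ'.mul g2' g2, Or.inr ⟨lc.mul_right _, ld.mul_right _,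
          θ.trans (h2 _ _ lc) (θ.trans g3 (θ.symm (h2 _ _ ld)))⟩⟩
    · rintro a b c d ⟨-, -, ⟨g3, g4⟩ | g⟩ h'
      exacts [θ.trans (θ.symm g3) (θ.trans h' g4), g.2.2]

lemma Good.descL {m : ℕ} {θ : Con S} (h2 : ∀ c x, Long m x → θ (c * x) x)
    (h3 : ∀ a b q, Long m q → θ (a * q) (b * q)) : Good θ := by
  let T : ℕ → Con S := fun j =>
    mkCon (fun a b => rees m a b ∧ ∀ q, Long j q → θ (a * q) (b * q))
      (fun a => ⟨(rees m).refl a, fun _ _ => θ.refl _⟩)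
      (fun h => ⟨(rees m).symm h.1, fun q hq => θ.symm (h.2 q hq)⟩)
      (fun h h' => ⟨(rees m).trans h.1 h'.1, fun q hq => θ.trans (h.2 q hq) (h'.2 q hq)⟩)
      (fun c h => ⟨cl' _ c h.1, fun q hq => by
        rw [mul_assoc, mul_assoc]; exact cl' θ c (h.2 q hq)⟩)
      (fun c h => ⟨cr' _ c h.1, fun q hq => by
        rw [mul_assoc, mul_assoc]; exact h.2 _ (hq.mul_left c)⟩)
  have key : ∀ j, Good (T j) → Good θ := by
    intro j
    induction j with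
    | zero => exact fun h => h.stepL (fun _ _ h => h.1) h2 fun a b y h => h.2 y trivial
    | succ j ih =>
      refine fun h => ih (h.stepL (fun _ _ h => h.1) (fun c x hx => ⟨Or.inr ⟨hx.mul_left c, hx⟩,
        fun q _ => ?_⟩) fun a b y h => ⟨cr' _ y h.1, fun q hq => ?_⟩)
      · rw [mul_assoc]; exact h2 _ _ (hx.mul_right q)
      · rw [mul_assoc, mul_assoc]; exact h.2 _ (hq.mul_left' y)
  exact key m ((good_rees m).mono fun a b h => ⟨h, h3 a b⟩)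

lemma Good.descR {m : ℕ} {θ : Con S} (h2 : ∀ c x, Long m x → θ (x * c) x)
    (h3 : ∀ a b q, Long m q → θ (q * a) (q * b)) : Good θ := by
  let T : ℕ → Con S := fun j =>
    mkCon (fun a b => rees m a b ∧ ∀ q, Long j q → θ (q * a) (q * b))
      (fun a => ⟨(rees m).refl a, fun _ _ => θ.refl _⟩)
      (fun h => ⟨(rees m).symm h.1, fun q hq => θ.symm (h.2 q hq)⟩)
      (fun h h' => ⟨(rees m).trans h.1 h'.1, fun q hq => θ.trans (h.2 q hq) (h'.2 q hq)⟩)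
      (fun c h => ⟨cl' _ c h.1, fun q hq => by
        rw [← mul_assoc, ← mul_assoc]; exact h.2 _ (hq.mul_right c)⟩)
      (fun c h => ⟨cr' _ c h.1, fun q hq => by
        rw [← mul_assoc, ← mul_assoc]; exact cr' θ c (h.2 q hq)⟩)
  have key : ∀ j, Good (T j) → Good θ := by
    intro j
    induction j with
    | zero => exact fun h => h.stepR (fun _ _ h => h.1) h2 fun a b y h => h.2 y trivial
    | succ j ih =>
      refine fun h => ih (h.stepR (fun _ _ h => h.1) (fun c x hx => ⟨Or.inr ⟨hx.mul_right c, hx⟩,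
        fun q _ => ?_⟩) fun a b y h => ⟨cl' _ y h.1, fun q hq => ?_⟩)
      · rw [← mul_assoc]; exact h2 _ _ (hx.mul_left q)
      · rw [← mul_assoc, ← mul_assoc]; exact h.2 _ (hq.mul_right' y)
  exact key m ((good_rees m).mono fun a b h => ⟨h, h3 a b⟩)

lemma Good.stepG {θ' : Con S} (h : Good θ') {Q : Type u} [Group Q] (f : S → Q)
    (hf : ∀ a b a' b', θ' a b → θ' a' b' →
      f (a * a') * (f (b * b'))⁻¹ = f a * (f b)⁻¹ * (f a' * (f b')⁻¹)) :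
    ∃ θ : Con S, Good θ ∧ ∀ a b, θ a b → θ' a b ∧ f a = f b := by
  let θ : Con S :=
    { r := fun a b => θ' a b ∧ f a = f b
      iseqv := ⟨fun a => ⟨θ'.refl a, rfl⟩, fun h => ⟨θ'.symm h.1, h.2.symm⟩,
        fun h h' => ⟨θ'.trans h.1 h'.1, h.2.trans h'.2⟩⟩
      mul' := fun h h' => ⟨θ'.mul h.1 h'.1, by
        have := hf _ _ _ _ h.1 h'.1
        rw [h.2, h'.2] at this
        simpa [mul_inv_eq_one] using this⟩ }
  refine ⟨θ, h.step ?_ ?_, fun _ _ h => h⟩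
  · refine tc2_of (fun a b c d => θ' a b ∧ θ' c d ∧ f a * (f b)⁻¹ = f c * (f d)⁻¹)
      (fun a b _ => ⟨θ'.refl a, θ'.refl b, by simp⟩) (fun c d h => ⟨h, h, rfl⟩) ?_ ?_
    · rintro a b c d a' b' c' d' ⟨g1, g2, g3⟩ ⟨g1', g2', g3'⟩
      exact ⟨θ'.mul g1 g1', θ'.mul g2 g2', by rw [hf _ _ _ _ g1 g1', hf _ _ _ _ g2 g2', g3, g3']⟩
    · rintro a b c d ⟨-, g2, g3⟩ ⟨-, h'⟩
      refine ⟨g2, ?_⟩
      rw [h', mul_inv_cancel] at g3
      exact mul_inv_eq_one.1 g3.symm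
  · refine tc2_of (fun a b c d => θ' a c ∧ θ' b d ∧ f c * (f a)⁻¹ = f d * (f b)⁻¹)
      (fun a b h => ⟨h, h, rfl⟩) (fun c d _ => ⟨θ'.refl c, θ'.refl d, by simp⟩) ?_ ?_
    · rintro a b c d a' b' c' d' ⟨g1, g2, g3⟩ ⟨g1', g2', g3'⟩
      exact ⟨θ'.mul g1 g1', θ'.mul g2 g2', by
        rw [hf _ _ _ _ (θ'.symm g1) (θ'.symm g1'), hf _ _ _ _ (θ'.symm g2) (θ'.symm g2'), g3, g3']⟩
    · rintro a b c d ⟨g1, g2, g3⟩ ⟨h1, h'⟩
      refine ⟨θ'.trans (θ'.symm g1) (θ'.trans h1 g2), ?_⟩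
      rw [h'] at g3
      exact mul_right_cancel g3

lemma Good.stepZ {θ θ' : Con S} (h : Good θ')
    (h3 : ∀ a b y, θ' a b → θ (a * y) (b * y) ∧ θ (y * a) (y * b)) : Good θ := by
  have hm : ∀ a b a' b', θ' a b ∨ θ a b → θ' a' b' ∨ θ a' b' → θ (a * a') (b * b') := by
    intro a b a' b' g g'
    refine θ.trans (y := b * a') ?_ ?_
    · exact g.elim (fun g => (h3 _ _ _ g).1) (cr' θ _)
    · exact g'.elim (fun g => (h3 _ _ _ g).2) (cl' θ _)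
  refine h.step ?_ ?_
  · refine tc2_of (fun a b c d => (θ' c d ∨ θ c d) ∧ ((a = c ∧ b = d) ∨ θ c d))
      (fun a b _ => ⟨Or.inr (θ.refl b), Or.inr (θ.refl b)⟩)
      (fun c d h => ⟨Or.inl h, Or.inl ⟨rfl, rfl⟩⟩) ?_ ?_
    · rintro a b c d a' b' c' d' ⟨g, -⟩ ⟨g', -⟩
      exact ⟨Or.inr (hm _ _ _ _ g g'), Or.inr (hm _ _ _ _ g g')⟩
    · rintro a b c d ⟨-, ⟨rfl, rfl⟩ | g⟩ h'
      exacts [h', g]
  · refine tc2_of (fun a b c d => (θ' a c ∨ θ a c) ∧ (θ' b d ∨ θ b d) ∧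
      (c = d ∨ (θ a c ∧ θ b d)))
      (fun a b h => ⟨Or.inl h, Or.inl h, Or.inl rfl⟩)
      (fun c d _ => ⟨Or.inr (θ.refl _), Or.inr (θ.refl _), Or.inr ⟨θ.refl _, θ.refl _⟩⟩) ?_ ?_
    · rintro a b c d a' b' c' d' ⟨g1, g2, -⟩ ⟨g1', g2', -⟩
      exact ⟨Or.inr (hm _ _ _ _ g1 g1'), Or.inr (hm _ _ _ _ g2 g2'),
        Or.inr ⟨hm _ _ _ _ g1 g1', hm _ _ _ _ g2 g2'⟩⟩
    · rintro a b c d ⟨-, -, rfl | g⟩ h'
      exacts [θ.refl _, θ.trans (θ.symm g.1) (θ.trans h' g.2)]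

def Zc (S : Type u) [Semigroup S] : ℕ → Con S
  | 0 => ⊥
  | n + 1 => mkCon (fun a b => ∀ y, Zc S n (a * y) (b * y) ∧ Zc S n (y * a) (y * b))
      (fun _ _ => ⟨(Zc S n).refl _, (Zc S n).refl _⟩)
      (fun h y => ⟨(Zc S n).symm (h y).1, (Zc S n).symm (h y).2⟩)
      (fun h h' y => ⟨(Zc S n).trans (h y).1 (h' y).1, (Zc S n).trans (h y).2 (h' y).2⟩)
      (fun c h y => ⟨by rw [mul_assoc, mul_assoc]; exact cl' _ c (h y).1,
        by rw [← mul_assoc, ← mul_assoc]; exact (h _).2⟩)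
      (fun c h y => ⟨by rw [mul_assoc, mul_assoc]; exact (h _).1,
        by rw [← mul_assoc, ← mul_assoc]; exact cr' _ c (h y).2⟩)

lemma Zc_good : ∀ n, Good (Zc S n) → Good (⊥ : Con S)
  | 0, h => h
  | n + 1, h => Zc_good n (h.stepZ fun _ _ y h => h y)

lemma Zc_of : ∀ (n i j : ℕ) (a b : S), i + j = n → (∀ q, Long i q → a * q = b * q) →
    (∀ q, Long j q → q * a = q * b) → Zc S (n + 1) a b := by
  intro n
  induction n using Nat.strong_induction_on with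
  | _ n ih =>
    intro i j a b hn hi hj y
    constructor
    · cases i with
      | zero => rw [hi y trivial]; exact (Zc S n).refl _
      | succ i =>
        obtain rfl : n = i + j + 1 := by omega
        refine ih _ (by omega) i j _ _ rfl (fun q hq => ?_) fun q hq => ?_
        · rw [mul_assoc, mul_assoc, hi _ (hq.mul_left' y)]
        · rw [← mul_assoc, ← mul_assoc, hj q hq]
    · cases j with
      | zero => rw [hj y trivial]; exact (Zc S n).refl _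
      | succ j =>
        obtain rfl : n = i + j + 1 := by omega
        refine ih _ (by omega) i j _ _ rfl (fun q hq => ?_) fun q hq => ?_
        · rw [mul_assoc, mul_assoc, hi q hq]
        · rw [← mul_assoc, ← mul_assoc, hj _ (hq.mul_right' y)]

end Pool.Agent.H13.SN
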