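import Pool.Agent.H13.SN4

/-! Supernilpotent semigroups are left and right nilpotent: assembly. -/

namespace Pool.Agent.H13.SN

universe u

open scoped commutatorElement

variable {S : Type u} [Semigroup S]

def rhoL {m : ℕ} (h : SN (m + 1) S) : Con S :=
  mkCon (fun a b => a = b ∨ (Long m a ∧ Long m b ∧ ∃ p q, p * a = q * b)) (fun _ => Or.inl rfl)
    (fun h => h.imp Eq.symm fun ⟨h1, h2, p, q, h3⟩ => ⟨h2, h1, q, p, h3.symm⟩)
    (by
      rintro a b c (rfl | ⟨h1, h2, p, q, h3⟩) (rfl | ⟨h1', h2', p', q', h3'⟩)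
      · exact Or.inl rfl
      · exact Or.inr ⟨h1', h2', p', q', h3'⟩
      · exact Or.inr ⟨h1, h2, p, q, h3⟩
      · obtain ⟨s, t, hst⟩ := h.ore' h2 q p'
        exact Or.inr ⟨h1, h2', s * p, t * q', by rw [mul_assoc, h3, hst, h3', mul_assoc]⟩)
    (fun {a b} c g => g.imp (congrArg _) fun ⟨h1, h2, p, q, h3⟩ => by
      obtain ⟨s, t, hst⟩ := h.ore' h1 c p
      obtain ⟨s', t', hst'⟩ := h.ore' h2 (t * q) c
      refine ⟨h1.mul_left c, h2.mul_left c, s' * s, t', ?_⟩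
      rw [mul_assoc, hst, h3, ← mul_assoc t, hst'])
    (fun c h => h.imp (congrArg (· * c)) fun ⟨h1, h2, p, q, h3⟩ =>
      ⟨h1.mul_right c, h2.mul_right c, p, q, by rw [← mul_assoc, h3, mul_assoc]⟩)

def rhoR {m : ℕ} (h : SN (m + 1) S) : Con S :=
  mkCon (fun a b => a = b ∨ (Long m a ∧ Long m b ∧ ∃ p q, a * p = b * q)) (fun _ => Or.inl rfl)
    (fun h => h.imp Eq.symm fun ⟨h1, h2, p, q, h3⟩ => ⟨h2, h1, q, p, h3.symm⟩)
    (by
      rintro a b c (rfl | ⟨h1, h2, p, q, h3⟩) (rfl | ⟨h1', h2', p', q', h3'⟩)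
      · exact Or.inl rfl
      · exact Or.inr ⟨h1', h2', p', q', h3'⟩
      · exact Or.inr ⟨h1, h2, p, q, h3⟩
      · obtain ⟨s, t, hst⟩ := h.ore h2 q p'
        exact Or.inr ⟨h1, h2', p * s, q' * t, by rw [← mul_assoc, h3, hst, h3', mul_assoc]⟩)
    (fun c h => h.imp (congrArg _) fun ⟨h1, h2, p, q, h3⟩ =>
      ⟨h1.mul_left c, h2.mul_left c, p, q, by rw [mul_assoc, h3, mul_assoc]⟩)
    (fun {a b} c g => g.imp (congrArg (· * c)) fun ⟨h1, h2, p, q, h3⟩ => by
      obtain ⟨s, t, hst⟩ := h.ore h1 c p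
      obtain ⟨s', t', hst'⟩ := h.ore h2 (q * t) c
      refine ⟨h1.mul_right c, h2.mul_right c, s * s', t', ?_⟩
      rw [← mul_assoc, hst, h3, mul_assoc b, hst'])

lemma good_rhoL {m : ℕ} (h : SN (m + 1) S) : Good (rhoL h) :=
  Good.descL (m := m)
    (fun c x hx => Or.inr ⟨hx.mul_left c, hx, c, c * c, (mul_assoc _ _ _).symm⟩)
    fun a b q hq => Or.inr ⟨hq.mul_left a, hq.mul_left b, h.ore' hq a b⟩

lemma good_rhoR {m : ℕ} (h : SN (m + 1) S) : Good (rhoR h) :=
  Good.descR (m := m)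
    (fun c x hx => Or.inr ⟨hx.mul_right c, hx, c, c * c, mul_assoc _ _ _⟩)
    fun a b q hq => Or.inr ⟨hq.mul_right a, hq.mul_right b, h.ore hq a b⟩

theorem SN.good {m : ℕ} (h : SN (m + 1) S) (a₀ : S) : Good (⊥ : Con S) := by
  obtain ⟨e, he⟩ := exists_long a₀ m
  obtain ⟨G, _, ι, hmul, hinj, hfr⟩ := exists_group h he
  have hnil := group_nil h ι hmul hinj hfr
  have G1' : ∀ x p v, Long m x → (ι x)⁻¹ * ι (x * v) = (ι (p * x))⁻¹ * ι (p * x * v) := by
    intro x p v hx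
    obtain ⟨s, t, hst⟩ := h.ore' he (e * e * x) (e * e * (p * x))
    have h0 : s * e * e * x = t * e * e * p * x :=
      h.cr hx (b := e) (by simpa only [mul_assoc] using hst)
    have h1 : ι s * ι x = ι t * ι (p * x) := by
      rw [hmul, hmul, h0]; simp only [mul_assoc]
    have h2 : ι s * ι (x * v) = ι t * ι (p * x * v) := by
      rw [hmul, hmul, ← mul_assoc, h0]; simp only [mul_assoc]
    rw [eq_inv_mul_iff_mul_eq.2 h1, eq_inv_mul_iff_mul_eq.2 h2]
    group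
  have G2' : ∀ x p v, Long m x → ι (v * x) * (ι x)⁻¹ = ι (v * (x * p)) * (ι (x * p))⁻¹ := by
    intro x p v hx
    obtain ⟨s, t, hst⟩ := h.ore he (x * e * e) (x * p * e * e)
    have h0 : x * (e * (e * s)) = x * (p * (e * (e * t))) :=
      h.cl hx (b := e) (by simpa only [mul_assoc] using hst)
    have h1 : ι x * ι s = ι (x * p) * ι t := by
      rw [hmul, hmul]; simp only [mul_assoc, h0]
    have h2 : ι (v * x) * ι s = ι (v * (x * p)) * ι t := by
      rw [hmul, hmul]; simp only [mul_assoc, h0]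
    rw [eq_mul_inv_iff_mul_eq.2 h1, eq_mul_inv_iff_mul_eq.2 h2]
    group
  have G1 : ∀ x y v, rhoL h x y → ι (x * v) * (ι (y * v))⁻¹ = ι x * (ι y)⁻¹ := by
    rintro x y v (rfl | ⟨hx, hy, p, q, hpq⟩)
    · simp
    · have := G1' x p v hx
      rw [hpq, ← G1' y q v hy] at this
      rw [eq_comm.1 (mul_inv_cancel_left (ι x) (ι (x * v))), this]
      group
  have G2 : ∀ x y v, rhoR h x y → ∃ l, ι (v * x) = l * ι x ∧ ι (v * y) = l * ι y := by
    rintro x y v (rfl | ⟨hx, hy, p, q, hpq⟩)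
    · exact ⟨ι (v * x) * (ι x)⁻¹, by simp, by simp⟩
    · have := G2' x p v hx
      rw [hpq, ← G2' y q v hy] at this
      exact ⟨ι (v * x) * (ι x)⁻¹, by simp, by rw [this]; simp⟩
  have key : ∀ k, ∃ θ : Con S, Good θ ∧ ∀ a b, θ a b → rhoL h a b ∧ rhoR h a b ∧
      ι a * (ι b)⁻¹ ∈ (⊤ : Subgroup G).lowerCentralSeries k := by
    intro k
    induction k with
    | zero => exact ⟨_, (good_rhoL h).inf (good_rhoR h), fun a b g => ⟨g.1, g.2, trivial⟩⟩
    | succ k ih =>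
      obtain ⟨θ', g1, g2⟩ := ih
      obtain ⟨θ, g3, g4⟩ := g1.stepG
        (fun a => (QuotientGroup.mk' ((⊤ : Subgroup G).lowerCentralSeries (k + 1)) (ι a))) (by
        intro a b a' b' hab hab'
        simp only [← map_inv, ← map_mul]
        obtain ⟨l, hl1, hl2⟩ := G2 a' b' b (g2 _ _ hab').2.1
        have e1 : ι (a * a') * (ι (b * b'))⁻¹ =
            ι a * (ι b)⁻¹ * (ι a' * (ι b')⁻¹) * ⁅(ι a' * (ι b')⁻¹)⁻¹, l⁆ := by
          rw [← G1 a b a' (g2 _ _ hab).1, hl1, hl2, commutatorElement_def]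
          group
        rw [e1, map_mul _ _ ⁅_, _⁆]
        have : QuotientGroup.mk' ((⊤ : Subgroup G).lowerCentralSeries (k + 1))
            ⁅(ι a' * (ι b')⁻¹)⁻¹, l⁆ = 1 := by
          rw [QuotientGroup.mk'_apply, QuotientGroup.eq_one_iff, Subgroup.lowerCentralSeries_succ]
          exact Subgroup.commutator_mem_commutator (inv_mem (g2 _ _ hab').2.2) trivial
        rw [this, mul_one])
      refine ⟨θ, g3, fun a b hab => ⟨(g2 _ _ (g4 _ _ hab).1).1, (g2 _ _ (g4 _ _ hab).1).2.1, ?_⟩⟩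
      rw [← QuotientGroup.eq_one_iff, ← QuotientGroup.mk'_apply, map_mul, map_inv, (g4 _ _ hab).2,
        mul_inv_cancel]
  obtain ⟨θ, g1, g2⟩ := key (m + 1)
  refine Zc_good (m + m + 1) (g1.mono fun a b hab => ?_)
  obtain ⟨hL, hR, hι⟩ := g2 a b hab
  rw [hnil, Subgroup.mem_bot, mul_inv_eq_one] at hι
  by_cases hab' : a = b
  · rw [hab']; exact (Zc S _).refl b
  obtain ⟨ha, hb, p, q, hpq⟩ := hL.resolve_left hab'
  obtain ⟨-, -, x, y, hxy⟩ := hR.resolve_left hab'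
  refine Zc_of _ m m a b rfl (fun w hw => ?_) fun w hw => ?_
  · have h1 := G1 a b w hL
    rw [hι, mul_inv_cancel, mul_inv_eq_one, hinj] at h1
    have h2 : e * a * w = e * b * w := h.cr hw (b := e) (by simpa only [mul_assoc] using h1)
    obtain ⟨s, t, hst⟩ := h.ore ha w x
    have h3 : b * (w * s) = b * (y * t) := h.cl hb (b := e) (by
      rw [← mul_assoc b y, ← hxy, ← hst]
      simp only [← mul_assoc, h2])
    exact h.cr hw (b := s) (by rw [hst, hxy, mul_assoc, ← h3, mul_assoc])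
  · obtain ⟨l, h1, h1'⟩ := G2 a b w hR
    rw [hι, ← h1', hinj] at h1
    have h2 : w * (a * e) = w * (b * e) := h.cl hw (b := e) (by simpa only [mul_assoc] using h1)
    obtain ⟨s, t, hst⟩ := h.ore' ha w p
    have h3 : s * w * b = t * q * b := h.cr hb (b := e) (by
      rw [mul_assoc t, ← hpq, ← hst]
      simp only [mul_assoc, h2])
    exact h.cl hw (b := s) (by rw [hst, hpq, ← mul_assoc, ← h3, mul_assoc])

theorem nil_of_supernil (h : Supernilpotent S) : LeftNilpotent S ∧ RightNilpotent S := by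
  obtain ⟨d, hd⟩ := h
  have h := sn_of hd
  apply Good.nil
  by_cases hS : Nonempty S
  · obtain ⟨a⟩ := hS
    cases d with
    | zero =>
      refine good_top.mono fun x y _ => ?_
      exact h _ (col_mem x y) fun ε hε => absurd (Subsingleton.elim _ _) hε
    | succ m => exact h.good a
  · exact good_top.mono fun x y _ => absurd ⟨x⟩ hS

end Pool.Agent.H13.SN
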