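import Pool.Agent.H13.Kron

/-! The real line is not strongly separable. -/

open Cardinal TopologicalSpace

namespace Pool.Agent.H13.SSep

def Om : Type := (aleph 1).ord.ToType

noncomputable instance : LinearOrder Om := inferInstanceAs (LinearOrder (aleph 1).ord.ToType)

lemma mk_Om : #Om = aleph 1 := by simp [Om]

lemma Iic_countable (a : Om) : (Set.Iic a).Countable := by
  have h : #(Set.Iio a) < aleph 1 := mk_Iio_toType_ord_lt (c := aleph 1) a
  have h2 : (Set.Iio a).Countable := (countable_iff_lt_aleph_one _).2 h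
  rw [← Set.Iio_insert]
  exact h2.insert a

lemma exists_gt {S : Set Om} (hS : S.Countable) : ∃ b, ∀ a ∈ S, a < b := by
  have h1 : (⋃ a ∈ S, Set.Iic a).Countable := hS.biUnion fun a _ => Iic_countable a
  by_contra hc
  push Not at hc
  have : (⋃ a ∈ S, Set.Iic a) = Set.univ := by
    ext b
    simp only [Set.mem_iUnion, Set.mem_Iic, Set.mem_univ, iff_true]
    obtain ⟨a, ha, hb⟩ := hc b
    exact ⟨a, ha, hb⟩
  rw [this, countable_iff_lt_aleph_one, mk_univ, mk_Om] at h1
  exact lt_irrefl _ h1

abbrev Gen := Option Om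
abbrev Idx := Option (Option Om)

theorem exists_family : ∃ (e : Gen × Idx → ℝ) (l : Gen × Idx → ℝ →+ ℝ),
    (∀ p, l p (e p) = 1) ∧ (∀ p q, q ≠ p → l p (e q) = 0) ∧ (∀ p, l p 1 = 0) ∧
    ∀ p x, l p (√2 * x) = √2 * l p x := by
  let F : IntermediateField ℚ ℝ := IntermediateField.adjoin ℚ {√2}
  have hF : #F ≤ ℵ₀ := by
    refine (IntermediateField.cardinalMk_adjoin_le ℚ _).trans ?_
    simp
  have hr : Module.rank F ℝ = 𝔠 := by
    refine (Module.Free.rank_eq_mk_of_infinite_lt F ℝ ?_).trans mk_real
    simp only [lift_id, mk_real]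
    exact hF.trans_lt aleph0_lt_continuum
  let b := Module.Free.chooseBasis F ℝ
  have hb : #(Module.Free.ChooseBasisIndex F ℝ) = 𝔠 := by
    rw [← hr, Module.Free.rank_eq_card_chooseBasisIndex]
  have hle : #(Option (Gen × Idx)) ≤ #(Module.Free.ChooseBasisIndex F ℝ) := by
    rw [hb]
    have h1 : ℵ₀ ≤ (aleph 1 : Cardinal.{0}) := aleph0_le_aleph 1
    simp only [mk_option, mk_prod, lift_id, mk_Om, add_one_eq h1, mul_eq_self h1]
    exact aleph_one_le_continuum
  obtain ⟨j⟩ := hle
  have h0 : b (j none) ≠ 0 := b.ne_zero _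
  let s2 : F := ⟨√2, IntermediateField.subset_adjoin ℚ _ rfl⟩
  refine ⟨fun p => b (j (some p)) / b (j none), fun p =>
    { toFun := fun x => ((b.repr (x * b (j none)) (j (some p)) : F) : ℝ)
      map_zero' := by simp
      map_add' := fun x y => by simp [add_mul] }, fun p => ?_, fun p q hq => ?_, fun p => ?_,
    fun p x => ?_⟩
  · simp [div_mul_cancel₀ _ h0]
  · have : j (some q) ≠ j (some p) := fun h => hq (Option.some_injective _ (j.injective h))
    simp [div_mul_cancel₀ _ h0, Finsupp.single_apply, this]
  · have : j none ≠ j (some p) := fun h => by simpa using j.injective h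
    simp [Finsupp.single_apply, this]
  · have : √2 * x * b (j none) = s2 • (x * b (j none)) := by
      rw [mul_assoc]; rfl
    simp only [AddMonoidHom.coe_mk, ZeroHom.coe_mk, this, map_smul, Finsupp.smul_apply,
      smul_eq_mul]
    rfl

noncomputable def e : Gen × Idx → ℝ := exists_family.choose
noncomputable def l : Gen × Idx → ℝ →+ ℝ := exists_family.choose_spec.choose
lemma l_self (p) : l p (e p) = 1 := exists_family.choose_spec.choose_spec.1 p
lemma l_ne {p q} (h : q ≠ p) : l p (e q) = 0 := exists_family.choose_spec.choose_spec.2.1 p q h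
lemma l_one (p) : l p 1 = 0 := exists_family.choose_spec.choose_spec.2.2.1 p
lemma l_sq (p x) : l p (√2 * x) = √2 * l p x := exists_family.choose_spec.choose_spec.2.2.2 p x
lemma l_int (p) (k : ℤ) (x : ℝ) : l p (k * x) = k * l p x := by
  rw [← zsmul_eq_mul, map_zsmul, zsmul_eq_mul]
lemma l_int' (p) (k : ℤ) : l p k = 0 := by
  have := l_int p k 1
  rwa [mul_one, l_one, mul_zero] at this

open Classical in
noncomputable def val : Gen → Idx → ℝ
  | none, i => e (none, i)
  | some a, none => √2 * e (some a, some none)
  | some a, some none => e (some a, some none)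
  | some a, some (some b) => if b < a then e (some a, some (some b)) else 0

lemma l_val_ne {g g' : Gen} (h : g' ≠ g) (i i' : Idx) : l (g, i) (val g' i') = 0 := by
  have hh : ∀ j, l (g, i) (e (g', j)) = 0 := fun j => l_ne fun h' => h (congrArg Prod.fst h')
  rcases g' with _ | a
  · exact hh _
  · rcases i' with _ | _ | b
    · simp [val, l_sq, hh]
    · exact hh _
    · simp only [val]; split_ifs <;> simp [hh]

noncomputable def Phi (a : Gen →₀ ℤ) (i : Idx) : ℝ := a.sum fun g n => (n : ℝ) * val g i

lemma Phi_add (a b : Gen →₀ ℤ) (i : Idx) : Phi (a + b) i = Phi a i + Phi b i :=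
  Finsupp.sum_add_index' (by simp) (by intros; push_cast; ring)

lemma Phi_single (g : Gen) (i : Idx) : Phi (Finsupp.single g 1) i = val g i := by
  simp [Phi]

lemma l_Phi (a : Gen →₀ ℤ) (g : Gen) (i i' : Idx) :
    l (g, i) (Phi a i') = a g * l (g, i) (val g i') := by
  simp only [Phi, Finsupp.sum, map_sum, l_int]
  rw [Finset.sum_eq_single g]
  · intro g' _ h; rw [l_val_ne h, mul_zero]
  · intro h; simp [Finsupp.notMem_support_iff.1 h]

noncomputable def phi : (Gen →₀ ℤ) →+ (Idx → UnitAddCircle) where
  toFun a i := (Phi a i : UnitAddCircle)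
  map_zero' := by ext i; simp [Phi]
  map_add' a b := by ext i; simp [Phi_add]

lemma indep_none (F : Finset Idx) (n : F → ℤ) (hn : n ≠ 0) (k : ℤ) :
    ∑ i : F, (n i : ℝ) * Phi (Finsupp.single none 1) i ≠ k := by
  intro h
  apply hn
  funext i
  have := congrArg (l (none, i)) h
  rw [map_sum, l_int', Finset.sum_eq_single i] at this
  · simpa [l_int, Phi_single, val, l_self] using this
  · intro j _ hj
    rw [l_int, Phi_single, val, l_ne (fun h => hj (Subtype.ext (congrArg Prod.snd h))), mul_zero]
  · simp

lemma indep_some (F : Finset Idx) (a : Gen →₀ ℤ) (α : Om) (ha : a (some α) ≠ 0)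
    (hF : ∀ β, some (some β) ∈ F → β < α) (n : F → ℤ) (hn : n ≠ 0) (k : ℤ) :
    ∑ i : F, (n i : ℝ) * Phi a i ≠ k := by
  classical
  intro h
  have ha' : (a (some α) : ℝ) ≠ 0 := by exact_mod_cast ha
  let m : Idx → ℤ := fun i => if hi : i ∈ F then n ⟨i, hi⟩ else 0
  have key : ∀ j, ∑ i ∈ F, (m i : ℝ) * l (some α, j) (val (some α) i) = 0 := by
    intro j
    have := congrArg (l (some α, j)) h
    rw [map_sum, l_int'] at this
    simp only [l_int, l_Phi] at this
    apply mul_left_cancel₀ ha'
    rw [mul_zero, ← this, Finset.mul_sum, ← Finset.sum_coe_sort F]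
    refine Finset.sum_congr rfl fun i _ => ?_
    simp only [m, dif_pos i.2]
    ring
  have hm0 : ∀ i, i ∉ F → m i = 0 := fun i hi => by simp only [m, dif_neg hi]
  have h1 : ∀ β, m (some (some β)) = 0 := by
    intro β
    by_cases hβ : some (some β) ∈ F
    · have := key (some (some β))
      rw [Finset.sum_eq_single (some (some β))] at this
      · simpa [val, hF β hβ, l_self] using this
      · intro i _ hi
        rcases i with _ | _ | b
        · simp [val, l_sq, l_ne]
        · simp [val, l_ne]
        · have : b ≠ β := fun h => hi (by rw [h])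
          simp only [val]
          split_ifs
          · rw [l_ne (by simpa using this), mul_zero]
          · simp
      · exact fun h => absurd hβ h
    · exact hm0 _ hβ
  have h2 : (m none : ℝ) * √2 + m (some none) = 0 := by
    have := key (some none)
    rw [Finset.sum_subset (s₂ := insert none (insert (some none) F))
      (fun x hx => by simp [hx]) (fun x _ hx => by simp [hm0 x hx]),
      Finset.sum_eq_add_of_mem none (some none) (by simp) (by simp) (by simp)] at this
    · simpa [val, l_sq, l_self] using this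
    · intro c _ hc
      rcases c with _ | _ | b
      · exact absurd rfl hc.1
      · exact absurd rfl hc.2
      · simp [h1]
  have h3 : m none = 0 := by
    by_contra hc
    have := (irrational_sqrt_two.intCast_mul hc).ne_int (-m (some none))
    apply this
    push_cast
    linarith
  have h4 : m (some none) = 0 := by
    rw [h3] at h2
    simpa using h2
  apply hn
  funext i
  have : m i = n i := by simp only [m, dif_pos i.2]
  rw [← this]
  rcases i with ⟨_ | _ | b, hi⟩
  · exact h3
  · exact h4
  · exact h1 b

noncomputable def H : AddSubgroup (Idx → UnitAddCircle) := phi.range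

lemma sepH : SeparableSpace H := by
  let B := AddSubgroup.zmultiples (phi (Finsupp.single none 1))
  have hB : Dense (B : Set (Idx → UnitAddCircle)) := Kron.dense_of B fun F =>
    ⟨Phi (Finsupp.single none 1), AddSubgroup.mem_zmultiples _, indep_none F⟩
  have hBH : B ≤ H := AddSubgroup.zmultiples_le_of_mem ⟨_, rfl⟩
  have hc : (B : Set (Idx → UnitAddCircle)).Countable := by
    rw [AddSubgroup.coe_zmultiples]
    exact Set.countable_range _
  refine ⟨⟨Subtype.val ⁻¹' B, hc.preimage Subtype.val_injective, ?_⟩⟩
  refine Subtype.dense_iff.2 fun x _ => closure_mono ?_ (hB x)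
  exact fun y hy => ⟨⟨y, hBH hy⟩, hy, rfl⟩

lemma CS (K : AddSubgroup H) (hK : IsClosed (K : Set H)) : SeparableSpace K := by
  classical
  by_cases hc : (K : Set H).Countable
  · have : Countable K := hc
    infer_instance
  have hd : Dense ((K.map H.subtype : AddSubgroup _) : Set (Idx → UnitAddCircle)) := by
    refine Kron.dense_of _ fun F => ?_
    obtain ⟨β0, hβ0⟩ := exists_gt (S := {β | some (some β) ∈ F})
      ((F.finite_toSet.preimage (f := fun β : Om => some (some β))
        (fun a _ b _ h => by simpa using h)).countable)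
    let T : Set Gen := insert none (some '' Set.Iic β0)
    have hT : T.Countable := ((Iic_countable β0).image _).insert _
    have hA : {a : Gen →₀ ℤ | (a.support : Set Gen) ⊆ T}.Countable := by
      have : Countable T := hT
      have h1 : (Set.range fun a : T →₀ ℤ => Finsupp.embDomain (Function.Embedding.subtype _) a).Countable :=
        Set.countable_range _
      refine h1.mono fun a ha => ?_
      refine ⟨Finsupp.subtypeDomain (· ∈ T) a, ?_⟩
      ext g
      by_cases hg : g ∈ T
      · exact Finsupp.embDomain_apply_self (Function.Embedding.subtype _) _ ⟨g, hg⟩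
      · rw [Finsupp.embDomain_of_notMem_range _ _ _ (by simpa using hg)]
        exact (Finsupp.notMem_support_iff.1 fun h => hg (ha h)).symm
    have : ∃ a : Gen →₀ ℤ, phi a ∈ K.map H.subtype ∧ ¬ (a.support : Set Gen) ⊆ T := by
      by_contra hcon
      push Not at hcon
      apply hc
      refine ((hA.image phi).preimage (f := Subtype.val) Subtype.val_injective).mono ?_
      rintro ⟨_, a, rfl⟩ hk
      exact ⟨a, hcon a ⟨_, hk, rfl⟩, rfl⟩
    obtain ⟨a, haK, ha⟩ := this
    obtain ⟨g, hg, hgT⟩ := Set.not_subset.1 ha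
    rcases g with _ | α
    · exact absurd (Set.mem_insert _ _) hgT
    have hα : β0 < α := by
      by_contra hle
      exact hgT (Set.mem_insert_of_mem _ ⟨α, not_lt.1 hle, rfl⟩)
    exact ⟨Phi a, haK, indep_some F a α (Finsupp.mem_support_iff.1 hg)
      fun β hβ => (hβ0 β hβ).trans hα⟩
  have htop : (K : Set H) = Set.univ := by
    rw [← hK.closure_eq]
    apply Dense.closure_eq
    exact Subtype.dense_iff.2 fun x _ => hd x
  have := sepH
  have ho : IsOpen (K : Set H) := htop ▸ isOpen_univ
  exact (ho.isOpenEmbedding_subtypeVal).separableSpace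

noncomputable def C : AddSubgroup (ℝ × H) where
  carrier := {p | p.2.1 (some none) = (p.1 : UnitAddCircle) ∧ p.2.1 none = ((√2 * p.1 : ℝ) : UnitAddCircle)}
  add_mem' := by
    rintro p q ⟨h1, h2⟩ ⟨h3, h4⟩
    refine ⟨?_, ?_⟩
    · simp [h1, h3]
    · simp [h2, h4, mul_add]
  zero_mem' := by simp
  neg_mem' := by
    rintro p ⟨h1, h2⟩
    refine ⟨?_, ?_⟩
    · simp [h1]
    · simp [h2]

lemma cont_ev (i : Idx) : Continuous fun p : ℝ × H => p.2.1 i :=
  (continuous_apply i).comp (continuous_subtype_val.comp continuous_snd)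

lemma C_closed : IsClosed (C : Set (ℝ × H)) := by
  have hq : Continuous fun x : ℝ => (x : UnitAddCircle) := AddCircle.continuous_mk' 1
  refine IsClosed.inter (isClosed_eq (cont_ev _) (hq.comp continuous_fst))
    (isClosed_eq (cont_ev _) (hq.comp (by fun_prop)))

lemma coe_eq {x y : ℝ} (h : (x : UnitAddCircle) = y) : ∃ k : ℤ, x = y + k := by
  have : ((x - y : ℝ) : UnitAddCircle) = 0 := by simp [h]
  obtain ⟨k, hk⟩ := (AddCircle.coe_eq_zero_iff 1).1 this
  exact ⟨k, by simp at hk; linarith⟩

lemma C_none {r : ℝ} {a : Gen →₀ ℤ} (h : (r, (⟨phi a, a, rfl⟩ : H)) ∈ C) : a none = 0 := by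
  obtain ⟨k1, h1⟩ := coe_eq (x := Phi a (some none)) h.1
  obtain ⟨k2, h2⟩ := coe_eq (x := Phi a none) h.2
  simp only at h1 h2
  have h3 : Phi a none + √2 * k1 = √2 * Phi a (some none) + k2 := by rw [h1, h2]; ring
  have := congrArg (l (none, none)) h3
  simp only [map_add, l_sq, l_int', l_Phi, val, l_self] at this
  rw [l_ne (by simp)] at this
  simpa using this

lemma C_not_sep : ¬ SeparableSpace C := by
  rintro ⟨Q, hQc, hQd⟩
  have : ∀ q : C, ∃ a : Gen →₀ ℤ, phi a = q.1.2.1 ∧ a none = 0 := by
    rintro ⟨⟨r, _, a, rfl⟩, h⟩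
    exact ⟨a, rfl, C_none h⟩
  choose A hA hA0 using this
  obtain ⟨β, hβ⟩ := exists_gt (S := ⋃ q ∈ Q, {α | some α ∈ (A q).support})
    (hQc.biUnion fun q _ => ((A q).support.finite_toSet.preimage
      (Option.some_injective _).injOn).countable)
  have hcl : IsClosed {q : C | q.1.2.1 (some (some β)) = 0} :=
    isClosed_eq ((cont_ev _).comp continuous_subtype_val) continuous_const
  have hsub : Q ⊆ {q : C | q.1.2.1 (some (some β)) = 0} := by
    intro q hq
    simp only [Set.mem_ofPred_eq, ← hA]
    have : Phi (A q) (some (some β)) = 0 := by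
      refine Finset.sum_eq_zero fun g hg => ?_
      rcases g with _ | α
      · simp [hA0]
      · have := hβ α (Set.mem_biUnion hq hg)
        simp [val, this.not_gt]
    change ((Phi (A q) (some (some β)) : ℝ) : UnitAddCircle) = 0
    rw [this]; rfl
  obtain ⟨α, hα⟩ := exists_gt (Set.countable_singleton β)
  have hα' : β < α := hα β rfl
  let q : C := ⟨(e (some α, some none), ⟨phi (Finsupp.single (some α) 1), _, rfl⟩), by
    constructor
    · change ((Phi _ _ : ℝ) : UnitAddCircle) = _
      rw [Phi_single]; rfl
    · change ((Phi _ _ : ℝ) : UnitAddCircle) = _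
      rw [Phi_single]; rfl⟩
  have hq : q ∈ {q : C | q.1.2.1 (some (some β)) = 0} :=
    closure_minimal hsub hcl (hQd q)
  have h1 : ((Phi (Finsupp.single (some α) 1) (some (some β)) : ℝ) : UnitAddCircle) = (0 : ℝ) := hq
  obtain ⟨k, hk⟩ := coe_eq h1
  rw [Phi_single, val, if_pos hα', zero_add] at hk
  have := l_self (some α, some (some β))
  rw [hk, l_int'] at this
  exact zero_ne_one this

/-- Multiplicative form, for every group mapping continuously onto the reals. -/
theorem main (G : Type) [TopologicalSpace G] [Group G] (f : G →* Multiplicative ℝ)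
    (hf : Continuous f) (hs : Function.Surjective f) :
    ∃ (H : Type) (_ : TopologicalSpace H) (_ : CommGroup H) (_ : IsTopologicalGroup H)
      (_ : T2Space H), (∀ K : Subgroup H, IsClosed (K : Set H) → SeparableSpace K) ∧
      ∃ L : Subgroup (G × H), IsClosed (L : Set (G × H)) ∧ ¬ SeparableSpace L := by
  refine ⟨Multiplicative H, inferInstance, inferInstance, inferInstance,
    inferInstanceAs (T2Space H), fun K hK => CS K.toAddSubgroup' hK, ?_⟩
  let L : Subgroup (G × Multiplicative H) :=
    { carrier := {p | ((f p.1).toAdd, p.2.toAdd) ∈ C}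
      mul_mem' := fun {p q} hp hq => by
        have := C.add_mem hp hq
        simpa using this
      one_mem' := by
        change ((f 1).toAdd, (0 : H)) ∈ C
        rw [map_one]
        exact C.zero_mem
      inv_mem' := fun {p} hp => by
        have := C.neg_mem hp
        simpa using this }
  have hc : Continuous fun p : G × Multiplicative H => ((f p.1).toAdd, p.2.toAdd) :=
    (continuous_toAdd.comp (hf.comp continuous_fst)).prodMk (continuous_toAdd.comp continuous_snd)
  refine ⟨L, C_closed.preimage hc, fun hL => C_not_sep ?_⟩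
  let π : L → C := fun p => ⟨_, p.2⟩
  have hπ : Continuous π := (hc.comp continuous_subtype_val).subtype_mk _
  have hsur : Function.Surjective π := by
    rintro ⟨⟨r, h⟩, hp⟩
    obtain ⟨g, hg⟩ := hs (Multiplicative.ofAdd r)
    refine ⟨⟨(g, Multiplicative.ofAdd h), ?_⟩, ?_⟩
    · change ((f g).toAdd, h) ∈ C
      rw [hg]; exact hp
    · apply Subtype.ext
      change ((f g).toAdd, h) = (r, h)
      rw [hg]; rfl
  exact hsur.denseRange.separableSpace hπ

end Pool.Agent.H13.SSep
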