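import Mathlib
set_option autoImplicit false

namespace Pool.Agent.H13.Shift

/-- The real number whose binary digits are the `i`-th shift of `b` (digit `b n` is `b_{n+1}`). -/
noncomputable def a (b : ℕ → Fin 2) (i : ℕ) : ℝ := ∑' n : ℕ, ((b (n + i) : ℕ) : ℝ) / 2 ^ (n + 1)

/-- The set of all shifts. -/
def A (b : ℕ → Fin 2) : Set ℝ := Set.range (a b)

lemma bit_le (x : Fin 2) : ((x : ℕ) : ℝ) ≤ 1 := by
  have := x.2
  exact_mod_cast (by omega : (x : ℕ) ≤ 1)

lemma geo : HasSum (fun n : ℕ => (1 : ℝ) / 2 ^ (n + 1)) 1 := by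
  have := hasSum_geometric_two' 1
  convert this using 2
  rw [pow_succ]; field_simp

lemma summ (b : ℕ → Fin 2) (i : ℕ) :
    Summable (fun n : ℕ => ((b (n + i) : ℕ) : ℝ) / 2 ^ (n + 1)) :=
  Summable.of_nonneg_of_le (fun _ => by positivity)
    (fun _ => div_le_div_of_nonneg_right (bit_le _) (by positivity)) geo.summable

lemma a_nonneg (b : ℕ → Fin 2) (i : ℕ) : 0 ≤ a b i := tsum_nonneg (fun _ => by positivity)

lemma a_le (b : ℕ → Fin 2) (i : ℕ) : a b i ≤ 1 := by
  rw [← geo.tsum_eq]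
  exact (summ b i).tsum_le_tsum
    (fun _ => div_le_div_of_nonneg_right (bit_le _) (by positivity)) geo.summable

lemma a_rec (b : ℕ → Fin 2) (i : ℕ) : a b i = ((b i : ℕ) : ℝ) / 2 + a b (i + 1) / 2 := by
  unfold a
  rw [(summ b i).tsum_eq_zero_add, ← tsum_div_const]
  congr 1
  · simp
  · congr 1; funext n
    rw [show n + 1 + i = n + (i + 1) by ring, pow_succ _ (n + 1), div_div]

end Pool.Agent.H13.Shift
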