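import Mathlib

namespace Pool.Agent.H13.Two
open Matrix Polynomial Finset

variable {V : Type} [Fintype V] [DecidableEq V] (G : SimpleGraph V)

/-- `A ∈ S(G)`: real symmetric, off-diagonal entries nonzero exactly on edges. -/
def InS (A : Matrix V V ℝ) : Prop := A.IsSymm ∧ ∀ i j, i ≠ j → (A i j ≠ 0 ↔ G.Adj i j)

/-- `q(G)`: the least number of distinct eigenvalues of a matrix in `S(G)`. -/
noncomputable def q : ℕ := sInf {m | ∃ A, InS G A ∧ (spectrum ℝ A).ncard = m}

/-- `G` achieves `[n - k, k]`. -/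
def Ach (k : ℕ) : Prop := ∃ A, InS G A ∧ ∃ l m : ℝ, l ≠ m ∧
  A.charpoly = (X - C l) ^ (Fintype.card V - k) * (X - C m) ^ k

/-- Minimal multiplicity bipartition. -/
noncomputable def MB : ℕ := sInf {k | 1 ≤ k ∧ k ≤ Fintype.card V / 2 ∧ Ach G k}

/-- Minimum positive semidefinite rank. -/
noncomputable def mrp : ℕ := sInf {r | ∃ A, InS G A ∧ A.PosSemidef ∧ A.rank = r}

variable {G} {A : Matrix V V ℝ}

theorem herm (h : A.IsSymm) : A.IsHermitian := by
  rwa [IsHermitian, conjTranspose_eq_transpose_of_trivial]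

theorem ev (hA : A.IsHermitian) {l m : ℝ}
    (h : ∀ i, hA.eigenvalues i = l ∨ hA.eigenvalues i = m) : (A - l • 1) * (A - m • 1) = 0 := by
  have h1 : (A - l • 1) * (A - m • 1) * (hA.eigenvectorUnitary : Matrix V V ℝ) = 0 := by
    ext i j
    have : ((A - l • 1) * (A - m • 1)) *ᵥ ⇑(hA.eigenvectorBasis j) = 0 := by
      simp only [← mulVec_mulVec, sub_mulVec, smul_mulVec, one_mulVec, mulVec_sub, mulVec_smul,
        hA.mulVec_eigenvectorBasis]
      rcases h j with h | h <;> rw [h] <;> module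
    exact congrFun this i
  generalize (A - l • 1) * (A - m • 1) = N at h1
  rw [← mul_one N, ← Unitary.coe_mul_star_self hA.eigenvectorUnitary, ← mul_assoc, h1, zero_mul]

theorem sq_ev (hA : A.IsHermitian) {c : ℝ} (h : A * A = c • 1) (i : V) :
    hA.eigenvalues i ^ 2 = c := by
  have h1 := mulVec_mulVec ⇑(hA.eigenvectorBasis i) A A
  rw [h, smul_mulVec, one_mulVec, hA.mulVec_eigenvectorBasis, mulVec_smul,
    hA.mulVec_eigenvectorBasis, smul_smul] at h1
  exact (sq _).trans (smul_left_injective ℝ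
    (by simpa using hA.eigenvectorBasis.orthonormal.ne_zero i) h1)

theorem q_two (hA : InS G A) {c : ℝ} (h : A * A = c • 1) {a b : V} (e : G.Adj a b) : q G = 2 := by
  have lo : ∀ B, InS G B → 2 ≤ (spectrum ℝ B).ncard := fun B hB => by
    by_contra! H
    have h1 := herm hB.1
    have h2 := (Set.ncard_le_one B.finite_real_spectrum).1 (by omega)
    have h3 : ∀ i, h1.eigenvalues i = h1.eigenvalues a := fun i =>
      h2 _ (h1.eigenvalues_mem_spectrum_real i) _ (h1.eigenvalues_mem_spectrum_real a)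
    have h4 := congrFun₂ (ev h1 fun i => .inl (h3 i) : _ * (B - h1.eigenvalues a • 1) = 0) a a
    have h5 := (sum_eq_zero_iff_of_nonneg fun j _ => ?_).1 h4 b (mem_univ b)
    · simp [e.ne, e.ne.symm, hB.1.apply a b] at h5
      exact (hB.2 a b e.ne).2 e h5
    · exact (mul_self_nonneg _).trans_eq
        (congrArg _ ((hB.1.sub (isSymm_one.smul _)).apply a j).symm)
  have hm : (spectrum ℝ A).ncard ∈ {m | ∃ A, InS G A ∧ (spectrum ℝ A).ncard = m} := ⟨A, hA, rfl⟩
  refine le_antisymm ((Nat.sInf_le hm).trans ((Set.ncard_le_ncard (t := {√c, -√c}) ?_).trans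
    ((Set.ncard_insert_le ..).trans (by simp)))) (le_csInf ⟨_, hm⟩ ?_)
  · rw [(herm hA.1).spectrum_real_eq_range_eigenvalues]
    rintro _ ⟨i, rfl⟩
    rw [← sq_ev (herm hA.1) h i, Real.sqrt_sq_eq_abs]
    simpa using eq_or_eq_neg_of_abs_eq rfl
  · rintro _ ⟨B, hB, rfl⟩
    exact lo B hB

theorem tr {l m : ℝ} {a b : ℕ} (hA : A.IsHermitian)
    (h : A.charpoly = (X - C l) ^ a * (X - C m) ^ b) :
    A.charpoly.roots = a • {l} + b • {m} ∧ A.trace = a * l + b * m := by
  have : A.charpoly.roots = a • {l} + b • {m} := by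
    rw [h, roots_mul (h ▸ A.charpoly_monic.ne_zero)]
    simp [roots_pow]
  refine ⟨this, ?_⟩
  rw [trace_eq_sum_roots_charpoly_of_splits hA.splits_charpoly, this]
  simp [Multiset.sum_nsmul]

theorem of_ach {k : ℕ} (h : Ach G k) (hk : k ≤ Fintype.card V) : ∃ M c, InS G M ∧
    M * M = (c : ℝ) • 1 ∧ (M.trace = 0 ↔ 2 * k = Fintype.card V) := by
  obtain ⟨A, hA, l, m, hl, h⟩ := h
  obtain ⟨h1, h2⟩ := tr (herm hA.1) h
  have h3 := ev (herm hA.1) (l := l) (m := m) fun i => by
    have : (herm hA.1).eigenvalues i ∈ A.charpoly.roots := by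
      simp [(herm hA.1).roots_charpoly_eq_eigenvalues]
    rw [h1, Multiset.mem_add] at this
    exact this.imp (fun h => by simpa using Multiset.mem_of_mem_nsmul h)
      fun h => by simpa using Multiset.mem_of_mem_nsmul h
  refine ⟨A - ((l + m) / 2) • 1, ((l - m) / 2) ^ 2, ⟨hA.1.sub (isSymm_one.smul _),
    fun i j h => by simpa [h] using hA.2 i j h⟩, ?_, ?_⟩
  · simp only [sub_mul, mul_sub, smul_mul_assoc, mul_smul_comm, mul_one, one_mul] at h3 ⊢
    linear_combination (norm := module) h3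
  · rw [trace_sub, trace_smul, trace_one, h2, Nat.cast_sub hk, smul_eq_mul,
      show ((Fintype.card V : ℝ) - k) * l + k * m - (l + m) / 2 * Fintype.card V =
        (Fintype.card V - 2 * k) * ((l - m) / 2) by ring,
      mul_eq_zero_iff_right (by simpa [sub_eq_zero]), sub_eq_zero, eq_comm]
    norm_cast

theorem to_ach (hA : InS G A) {c : ℝ} (hc : c ≠ 0) (h : A * A = (c ^ 2) • 1) {k : ℕ}
    (ht : A.trace = (Fintype.card V - 2 * k) * c) : Ach G k := by
  have h1 := herm hA.1
  have h2 : A.charpoly = (X - C c) ^ (univ.filter fun i => h1.eigenvalues i = c).card *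
      (X - C (-c)) ^ (univ.filter fun i => ¬h1.eigenvalues i = c).card := by
    rw [h1.charpoly_eq, ← prod_filter_mul_prod_filter_not univ fun i => h1.eigenvalues i = c,
      ← prod_const, ← prod_const]
    refine congrArg₂ _ (prod_congr rfl fun i hi => ?_) (prod_congr rfl fun i hi => ?_)
    · simp [(mem_filter.1 hi).2]
    · simp [(sq_eq_sq_iff_eq_or_eq_neg.1 (sq_ev h1 h i)).resolve_left (mem_filter.1 hi).2]
  have h3 := card_filter_add_card_filter_not (s := univ) fun i => h1.eigenvalues i = c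
  have h4 := (tr h1 h2).2
  rw [card_univ] at h3
  generalize (univ.filter fun i => h1.eigenvalues i = c).card = a at *
  generalize (univ.filter fun i => ¬h1.eigenvalues i = c).card = b at *
  have h5 : (b : ℝ) = k := mul_right_cancel₀ hc (by rw [ht, ← h3] at h4; push_cast at h4; linarith)
  obtain rfl : b = k := by exact_mod_cast h5
  exact ⟨A, hA, c, -c, fun h => hc (by linarith), by rw [h2, ← h3, Nat.add_sub_cancel]⟩

theorem cast {B : Matrix V V ℤ} [DecidableRel G.Adj] {c : ℤ}
    (h : (∀ i j, B j i = B i j ∧ (i ≠ j → (B i j ≠ 0 ↔ G.Adj i j))) ∧ B * B = c • 1) :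
    InS G (B.map (↑)) ∧ B.map ((↑) : ℤ → ℝ) * B.map (↑) = (c : ℝ) • 1 := by
  refine ⟨⟨by ext i j; simp [(h.1 i j).1], fun i j e => by simpa using (h.1 i j).2 e⟩, ?_⟩
  ext i j
  have := congrArg ((↑) : ℤ → ℝ) (congrFun₂ h.2 i j)
  simpa [mul_apply, one_apply] using this

end Pool.Agent.H13.Two
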